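import Pool.Agent.Lib.MP_9cc147_pr.Cx.Rg.S

/-! The constants can be chosen in the right order. -/

open scoped Classical Topology
open Finset MeasureTheory ProbabilityTheory Filter

noncomputable section
namespace Pool.Agent.Lib.MP_9cc147_pr.Cx

theorem rgenv_u (h_u : S_u) : ∃ Cu, 1 ≤ Cu ∧ Uc Cu := by
  obtain ⟨Cu, hu⟩ := h_u
  refine ⟨max 1 Cu, le_max_left _ _, fun n l m hn hl hm => ?_⟩
  have h2 : 2 ≤ n := by rw [hn]; nlinarith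
  obtain ⟨h1, h3⟩ := (hu n h2).2.2.2.2.2.2 l m hn hl hm
  refine ⟨fun c hc => ?_, fun B hB v hv => (h3 B hB v hv).trans ?_⟩
  · obtain ⟨w, a, b, d⟩ := h1 c hc
    exact ⟨w, a, b, fun B hB hc' => ⟨(d B hB hc').1.trans (le_max_right _ _), (d B hB hc').2⟩⟩
  · exact mul_le_mul_of_nonneg_right (le_max_right _ _)
      (sum_nonneg fun x _ => by unfold n1; positivity)

theorem rgenv_cn (h_cnt : S_cnt) (Cu : ℝ) : ∀ᶠ q in FP, ∃ C0 ε0 : ℝ,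
    (1 ≤ C0 ∧ 0 < ε0 ∧ ε0 ≤ 1) ∧ q.CnR C0 ε0 ∧ (q.g Cu * q.A * C0 / ε0) ^ 8 ≤ q.C := by
  have hA : ∀ᶠ q in FP, (1 : ℝ) ≤ q.A := fp_A fun _ => 1
  refine fp_iff.2 ((fp_iff.1 (h_cnt.and hA)).mono fun L h o => (h o).mono fun A h =>
    h.mono fun κ h => h.mono fun h' h => ?_)
  obtain ⟨C', hC', h2⟩ := ((eventually_ge_atTop (1 : ℝ)).and h).exists
  obtain ⟨ε', hε', h3, hA⟩ := ((small_ev one_pos).and h2).exists
  filter_upwards [eventually_ge_atTop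
    ((Par.g ⟨L, A, κ, h', 0, 0⟩ Cu * A * max 1 √C' / min 1 (C' * ε')) ^ 8)] with C hC
  refine .of_forall fun ε => ⟨max 1 √C', min 1 (C' * ε'),
    ⟨le_max_left _ _, lt_min one_pos (mul_pos (by linarith) hε'.1), min_le_left _ _⟩, ?_, hC⟩
  intro m U a p b hm hU ha hp hb ha' hp' hb'
  have k := min_le_right 1 (C' * ε')
  obtain ⟨r1, r2, r3⟩ := h3 L 4 (A / 16) (Or.inl ⟨rfl, rfl, rfl⟩) m U a p b hm hU ha hp hb
    (ha'.trans k) (hp'.trans k) (hb'.trans k)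
  have hA' : (0 : ℝ) < A := lt_of_lt_of_le one_pos hA
  have k2 : √C' ≤ max 1 √C' := le_max_right _ _
  refine ⟨r1, fun s => (r2 s).trans ?_, fun σ => (r3 σ).trans ?_⟩
  · show _ ≤ max 1 √C' * (a + p) ^ 2 * (16 * A)⁻¹ ^ U.card
    dsimp only
    gcongr
  · show _ ≤ (if Nn (box m) U σ then b / 1000 else max 1 √C' * b) * (16 * A)⁻¹ ^ U.card
    dsimp only
    split_ifs
    · exact le_rfl
    · gcongr

theorem t_rg_env (h_u : S_u) (h_zmom : S_zmom) (h_cnt : S_cnt) : S_rg_env := by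
  obtain ⟨Cu, hCu, hU⟩ := rgenv_u h_u
  filter_upwards [rgenv_cn h_cnt Cu, h_zmom, fp_L (10 ^ 64), fp_A fun L => 2 ^ 60 * (L : ℝ) ^ 2,
    fp_κ (fun _ _ => 1) fun _ _ => one_pos, fp_h fun L _ _ => (L : ℝ) ^ 3 * Cu,
    fp_h fun _ _ κ => 1000 / κ, fp_C fun _ _ _ _ => 1,
    fp_ε (fun _ _ _ _ C => 1 / max C 1) fun _ _ _ _ C => by positivity] with q h1 h2 hL hA hκ hh
    hh' hC hε
  obtain ⟨C0, ε0, a, b, c⟩ := h1
  refine ⟨Cu, C0, ε0, hL.1, ?_, hA, hκ, hCu, ⟨hh, ?_⟩, a, c, ⟨hε.1, ?_⟩, hU,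
    fun b j hb => ⟨(h2 b j hb).1, (h2 b j hb).2.1⟩, b⟩
  · have : ((10 ^ 64 : ℕ) : ℝ) ≤ q.L := by exact_mod_cast hL.2
    rw [c0]; refine le_trans (le_of_eq ?_) this; norm_num
  · rw [div_le_iff₀ hκ.1] at hh'; linarith
  · have := hε.2
    rw [max_eq_left hC, le_div_iff₀ (by linarith)] at this; exact this

end Pool.Agent.Lib.MP_9cc147_pr.Cx
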