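import Pool.Agent.Lib.MP_9cc147_pr.Cx.Rg.S
import Pool.Agent.Lib.MP_9cc147_pr.Cx.F.Kit

/-! The small polymers at a deep block, on linear fields. -/

open scoped Classical Topology
open Finset MeasureTheory ProbabilityTheory Filter

noncomputable section
namespace Pool.Agent.Lib.MP_9cc147_pr.Cx

theorem rgfb_dg (y : ℂ × ℂ) (x : P) : dg (lin y) x 0 = y.2 ∧ dg (lin y) x 1 = -y.1 ∧
    dg (lin y) x 2 = -y.2 ∧ dg (lin y) x 3 = y.1 := by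
  have e3 : (3 : Fin 4) + 1 = 0 := rfl
  have e2 : (2 : Fin 4) + 1 = 3 := rfl
  have e1 : (1 : Fin 4) + 1 = 2 := rfl
  have e0 : (0 : Fin 4) + 1 = 1 := rfl
  have c0 : crn 0 = (1, 0) := rfl
  have c1 : crn 1 = (1, 1) := rfl
  have c2 : crn 2 = (0, 1) := rfl
  have c3 : crn 3 = (0, 0) := rfl
  refine ⟨?_, ?_, ?_, ?_⟩ <;>
    simp only [dg, lin, e0, e1, e2, e3, c0, c1, c2, c3, Prod.fst_add, Prod.snd_add] <;>
    push_cast <;> ring

theorem rgfb_n1 (y : ℂ × ℂ) (x : P) : n1 (lin y) x = ‖y.1‖ ^ 2 + ‖y.2‖ ^ 2 := by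
  obtain ⟨h0, h1, h2, h3⟩ := rgfb_dg y x
  rw [n1, Fin.sum_univ_four, h0, h1, h2, h3, norm_neg, norm_neg]; ring

theorem rgfb_n2 (y : ℂ × ℂ) (p : P) : n2 (lin y) p = 0 := by
  have h1 : lin y (p + (1, 0)) - 2 * lin y p + lin y (p - (1, 0)) = 0 := by
    simp only [lin, Prod.fst_add, Prod.snd_add, Prod.fst_sub, Prod.snd_sub]; push_cast; ring
  have h2 : lin y (p + (0, 1)) - 2 * lin y p + lin y (p - (0, 1)) = 0 := by
    simp only [lin, Prod.fst_add, Prod.snd_add, Prod.fst_sub, Prod.snd_sub]; push_cast; ring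
  have h3 : lin y (p + (1, 1)) - lin y (p + (1, 0)) - lin y (p + (0, 1)) + lin y p = 0 := by
    simp only [lin, Prod.fst_add, Prod.snd_add]; push_cast; ring
  rw [n2, h1, h2, h3]; simp

theorem rgfb_En (y : ℂ × ℂ) (l : ℕ) (B : P) :
    En (lin y) (cell l B) = (l : ℂ) ^ 2 * (y.1 ^ 2 + y.2 ^ 2) := by
  have h : ∀ x : P, (1 / 2 : ℂ) * ∑ d, dg (lin y) x d ^ 2 = y.1 ^ 2 + y.2 ^ 2 := fun x => by
    obtain ⟨h0, h1, h2, h3⟩ := rgfb_dg y x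
    rw [Fin.sum_univ_four, h0, h1, h2, h3]; ring
  simp only [En, h, sum_const, f_card_cell, nsmul_eq_mul]; push_cast; ring

theorem rgfb_ea (y : ℂ × ℂ) (l : ℕ) (B : P) :
    ea l (lin y) B = (l : ℝ) ^ 2 * (‖y.1‖ ^ 2 + ‖y.2‖ ^ 2) := by
  simp only [ea, rgfb_n1, sum_const, f_card_cell, nsmul_eq_mul]; push_cast; ring

theorem rgfb_fat {l w : ℕ} {B p : P} : p ∈ fat l w B ↔
    (B.1 * l - w ≤ p.1 ∧ p.1 ≤ (B.1 + 1) * l + w) ∧ B.2 * l - w ≤ p.2 ∧ p.2 ≤ (B.2 + 1) * l + w := by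
  simp [fat]

theorem rgfb_nbh {k : ℕ} {B a : P} : a ∈ nbh k B ↔
    (B.1 - k ≤ a.1 ∧ a.1 ≤ B.1 + k) ∧ B.2 - k ≤ a.2 ∧ a.2 ≤ B.2 + k := by
  simp [nbh]

theorem rgfb_card (l : ℕ) (B : P) : (nb l B).card = (l + 2 * (l / 4) + 1) ^ 2 := by
  have h : ∀ a : ℤ, ((a + 1) * l + (l / 4 : ℕ) + 1 - (a * l - (l / 4 : ℕ))).toNat =
      l + 2 * (l / 4) + 1 := fun a => by
    rw [show (a + 1) * l + (l / 4 : ℕ) + 1 - (a * l - (l / 4 : ℕ)) =
      ((l + 2 * (l / 4) + 1 : ℕ) : ℤ) by push_cast; ring]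
    exact Int.toNat_natCast _
  rw [nb, fat, card_product, Int.card_Icc, Int.card_Icc, h, h, sq]

/-- near a deep block the fattened squares stay inside the box -/
theorem rgfb_inn {l m w : ℕ} {B a p : P} (hl : 1 ≤ l) (hw : w ≤ l) (hB : deep 5 m B)
    (ha : a ∈ nbh 3 B) (hp : p ∈ fat l w a) : p ∈ inn (l * m) ∧
      |p.1 - B.1 * l| ≤ 5 * l ∧ |p.2 - B.2 * l| ≤ 5 * l := by
  obtain ⟨⟨a1, a2⟩, a3, a4⟩ := rgfb_nbh.1 ha
  obtain ⟨⟨p1, p2⟩, p3, p4⟩ := rgfb_fat.1 hp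
  obtain ⟨b1, b2, b3, b4⟩ := hB
  have hl' : (1 : ℤ) ≤ l := by exact_mod_cast hl
  have hw' : (w : ℤ) ≤ l := by exact_mod_cast hw
  push_cast at a1 a2 a3 a4 b1 b2 b3 b4
  have k1 := mul_le_mul_of_nonneg_right a1 (by omega : (0 : ℤ) ≤ l)
  have k2 := mul_le_mul_of_nonneg_right a2 (by omega : (0 : ℤ) ≤ l)
  have k3 := mul_le_mul_of_nonneg_right a3 (by omega : (0 : ℤ) ≤ l)
  have k4 := mul_le_mul_of_nonneg_right a4 (by omega : (0 : ℤ) ≤ l)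
  have k5 := mul_le_mul_of_nonneg_right b1 (by omega : (0 : ℤ) ≤ l)
  have k6 := mul_le_mul_of_nonneg_right b2.le (by omega : (0 : ℤ) ≤ l)
  have k7 := mul_le_mul_of_nonneg_right b3 (by omega : (0 : ℤ) ≤ l)
  have k8 := mul_le_mul_of_nonneg_right b4.le (by omega : (0 : ℤ) ≤ l)
  refine ⟨?_, abs_le.2 ⟨by nlinarith, by nlinarith⟩, abs_le.2 ⟨by nlinarith, by nlinarith⟩⟩
  simp only [inn, mem_product, mem_Ioo]
  push_cast
  exact ⟨⟨by nlinarith, by nlinarith⟩, by nlinarith, by nlinarith⟩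

theorem rgfb_strip {l m : ℕ} {h h' : ℝ} {B : P} {X : Finset P} {y : ℂ × ℂ} (hl : 100 ≤ l)
    (hh : 4 * h ≤ h') (hB : deep 5 m B) (hX : X ⊆ nbh 3 B) (h1 : ‖y.1‖ < h / (3 * l))
    (h2 : ‖y.2‖ < h / (3 * l)) : Strip (l * m) l h h' X (lin y) := by
  have hl0 : (100 : ℝ) ≤ l := by exact_mod_cast hl
  have hin : ∀ p ∈ nbs l X, p ∈ inn (l * m) ∧
      |p.1 - B.1 * l| ≤ 5 * l ∧ |p.2 - B.2 * l| ≤ 5 * l := fun p hp => by
    obtain ⟨a, ha, hp⟩ := mem_biUnion.1 hp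
    exact rgfb_inn (by omega) (Nat.div_le_self _ _) hB (hX ha) hp
  rw [lt_div_iff₀ (by positivity)] at h1 h2
  have n1' := norm_nonneg y.1
  have n2' := norm_nonneg y.2
  refine ⟨fun a _ => ?_, fun p hp hr => absurd (hin p hp).1 (mem_sdiff.1 hr).2,
    lin y (B.1 * l, B.2 * l), fun ⟨p, hp⟩ => absurd (hin p (mem_inter.1 hp).1).1
      (mem_sdiff.1 (mem_inter.1 hp).2).2, fun p hp => ?_⟩
  · simp only [Nf, rgfb_n1, rgfb_n2, mul_zero, add_zero, sum_const, rgfb_card, nsmul_eq_mul]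
    have c1 : ((l / 4 : ℕ) : ℝ) ≤ l / 4 := Nat.cast_div_le
    have c2 : (0 : ℝ) ≤ ((l / 4 : ℕ) : ℝ) := by positivity
    push_cast
    have c3 : ((l : ℝ) + 2 * ((l / 4 : ℕ) : ℝ) + 1) ^ 2 ≤ (2 * l) ^ 2 :=
      pow_le_pow_left₀ (by positivity) (by linarith) 2
    have c4 : (‖y.1‖ * (3 * l)) ^ 2 ≤ h ^ 2 := pow_le_pow_left₀ (by positivity) h1.le 2
    have c5 : (‖y.2‖ * (3 * l)) ^ 2 ≤ h ^ 2 := pow_le_pow_left₀ (by positivity) h2.le 2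
    have c6 := mul_le_mul_of_nonneg_right c3 (by positivity : 0 ≤ ‖y.1‖ ^ 2 + ‖y.2‖ ^ 2)
    nlinarith [sq_nonneg h]
  · obtain ⟨-, e1, e2⟩ := hin p hp
    have e : lin y p - lin y (B.1 * l, B.2 * l) =
        y.1 * ((p.1 - B.1 * l : ℤ) : ℂ) + y.2 * ((p.2 - B.2 * l : ℤ) : ℂ) := by
      simp only [lin]; push_cast; ring
    have f1 : ‖((p.1 - B.1 * l : ℤ) : ℂ)‖ ≤ 5 * l := by
      rw [Complex.norm_intCast]; exact_mod_cast e1
    have f2 : ‖((p.2 - B.2 * l : ℤ) : ℂ)‖ ≤ 5 * l := by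
      rw [Complex.norm_intCast]; exact_mod_cast e2
    rw [e]
    refine (norm_add_le _ _).trans ?_
    rw [norm_mul, norm_mul]
    have g1 := mul_le_mul_of_nonneg_left f1 n1'
    have g2 := mul_le_mul_of_nonneg_left f2 n2'
    have g3 : 0 ≤ ‖y.1‖ * (3 * l) := by positivity
    nlinarith

theorem rgfb_bg (n : ℕ) : bg n 0 = 0 := by funext p; simp [bg]

theorem rgfb_div (x : ℂ) (k : ℕ) : ‖x / k‖ ≤ ‖x‖ := by
  rcases Nat.eq_zero_or_pos k with h | h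
  · simp [h]
  · rw [norm_div, Complex.norm_natCast]
    exact div_le_self (norm_nonneg _) (by exact_mod_cast h)

/-- elementary consequences of the order of the constants -/
theorem rgfb_env {q : Par} {Cu C0 ε0 : ℝ} (E : q.Env Cu C0 ε0) (j : ℕ) :
    1000 ≤ q.L ∧ 100 ≤ q.l j ∧ 2 ^ 60 ≤ q.A ∧ 0 < q.h := by
  have h1 : (1000 : ℝ) ≤ q.L := le_trans (by norm_num [c0]) E.hL
  have h2 : 1000 ≤ q.L := by exact_mod_cast h1
  refine ⟨h2, ?_, ?_, ?_⟩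
  · have : q.L ^ 1 ≤ q.L ^ (j + 1) := Nat.pow_le_pow_right (by omega) (by omega)
    rw [pow_one] at this
    unfold Par.l; omega
  · exact le_trans (by nlinarith) E.hA
  · have := E.hCu
    exact lt_of_lt_of_le (by positivity) E.hh.1

/-- a sum over the small polymers at a block -/
theorem rgfb_sum (h_sm : S_rg_sm) {R : Finset P} {B : P} {A c : ℝ} (hA : 2 ^ 60 ≤ A) (hc : 0 ≤ c)
    {f : Finset P → ℂ} (hf : ∀ X ∈ smalls R B, ‖f X‖ ≤ c * A⁻¹ ^ X.card) :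
    ‖∑ X ∈ smalls R B, f X / X.card‖ ≤ 2 * c / A := by
  refine (norm_sum_le _ _).trans ?_
  refine (sum_le_sum fun X hX => (rgfb_div _ _).trans (hf X hX)).trans ?_
  rw [← mul_sum]
  refine (mul_le_mul_of_nonneg_left (h_sm R B A hA).2.2 hc).trans (le_of_eq ?_)
  ring

theorem t_rg_fb (h_sch : S_rg_sch) (h_sm : S_rg_sm) : S_rg_fb := by
  intro q Cu C0 ε0 t0 b j K B δ E hb ht hδ hB hF
  obtain ⟨hL, hl, hA, hh⟩ := rgfb_env E j
  have hL' : (1000 : ℝ) ≤ q.L := by exact_mod_cast hL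
  have hl' : (100 : ℝ) ≤ q.l j := by exact_mod_cast hl
  have hA0 : 0 < q.A := lt_of_lt_of_le (by positivity) hA
  have hn : q.n b = q.l j * q.m b j := q.n_eq (by have := hb.2.1; omega)
  have hz : ‖(0 : ℂ)‖ ≤ t0 := by simpa using ht
  set ρ : ℝ := q.h / (3 * q.l j) with hρ
  have hρ0 : 0 < ρ := by positivity
  have hst : ∀ X ∈ smalls (box (q.m b j)) B, ∀ y : ℂ × ℂ, ‖y.1‖ < ρ → ‖y.2‖ < ρ →
      Strip (q.n b) (q.l j) q.h (q.L * q.h) X (lin y) := fun X hX y h1 h2 => by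
    rw [hn]
    exact rgfb_strip hl (by nlinarith) hB ((h_sm _ B q.A hA).1 X hX).1 h1 h2
  have hM : ∀ y : ℂ × ℂ, ‖y.1‖ < ρ → ‖y.2‖ < ρ → ‖q.fB b j (K 0) B y‖ ≤ 32 * δ / q.A := by
    intro y h1 h2
    refine (rgfb_sum h_sm hA (by positivity : 0 ≤ 16 * δ) fun X hX => ?_).trans (le_of_eq ?_)
    · have := (hF X hX).bd 0 hz 0 (fun p => by simp) _ (hst X hX y h1 h2)
      have e0 : cf 0 = 0 := by funext p; simp [cf]
      have e1 : ∀ S, Nf (q.l j) 0 S = 0 := fun S => by simp [Nf, n1, n2, dg]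
      simpa only [rgfb_bg, e0, e1, zero_add, sum_const_zero, mul_zero, Real.exp_zero,
        mul_one] using this
    · ring
  have hD : ∀ yf : ℂ → ℂ × ℂ, Differentiable ℂ yf →
      (∀ s ∈ Metric.ball (0 : ℂ) ρ, ‖(yf s).1‖ < ρ ∧ ‖(yf s).2‖ < ρ) →
      DifferentiableOn ℂ (fun s => q.fB b j (K 0) B (yf s)) (Metric.ball 0 ρ) := by
    intro yf hy hs
    refine DifferentiableOn.fun_sum fun X hX => DifferentiableOn.div_const ?_ _
    have := (hF X hX).hol 0 hz (Metric.ball 0 ρ) (fun s => lin (yf s)) Metric.isOpen_ball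
      (fun p => Differentiable.differentiableOn (by simp only [lin]; fun_prop))
      fun s h => hst X hX _ (hs s h).1 (hs s h).2
    simpa only [rgfb_bg, zero_add] using this
  have hw0 : 0 < q.w0 j := by unfold Par.w0; positivity
  have hw : q.w0 j / ρ = 3 / q.L := by rw [hρ, Par.w0]; field_simp
  have hwρ : q.w0 j < ρ := by
    rw [← div_lt_one hρ0, hw, div_lt_one (by positivity)]; linarith
  have hnw : ‖((q.w0 j : ℝ) : ℂ)‖ = q.w0 j := by rw [Complex.norm_real, Real.norm_of_nonneg hw0.le]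
  refine ⟨?_, fun hS y r hy hr => ?_⟩
  · have h1 := (h_sch.1 (fun s => q.fB b j (K 0) B (s, 0)) ρ (32 * δ / q.A) (q.w0 j)
      (hD (fun s => (s, 0)) (by fun_prop) fun s h => ⟨by simpa using h, by simpa using hρ0⟩)
      (fun s h => hM (s, 0) (by simpa using h) (by simpa using hρ0)) (by rwa [hnw])).2
      fun s _ => sum_congr rfl fun X hX => by
        have := (hF X hX).neg 0 (lin (s, 0))
        have e : lin (-s, 0) = -lin (s, 0) := by funext p; simp [lin]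
        rw [neg_zero] at this
        simp only [e, this]
    rw [Par.qB, norm_div, norm_pow, hnw, div_le_iff₀ (by positivity)]
    rw [hnw] at h1
    refine h1.trans ?_
    have e : (q.w0 j / ρ) ^ 2 = 9 * (q.l j : ℝ) ^ 2 / q.h ^ 2 * q.w0 j ^ 2 := by
      rw [hρ]; field_simp; norm_num
    rw [e]
    have : 0 ≤ δ / q.A * (q.l j : ℝ) ^ 2 / q.h ^ 2 * q.w0 j ^ 2 := by positivity
    calc _ = 576 * (δ / q.A * (q.l j : ℝ) ^ 2 / q.h ^ 2 * q.w0 j ^ 2) := by ring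
      _ ≤ 600 * (δ / q.A * (q.l j : ℝ) ^ 2 / q.h ^ 2 * q.w0 j ^ 2) := by linarith
      _ = _ := by ring
  · have hs : (‖y.1‖ ^ 2 + ‖y.2‖ ^ 2) / ρ ^ 2 ≤ 9 * r := by
      rw [hρ, div_pow, div_div_eq_mul_div, div_le_iff₀ (by positivity)]; nlinarith
    have hs0 : 0 ≤ (‖y.1‖ ^ 2 + ‖y.2‖ ^ 2) / ρ ^ 2 := by positivity
    have hs1 : ‖y.1‖ ^ 2 + ‖y.2‖ ^ 2 < ρ ^ 2 := by
      rw [← div_lt_one (by positivity)]; linarith
    have y1 : ‖y.1‖ < ρ := lt_of_pow_lt_pow_left₀ 2 hρ0.le (by nlinarith [sq_nonneg ‖y.2‖])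
    have y2 : ‖y.2‖ < ρ := lt_of_pow_lt_pow_left₀ 2 hρ0.le (by nlinarith [sq_nonneg ‖y.1‖])
    have h1 := h_sch.2.2 (q.fB b j (K 0) B) ρ (32 * δ / q.A) (q.w0 j) y
      (fun t h => ⟨hD (fun s => (s, t)) (by fun_prop)
          fun s h' => ⟨by simpa using h', by simpa using h⟩,
        hD (fun s => (t, s)) (by fun_prop) fun s h' => ⟨by simpa using h, by simpa using h'⟩⟩)
      (fun y h1 h2 => ⟨hM y h1 h2, hS y h1 h2⟩) hw0 hwρ y1 y2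
    refine h1.trans ?_
    rw [← div_pow, hw]
    have hr0 : 0 ≤ r := by linarith
    have e : (3 / (q.L : ℝ)) ^ 2 = 9 * (1 / (q.L : ℝ) ^ 2) := by field_simp; norm_num
    rw [e]
    have k0 : 0 ≤ 1 / (q.L : ℝ) ^ 2 := by positivity
    have k1 : (‖y.1‖ ^ 2 + ‖y.2‖ ^ 2) / ρ ^ 2 *
        ((‖y.1‖ ^ 2 + ‖y.2‖ ^ 2) / ρ ^ 2 + 9 * (1 / (q.L : ℝ) ^ 2)) ≤
        9 * r * (9 * r + 9 * (1 / (q.L : ℝ) ^ 2)) :=
      mul_le_mul hs (by linarith) (by positivity) (by positivity)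
    have k2 : 0 ≤ δ / q.A := by positivity
    have k3 : 0 ≤ r * (r + 1 / (q.L : ℝ) ^ 2) := by positivity
    calc _ = 1280 * (δ / q.A) * ((‖y.1‖ ^ 2 + ‖y.2‖ ^ 2) / ρ ^ 2 *
          ((‖y.1‖ ^ 2 + ‖y.2‖ ^ 2) / ρ ^ 2 + 9 * (1 / (q.L : ℝ) ^ 2))) := by ring
      _ ≤ 1280 * (δ / q.A) * (9 * r * (9 * r + 9 * (1 / (q.L : ℝ) ^ 2))) :=
          mul_le_mul_of_nonneg_left k1 (by positivity)
      _ = 103680 * (δ / q.A * (r * (r + 1 / (q.L : ℝ) ^ 2))) := by ring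
      _ ≤ 10 ^ 6 * (δ / q.A * (r * (r + 1 / (q.L : ℝ) ^ 2))) :=
          mul_le_mul_of_nonneg_right (by norm_num) (by positivity)
      _ = _ := by ring

end Pool.Agent.Lib.MP_9cc147_pr.Cx
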