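import Pool.Agent.Lib.MP_9cc147_pr.Cx.Rg.GA

/-! Differences of states and sizes of the data. -/

open scoped Classical Topology
open Finset MeasureTheory ProbabilityTheory Filter

noncomputable section
namespace Pool.Agent.Lib.MP_9cc147_pr.Cx

theorem rgg_bg0 (n : ℕ) : bg n 0 = 0 := by
  funext p
  simp [bg]

theorem rgg_split (h_g : S_rg_g) {q : Par} {Cu C0 ε0 t0 α ν ρ ν' ρ' : ℝ} {j : ℕ} {x y : State}
    (E : q.Env Cu C0 ε0) (hx : q.Good t0 j x α ν ρ) (hy : q.Good t0 j y α ν' ρ') {b : ℕ × ℕ}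
    (hb : Par.ok b j) (s : Lab) {X : Finset P} (hX : Pm (q.m b j) X) (h4 : X.card ≤ 4) {z : ℂ}
    (hz : ‖z‖ ≤ t0) {v : Fld} (hv : Strip (q.n b) (q.l j) q.h (q.L * q.h) X v) :
    q.Ez b j (Par.dK x y b s z X) (bg (q.n b) z + v) =
      q.Ez b j ((x.a b z).K s X) (bg (q.n b) z + v) -
        q.Ez b j ((y.a b z).K s X) (bg (q.n b) z + v) := by
  have hA : 0 ≤ q.A := le_trans (by positivity) (rgg_A E)
  have h0 := fg_zero hA hx.t.1 hx.t.2 hx.a.1 hx.a.2 j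
  have k : ∀ {w : State} {ν ρ : ℝ}, q.Good t0 j w α ν ρ → Integrable (fun ω =>
      (w.a b z).K s X (bg (q.n b) z + v + cf (zeta q.L (q.n b) j ω))) PP := fun {w ν ρ} hw => by
    have a1 := rgg_act hw.str h0.str hb s hX (δ := α) fun z hz => by
      rw [rgg_dK0]; exact hw.bnd.K b z s X hb hz hX
    have a2 := (h_g q Cu C0 ε0 t0 b j X _ _ E hb hX h4
      (mul_nonneg hx.a.1 (by positivity)) a1).2 z hz 0 (f_dir_zero _) v hv
    rw [rgg_dK0, f_cf_zero, add_zero] at a2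
    exact a2
  exact integral_sub (k hx) (k hy)

theorem t_rg_dif (h_g : S_rg_g) (h_sm : S_rg_sm) (h_str : S_rg_str) : S_rg_dif := by
  intro q Cu C0 ε0 t0 j x y α ν ρ ν' ρ' s δ b E hx hy hδ hb B hB hd
  have hA := rgg_A E
  have hA0 : 0 < q.A := lt_of_lt_of_le (by positivity) hA
  have hL := rgg_L E
  have hh : 0 ≤ (q.L : ℝ) * q.h := mul_nonneg (by positivity) (by linarith [rgg_h E])
  obtain ⟨s1, -, s3⟩ := h_sm (box (q.m b j)) B q.A hA
  have fam : q.Fam t0 b j (Par.dK x y b s) B δ := fun X hX => by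
    obtain ⟨p1, -, p3⟩ := rgg_small hX
    rw [mul_assoc]
    exact (h_g q Cu C0 ε0 t0 b j X _ _ E hb p1 p3 (by positivity) (rgg_act hx.str hy.str hb s p1
      fun z hz => hd z X hz p1 ((s1 X hX).2.trans (rgg_near (by norm_num) _ _)))).1
  have t0' : ‖(0 : ℂ)‖ ≤ t0 := by rw [norm_zero]; exact hx.t.1.le
  refine ⟨fam, fun z hz => ⟨?_, ?_⟩, fun hB5 w h1 h2 => ?_⟩
  · unfold Par.eK
    rw [← sum_sub_distrib]
    refine sum_congr rfl fun X hX => ?_
    obtain ⟨p1, -, p3⟩ := rgg_small hX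
    rw [← sub_div]
    congr 1
    unfold Par.ctr
    split_ifs with hs
    · simpa only [add_zero] using
        rgg_split h_g E hx hy hb s p1 p3 hz (rgg_strip0 _ _ _ hh X)
    · have := rgg_split h_g E hx hy hb s p1 p3 t0' (rgg_strip0 _ _ _ hh X)
      rw [rgg_bg0, add_zero] at this
      unfold Par.dK at this ⊢
      rw [hx.str.farK b z s X hb p1 hs, hy.str.farK b z s X hb p1 hs]
      exact this
  · have k : ∀ X ∈ smalls (box (q.m b j)) B,
        ‖q.Ez b j (Par.dK x y b s z X) (q.ctr b j z X) / X.card‖ ≤ 16 * δ * q.A⁻¹ ^ X.card := by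
      intro X hX
      obtain ⟨p1, p2, -⟩ := rgg_small hX
      have c1 : (1 : ℝ) ≤ X.card := by exact_mod_cast card_pos.2 ⟨B, p2⟩
      rw [norm_div, Complex.norm_natCast]
      refine (div_le_self (norm_nonneg _) c1).trans ?_
      have a := fam X hX
      have a0 : ∀ z, ‖z‖ ≤ t0 → ‖q.Ez b j (Par.dK x y b s z X) (bg (q.n b) z)‖ ≤
          16 * δ * q.A⁻¹ ^ X.card := fun z hz => by
        simpa only [f_cf_zero, add_zero, rgg_Nf_zero, sum_const_zero, mul_zero, Real.exp_zero,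
          mul_one] using a.bd z hz 0 (f_dir_zero _) 0 (rgg_strip0 _ _ _ hh X)
      unfold Par.ctr
      split_ifs with hs
      · exact a0 z hz
      · have := a0 0 t0'
        rw [rgg_bg0] at this
        exact (congrFun (a.far hs z) 0).symm ▸ this
    refine (norm_sum_le_of_le _ k).trans ?_
    rw [← mul_sum]
    have : 2 / q.A ≤ 1 / 16 := by
      rw [div_le_div_iff₀ hA0 (by norm_num)]
      linarith
    nlinarith [mul_le_mul_of_nonneg_left (s3.trans this) hδ]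
  · unfold Par.fB
    rw [← sum_sub_distrib]
    refine sum_congr rfl fun X hX => ?_
    obtain ⟨p1, -, p3⟩ := rgg_small hX
    rw [← sub_div]
    congr 1
    have := rgg_split h_g E hx hy hb s p1 p3 t0' (v := lin w) (by
      rw [q.n_eq (j := j) (by have := hb.2.1; omega)]
      exact rgg_lin h_str hL (rgg_l hL j) hB5 (s1 X hX).1 h1 h2)
    rwa [rgg_bg0, zero_add] at this

theorem rgg_q (h_dif : S_rg_dif) (h_fb : S_rg_fb) {q : Par} {Cu C0 ε0 t0 α ν ρ ν' ρ' δ : ℝ} {j : ℕ}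
    {x y : State} {s : Lab} (E : q.Env Cu C0 ε0) (hx : q.Good t0 j x α ν ρ)
    (hy : q.Good t0 j y α ν' ρ') (hδ : 0 ≤ δ) (hd : q.Dif t0 j x y s (1, j + 1) q.ref δ) {B : P}
    (hB : B = q.Bc ∨ B = q.Bc + (1, 0)) :
    |(q.qB (1, j + 1) j ((x.a (1, j + 1) 0).K s) B).re -
      (q.qB (1, j + 1) j ((y.a (1, j + 1) 0).K s) B).re| ≤
        600 * δ / q.A * (q.l j : ℝ) ^ 2 / q.h ^ 2 := by
  have hL := rgg_L E
  have hh := rgg_h E
  have hl : (1000 : ℝ) ≤ q.l j := by exact_mod_cast rgg_l hL j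
  have hL' : (1000 : ℝ) ≤ q.L := by exact_mod_cast hL
  have hb : Par.ok (1, j + 1) j := (Par.ok_ref j).pred
  have h2 : 1000 ≤ q.L ^ 2 := hL.trans (Nat.le_self_pow two_ne_zero _)
  have dp : deep 5 (q.m (1, j + 1) j) B := by
    rw [q.m_ref]
    generalize hN : q.L ^ 2 = N at h2
    rcases hB with rfl | rfl <;> simp only [deep, Par.Bc, hN, Prod.fst_add, Prod.snd_add] <;> omega
  have hB' : B ∈ box (q.m (1, j + 1) j) := by
    obtain ⟨a1, a2, a3, a4⟩ := dp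
    rw [f_mem_box]
    omega
  have sb : near 4 (box (q.m (1, j + 1) j)) {B} ⊆ q.ref := by
    rw [q.m_ref]
    intro p hp
    obtain ⟨a1, a, ha, a2⟩ := mem_filter.1 hp
    refine mem_filter.2 ⟨a1, a, ?_, a2⟩
    rw [mem_singleton.1 ha]
    simpa using hB
  obtain ⟨fam, -, fb⟩ := h_dif q Cu C0 ε0 t0 j x y α ν ρ ν' ρ' s δ _ E hx hy hδ hb B hB' (hd.sub sb)
  have z0 : ‖(0 : ℂ)‖ < q.h / (3 * q.l j) := by rw [norm_zero]; positivity
  have w0 : ‖(q.w0 j : ℂ)‖ < q.h / (3 * q.l j) := by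
    rw [Complex.norm_real, Par.w0, Real.norm_of_nonneg (by positivity)]
    exact div_lt_div_of_pos_left (by linarith) (by positivity) (by nlinarith)
  have k := (h_fb q Cu C0 ε0 t0 _ j _ B δ E hb hx.t.1.le hδ dp fam).1
  have e : q.qB (1, j + 1) j (Par.dK x y (1, j + 1) s 0) B =
      q.qB (1, j + 1) j ((x.a (1, j + 1) 0).K s) B -
        q.qB (1, j + 1) j ((y.a (1, j + 1) 0).K s) B := by
    unfold Par.qB
    rw [fb dp (q.w0 j, 0) w0 z0, fb dp 0 z0 z0]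
    ring
  rw [← Complex.sub_re, ← e]
  exact (Complex.abs_re_le_norm _).trans k

theorem rgg_dl (h_dif : S_rg_dif) (h_fb : S_rg_fb) {q : Par} {Cu C0 ε0 t0 α ν ρ ν' ρ' δ : ℝ}
    {j : ℕ} {x y : State} {s : Lab} (E : q.Env Cu C0 ε0) (hx : q.Good t0 j x α ν ρ)
    (hy : q.Good t0 j y α ν' ρ') (hδ : 0 ≤ δ) (hd : q.Dif t0 j x y s (1, j + 1) q.ref δ) :
    |q.dl j ((x.a (1, j + 1) 0).K s) - q.dl j ((y.a (1, j + 1) 0).K s)| ≤ δ := by
  have a1 := rgg_q h_dif h_fb E hx hy hδ hd (Or.inl rfl)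
  have a2 := rgg_q h_dif h_fb E hx hy hδ hd (Or.inr rfl)
  have hA := rgg_A E
  have hh := rgg_h E
  have hl : (1000 : ℝ) ≤ q.l j := by exact_mod_cast rgg_l (rgg_L E) j
  have k : 600 * δ / q.A * (q.l j : ℝ) ^ 2 / q.h ^ 2 ≤ δ / 2 * (q.l j : ℝ) ^ 2 := by
    refine (div_le_self (by positivity) (by nlinarith)).trans ?_
    refine mul_le_mul_of_nonneg_right ?_ (by positivity)
    rw [div_le_div_iff₀ (by linarith) (by norm_num)]
    nlinarith
  unfold Par.dl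
  rw [← sub_div, abs_div, abs_of_pos (by positivity : (0 : ℝ) < (q.l j : ℝ) ^ 2),
    div_le_iff₀ (by positivity)]
  rw [abs_le] at a1 a2 ⊢
  constructor <;> linarith [a1.1, a1.2, a2.1, a2.2]

theorem rgg_sz (h_dif : S_rg_dif) (h_fb : S_rg_fb) (h_qz : S_rg_qz) {q : Par}
    {Cu C0 ε0 t0 α ν ρ ν' ρ' δ D : ℝ} {j : ℕ} {x y : State} {s : Lab} (E : q.Env Cu C0 ε0)
    (hx : q.Good t0 j x α ν ρ) (hy : q.Good t0 j y α ν' ρ') (hδ : 0 ≤ δ)
    (hd : q.Dif t0 j x y s (1, j + 1) q.ref δ) {b : ℕ × ℕ} {z : ℂ} {U : Finset P}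
    (hb : Par.ok b (j + 1)) (hz : ‖z‖ ≤ t0)
    (h8 : q.Dif t0 j x y s b (near 8 (box (q.m b j)) (under q.L U)) δ)
    (hD : |x.lam s - y.lam s| + δ ≤ D) :
    q.Sz Cu b j z U ((q.dat j x b z s).sub (q.dat j y b z s)) D δ := by
  have dl := rgg_dl h_dif h_fb E hx hy hδ hd
  have a0 := abs_nonneg (x.lam s - y.lam s)
  have l1 : ‖(x.lam s : ℂ) - y.lam s‖ = |x.lam s - y.lam s| := by
    rw [← Complex.ofReal_sub, Complex.norm_real, Real.norm_eq_abs]
  have l2 : ‖(q.lam' j x s : ℂ) - q.lam' j y s‖ ≤ D := by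
    rw [← Complex.ofReal_sub, Complex.norm_real, Real.norm_eq_abs, Par.lam', Par.lam',
      add_sub_add_comm]
    exact (abs_add_le _ _).trans (by linarith)
  have hκ : 0 < 1 / q.κ := one_div_pos.2 E.hκ.1
  have hCu := E.hCu
  have hH : 1 / q.κ + 1 ≤ q.H Cu ∧ Cu ≤ q.H Cu := by
    unfold Par.H
    constructor <;> nlinarith [sq_nonneg q.h]
  refine ⟨⟨l1.trans_le (by linarith), l2⟩, hδ, fun B hB => ?_, fun X hX hs =>
    ⟨(hx.str.locK b z s X hb.pred hX).1.sub (hy.str.locK b z s X hb.pred hX).1,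
      h8 z X hz hX (hs.trans (rgg_near (by norm_num) _ _))⟩⟩
  obtain ⟨b1, a, ha, b2⟩ := mem_filter.1 hB
  have sb : near 4 (box (q.m b j)) {B} ⊆ near 8 (box (q.m b j)) (under q.L U) := fun p hp => by
    obtain ⟨c1, a', ha', c2⟩ := mem_filter.1 hp
    rw [mem_singleton.1 ha'] at c2
    refine mem_filter.2 ⟨c1, a, ha, ?_⟩
    simp only [nr, abs_le] at b2 c2 ⊢
    omega
  obtain ⟨e1, e2⟩ := (h_dif q Cu C0 ε0 t0 j x y α ν ρ ν' ρ' s δ b E hx hy hδ hb.pred B b1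
    (h8.sub sb)).2.1 z hz
  obtain ⟨q1, q2, -⟩ := h_qz q Cu C0 ε0 b j z E hb.pred B b1
  constructor
  · have e : q.e j x b z s B - q.e j y b z s B = ((x.lam s : ℂ) - y.lam s) / 2 *
        q.Ez b j (fun Θ => En Θ (cell (q.l j) B)) 0 - q.eK b j z (Par.dK x y b s z) B := by
      rw [e1]
      unfold Par.e Par.ee
      ring
    change ‖q.e j x b z s B - q.e j y b z s B‖ ≤ _
    rw [e]
    refine (norm_sub_le _ _).trans ?_
    rw [norm_mul, norm_div, l1, Complex.norm_two]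
    nlinarith [mul_le_mul_of_nonneg_left q2 a0, mul_le_mul hD hH.1 (by linarith) (by linarith),
      mul_nonneg a0 hκ.le, mul_nonneg hδ hκ.le]
  · change ‖q.xt b j z (q.lam' j x s) B - q.xt b j z (q.lam' j y s) B‖ ≤ _
    have hD0 : 0 ≤ D := by linarith
    unfold Par.xt
    split_ifs with h
    · have k := ((q1 (hz.trans hx.t.2) 0 fun _ _ _ => rfl).2 h.2).1
      rw [← sub_mul, ← sub_div, norm_mul, norm_div, Complex.norm_two]
      nlinarith [mul_le_mul l2 k (norm_nonneg _) hD0, mul_le_mul_of_nonneg_left hH.2 hD0,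
        mul_nonneg hD0 (by linarith : 0 ≤ Cu)]
    · rw [sub_zero, norm_zero]
      exact mul_nonneg hD0 (by linarith [hH.2])

theorem t_rg_sz (h_dif : S_rg_dif) (h_fb : S_rg_fb) (h_qz : S_rg_qz) : S_rg_sz := by
  intro q Cu C0 ε0 t0 j x y α ν ρ ν' ρ' s δ E hx hy hδ hd
  refine ⟨fun B => rgg_q h_dif h_fb E hx hy hδ hd (by split_ifs <;> simp),
    rgg_dl h_dif h_fb E hx hy hδ hd, fun b z U hb hz =>
    ⟨?_, fun h8 => rgg_sz h_dif h_fb h_qz E hx hy hδ hd hb hz h8 le_rfl⟩⟩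
  have hA : 0 ≤ q.A := le_trans (by positivity) (rgg_A E)
  have h0 := fg_zero hA hx.t.1 hx.t.2 hx.a.1 hx.a.2 j
  have k := rgg_sz h_dif h_fb h_qz E hx h0 hx.a.1 (s := s)
    (Par.Dif.zero_of_bnd hx.bnd (Par.ok_ref j).pred) (U := U) hb hz
    (Par.Dif.zero_of_bnd hx.bnd hb.pred) (D := 2 * α) (by
      have := hx.bnd.lam s
      simp only [zero, Pi.zero_apply, sub_zero]
      linarith)
  have e : (q.dat j x b z s).sub (q.dat j zero b z s) = q.dat j x b z s := by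
    have e1 : q.lam' j zero s = 0 := by rw [Par.lam', fg_dl]; simp [zero]
    have e2 : ∀ B, q.e j zero b z s B = 0 := fun B => by
      simp [Par.e, Par.ee, Par.eK, Par.Ez, zero]
    have e3 : ∀ B, q.xt b j z 0 B = 0 := fun B => by simp [Par.xt]
    simp only [Dat.sub, Par.dat, e1, e2, e3]
    simp [zero]
  rwa [e] at k

end Pool.Agent.Lib.MP_9cc147_pr.Cx
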