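import Pool.Agent.Lib.MP_9cc147_pr.Cx.Rg.Kit
import Pool.Agent.Lib.MP_9cc147_pr.Cx.T.Geo2
import Pool.Agent.Lib.MP_9cc147_pr.Cx.Z.Op

/-! The quadratic form of a block and the factors of a block. -/

open scoped Classical Topology
open Finset MeasureTheory ProbabilityTheory Filter

noncomputable section
namespace Pool.Agent.Lib.MP_9cc147_pr.Cx

/-- the cross term of the energy -/
def rgqCr (W V : Fld) (S : Finset P) : ℂ := ∑ x ∈ S, ∑ d, dg W x d * dg V x d

theorem rgq_add (W V : Fld) (S : Finset P) : En (W + V) S = En W S + En V S + rgqCr W V S := by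
  simp only [En, rgqCr, ← sum_add_distrib]
  refine sum_congr rfl fun x _ => ?_
  simp only [dg, Pi.add_apply, Fin.sum_univ_four]
  ring

theorem rgq_ea0 (l : ℕ) (v : Fld) (B : P) : 0 ≤ ea l v B := sum_nonneg fun x _ => T.n1_nn v x

theorem rgq_en (l : ℕ) (V : Fld) (B : P) : ‖En V (cell l B)‖ ≤ ea l V B := by
  refine (norm_sum_le _ _).trans (sum_le_sum fun x _ => ?_)
  rw [norm_mul, n1]
  refine mul_le_mul (by simp) ((norm_sum_le _ _).trans (by simp)) (norm_nonneg _) (by norm_num)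

theorem rgq_cr (l : ℕ) (W V : Fld) (B : P) :
    ‖rgqCr W V (cell l B)‖ ≤ 2 * √(ea l W B * ea l V B) := by
  have h := sum_mul_sq_le_sq_mul_sq (cell l B ×ˢ (univ : Finset (Fin 4)))
    (fun e => ‖dg W e.1 e.2‖) fun e => ‖dg V e.1 e.2‖
  have e : ∀ U : Fld, ∑ e ∈ cell l B ×ˢ (univ : Finset (Fin 4)), ‖dg U e.1 e.2‖ ^ 2 =
      2 * ea l U B := fun U => by
    rw [sum_product, ea, mul_sum]
    exact sum_congr rfl fun x _ => by rw [n1]; ring
  rw [e, e, sum_product] at h
  have h1 : ‖rgqCr W V (cell l B)‖ ≤ ∑ x ∈ cell l B, ∑ d, ‖dg W x d‖ * ‖dg V x d‖ :=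
    (norm_sum_le _ _).trans (sum_le_sum fun x _ => (norm_sum_le _ _).trans (by simp))
  refine h1.trans (abs_le_of_sq_le_sq' (h.trans_eq ?_) (by positivity)).2
  rw [mul_pow, Real.sq_sqrt (mul_nonneg (rgq_ea0 _ _ _) (rgq_ea0 _ _ _))]
  ring

theorem rgq_amgm {a b : ℝ} (ha : 0 ≤ a) (hb : 0 ≤ b) : 2 * √(a * b) ≤ a + b := by
  rw [Real.sqrt_mul ha]
  nlinarith [sq_nonneg (√a - √b), Real.sq_sqrt ha, Real.sq_sqrt hb]

theorem rgq_ea_add (l : ℕ) (W V : Fld) (B : P) : ea l (W + V) B ≤ 2 * ea l W B + 2 * ea l V B := by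
  simp only [ea, n1, mul_sum, ← sum_add_distrib]
  refine sum_le_sum fun x _ => sum_le_sum fun d _ => ?_
  have e : dg (W + V) x d = dg W x d + dg V x d := by simp only [dg, Pi.add_apply]; ring
  have h := pow_le_pow_left₀ (norm_nonneg _) (norm_add_le (dg W x d) (dg V x d)) 2
  rw [e]
  nlinarith [sq_nonneg (‖dg W x d‖ - ‖dg V x d‖)]

theorem rgq_ea_Nf (l : ℕ) (v : Fld) (B : P) : ea l v B ≤ Nf l v (nb l B) := by
  have hs : cell l B ⊆ nb l B := fun x hx => by
    rw [f_mem_cell'] at hx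
    rw [nb, T.mem_fat]
    omega
  refine (sum_le_sum_of_subset_of_nonneg hs fun x _ _ => T.n1_nn v x).trans
    (sum_le_sum fun x _ => le_add_of_nonneg_right ?_)
  have := T.n2_nn v x
  positivity

theorem rgq_bg {Cu : ℝ} (hu : Uc Cu) {l m : ℕ} (hl : 100 ≤ l) (hm : 2 ≤ m) {B : P}
    (hB : B ∈ box m) (h : ¬ ab m B) {z : ℂ} (hz : ‖z‖ ≤ 1) : ea l (bg (l * m) z) B ≤ Cu := by
  have hb := f_mem_box.1 hB
  obtain ⟨c, hc, hs⟩ : ∃ c : ℝ, (c = 0 ∨ c = 1) ∧
      if c = 0 then B.1 ≠ 0 ∧ B.2 ≠ m - 1 else B.2 ≠ 0 ∧ B.1 ≠ m - 1 := by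
    simp only [ab, Prod.ext_iff] at h
    by_cases k : B.1 ≠ 0 ∧ B.2 ≠ m - 1
    · exact ⟨0, .inl rfl, by rw [if_pos rfl]; exact k⟩
    · exact ⟨1, .inr rfl, by rw [if_neg one_ne_zero]; omega⟩
  obtain ⟨w, -, h2, h3⟩ := (hu _ l m rfl hl hm).1 c hc
  refine le_trans (sum_le_sum fun x hx => ?_) ((rgq_ea_Nf l (cf w) B).trans (h3 B hB hs).1)
  refine mul_le_mul_of_nonneg_left (sum_le_sum fun d _ => ?_) (by norm_num)
  have e : dg (bg (l * m) z) x d = z * dg (cf w) x d := by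
    simp only [dg, bg, cf, h2 _ (T.crn_mem hB hx _).2]
    push_cast; ring
  rw [e, norm_mul]
  exact pow_le_pow_left₀ (by positivity) (mul_le_of_le_one_left (norm_nonneg _) hz) 2

theorem rgq_mEn (S : Finset P) : Measurable fun Θ : Fld => En Θ S := by
  unfold En dg; fun_prop

theorem rgq_mcf {ζ : Om → P → ℝ} (h : Measurable ζ) (Θ : Fld) :
    Measurable fun ω => Θ + cf (ζ ω) :=
  measurable_pi_lambda _ fun p => by
    have := (measurable_pi_apply p).comp h
    exact (Complex.measurable_ofReal.comp this).const_add _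

theorem rgq_n (q : Par) {Cu C0 ε0 : ℝ} (E : q.Env Cu C0 ε0) {b : ℕ × ℕ} {j : ℕ}
    (hb : Par.ok b j) : q.n b = q.l j * q.m b j ∧ 2 ≤ q.m b j ∧ 1 ≤ q.n b := by
  have h1 := q.n_eq (b := b) (j := j) (by have := hb.2.1; omega)
  have h2 := q.L_le_m E.L1 hb
  have h3 := E.L1000
  have h4 := E.l100 j
  exact ⟨h1, by omega, h1 ▸ Nat.mul_pos (by omega) (by omega)⟩

theorem t_rg_qz (h_zel : S_zel) : S_rg_qz := by
  intro q Cu C0 ε0 b j z E hb B hB
  obtain ⟨hn, hm, n1'⟩ := rgq_n q E hb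
  have Cu0 : 0 ≤ Cu := zero_le_one.trans E.hCu
  obtain ⟨-, hme, hng, -, hmp⟩ := h_zel.2 q.L (q.n b) j (by have := E.L1000; omega) n1'
  have : IsProbabilityMeasure PP := by unfold PP; infer_instance
  refine ⟨fun hz V hV => ?_, ?_⟩
  · have a0 := rgq_ea0 (q.l j) V B
    have am := rgq_amgm Cu0 a0
    have ev := rgq_en (q.l j) V B
    have far : ¬ ab (q.m b j) B → ‖En (bg (q.n b) z) (cell (q.l j) B)‖ ≤ Cu ∧
        ‖En (bg (q.n b) z + V) (cell (q.l j) B) - En V (cell (q.l j) B)‖ ≤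
          2 * √(Cu * ea (q.l j) V B) + Cu := fun h => by
      have k := rgq_bg E.u (E.l100 j) hm hB h hz
      rw [← hn] at k
      have k1 := (rgq_en _ _ _).trans k
      refine ⟨k1, ?_⟩
      rw [rgq_add, show ∀ a b c : ℂ, a + b + c - b = c + a from fun _ _ _ => by ring]
      refine (norm_add_le _ _).trans (add_le_add ((rgq_cr _ _ _ _).trans ?_) k1)
      gcongr
    refine ⟨?_, far⟩
    unfold Par.Qz
    split_ifs with h
    · have k := ((E.u _ _ _ hn (E.l100 j) hm).2 B h V hV)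
      have e : rgqCr (bg (q.n b) z) V (cell (q.l j) B) = z * ∑ x ∈ cell (q.l j) B, ∑ d,
          (dg (uu (q.n b)) x d : ℝ) * dg V x d := by
        simp only [rgqCr, mul_sum]
        refine sum_congr rfl fun x _ => sum_congr rfl fun d _ => ?_
        simp only [dg, bg]; push_cast; ring
      rw [rgq_add, show ∀ a b c : ℂ, a + b + c - a = b + c from fun _ _ _ => by ring, e]
      have k2 := (mul_le_of_le_one_left (norm_nonneg _) hz).trans (Real.le_sqrt_of_sq_le k)
      rw [← norm_mul] at k2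
      have := norm_add_le_of_le ev k2
      have s0 := Real.sqrt_nonneg (Cu * ea (q.l j) V B)
      unfold ea at *
      linarith
    · have := norm_add_le_of_le (far h).2 ev
      rw [sub_add_cancel] at this
      rw [sub_zero]
      linarith
  · have κ0 := E.hκ.1
    have L2 : (2 : ℝ) ≤ q.L := by exact_mod_cast (by have := E.L1000; omega : 2 ≤ q.L)
    obtain ⟨i1, i2⟩ := (E.zm b j hb).1 {B} (singleton_subset_iff.2 hB)
    simp only [sum_singleton, card_singleton, pow_one] at i1 i2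
    have dom : ∀ ω, ea (q.l j) (cf (zeta q.L (q.n b) j ω)) B ≤ (q.L * q.κ)⁻¹ * Real.exp
        (q.L * q.κ * N0 (q.l j) (cf (zeta q.L (q.n b) j ω)) (nb (q.l j) B)) := fun ω => by
      rw [← div_eq_inv_mul, le_div_iff₀ (by positivity), mul_comm]
      refine le_trans ?_ ((le_add_of_nonneg_right zero_le_one).trans (Real.add_one_le_exp _))
      refine mul_le_mul_of_nonneg_left ((rgq_ea_Nf _ _ _).trans ?_) (by positivity)
      exact le_add_of_nonneg_right (by positivity)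
    have m0 := (rgq_mEn (cell (q.l j) B)).comp (rgq_mcf hme.1 0)
    simp only [Function.comp_def, zero_add] at m0
    have I0 : Integrable (fun ω => En (cf (zeta q.L (q.n b) j ω)) (cell (q.l j) B)) PP :=
      (i1.const_mul _).mono' m0.aestronglyMeasurable
        (.of_forall fun ω => (rgq_en _ _ _).trans (dom ω))
    refine ⟨?_, fun Θ => ?_⟩
    · simp only [Par.Ez, zero_add]
      refine (norm_integral_le_of_norm_le (i1.const_mul _)
        (.of_forall fun ω => (rgq_en _ _ _).trans (dom ω))).trans ?_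
      rw [integral_const_mul, ← div_eq_inv_mul, div_le_div_iff₀ (by positivity) κ0]
      nlinarith
    · have m1 : Measurable fun ω => rgqCr Θ (cf (zeta q.L (q.n b) j ω)) (cell (q.l j) B) := by
        have := (((rgq_mEn (cell (q.l j) B)).comp (rgq_mcf hme.1 Θ)).sub m0).sub_const
          (En Θ (cell (q.l j) B))
        convert this using 2
        simp only [Function.comp_def, rgq_add, Pi.sub_apply]; ring
      have I1 : Integrable (fun ω => rgqCr Θ (cf (zeta q.L (q.n b) j ω)) (cell (q.l j) B)) PP :=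
        ((integrable_const (ea (q.l j) Θ B)).add (i1.const_mul _)).mono' m1.aestronglyMeasurable
          (.of_forall fun ω => (rgq_cr _ _ _ _).trans
            ((rgq_amgm (rgq_ea0 _ _ _) (rgq_ea0 _ _ _)).trans (add_le_add le_rfl (dom ω))))
      have Z : ∫ ω, rgqCr Θ (cf (zeta q.L (q.n b) j ω)) (cell (q.l j) B) ∂PP = 0 := by
        have mp := (hmp (gaussianReal 0 1) (by rw [gaussianReal_map_neg, neg_zero])).1
        rw [← h_zel.1] at mp
        have := mp.integral_comp measurableEmbedding_neg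
          fun ω => rgqCr Θ (cf (zeta q.L (q.n b) j ω)) (cell (q.l j) B)
        have e : ∀ ω, rgqCr Θ (cf (zeta q.L (q.n b) j (-ω))) (cell (q.l j) B) =
            -rgqCr Θ (cf (zeta q.L (q.n b) j ω)) (cell (q.l j) B) := fun ω => by
          simp only [(hng ω).1, rgqCr, ← sum_neg_distrib]
          refine sum_congr rfl fun x _ => sum_congr rfl fun d _ => ?_
          simp only [dg, cf, Pi.neg_apply]; push_cast; ring
        simp only [e, integral_neg] at this
        linear_combination (-1 / 2 : ℂ) * this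
      have e : ∀ ω, q.Qz b j z B (Θ + cf (zeta q.L (q.n b) j ω)) = q.Qz b j z B Θ +
          (En (cf (zeta q.L (q.n b) j ω)) (cell (q.l j) B) +
            rgqCr Θ (cf (zeta q.L (q.n b) j ω)) (cell (q.l j) B)) := fun ω => by
        simp only [Par.Qz, rgq_add]; ring
      simp only [Par.Ez, e, zero_add]
      refine ⟨(integrable_const _).add (I0.add I1), ?_⟩
      rw [integral_add (integrable_const _) (by exact I0.add I1), integral_add I0 I1, Z]
      simp

theorem rgq_exp {w : ℂ} {D H κ g a b : ℝ} (hw : ‖w‖ ≤ D * (5 * a + 5 * b + 10 * H)) (D0 : 0 ≤ D)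
    (a0 : 0 ≤ a) (b0 : 0 ≤ b) (H1 : 1 ≤ H) (κ0 : 0 < κ) (κ1 : κ ≤ 1) (h1 : D * g ≤ 1)
    (h2 : 270 * H ≤ κ * g) : ‖Complex.exp w - 1‖ ≤ g * D * Real.exp (κ / 8 * a + κ * b) := by
  have e1 : ‖Complex.exp w - 1‖ ≤ ‖w‖ * Real.exp ‖w‖ := by
    simpa using Complex.norm_exp_sub_sum_le_norm_mul_exp w 1
  have k1 : 270 * (D * H) ≤ κ := by nlinarith [mul_le_mul_of_nonneg_left h2 D0]
  have k2 : 270 * D ≤ κ := by nlinarith
  have s0 : 0 ≤ a + b := add_nonneg a0 b0
  have k3 : ‖w‖ ≤ κ / 16 * (a + b) + 1 := by nlinarith [mul_le_mul_of_nonneg_right k2 s0]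
  have x0 := Real.exp_pos (κ / 16 * (a + b))
  have x1 : 1 ≤ Real.exp (κ / 16 * (a + b)) := Real.one_le_exp (by positivity)
  have x2 : κ / 16 * (a + b) ≤ Real.exp (κ / 16 * (a + b)) :=
    (le_add_of_nonneg_right zero_le_one).trans (Real.add_one_le_exp _)
  have k4 : 5 * a + 5 * b + 10 * H ≤ g / 3 * Real.exp (κ / 16 * (a + b)) := by
    refine le_of_mul_le_mul_left ?_ κ0
    have t1 : κ * H ≤ H * Real.exp (κ / 16 * (a + b)) := by nlinarith
    have t2 := mul_le_mul_of_nonneg_right h2 x0.le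
    have t3 := mul_le_mul_of_nonneg_right H1 x0.le
    nlinarith
  have k5 : Real.exp ‖w‖ ≤ Real.exp (κ / 16 * (a + b)) * 3 := by
    refine (Real.exp_le_exp.2 k3).trans ?_
    rw [Real.exp_add]
    exact mul_le_mul_of_nonneg_left (by linarith [Real.exp_one_lt_d9]) x0.le
  have g0 : 0 ≤ g := by nlinarith
  calc _ ≤ D * (g / 3 * Real.exp (κ / 16 * (a + b))) * (Real.exp (κ / 16 * (a + b)) * 3) :=
        e1.trans (mul_le_mul (hw.trans (mul_le_mul_of_nonneg_left k4 D0)) k5 (Real.exp_pos _).le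
          (by positivity))
    _ = g * D * Real.exp (κ / 16 * (a + b) + κ / 16 * (a + b)) := by rw [Real.exp_add]; ring
    _ ≤ _ := mul_le_mul_of_nonneg_left (Real.exp_le_exp.2 (by nlinarith)) (by positivity)

theorem t_rg_blo (h_qz : S_rg_qz) (h_str : S_rg_str) (h_zel : S_zel) : S_rg_blo := by
  intro q Cu C0 ε0 b j z U θ v d D p E hP hS hD
  have hb := hP.hok.pred
  obtain ⟨-, -, n1'⟩ := rgq_n q E hb
  obtain ⟨hdir, hme, -⟩ := h_zel.2 q.L (q.n b) j (by have := E.L1000; omega) n1'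
  have D0 : 0 ≤ D := (norm_nonneg _).trans hS.lam.1
  have st := fun X hX => (h_str (q.n b) q.L (q.l j) q.h (q.L * q.h) v E.L1000 (E.l100 j)).1 U X
    (q.l_succ j ▸ hP.str) hX
  have κ0 := E.hκ.1
  refine ⟨fun B hB => ?_, fun B Θ => ?_, fun X hX hs => ⟨fun Θ =>
    (hS.K X hX hs).1.comp (rgq_mcf hme.1 Θ), fun ω => ?_⟩⟩
  · obtain ⟨hB1, hB2⟩ := mem_filter.1 hB
    obtain ⟨v1, v2⟩ := (st {B} (by simpa using hB2)).2 B (mem_singleton_self B)
    have qz := fun V hV => ((h_qz q Cu C0 ε0 b j z E hb B hB1).1 hP.hz V hV).1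
    have a0 := rgq_ea0 (q.l j) (cf θ) B
    have hH : q.h ^ 2 + Cu ≤ q.H Cu := by
      have : 0 < 1 / q.κ := by positivity
      unfold Par.H; linarith
    have h0 := sq_nonneg q.h
    have Cu0 := E.hCu
    have half : ∀ {x y : ℂ} {Y : ℝ}, ‖x‖ ≤ D → ‖y‖ ≤ 2 * Y → ‖x / 2 * y‖ ≤ D * Y :=
      fun {x y Y} h1 h2 => by
        rw [norm_mul, norm_div, Complex.norm_two]
        nlinarith [mul_le_mul h1 h2 (norm_nonneg _) D0]
    have q1 : ‖d.lam' / 2 * q.Qz b j z B (bg (q.n b) z + cf θ + v)‖ ≤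
        D * (2 * ea (q.l j) (cf θ) B + 2 * q.H Cu) := by
      refine half hS.lam.2 ?_
      rw [add_assoc]
      have := qz (cf θ + v) fun p h1 h2 => by simp [cf, zdir_ring hP.dir h2, v2 p h1 h2]
      linarith [rgq_ea_add (q.l j) (cf θ) v B]
    have e1 := (hS.e B hB).1
    have DH : 0 ≤ D * q.H Cu := mul_nonneg D0 (zero_le_one.trans E.H1)
    refine ⟨?_, fun ω => ?_⟩
    · have := norm_sub_le_of_le (norm_neg (d.e B) ▸ e1) q1
      linarith
    · have b0 := rgq_ea0 (q.l j) (cf (zeta q.L (q.n b) j ω)) B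
      have q2 : ‖-d.lam / 2 * q.Qz b j z B (bg (q.n b) z + cf θ + v +
          cf (zeta q.L (q.n b) j ω))‖ ≤ D * (2 * ea (q.l j) (cf θ) B +
            4 * ea (q.l j) (cf (zeta q.L (q.n b) j ω)) B + 4 * q.H Cu) := by
        refine half (norm_neg d.lam ▸ hS.lam.1) ?_
        rw [add_assoc, add_assoc]
        have := qz (cf θ + (v + cf (zeta q.L (q.n b) j ω))) fun p h1 h2 => by
          simp [cf, zdir_ring hP.dir h2, v2 p h1 h2, zdir_ring (hdir ω).1 h2]
        linarith [rgq_ea_add (q.l j) (cf θ) (v + cf (zeta q.L (q.n b) j ω)) B,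
          rgq_ea_add (q.l j) v (cf (zeta q.L (q.n b) j ω)) B]
      have q3 : ‖q.dm b j z (bg (q.n b) z + cf θ + v) d ω B‖ ≤ D * (5 * ea (q.l j) (cf θ) B +
          5 * ea (q.l j) (cf (zeta q.L (q.n b) j ω)) B + 10 * q.H Cu) := by
        have := norm_add_le_of_le (norm_add_le_of_le q2 e1) q1
        unfold Par.dm
        nlinarith [mul_nonneg D0 a0, mul_nonneg D0 b0]
      refine ⟨q3, rgq_exp q3 D0 a0 b0 E.H1 κ0 E.hκ.2 ?_ ?_⟩
      · have g1 : 1 ≤ q.g Cu := le_trans (by norm_num) E.g8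
        rw [le_div_iff₀ (by positivity)] at hD
        nlinarith [mul_nonneg D0 (zero_le_one.trans g1)]
      · have := one_le_pow₀ (n := 2) E.L1'
        rw [Par.g, mul_div_cancel₀ _ κ0.ne', c0]
        nlinarith [E.H1]
  · exact (((((rgq_mEn _).comp (rgq_mcf hme.1 Θ)).sub_const _).const_mul _).add_const _).add_const _
  · have := (hS.K X hX hs).2 _ (zdir_add hP.dir (hdir ω).1) v
      (st X fun B hB => (mem_filter.1 (hs hB)).2).1
    convert this using 3
    ext y; simp only [cf, Pi.add_apply]; push_cast; ring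

end Pool.Agent.Lib.MP_9cc147_pr.Cx
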