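import Pool.Agent.Lib.MP_9cc147_pr.Cx.Rg.S

/-! Schwarz lemma forms used in the renormalisation step. -/

open scoped Classical Topology
open Filter Metric

noncomputable section
namespace Pool.Agent.Lib.MP_9cc147_pr.Cx

lemma rgsch_maps {f : ℂ → ℂ} {ρ K : ℝ} (h : ∀ t ∈ ball (0 : ℂ) ρ, ‖f t - f 0‖ ≤ K) :
    Set.MapsTo f (ball 0 ρ) (closedBall (f 0) K) := fun t ht => by
  rw [mem_closedBall, dist_eq_norm]; exact h t ht

lemma rgsch_two {f : ℂ → ℂ} {ρ M : ℝ} (hρ : 0 < ρ) (h : ∀ t ∈ ball (0 : ℂ) ρ, ‖f t‖ ≤ M) :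
    ∀ t ∈ ball (0 : ℂ) ρ, ‖f t - f 0‖ ≤ 2 * M := fun t ht => by
  have h1 := h t ht
  have h2 := h 0 (mem_ball_self hρ)
  have h3 := norm_sub_le (f t) (f 0)
  linarith

lemma rgsch_one {f : ℂ → ℂ} {ρ K : ℝ} {s : ℂ} (hd : DifferentiableOn ℂ f (ball 0 ρ))
    (h : ∀ t ∈ ball (0 : ℂ) ρ, ‖f t - f 0‖ ≤ K) (hs : ‖s‖ < ρ) :
    ‖f s - f 0‖ ≤ K * (‖s‖ / ρ) := by
  have h1 := Complex.dist_le_div_mul_dist_of_mapsTo_ball hd (rgsch_maps h)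
    (mem_ball_zero_iff.2 hs)
  rw [dist_eq_norm, dist_zero_right] at h1
  refine h1.trans (le_of_eq ?_)
  ring

lemma rgsch_ds0 {f : ℂ → ℂ} {ρ : ℝ} (hρ : 0 < ρ)
    (he : ∀ t ∈ ball (0 : ℂ) ρ, f (-t) = f t) : dslope f 0 0 = 0 := by
  rw [dslope_same]
  have h1 : (fun t => f (-t)) =ᶠ[𝓝 0] f := by
    filter_upwards [ball_mem_nhds (0 : ℂ) hρ] with t ht using he t ht
  have h2 := h1.deriv_eq
  rw [deriv_comp_neg, neg_zero] at h2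
  linear_combination (-1 / 2 : ℂ) * h2

lemma rgsch_mul (f : ℂ → ℂ) (s : ℂ) : f s - f 0 = s * dslope f 0 s := by
  have h := sub_smul_dslope f 0 s
  rw [sub_zero, smul_eq_mul] at h
  exact h.symm

lemma rgsch_even {f : ℂ → ℂ} {ρ K : ℝ} {s : ℂ} (hd : DifferentiableOn ℂ f (ball 0 ρ))
    (h : ∀ t ∈ ball (0 : ℂ) ρ, ‖f t - f 0‖ ≤ K) (he : ∀ t ∈ ball (0 : ℂ) ρ, f (-t) = f t)
    (hs : ‖s‖ < ρ) : ‖f s - f 0‖ ≤ K * (‖s‖ / ρ) ^ 2 := by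
  have hρ : 0 < ρ := (norm_nonneg s).trans_lt hs
  have hg : DifferentiableOn ℂ (dslope f 0) (ball 0 ρ) :=
    (Complex.differentiableOn_dslope (ball_mem_nhds _ hρ)).2 hd
  have h0 := rgsch_ds0 hρ he
  have hb : ∀ t ∈ ball (0 : ℂ) ρ, ‖dslope f 0 t - dslope f 0 0‖ ≤ K / ρ := fun t ht => by
    rw [h0, sub_zero]
    exact Complex.norm_dslope_le_div_of_mapsTo_ball hd (rgsch_maps h) ht
  have h1 := rgsch_one hg hb hs
  rw [h0, sub_zero] at h1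
  rw [rgsch_mul f s, norm_mul]
  calc ‖s‖ * ‖dslope f 0 s‖ ≤ ‖s‖ * (K / ρ * (‖s‖ / ρ)) :=
        mul_le_mul_of_nonneg_left h1 (norm_nonneg s)
    _ = K * (‖s‖ / ρ) ^ 2 := by ring

/-- an even bounded function is `f 0 + s ^ 2 * G s` with `G` nearly constant -/
lemma rgsch_G {f : ℂ → ℂ} {ρ K : ℝ} (hρ : 0 < ρ) (hd : DifferentiableOn ℂ f (ball 0 ρ))
    (h : ∀ t ∈ ball (0 : ℂ) ρ, ‖f t - f 0‖ ≤ K) (he : ∀ t ∈ ball (0 : ℂ) ρ, f (-t) = f t) :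
    ∃ G : ℂ → ℂ, (∀ s, f s - f 0 = s ^ 2 * G s) ∧
      ∀ s, ‖s‖ < ρ → ‖G s - G 0‖ ≤ 2 * (K / ρ / ρ) * (‖s‖ / ρ) ^ 2 := by
  have hg : DifferentiableOn ℂ (dslope f 0) (ball 0 ρ) :=
    (Complex.differentiableOn_dslope (ball_mem_nhds _ hρ)).2 hd
  have hG : DifferentiableOn ℂ (dslope (dslope f 0) 0) (ball 0 ρ) :=
    (Complex.differentiableOn_dslope (ball_mem_nhds _ hρ)).2 hg
  have h0 := rgsch_ds0 hρ he
  have hb : ∀ t ∈ ball (0 : ℂ) ρ, ‖dslope f 0 t - dslope f 0 0‖ ≤ K / ρ := fun t ht => by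
    rw [h0, sub_zero]
    exact Complex.norm_dslope_le_div_of_mapsTo_ball hd (rgsch_maps h) ht
  have hid : ∀ s, f s - f 0 = s ^ 2 * dslope (dslope f 0) 0 s := fun s => by
    have h1 := rgsch_mul (dslope f 0) s
    rw [h0, sub_zero] at h1
    rw [rgsch_mul f s, h1]; ring
  refine ⟨dslope (dslope f 0) 0, hid, fun s hs => ?_⟩
  refine rgsch_even hG (rgsch_two hρ fun t ht =>
    Complex.norm_dslope_le_div_of_mapsTo_ball hg (rgsch_maps hb) ht) (fun t ht => ?_) hs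
  rcases eq_or_ne t 0 with rfl | ht0
  · rw [neg_zero]
  · have h1 := hid t
    have h2 := hid (-t)
    rw [he t ht, h1, neg_sq] at h2
    exact (mul_left_cancel₀ (pow_ne_zero 2 ht0) h2).symm

theorem t_rg_sch : S_rg_sch := by
  refine ⟨fun f ρ M s hd hb hs => ?_, fun F ρ1 ρ2 M s t h1 h2 hb hs ht => ?_,
    fun F ρ M w y hd hb hw hwρ hy1 hy2 => ?_⟩
  · have hρ : 0 < ρ := (norm_nonneg s).trans_lt hs
    exact ⟨rgsch_one hd (rgsch_two hρ hb) hs, fun he => rgsch_even hd (rgsch_two hρ hb) he hs⟩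
  · have hρ1 : 0 < ρ1 := (norm_nonneg s).trans_lt hs
    have hρ2 : 0 < ρ2 := (norm_nonneg t).trans_lt ht
    have hd : DifferentiableOn ℂ (fun s => F s t - F s 0) (ball 0 ρ1) :=
      (h1 t (mem_ball_zero_iff.2 ht)).sub (h1 0 (mem_ball_self hρ2))
    have hb' : ∀ s' ∈ ball (0 : ℂ) ρ1, ‖F s' t - F s' 0‖ ≤ 2 * M * (‖t‖ / ρ2) := fun s' hs' =>
      rgsch_one (h2 s' hs') (rgsch_two hρ2 (hb s' hs')) ht
    have h3 := rgsch_one hd (rgsch_two (f := fun s => F s t - F s 0) hρ1 hb') hs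
    have e : F s t - F s 0 - F 0 t + F 0 0 = F s t - F s 0 - (F 0 t - F 0 0) := by ring
    rw [e]
    refine h3.trans (le_of_eq ?_)
    ring
  · obtain ⟨y1, y2⟩ := y
    dsimp only at hy1 hy2 ⊢
    have hρ : 0 < ρ := hw.trans hwρ
    have h0 : ‖(0 : ℂ)‖ < ρ := by rw [norm_zero]; exact hρ
    have hM : 0 ≤ M := (norm_nonneg _).trans (hb (0, 0) h0 h0).1
    -- the mixed part
    have hd1 : DifferentiableOn ℂ (fun s => F (s, y2) - F (s, 0)) (ball 0 ρ) :=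
      (hd y2 (mem_ball_zero_iff.2 hy2)).1.sub (hd 0 (mem_ball_self hρ)).1
    have hb1 : ∀ s ∈ ball (0 : ℂ) ρ, ‖F (s, y2) - F (s, 0)‖ ≤ 2 * M * (‖y2‖ / ρ) ^ 2 :=
      fun s hs => rgsch_even (f := fun t => F (s, t)) (hd s hs).2
        (rgsch_two (f := fun t => F (s, t)) hρ fun t ht =>
          (hb (s, t) (mem_ball_zero_iff.1 hs) (mem_ball_zero_iff.1 ht)).1)
        (fun t ht => (hb (s, t) (mem_ball_zero_iff.1 hs) (mem_ball_zero_iff.1 ht)).2.2.1) hy2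
    have hmix := rgsch_even hd1 (rgsch_two (f := fun s => F (s, y2) - F (s, 0)) hρ hb1)
      (fun s hs => by
        have e1 := (hb (s, y2) (mem_ball_zero_iff.1 hs) hy2).2.1
        have e2 := (hb (s, 0) (mem_ball_zero_iff.1 hs) h0).2.1
        dsimp only at e1 e2 ⊢
        rw [e1, e2]) hy1
    -- the axis part
    obtain ⟨G, hG1, hG2⟩ := rgsch_G (f := fun s => F (s, 0)) hρ (hd 0 (mem_ball_self hρ)).1
      (rgsch_two (f := fun s => F (s, 0)) hρ fun s hs =>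
        (hb (s, 0) (mem_ball_zero_iff.1 hs) h0).1)
      (fun s hs => (hb (s, 0) (mem_ball_zero_iff.1 hs) h0).2.1)
    have hwn : ‖(w : ℂ)‖ = w := by rw [Complex.norm_real, Real.norm_eq_abs, abs_of_pos hw]
    have hw0 : (w : ℂ) ≠ 0 := by exact_mod_cast hw.ne'
    have hsw : F (0, y2) = F (y2, 0) := (hb (y2, 0) hy2 h0).2.2.2
    have e1 := hG1 y1
    have e2 := hG1 y2
    have e3 := hG1 w
    have g1 := hG2 y1 hy1
    have g2 := hG2 y2 hy2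
    have g3 := hG2 w (by rw [hwn]; exact hwρ)
    rw [hwn] at g3
    have hz : (0 : ℂ × ℂ) = (0, 0) := rfl
    have e4 : (F (w, 0) - F (0, 0)) / (w : ℂ) ^ 2 = G w := by
      rw [e3]; field_simp
    rw [hz, e4]
    have e5 : F (y1, y2) - F (0, 0) - G w * (y1 ^ 2 + y2 ^ 2) =
        (F (y1, y2) - F (y1, 0) - (F (0, y2) - F (0, 0))) +
          y1 ^ 2 * ((G y1 - G 0) - (G w - G 0)) + y2 ^ 2 * ((G y2 - G 0) - (G w - G 0)) := by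
      rw [hsw]; linear_combination e1 + e2
    rw [e5]
    have n1 : ‖y1 ^ 2 * ((G y1 - G 0) - (G w - G 0))‖ ≤ ‖y1‖ ^ 2 *
        (2 * (2 * M / ρ / ρ) * (‖y1‖ / ρ) ^ 2 + 2 * (2 * M / ρ / ρ) * (w / ρ) ^ 2) := by
      rw [norm_mul, norm_pow]
      exact mul_le_mul_of_nonneg_left ((norm_sub_le _ _).trans (add_le_add g1 g3)) (by positivity)
    have n2 : ‖y2 ^ 2 * ((G y2 - G 0) - (G w - G 0))‖ ≤ ‖y2‖ ^ 2 *
        (2 * (2 * M / ρ / ρ) * (‖y2‖ / ρ) ^ 2 + 2 * (2 * M / ρ / ρ) * (w / ρ) ^ 2) := by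
      rw [norm_mul, norm_pow]
      exact mul_le_mul_of_nonneg_left ((norm_sub_le _ _).trans (add_le_add g2 g3)) (by positivity)
    refine (norm_add₃_le.trans (add_le_add (add_le_add hmix n1) n2)).trans ?_
    obtain ⟨a, ha⟩ : ∃ a, a = ‖y1‖ ^ 2 / ρ ^ 2 := ⟨_, rfl⟩
    obtain ⟨b, hb2⟩ : ∃ b, b = ‖y2‖ ^ 2 / ρ ^ 2 := ⟨_, rfl⟩
    obtain ⟨c, hc⟩ : ∃ c, c = w ^ 2 / ρ ^ 2 := ⟨_, rfl⟩
    have ha0 : 0 ≤ a := by rw [ha]; positivity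
    have hb0 : 0 ≤ b := by rw [hb2]; positivity
    have hc0 : 0 ≤ c := by rw [hc]; positivity
    have l1 : 2 * (2 * M * (‖y2‖ / ρ) ^ 2) * (‖y1‖ / ρ) ^ 2 +
        ‖y1‖ ^ 2 * (2 * (2 * M / ρ / ρ) * (‖y1‖ / ρ) ^ 2 + 2 * (2 * M / ρ / ρ) * (w / ρ) ^ 2) +
        ‖y2‖ ^ 2 * (2 * (2 * M / ρ / ρ) * (‖y2‖ / ρ) ^ 2 + 2 * (2 * M / ρ / ρ) * (w / ρ) ^ 2) =
        M * (4 * (a * b + a * (a + c) + b * (b + c))) := by
      rw [ha, hb2, hc]; field_simp; ring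
    have l2 : 40 * M * ((‖y1‖ ^ 2 + ‖y2‖ ^ 2) / ρ ^ 2) *
        ((‖y1‖ ^ 2 + ‖y2‖ ^ 2) / ρ ^ 2 + w ^ 2 / ρ ^ 2) = M * (40 * ((a + b) * (a + b + c))) := by
      rw [ha, hb2, hc]; ring
    rw [l1, l2]
    refine mul_le_mul_of_nonneg_left ?_ hM
    nlinarith [mul_nonneg ha0 hb0, mul_nonneg ha0 hc0, mul_nonneg hb0 hc0, mul_nonneg ha0 ha0,
      mul_nonneg hb0 hb0]

end Pool.Agent.Lib.MP_9cc147_pr.Cx
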