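import Pool.Agent.Lib.MP_9cc147_pr.Cx.Rg.Kit
import Pool.Agent.Lib.MP_9cc147_pr.Cx.A.Geo

/-! Strips on finer blocks, small polymers at a block, and the majorant of the noise. -/

open scoped Classical Topology
open Finset MeasureTheory ProbabilityTheory Filter

noncomputable section
namespace Pool.Agent.Lib.MP_9cc147_pr.Cx

theorem rgstr_nb {L l : ℕ} (hL : 1000 ≤ L) (hl : 100 ≤ l) {B B0 B' : P} (h0 : B0 ∈ cell L B')
    (h : nr 4 B0 B) : nb l B ⊆ nb (L * l) B' := by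
  intro x hx
  have hw : 6 * (l : ℤ) ≤ ((L * l / 4 : ℕ) : ℤ) := by
    have : 1000 * l ≤ L * l := Nat.mul_le_mul_right l hL
    exact_mod_cast (by omega : 6 * l ≤ L * l / 4)
  have hw' : ((l / 4 : ℕ) : ℤ) ≤ l := by exact_mod_cast Nat.div_le_self l 4
  have hl0 : (0 : ℤ) ≤ l := by positivity
  have key : ∀ b b0 b' y : ℤ, b' * L ≤ b0 → b0 < (b' + 1) * L → |b0 - b| ≤ (4 : ℕ) →
      b * l - (l / 4 : ℕ) ≤ y → y ≤ (b + 1) * l + (l / 4 : ℕ) →
      b' * (L * l : ℕ) - (L * l / 4 : ℕ) ≤ y ∧ y ≤ (b' + 1) * (L * l : ℕ) + (L * l / 4 : ℕ) :=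
    fun b b0 b' y h1 h2 h3 h4 h5 => by
      rw [abs_le] at h3
      have a1 : (b' * L - 4) * l ≤ b * l := mul_le_mul_of_nonneg_right (by omega) hl0
      have a2 : (b + 1) * l ≤ ((b' + 1) * L + 4) * l := mul_le_mul_of_nonneg_right (by omega) hl0
      rw [Nat.cast_mul]
      constructor <;> nlinarith
  simp only [nb, fat, cell, mem_product, mem_Icc, mem_Ico] at hx h0 ⊢
  exact ⟨key _ _ _ _ h0.1.1 h0.1.2 h.1 hx.1.1 hx.1.2, key _ _ _ _ h0.2.1 h0.2.2 h.2 hx.2.1 hx.2.2⟩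

theorem rgstr_n1 (v : Fld) (x : P) : 0 ≤ n1 v x := by unfold n1; positivity
theorem rgstr_n2 (v : Fld) (x : P) : 0 ≤ n2 v x := by unfold n2; positivity

theorem rgstr_Nf {l l' : ℕ} (hl : l ≤ l') (v : Fld) {S S' : Finset P} (h : S ⊆ S') :
    Nf l v S ≤ Nf l' v S' := by
  have h1 : ((l : ℝ)) ^ 2 ≤ (l' : ℝ) ^ 2 := by exact_mod_cast Nat.pow_le_pow_left hl 2
  refine (sum_le_sum fun p _ => add_le_add le_rfl
    (mul_le_mul_of_nonneg_right h1 (rgstr_n2 v p))).trans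
    (sum_le_sum_of_subset_of_nonneg h fun p _ _ => ?_)
  have := rgstr_n1 v p
  have := rgstr_n2 v p
  positivity

theorem rgstr_fat (l : ℕ) (B : P) : cell l B ⊆ nb l B ∧ fat l 0 B ⊆ nb l B := by
  constructor <;> intro x hx <;>
    simp only [nb, fat, cell, mem_product, mem_Icc, mem_Ico] at hx ⊢ <;> omega

theorem t_rg_str : S_rg_str := by
  intro n L l h h' v hL hl
  refine ⟨fun U X hS hX => ?_, fun X h1 h2 h3 => ⟨h1, h2, ?_⟩⟩
  · have k : ∀ B ∈ X, ∃ B' ∈ U, nb l B ⊆ nb (L * l) B' := fun B hB => by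
      obtain ⟨B0, h0, h1⟩ := hX B hB
      obtain ⟨B', h2, h3⟩ := mem_biUnion.1 h0
      exact ⟨B', h2, rgstr_nb hL hl h3 h1⟩
    have k2 : nbs l X ⊆ nbs (L * l) U := fun p hp => by
      obtain ⟨B, hB, hp⟩ := mem_biUnion.1 hp
      obtain ⟨B', h2, h3⟩ := k B hB
      exact mem_biUnion.2 ⟨B', h2, h3 hp⟩
    have k3 : ∀ B ∈ X, Nf l v (nb l B) ≤ h ^ 2 := fun B hB => by
      obtain ⟨B', h2, h3⟩ := k B hB
      exact (rgstr_Nf (Nat.le_mul_of_pos_left l (by omega)) v h3).trans (hS.1 B' h2)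
    obtain ⟨c, c1, c2⟩ := hS.2.2
    refine ⟨⟨k3, fun p hp => hS.2.1 p (k2 hp), c,
      fun hn => c1 (hn.mono (inter_subset_inter_right k2)), fun p hp => c2 p (k2 hp)⟩,
      fun B hB => ⟨le_trans ?_ (k3 B hB), fun p hp =>
        hS.2.1 p (k2 (mem_biUnion.2 ⟨B, hB, (rgstr_fat l B).2 hp⟩))⟩⟩
    refine (sum_le_sum fun p _ => le_add_of_nonneg_right ?_).trans
      (sum_le_sum_of_subset_of_nonneg (rgstr_fat l B).1 fun p _ _ => ?_)
    · have := rgstr_n2 v p
      positivity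
    · have := rgstr_n1 v p
      have := rgstr_n2 v p
      positivity
  · by_cases hn : (nbs l X ∩ ring n).Nonempty
    · obtain ⟨p0, hp0⟩ := hn
      rw [mem_inter] at hp0
      exact ⟨0, fun _ => rfl, fun p hp => h2 p0 hp0.1 hp0.2 ▸ h3 p hp p0 hp0.1⟩
    · rcases (nbs l X).eq_empty_or_nonempty with he | ⟨p0, hp0⟩
      · exact ⟨0, fun _ => rfl, fun p hp => by simp [he] at hp⟩
      · exact ⟨v p0, fun h => absurd h hn, fun p hp => h3 p hp p0 hp0⟩

theorem t_rg_sm : S_rg_sm := by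
  intro R B A hA
  have A0 : 0 < A := lt_of_lt_of_le (by positivity) hA
  have A1 : 1 ≤ A := le_trans (by norm_num) hA
  have k : ∀ X ∈ smalls R B, X ⊆ nbh 3 B ∧ X ⊆ near 3 R {B} := fun X hX => by
    obtain ⟨h1, h2, h3, h4⟩ := mem_filter.1 hX
    have e : ∀ a ∈ X, nr 3 B a := fun a ha => geo_nr_mono (geo_diam h2 h3 ha) (by omega)
    refine ⟨fun a ha => ?_, fun a ha => mem_filter.2
      ⟨mem_powerset.1 h1 ha, B, mem_singleton_self _, e a ha⟩⟩
    have := geo_nr_iff.1 (e a ha)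
    simp only [nbh, mem_product, mem_Icc]
    omega
  have c49 : (nbh 3 B).card = 49 := by
    simp only [nbh, card_product, Int.card_Icc]
    rw [show B.1 + (3 : ℕ) + 1 - (B.1 - (3 : ℕ)) = 7 by omega,
      show B.2 + (3 : ℕ) + 1 - (B.2 - (3 : ℕ)) = 7 by omega]
    rfl
  have k2 : (smalls R B).card ≤ 2 ^ 49 := by
    rw [← c49, ← card_powerset]
    exact card_le_card fun X hX => mem_powerset.2 (k X hX).1
  refine ⟨k, k2, ?_⟩
  have i0 : 0 ≤ A⁻¹ := inv_nonneg.2 A0.le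
  have i1 : A⁻¹ ≤ 1 := inv_le_one_of_one_le₀ A1
  have k3 : ∀ X ∈ smalls R B, A⁻¹ ^ X.card ≤ (if X = {B} then A⁻¹ else 0) + A⁻¹ ^ 2 :=
    fun X hX => by
      obtain ⟨-, -, h3, -⟩ := mem_filter.1 hX
      split_ifs with h
      · rw [h, card_singleton, pow_one]
        exact le_add_of_nonneg_right (sq_nonneg _)
      · rw [zero_add]
        refine pow_le_pow_of_le_one i0 i1 ?_
        by_contra hc
        exact h (eq_singleton_iff_unique_mem.2
          ⟨h3, fun x hx => card_le_one.1 (by omega) x hx B h3⟩)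
  refine (sum_le_sum k3).trans ?_
  rw [sum_add_distrib, sum_ite_eq', sum_const, nsmul_eq_mul]
  have k4 : ((smalls R B).card : ℝ) ≤ A := by
    have : ((smalls R B).card : ℝ) ≤ 2 ^ 49 := by exact_mod_cast k2
    exact this.trans (le_trans (by norm_num) hA)
  have k5 : ((smalls R B).card : ℝ) * A⁻¹ ^ 2 ≤ A⁻¹ := by
    calc _ ≤ A * A⁻¹ ^ 2 := mul_le_mul_of_nonneg_right k4 (sq_nonneg _)
      _ = A⁻¹ := by field_simp
  have k6 : (if {B} ∈ smalls R B then A⁻¹ else 0) ≤ A⁻¹ := by split_ifs <;> simp [i0]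
  rw [div_eq_mul_inv]
  linarith

theorem rgstr_pcs {R X : Finset P} {c : P → Sf} (h : X ∈ pcs R c) : X ⊆ R := by
  obtain ⟨s, -, hs⟩ := mem_biUnion.1 h
  exact (geo_comps_sub hs).trans (filter_subset _ _)

theorem rgstr_prod (J : Finset (Finset P)) {p A : ℝ} (hp : 0 ≤ p) (hA : 0 < A) :
    (∏ X ∈ J, p * A⁻¹ ^ X.card) * 2 ^ ∑ X ∈ J, X.card ≤ ∏ X ∈ J, p * (A / 16)⁻¹ ^ X.card := by
  rw [← prod_pow_eq_pow_sum, ← prod_mul_distrib]
  refine prod_le_prod (fun X _ => by positivity) fun X _ => ?_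
  rw [mul_assoc, ← mul_pow]
  refine mul_le_mul_of_nonneg_left (pow_le_pow_left₀ (by positivity) ?_ _) hp
  rw [inv_div, div_eq_mul_inv]
  have := inv_pos.2 hA
  linarith

theorem t_rg_y : S_rg_y := by
  intro q Cu C0 ε0 b j E hb
  refine ⟨fun S hS => (E.zm b j hb.pred).1 S hS, fun U c a p β ha hp hβ => ⟨?_, ?_⟩⟩
  · have h : reg q.L (box (q.m b (j + 1))) U ⊆ box (q.m b j) := by
      rw [Par.m_succ q hb.pred.2.1, ← f_under_box E.L1]
      exact geo_under_mono (filter_subset _ _)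
    refine Subset.trans (union_subset (union_subset (filter_subset _ _) ?_) (filter_subset _ _)) h
    exact biUnion_subset.2 fun X hX => rgstr_pcs hX
  · set R := reg q.L (box (q.m b (j + 1))) U
    have A0 := E.Apos
    have h1 : (bad R (red c)).card ≤ ∑ X ∈ comps (bad R (red c)), X.card :=
      (card_le_card fun x hx => mem_biUnion.2 ⟨_, geo_comp_mem hx, geo_self_comp hx⟩).trans
        (card_biUnion_le (t := id))
    have h2 : (Sc R c).card ≤ (kind R c 1).card + ∑ X ∈ pcs R c, X.card +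
        ∑ X ∈ comps (bad R (red c)), X.card :=
      (card_union_le _ _).trans (add_le_add ((card_union_le _ _).trans
        (add_le_add le_rfl (card_biUnion_le (t := id)))) h1)
    have h3 : (2 : ℝ) ^ (Sc R c).card ≤ _ := pow_le_pow_right₀ (by norm_num) h2
    have n1' : 0 ≤ ∏ X ∈ pcs R c, p * q.A⁻¹ ^ X.card := prod_nonneg fun X _ => by positivity
    have n2' : 0 ≤ ∏ X ∈ comps (bad R (red c)), β * q.A⁻¹ ^ X.card :=
      prod_nonneg fun X _ => by positivity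
    unfold aw
    calc _ ≤ _ := mul_le_mul_of_nonneg_left h3 (by positivity)
      _ = (2 * a) ^ (kind R c 1).card *
          ((∏ X ∈ pcs R c, p * q.A⁻¹ ^ X.card) * 2 ^ ∑ X ∈ pcs R c, X.card) *
          ((∏ X ∈ comps (bad R (red c)), β * q.A⁻¹ ^ X.card) *
            2 ^ ∑ X ∈ comps (bad R (red c)), X.card) := by
        rw [pow_add, pow_add, mul_pow]
        ring
      _ ≤ _ := mul_le_mul (mul_le_mul_of_nonneg_left (rgstr_prod _ hp A0) (by positivity))
          (rgstr_prod _ hβ A0) (by positivity)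
          (mul_nonneg (by positivity) (prod_nonneg fun X _ => by positivity))

end Pool.Agent.Lib.MP_9cc147_pr.Cx
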