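import Pool.Agent.Lib.MP_9cc147_pr.Cx.Rg.Kit

/-! The contraction estimate from its steps. -/

open scoped Classical Topology
open Finset MeasureTheory ProbabilityTheory Filter

noncomputable section
namespace Pool.Agent.Lib.MP_9cc147_pr.Cx

theorem rgk_prob : IsProbabilityMeasure PP := by unfold PP; infer_instance

section
variable {q : Par} {Cu C0 ε0 t0 α ν ρ ν' ρ' δ : ℝ} {j : ℕ} {x y : State} {s : Lab} {b : ℕ × ℕ}
  {z : ℂ} {θ : P → ℝ} {v : Fld}

theorem rgk_near {R U : Finset P} {B : P} (hB : B ∈ U) : near 4 R {B} ⊆ near 8 R U := by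
  intro a ha
  obtain ⟨h1, c, hc, h2⟩ := mem_filter.1 ha
  rw [mem_singleton] at hc
  subst hc
  exact mem_filter.2 ⟨h1, c, hB, h2.1.trans (by norm_num), h2.2.trans (by norm_num)⟩

theorem rgk_near3 {R X : Finset P} {B : P} (h : X ⊆ near 3 R {B}) :
    X ⊆ near 4 R {B} ∧ ∀ a ∈ X, nr 4 B a := by
  have k : ∀ a ∈ X, a ∈ R ∧ nr 4 B a := fun a ha => by
    obtain ⟨h1, c, hc, h2⟩ := mem_filter.1 (h ha)
    rw [mem_singleton] at hc
    subst hc
    exact ⟨h1, h2.1.trans (by norm_num), h2.2.trans (by norm_num)⟩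
  exact ⟨fun a ha => mem_filter.2 ⟨(k a ha).1, B, mem_singleton_self _, (k a ha).2⟩,
    fun a ha => (k a ha).2⟩

/-- mean of the linear part on one block -/
theorem rgk_blk (h_qz : S_rg_qz) (h_g : S_rg_g) (h_dif : S_rg_dif) (h_sm : S_rg_sm)
    (h_str : S_rg_str) (E : q.Env Cu C0 ε0) (hx : q.Good t0 j x α ν ρ)
    (hy : q.Good t0 j y α ν' ρ') (hδ : 0 ≤ δ) (hz : ‖z‖ ≤ t0) {B' B : P}
    (pt : q.Pt b j z {B'} θ v) (hB : B ∈ cell q.L B')
    (hd : q.Dif t0 j x y s b (near 4 (box (q.m b j)) {B}) δ) :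
    Integrable (fun ω => q.dm b j z (bg (q.n b) z + cf θ + v)
        ((q.dat j x b z s).sub (q.dat j y b z s)) ω B + ∑ X ∈ smalls (box (q.m b j)) B,
      ((q.dat j x b z s).sub (q.dat j y b z s)).K X
        (bg (q.n b) z + cf θ + v + cf (zeta q.L (q.n b) j ω)) / X.card) PP ∧
    ∫ ω, (q.dm b j z (bg (q.n b) z + cf θ + v)
        ((q.dat j x b z s).sub (q.dat j y b z s)) ω B + ∑ X ∈ smalls (box (q.m b j)) B,
      ((q.dat j x b z s).sub (q.dat j y b z s)).K X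
        (bg (q.n b) z + cf θ + v + cf (zeta q.L (q.n b) j ω)) / X.card) ∂PP =
      ((q.dl j ((x.a (1, j + 1) 0).K s) - q.dl j ((y.a (1, j + 1) 0).K s) : ℝ) / 2 : ℂ) *
        q.Qz b j z B (bg (q.n b) z + cf θ + v) +
      q.RB b j z (Par.dK x y b s z) B (bg (q.n b) z + cf θ + v) := by
  haveI := rgk_prob
  have hb := pt.hok.pred
  have hBu : B ∈ under q.L {B'} := by rwa [rg_under_one]
  have hBb : B ∈ box (q.m b j) := pt.under_sub E hBu
  set Θ := bg (q.n b) z + cf θ + v with hΘ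
  obtain ⟨i1, e1⟩ := (h_qz q Cu C0 ε0 b j z E hb B hBb).2.2 Θ
  have e2 := (((h_dif q Cu C0 ε0 t0 j x y α ν ρ ν' ρ' s δ b E hx hy hδ hb B hBb hd).2.1) z hz).1
  have i2 : ∀ X ∈ smalls (box (q.m b j)) B, Integrable (fun ω =>
      Par.dK x y b s z X (Θ + cf (zeta q.L (q.n b) j ω)) / X.card) PP := by
    intro X hX
    obtain ⟨k1, k2⟩ := rgk_near3 ((h_sm _ B q.A E.A60).1 X hX).2
    obtain ⟨p1, -, p3⟩ := rg_smalls_pm hX
    have st := pt.str
    rw [q.l_succ] at st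
    have st' := ((h_str (q.n b) q.L (q.l j) q.h (q.L * q.h) v E.L1000 (E.l100 j)).1 {B'} X st
      fun a ha => ⟨B, hBu, k2 a ha⟩).1
    have := E.Apos
    exact ((h_g q Cu C0 ε0 t0 b j X _ _ E hb p1 p3 (by positivity)
      (Par.act1_dK hx.str hy.str hb p1 k1 hd)).2 z hz θ pt.dir v st').div_const _
  have i3 := integrable_finsetSum _ i2
  have i0 : Integrable (fun ω => q.dm b j z Θ ((q.dat j x b z s).sub (q.dat j y b z s)) ω B) PP :=
    ((i1.const_mul _).add (integrable_const _)).add (integrable_const _)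
  refine ⟨i0.add i3, ?_⟩
  have e3 : ∫ ω, q.dm b j z Θ ((q.dat j x b z s).sub (q.dat j y b z s)) ω B ∂PP =
      -((x.lam s : ℂ) - y.lam s) / 2 * q.Ez b j (q.Qz b j z B) Θ +
        (q.e j x b z s B - q.e j y b z s B) +
        ((q.lam' j x s : ℂ) - q.lam' j y s) / 2 * q.Qz b j z B Θ := by
    unfold Par.dm
    simp only [add_assoc]
    rw [integral_add (i1.const_mul _) (integrable_const _), integral_const_mul]
    simp [Par.Ez, Dat.sub, Par.dat]
  have e4 : ∫ ω, ∑ X ∈ smalls (box (q.m b j)) B,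
      Par.dK x y b s z X (Θ + cf (zeta q.L (q.n b) j ω)) / X.card ∂PP =
      ∑ X ∈ smalls (box (q.m b j)) B, q.Ez b j (Par.dK x y b s z X) Θ / X.card := by
    rw [integral_finsetSum _ i2]
    exact sum_congr rfl fun X _ => integral_div _ _
  refine (integral_add i0 i3).trans ?_
  rw [e3, e4, e1, Par.RB, e2]
  simp only [Par.e, Par.ee, Par.lam']
  push_cast
  ring

/-- the linear part contracts -/
theorem rgk_lin (h_qz : S_rg_qz) (h_g : S_rg_g) (h_dif : S_rg_dif) (h_sm : S_rg_sm)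
    (h_str : S_rg_str) (h_lin : S_rg_lin) (h_iso : S_rg_iso) (h_sz : S_rg_sz)
    (E : q.Env Cu C0 ε0) (hx : q.Good t0 j x α ν ρ)
    (hy : q.Good t0 j y α ν' ρ') (hδ : 0 ≤ δ) (hz : ‖z‖ ≤ t0) {B' : P}
    (pt : q.Pt b j z {B'} θ v) (hr : q.Dif t0 j x y s (1, j + 1) q.ref δ)
    (hd : q.Dif t0 j x y s b (near 8 (box (q.m b j)) (under q.L {B'})) δ) :
    ‖∫ ω, q.dL b j z (bg (q.n b) z + cf θ + v) B'
      ((q.dat j x b z s).sub (q.dat j y b z s)) ω ∂PP‖ ≤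
      δ / (100 * q.A) * Real.exp (q.κ * Reg (q.l (j + 1)) {B'} θ) := by
  have hb := pt.hok.pred
  have hu : ∀ B ∈ cell q.L B', B ∈ under q.L {B'} := fun B hB => by rwa [rg_under_one]
  have hd' : ∀ B ∈ cell q.L B', q.Dif t0 j x y s b (near 4 (box (q.m b j)) {B}) δ :=
    fun B hB => hd.sub (rgk_near (hu B hB))
  have k := fun B hB => rgk_blk h_qz h_g h_dif h_sm h_str E hx hy hδ hz pt hB (hd' B hB)
  have df := fun B hB => h_dif q Cu C0 ε0 t0 j x y α ν ρ ν' ρ' s δ b E hx hy hδ hb B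
    (pt.under_sub E (hu B hB)) (hd' B hB)
  have sz := (h_sz q Cu C0 ε0 t0 j x y α ν ρ ν' ρ' s δ E hx hy hδ hr).1
  unfold Par.dL
  rw [integral_finsetSum _ fun B hB => (k B hB).1, sum_congr rfl fun B hB => (k B hB).2]
  have e : q.dl j ((x.a (1, j + 1) 0).K s) - q.dl j ((y.a (1, j + 1) 0).K s) =
      -((q.qr j x s (0, 0) - q.qr j y s (0, 0)) + (q.qr j x s (1, 0) - q.qr j y s (1, 0))) /
        (q.l j : ℝ) ^ 2 := by
    simp only [Par.dl, Par.qr]
    norm_num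
    ring
  rw [e]
  refine h_lin q Cu C0 ε0 t0 b j (Par.dK x y b s) δ _ _ z B' θ v E hx.t.2 hδ hz pt
    (fun B hB => (df B hB).1) (sz _) (sz _) fun B hB hdp => ?_
  obtain ⟨s1, q1⟩ := h_iso q t0 j x b s B E.L1000 hx.str hb hdp
  obtain ⟨s2, q2⟩ := h_iso q t0 j y b s B E.L1000 hy.str hb hdp
  have f := (df B hB).2.2 hdp
  have hh := E.hpos
  have hl := E.lpos j
  have h0 : ‖(0 : ℂ)‖ < q.h / (3 * q.l j) := by rw [norm_zero]; positivity
  refine ⟨fun w w1 w2 => ?_, ?_⟩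
  · rw [f w w1 w2, f (-w.1, w.2) (by rwa [norm_neg]) w2, f (w.1, -w.2) w1 (by rwa [norm_neg]),
      f (w.2, w.1) w2 w1, (s1 w w1 w2).1, (s1 w w1 w2).2.1, (s1 w w1 w2).2.2, (s2 w w1 w2).1,
      (s2 w w1 w2).2.1, (s2 w w1 w2).2.2]
    exact ⟨rfl, rfl, rfl⟩
  · have hw : ‖((q.w0 j : ℝ) : ℂ)‖ < q.h / (3 * q.l j) := by
      have hL : (1000 : ℝ) ≤ q.L := by exact_mod_cast E.L1000
      rw [Complex.norm_real, Par.w0, Real.norm_of_nonneg (by positivity)]
      exact div_lt_div_of_pos_left hh (by positivity) (by nlinarith)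
    have e1 : q.qB b j (Par.dK x y b s 0) B =
        q.qB b j ((x.a b 0).K s) B - q.qB b j ((y.a b 0).K s) B := by
      unfold Par.qB
      rw [f (q.w0 j, 0) hw h0, f 0 h0 h0]
      ring
    rw [e1, q1, q2, ← Complex.ofReal_sub]
    congr 1
    by_cases hp : Even (B.1 + B.2)
    · simp [Par.qr, hp]
    · simp [Par.qr, hp]

end

theorem rgk_num {q : Par} {Cu C0 ε0 α δ Δ : ℝ} (E : q.Env Cu C0 ε0) (ha : 0 ≤ α) (ha' : α ≤ q.ε)
    (hδ : 0 ≤ δ) (hΔ : 0 ≤ Δ) : δ / 500 + √q.C * (2 * α) * (Δ + δ + δ) +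
      (√q.C * (2 * α) * (Δ + δ + δ) + δ / 100) ≤ δ / 16 + q.C * α * Δ := by
  have hC := E.Cpos
  set r := √q.C with hr
  have r2 : r * r = q.C := Real.mul_self_sqrt hC.le
  have r1 : 1000 ≤ r := Real.le_sqrt_of_sq_le (le_trans (by norm_num) E.Cbig)
  have h1 : α * q.C ≤ 1 := le_trans (mul_le_mul_of_nonneg_right ha' hC.le) E.hε.2
  have h2 : r * α ≤ 1 / 1000 := by
    have : r * α * 1000 ≤ r * α * r := by gcongr
    nlinarith
  have h3 : r * α * δ ≤ 1 / 1000 * δ := by gcongr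
  have h4 : 4 * (r * α * Δ) ≤ r * (r * α * Δ) := by gcongr; linarith
  have h5 : r * (r * α * Δ) = q.C * α * Δ := by rw [← r2]; ring
  nlinarith

theorem rgk_k0 (h_sone : S_one) (h_env : S_rg_env) (h_qz : S_rg_qz) (h_g : S_rg_g)
    (h_dif : S_rg_dif) (h_sm : S_rg_sm) (h_str : S_rg_str) (h_lin : S_rg_lin) (h_iso : S_rg_iso)
    (h_sz : S_rg_sz) (h_y : S_rg_y) (h_dat : S_rg_dat) (h_k0e : S_rg_k0e) (h_mul : S_rg_mul)
    (h_one : S_rg_one) : S_k0 := by
  filter_upwards [h_env] with q hq t0 j x y α ν ρ ν' ρ' s δ b z U hx hy hδ hb hz hU hr hd θ hθ v hv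
  obtain ⟨Cu, C0, ε0, E⟩ := hq
  have pt : q.Pt b j z U θ v := ⟨hb, hU, hz.trans hx.t.2, hθ, hv⟩
  obtain ⟨s1, s3⟩ := (h_sz q Cu C0 ε0 t0 j x y α ν ρ ν' ρ' s δ E hx hy hδ hr).2.2 b z U hb hz
  have s0 := ((h_sz q Cu C0 ε0 t0 j y x α ν' ρ' ν ρ s δ E hy hx hδ hr.symm).2.2 b z U hb hz).1
  have ha := hx.a.1
  replace s1 := s1.mono E le_rfl (by linarith : α ≤ 2 * α)
  replace s0 := s0.mono E le_rfl (by linarith : α ≤ 2 * α)
  replace s3 := s3 hd
  have hD : 2 * α ≤ 2 * q.ε := by linarith [hx.a.2]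
  have hg : 2 * α ≤ 1 / q.g Cu ^ 2 := E.small (by linarith [E.hε.1])
  set Θ := bg (q.n b) z + cf θ + v with hΘ
  set d1 := q.dat j x b z s
  set d0 := q.dat j y b z s
  have int : ∀ d, q.Sz Cu b j z U d (2 * α) (2 * α) → ∀ c ∈ loc0 q.L 4 (box (q.m b (j + 1))) U s,
      Integrable (fun ω => q.dw b j z Θ U d ω c) PP := by
    intro d hd c hc
    obtain ⟨m1, m2⟩ := h_dat q Cu C0 ε0 b j z U θ v d _ _ s E pt hd hg c hc
    obtain ⟨y1, y2⟩ := h_y q Cu C0 ε0 b j E hb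
    exact ((y1 _ (y2 U c 0 0 0 le_rfl le_rfl le_rfl).1).1.const_mul _).mono'
      m1.aestronglyMeasurable (.of_forall fun ω => (m2 ω).2)
  have i2 : ∀ c ∈ loc0 q.L 4 (box (q.m b (j + 1))) U s, Integrable
      (fun ω => q.dw b j z Θ U d1 ω c - q.dw b j z Θ U d0 ω c) PP :=
    fun c hc => (int d1 s1 c hc).sub (int d0 s0 c hc)
  have e1 : q.K0 j x b z s U Θ - q.K0 j y b z s U Θ = ∑ c ∈ loc0 q.L 4 (box (q.m b (j + 1))) U s,
      ∫ ω, (q.dw b j z Θ U d1 ω c - q.dw b j z Θ U d0 ω c) ∂PP := by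
    rw [h_k0e, h_k0e, integral_finsetSum _ (int d1 s1), integral_finsetSum _ (int d0 s0),
      ← sum_sub_distrib]
    exact sum_congr rfl fun c hc => (integral_sub (int d1 s1 c hc) (int d0 s0 c hc)).symm
  have m := h_mul q Cu C0 ε0 b j z U θ v d0 d1 _ _ _ s E pt s0 s1 s3 hD
  have hA := E.Apos
  have hΔ := abs_nonneg (x.lam s - y.lam s)
  have o : ‖∑ c ∈ (loc0 q.L 4 (box (q.m b (j + 1))) U s).filter (one q b j U),
      ∫ ω, (q.dw b j z Θ U d1 ω c - q.dw b j z Θ U d0 ω c) ∂PP‖ ≤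
      (√q.C * (2 * α) * (|x.lam s - y.lam s| + δ + δ) + δ / 100) * q.A⁻¹ ^ U.card *
        Real.exp (q.κ * Reg (q.l (j + 1)) U θ) := by
    by_cases hc : U.card = 1
    · obtain ⟨B', rfl⟩ := card_eq_one.1 hc
      have o1 := h_one q Cu C0 ε0 b j z B' θ v d0 d1 _ _ _ s E pt s0 s1 s3 hD
      have o2 := rgk_lin h_qz h_g h_dif h_sm h_str h_lin h_iso h_sz E hx hy hδ hz pt hr hd
      refine (norm_le_norm_sub_add _ _).trans ((add_le_add o1 o2).trans (le_of_eq ?_))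
      rw [card_singleton]
      field_simp
    · have z0 : ∀ d ω, ∑ c ∈ (loc0 q.L 4 (box (q.m b (j + 1))) U s).filter (one q b j U),
          q.dw b j z Θ U d ω c = 0 := by
        intro d ω
        have hL := E.L1000
        have := (h_sone q.L 4 (box (q.m b (j + 1))) U (by omega) hU.1 hU.2.1).2
          (fun _ => q.dI b j z Θ d) (fun _ B => Complex.exp (q.dm b j z Θ d ω B) - 1)
          (fun _ X => d.K X (Θ + cf (zeta q.L (q.n b) j ω)) / ∏ B ∈ X, q.dI b j z Θ d B) s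
        rw [if_neg hc] at this
        unfold Par.dw
        rw [← mul_sum]
        refine mul_eq_zero_of_right _ ?_
        refine Eq.trans (sum_congr ?_ fun _ _ => rfl) this
        ext c
        simp only [mem_filter, one]
      rw [← integral_finsetSum _ fun c hc => i2 c (mem_filter.1 hc).1]
      simp only [sum_sub_distrib, z0, sub_zero, integral_zero, norm_zero]
      positivity
  show ‖q.K0 j x b z s U Θ - q.K0 j y b z s U Θ‖ ≤ _
  rw [e1, ← sum_filter_add_sum_filter_not _ (one q b j U)]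
  refine (norm_add_le _ _).trans ((add_le_add o m).trans ?_)
  rw [← add_mul, ← add_mul]
  refine mul_le_mul_of_nonneg_right (mul_le_mul_of_nonneg_right ?_ (by positivity))
    (Real.exp_pos _).le
  have := rgk_num E ha hx.a.2 hδ hΔ
  linarith

end Pool.Agent.Lib.MP_9cc147_pr.Cx
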