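import Pool.Agent.Lib.MP_9cc147_pr.Cx.Rg.Kit
import Pool.Agent.Lib.MP_9cc147_pr.Cx.Rg.Fb
import Pool.Agent.Lib.MP_9cc147_pr.Cx.T.Geo2

/-! The small polymers at one block, after the subtraction of the extracted terms. -/

open scoped Classical Topology
open Finset MeasureTheory ProbabilityTheory Filter

noncomputable section
namespace Pool.Agent.Lib.MP_9cc147_pr.Cx

lemma rgblk_En (U W : Fld) (S : Finset P) : ‖En (U + W) S - En U S‖ ≤
    2 * √((∑ x ∈ S, n1 U x) * ∑ x ∈ S, n1 W x) + ∑ x ∈ S, n1 W x := by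
  have h1 : ∀ x, ‖(1 / 2 : ℂ) * ∑ d, dg (U + W) x d ^ 2 - (1 / 2) * ∑ d, dg U x d ^ 2‖ ≤
      2 * (√(n1 U x) * √(n1 W x)) + n1 W x := fun x => by
    have e : ∀ d, dg (U + W) x d ^ 2 - dg U x d ^ 2 =
        2 * (dg U x d * dg W x d) + dg W x d ^ 2 := fun d => by
      simp only [dg, Pi.add_apply]; ring
    have c := Real.sum_mul_le_sqrt_mul_sqrt univ (fun d => ‖dg U x d‖) fun d => ‖dg W x d‖
    have e1 : ∀ V : Fld, ∑ d, ‖dg V x d‖ ^ 2 = 2 * n1 V x := fun V => by rw [n1]; ring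
    rw [e1, e1, Real.sqrt_mul zero_le_two, Real.sqrt_mul zero_le_two, mul_mul_mul_comm,
      Real.mul_self_sqrt zero_le_two] at c
    rw [← mul_sub, ← sum_sub_distrib, norm_mul]
    have h2 : ‖∑ d, (dg (U + W) x d ^ 2 - dg U x d ^ 2)‖ ≤
        ∑ d, (2 * (‖dg U x d‖ * ‖dg W x d‖) + ‖dg W x d‖ ^ 2) := by
      refine (norm_sum_le _ _).trans (sum_le_sum fun d _ => ?_)
      rw [e]
      refine (norm_add_le _ _).trans_eq ?_
      rw [norm_mul, norm_mul, norm_pow, Complex.norm_two]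
    rw [sum_add_distrib, ← mul_sum, e1] at h2
    have h3 : ‖(1 / 2 : ℂ)‖ = 1 / 2 := by simp
    rw [h3]
    linarith
  rw [En, En, ← sum_sub_distrib]
  refine (norm_sum_le _ _).trans ((sum_le_sum fun x _ => h1 x).trans ?_)
  rw [sum_add_distrib, ← mul_sum, Real.sqrt_mul (sum_nonneg fun x _ => T.n1_nn U x)]
  have := Real.sum_sqrt_mul_sqrt_le S (T.n1_nn U) (T.n1_nn W)
  linarith

lemma rgblk_ea0 (l : ℕ) (V : Fld) (B : P) : 0 ≤ ea l V B := sum_nonneg fun x _ => T.n1_nn V x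
lemma rgblk_eb0 (l : ℕ) (V : Fld) (B : P) : 0 ≤ eb l V B :=
  mul_nonneg (sq_nonneg _) (sum_nonneg fun x _ => T.n2_nn V x)
lemma rgblk_self (k : ℕ) (B : P) : B ∈ nbh k B := rgfb_nbh.2 (by omega)
lemma rgblk_Nb0 (l : ℕ) (V : Fld) (B : P) : 0 ≤ Nb l V B := sum_nonneg fun _ _ => rgblk_eb0 _ _ _
lemma rgblk_ea (l : ℕ) (V : Fld) (B : P) : ea l V B ≤ Nl l V B :=
  (le_add_of_nonneg_right (rgblk_eb0 l V B)).trans (single_le_sum
    (f := fun B' => ea l V B' + eb l V B')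
    (fun _ _ => add_nonneg (rgblk_ea0 _ _ _) (rgblk_eb0 _ _ _)) (rgblk_self 7 B))

/-- a small polymer that touches both arcs sits at one of the two corners -/
lemma rgblk_spec {m : ℕ} (hm : 10 ≤ m) {B : P} {X : Finset P} (hX : X ∈ smalls (box m) B)
    (h : spec m X) : ∃ B', ab m B' ∧ nr 3 B B' := by
  obtain ⟨⟨-, h1⟩, h2, h3⟩ := rg_smalls_pm hX
  have k : ∀ a ∈ X, ∀ c ∈ X, (a.1 - c.1 ≤ 3 ∧ c.1 - a.1 ≤ 3) ∧ a.2 - c.2 ≤ 3 ∧ c.2 - a.2 ≤ 3 :=
    fun a ha c hc => by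
      have := T.conn_nr h1 h3 ha hc
      simp only [nr, abs_le] at this
      omega
  simp only [spec, sds, mem_filter, mem_univ, true_and] at h
  obtain ⟨⟨a, ha, e⟩ | ⟨a, ha, e⟩, ⟨c, hc, f⟩ | ⟨c, hc, f⟩⟩ := h
  · have e : a.1 = 0 := e
    have f : c.2 = 0 := f
    have := k B h2 a ha
    have := k B h2 c hc
    refine ⟨(0, 0), Or.inl rfl, ?_⟩
    simp only [nr, abs_le]; omega
  · have e : a.1 = 0 := e
    have f : c.1 = m - 1 := f
    have := k a ha c hc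
    omega
  · have e : a.2 = m - 1 := e
    have f : c.2 = 0 := f
    have := k a ha c hc
    omega
  · have e : a.2 = m - 1 := e
    have f : c.1 = m - 1 := f
    have := k B h2 a ha
    have := k B h2 c hc
    refine ⟨((m : ℤ) - 1, (m : ℤ) - 1), Or.inr rfl, ?_⟩
    simp only [nr, abs_le]; omega

lemma rgblk_deep {m : ℕ} {B : P} (h : deep 5 m B) : ¬ ∃ B', ab m B' ∧ nr 3 B B' := by
  rintro ⟨B', rfl | rfl, h2⟩ <;> simp only [nr, abs_le, deep] at h h2 <;> omega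

lemma rgblk_sq {a b k τ σ : ℝ} (hb : 0 ≤ b) (hk : 0 ≤ k) (hτ : 0 ≤ τ) (h1 : a ≤ k * τ)
    (h2 : b ≤ k * σ) : √(a * b) ≤ k * √(τ * σ) := by
  refine (Real.sqrt_le_sqrt (mul_le_mul h1 h2 hb (mul_nonneg hk hτ))).trans_eq ?_
  rw [mul_mul_mul_comm, Real.sqrt_mul (mul_self_nonneg k), Real.sqrt_mul_self hk]

theorem t_rg_blk (h_side : S_rg_side) (h_deep : S_rg_deep) (h_fb : S_rg_fb) (h_aff : S_rg_aff)
    (h_sm : S_rg_sm) (h_qz : S_rg_qz) : S_rg_blk := by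
  intro q Cu C0 ε0 t0 b j K δ z θ v E hb ht hδ hz hθ B hB hF hS
  have hA := E.Apos
  have hh := E.hpos
  have hl := E.lpos j
  have hCu : 0 ≤ Cu := zero_le_one.trans E.hCu
  have hm : 10 ≤ q.m b j := le_trans (le_trans (by norm_num) E.L1000) (q.L_le_m E.L1 hb)
  have hE : 1 ≤ q.EE j θ B := Real.one_le_exp (mul_nonneg (mul_nonneg (by norm_num) E.hκ.1.le)
    ((rgblk_ea0 _ _ _).trans (rgblk_ea _ _ _)))
  generalize hV : cf θ + v = V
  have hΘ : bg (q.n b) z + cf θ + v = bg (q.n b) z + V := by rw [add_assoc, hV]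
  have a0 := rgblk_ea0 (q.l j) V B
  have a1 := rgblk_ea (q.l j) V B
  have a2 := rgblk_Nb0 (q.l j) V B
  have t1 : Nl (q.l j) V B + Cu = q.tt Cu j V B * q.h ^ 2 := by rw [Par.tt]; field_simp
  have t2 : Nb (q.l j) V B + Cu = q.tb Cu j V B * q.h ^ 2 := by rw [Par.tb]; field_simp
  have t3 : 0 ≤ q.tt Cu j V B := div_nonneg (by linarith) (sq_nonneg _)
  have t4 : 0 ≤ q.tb Cu j V B := div_nonneg (by linarith) (sq_nonneg _)
  have hR : ∀ (f : Finset P → ℂ) (c : ℝ), 0 ≤ c → (∀ X ∈ smalls (box (q.m b j)) B,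
      ‖q.Ez b j (K z X) (bg (q.n b) z + V) - f X‖ ≤ c * (16 * δ * q.A⁻¹ ^ X.card)) →
      ‖∑ X ∈ smalls (box (q.m b j)) B, q.Ez b j (K z X) (bg (q.n b) z + V) / X.card -
        ∑ X ∈ smalls (box (q.m b j)) B, f X / X.card‖ ≤ 32 * c * (δ / q.A) := by
    intro f c hc hf
    rw [← sum_sub_distrib]
    simp only [← sub_div]
    refine (rgfb_sum h_sm E.A60 (c := c * (16 * δ)) (by positivity) fun X hX =>
      (hf X hX).trans_eq (by ring)).trans_eq (by ring)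
  have hd : 0 ≤ δ / q.A := by positivity
  have p1 : ‖q.RB b j z (K z) B (bg (q.n b) z + V)‖ ≤ 10 ^ 4 * δ / q.A * q.EE j θ B *
      (q.tt Cu j V B + if ∃ B', ab (q.m b j) B' ∧ nr 3 B B' then √(q.tt Cu j V B) else 0) := by
    generalize hw : (q.tt Cu j V B + if ∃ B', ab (q.m b j) B' ∧ nr 3 B B' then
      √(q.tt Cu j V B) else 0) = w
    have w1 : q.tt Cu j V B ≤ w := by
      rw [← hw]; exact le_add_of_nonneg_right (by split_ifs <;> positivity)
    have w0 : 0 ≤ q.EE j θ B * w := mul_nonneg (by linarith) (by linarith)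
    refine (hR _ (100 * (q.EE j θ B * w)) (by positivity) fun X hX => ?_).trans ?_
    · have h1 := h_side q Cu C0 ε0 t0 b j X _ _ B z θ v E hb ht hX (by positivity) (hF X hX) hz hθ
        (hS X hX)
      rw [hΘ, hV] at h1
      refine h1.trans (le_trans (mul_le_mul_of_nonneg_left (?_ : _ ≤ w) (by positivity))
        (le_of_eq (by ring)))
      split_ifs with hs
      · rw [← hw, if_pos (rgblk_spec hm hX hs)]; linarith
      · exact w1
    · have := mul_nonneg hd w0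
      calc _ = 3200 * (δ / q.A * (q.EE j θ B * w)) := by ring
        _ ≤ 10 ^ 4 * (δ / q.A * (q.EE j θ B * w)) := by linarith
        _ = _ := by ring
  rw [hΘ]
  refine ⟨p1, fun hD hY => ?_⟩
  have hab : ¬ ab (q.m b j) B := fun h => rgblk_deep hD ⟨B, h, by simp [nr]⟩
  obtain ⟨f1, f2⟩ := h_fb q Cu C0 ε0 t0 b j K B δ E hb ((norm_nonneg z).trans hz) hδ hD hF
  obtain ⟨z1, z2⟩ := (h_qz q Cu C0 ε0 b j z E hb B hB).1 (hz.trans ht) V fun p hp hr => by
    have := (rgfb_inn (le_trans (by norm_num) (E.l100 j)) (Nat.zero_le _) hD (rgblk_self 3 B) hp).1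
    rw [← q.n_eq (hb.2.1.trans (Nat.le_succ _))] at this
    exact absurd this (mem_sdiff.1 hr).2
  rw [Par.Qz, if_neg hab, sub_zero] at z1
  have z3 := (z2 hab).2
  have f3 : ‖q.qB b j (K 0) B / (q.l j : ℂ) ^ 2‖ ≤ 600 * (δ / q.A) / q.h ^ 2 := by
    rw [norm_div, norm_pow, Complex.norm_natCast, div_le_iff₀ (by positivity)]
    exact f1.trans_eq (by ring)
  have f4 : ∀ (x : ℂ) (c : ℝ), ‖x‖ ≤ c * q.h ^ 2 →
      ‖q.qB b j (K 0) B / (q.l j : ℂ) ^ 2 * x‖ ≤ 600 * (δ / q.A) * c := fun x c hx => by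
    rw [norm_mul]
    refine (mul_le_mul f3 hx (norm_nonneg _) (by positivity)).trans_eq ?_
    field_simp
  generalize hτ : q.tt Cu j V B = τ at *
  generalize hσ : q.tb Cu j V B = σ at *
  have s0 : 0 ≤ √(τ * σ) := Real.sqrt_nonneg _
  have s1 : 0 ≤ τ / (q.L : ℝ) ^ 2 := by positivity
  suffices h : ‖q.RB b j z (K z) B (bg (q.n b) z + V) - q.qB b j (K 0) B / (q.l j : ℂ) ^ 2 *
      En (bg (q.n b) z + V) (cell (q.l j) B)‖ ≤ c0 ^ 3 * (δ / q.A * (q.EE j θ B *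
      (τ ^ 2 + √(τ * σ) + σ + τ / (q.L : ℝ) ^ 2))) from h.trans_eq (by ring)
  have c1 : (0 : ℝ) ≤ c0 := by rw [c0]; positivity
  have s2 : 0 ≤ τ ^ 2 := sq_nonneg _
  by_cases hc : τ ≤ 1 / (36 * c0)
  · obtain ⟨y, y1, y2⟩ := h_aff (q.l j) V B (E.l100 j)
    have g1 := hR (fun X => q.Ez b j (K 0 X) (lin y)) (1000 * c0 * (√(τ * σ) + σ))
      (by positivity) fun X hX => by
        have h1 := h_deep q Cu C0 ε0 t0 b j X _ _ B z V y E hb ht hX hD (by positivity) (hF X hX)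
          hz y1 y2 (by rw [hτ]; exact hc)
        rw [hτ, hσ] at h1
        exact h1.trans_eq (by ring)
    have g2 : q.eK b j z (K z) B = q.fB b j (K 0) B 0 := sum_congr rfl fun X hX => by
      have hs : ¬ spec (q.m b j) X := fun h => rgblk_deep hD (rgblk_spec hm hX h)
      have h1 : q.Ez b j (K z X) = q.Ez b j (K 0 X) := (hF X hX).far hs z
      have h2 : lin 0 = 0 := by funext p; simp [lin]
      rw [Par.ctr, if_neg hs, h1, h2]
    have y3 : (q.l j : ℝ) ^ 2 * (‖y.1‖ ^ 2 + ‖y.2‖ ^ 2) ≤ c0 * τ * q.h ^ 2 :=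
      y1.trans (by rw [mul_assoc]; exact mul_le_mul_of_nonneg_left (by linarith) c1)
    have g3 := f2 hY y (c0 * τ) y3 (by
      rw [c0] at hc ⊢
      linarith)
    have w1 : ea (q.l j) (V - lin y) B ≤ c0 * q.h ^ 2 * σ :=
      (single_le_sum (f := fun B' => ea (q.l j) (V - lin y) B') (fun _ _ => rgblk_ea0 _ _ _)
        (rgblk_self 5 B)).trans (y2.trans (by
          rw [mul_assoc]; exact mul_le_mul_of_nonneg_left (by linarith) c1))
    have w2 := rgblk_En (lin y) (V - lin y) (cell (q.l j) B)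
    rw [add_sub_cancel] at w2
    have w3 : √(ea (q.l j) (lin y) B * ea (q.l j) (V - lin y) B) ≤ c0 * q.h ^ 2 * √(τ * σ) :=
      rgblk_sq (rgblk_ea0 _ _ _) (by positivity) t3 (by rw [rgfb_ea]; linarith) w1
    have w4 : √(Cu * ea (q.l j) V B) ≤ q.h ^ 2 * √(τ * σ) := by
      rw [mul_comm Cu]
      exact rgblk_sq hCu (sq_nonneg _) t3 (by linarith) (by linarith)
    have g4 : ‖En (bg (q.n b) z + V) (cell (q.l j) B) - En (lin y) (cell (q.l j) B)‖ ≤
        4 * c0 * (√(τ * σ) + σ) * q.h ^ 2 := by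
      refine (norm_sub_le_norm_sub_add_norm_sub _ (En V (cell (q.l j) B)) _).trans ?_
      have w5 : ‖En V (cell (q.l j) B) - En (lin y) (cell (q.l j) B)‖ ≤
          2 * √(ea (q.l j) (lin y) B * ea (q.l j) (V - lin y) B) + ea (q.l j) (V - lin y) B := w2
      have w6 : 0 ≤ q.h ^ 2 * √(τ * σ) := by positivity
      have w7 : 0 ≤ q.h ^ 2 * σ := by positivity
      rw [c0] at w1 w3 ⊢
      linarith
    have g5 := f4 _ _ g4
    have e : q.RB b j z (K z) B (bg (q.n b) z + V) - q.qB b j (K 0) B / (q.l j : ℂ) ^ 2 *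
        En (bg (q.n b) z + V) (cell (q.l j) B) =
        (∑ X ∈ smalls (box (q.m b j)) B, q.Ez b j (K z X) (bg (q.n b) z + V) / X.card -
          q.fB b j (K 0) B y) + (q.fB b j (K 0) B y - q.fB b j (K 0) B 0 -
            q.qB b j (K 0) B * (y.1 ^ 2 + y.2 ^ 2)) - q.qB b j (K 0) B / (q.l j : ℂ) ^ 2 *
          (En (bg (q.n b) z + V) (cell (q.l j) B) - En (lin y) (cell (q.l j) B)) := by
      have hl' : (q.l j : ℂ) ≠ 0 := by exact_mod_cast hl.ne'
      rw [Par.RB, g2, rgfb_En]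
      field_simp
      ring
    rw [e]
    refine (norm_sub_le _ _).trans ((add_le_add ((norm_add_le _ _).trans (add_le_add g1 g3))
      g5).trans ?_)
    have u1 := mul_nonneg hd s0
    have u2 := mul_nonneg hd t4
    have u3 := mul_nonneg hd s1
    have u4 := mul_nonneg hd s2
    have u5 : δ / q.A * (τ ^ 2 + √(τ * σ) + σ + τ / (q.L : ℝ) ^ 2) ≤ δ / q.A * (q.EE j θ B *
        (τ ^ 2 + √(τ * σ) + σ + τ / (q.L : ℝ) ^ 2)) :=
      mul_le_mul_of_nonneg_left (le_mul_of_one_le_left (by positivity) hE) hd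
    have u6 : 10 ^ 6 * δ / q.A * (c0 * τ) * (c0 * τ + 1 / (q.L : ℝ) ^ 2) =
        10 ^ 6 * c0 ^ 2 * (δ / q.A * τ ^ 2) + 10 ^ 6 * c0 * (δ / q.A * (τ / (q.L : ℝ) ^ 2)) := by
      ring
    rw [u6, c0]
    linarith
  · rw [if_neg (rgblk_deep hD), add_zero] at p1
    have g1 := f4 _ (2 * τ) (z1.trans (by linarith))
    refine (norm_sub_le _ _).trans ((add_le_add p1 g1).trans ?_)
    have u0 : 0 ≤ δ / q.A * q.EE j θ B := mul_nonneg hd (by linarith)
    have u1 : τ ≤ 36 * c0 * τ ^ 2 := by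
      have h1 : 1 < τ * (36 * c0) := (div_lt_iff₀ (by rw [c0]; positivity)).1 (not_le.1 hc)
      nlinarith
    have u2 := mul_le_mul_of_nonneg_left u1 u0
    have u3 : δ / q.A * τ ≤ δ / q.A * q.EE j θ B * τ :=
      mul_le_mul_of_nonneg_right (le_mul_of_one_le_right hd hE) t3
    have u4 := mul_nonneg u0 s0
    have u5 := mul_nonneg u0 t4
    have u6 := mul_nonneg u0 s1
    have u7 := mul_nonneg u0 s2
    have u8 : 10 ^ 4 * δ / q.A * q.EE j θ B * τ = 10 ^ 4 * (δ / q.A * q.EE j θ B * τ) := by ring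
    rw [u8]
    rw [c0] at u2 ⊢
    linarith

end Pool.Agent.Lib.MP_9cc147_pr.Cx
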