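import Pool.Agent.Lib.MP_9cc147_pr.Cx.Rg.S

/-! The energy of a sum on a union of blocks, by a cut-off and summation by parts. -/

open scoped Classical Topology
open Finset MeasureTheory ProbabilityTheory Filter

noncomputable section
namespace Pool.Agent.Lib.MP_9cc147_pr.Cx

/-- bilinear energy of a face -/
def rgcB (f g : P → ℝ) (x : P) : ℝ :=
  1 / 2 * ((f (x + (1, 1)) - f (x + (1, 0))) * (g (x + (1, 1)) - g (x + (1, 0))) +
    (f (x + (0, 1)) - f (x + (1, 1))) * (g (x + (0, 1)) - g (x + (1, 1))) +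
    (f x - f (x + (0, 1))) * (g x - g (x + (0, 1))) +
    (f (x + (1, 0)) - f x) * (g (x + (1, 0)) - g x))

theorem rgc_norm (a : ℝ) : ‖(a : ℂ)‖ ^ 2 = a ^ 2 := by
  rw [Complex.norm_real, Real.norm_eq_abs, sq_abs]

theorem rgc_n1 (f : P → ℝ) (x : P) : n1 (cf f) x = rgcB f f x := by
  have e : ∀ a b : P, ‖cf f a - cf f b‖ ^ 2 = (f a - f b) ^ 2 := fun a b => by
    rw [← rgc_norm (f a - f b)]
    simp only [cf, Complex.ofReal_sub]
  have z : x + ((0, 0) : P) = x := add_zero x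
  simp only [n1, dg, e, Fin.sum_univ_four, rgcB]
  show 1 / 2 * ((f (x + (1, 1)) - f (x + (1, 0))) ^ 2 + (f (x + (0, 1)) - f (x + (1, 1))) ^ 2 +
    (f (x + (0, 0)) - f (x + (0, 1))) ^ 2 + (f (x + (1, 0)) - f (x + (0, 0))) ^ 2) = _
  rw [z]
  ring

theorem rgc_n2 (f : P → ℝ) (p : P) : (f (p + (1, 0)) - 2 * f p + f (p - (1, 0))) ^ 2 +
    (f (p + (0, 1)) - 2 * f p + f (p - (0, 1))) ^ 2 ≤ n2 (cf f) p := by
  have e : ∀ a b : P, ‖cf f a - 2 * cf f p + cf f b‖ ^ 2 = (f a - 2 * f p + f b) ^ 2 :=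
    fun a b => by
      rw [← rgc_norm (f a - 2 * f p + f b)]
      simp only [cf, Complex.ofReal_sub, Complex.ofReal_add, Complex.ofReal_mul,
        Complex.ofReal_ofNat]
  rw [n2, e, e]
  exact le_add_of_nonneg_right (by positivity)

theorem rgc_shift {S : Finset P} {g : P → ℝ} (e : P) (F : P → ℝ)
    (h : ∀ p, g p ≠ 0 → p ∈ S ∧ p - e ∈ S) :
    ∑ x ∈ S, g (x + e) * F (x + e) = ∑ p ∈ S, g p * F p := by
  refine sum_bij_ne_zero (fun x _ _ => x + e) (fun x _ hx => (h _ (left_ne_zero_of_mul hx)).1)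
    (fun a _ _ b _ _ hab => add_right_cancel hab) (fun p _ hp => ?_) fun _ _ _ => rfl
  refine ⟨p - e, (h p (left_ne_zero_of_mul hp)).2, ?_, sub_add_cancel p e⟩
  rwa [sub_add_cancel]

/-- summation by parts -/
theorem rgc_parts {S : Finset P} (f g : P → ℝ)
    (h : ∀ p, g p ≠ 0 → p ∈ S ∧ p - (1, 0) ∈ S ∧ p - (1, 1) ∈ S ∧ p - (0, 1) ∈ S) :
    ∑ x ∈ S, rgcB f g x = -∑ p ∈ S, g p * ((f (p + (1, 0)) - 2 * f p + f (p - (1, 0))) +
      (f (p + (0, 1)) - 2 * f p + f (p - (0, 1)))) := by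
  have a := rgc_shift (1, 0) (fun p => f p - (f (p + (0, 1)) + f (p - (1, 0))) / 2)
    fun p hp => ⟨(h p hp).1, (h p hp).2.1⟩
  have b := rgc_shift (1, 1) (fun p => f p - (f (p - (0, 1)) + f (p - (1, 0))) / 2)
    fun p hp => ⟨(h p hp).1, (h p hp).2.2.1⟩
  have c := rgc_shift (0, 1) (fun p => f p - (f (p + (1, 0)) + f (p - (0, 1))) / 2)
    fun p hp => ⟨(h p hp).1, (h p hp).2.2.2⟩
  have e : ∀ x : P, rgcB f g x =
      g (x + (1, 0)) * (f (x + (1, 0)) - (f (x + (1, 0) + (0, 1)) + f (x + (1, 0) - (1, 0))) / 2) +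
      g (x + (1, 1)) * (f (x + (1, 1)) - (f (x + (1, 1) - (0, 1)) + f (x + (1, 1) - (1, 0))) / 2) +
      g (x + (0, 1)) * (f (x + (0, 1)) - (f (x + (0, 1) + (1, 0)) + f (x + (0, 1) - (0, 1))) / 2) +
      g x * (f x - (f (x + (0, 1)) + f (x + (1, 0))) / 2) := fun x => by
    have e1 : x + (1, 0) + (0, 1) = x + (1, 1) := by ext <;> simp
    have e2 : x + (1, 1) - (0, 1) = x + (1, 0) := by ext <;> simp
    have e3 : x + (1, 1) - (1, 0) = x + (0, 1) := by ext <;> simp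
    have e4 : x + (0, 1) + (1, 0) = x + (1, 1) := by ext <;> simp
    rw [e1, e2, e3, e4, add_sub_cancel_right, add_sub_cancel_right, rgcB]
    ring
  simp only [e, sum_add_distrib]
  rw [a, b, c, ← sum_add_distrib, ← sum_add_distrib, ← sum_add_distrib, ← sum_neg_distrib]
  exact sum_congr rfl fun p _ => by ring

theorem rgc_edge {a b y z s : ℝ} (h0 : 0 ≤ b) (h1 : b ≤ 1) (h : |b - a| ≤ s) :
    (b * z - a * y) * (b * z - a * y) ≤ 2 * (z - y) ^ 2 + 2 * s ^ 2 * y ^ 2 := by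
  have e : b * z - a * y = b * (z - y) + (b - a) * y := by ring
  have h2 : (b - a) ^ 2 ≤ s ^ 2 := by
    rw [← sq_abs]
    exact pow_le_pow_left₀ (abs_nonneg _) h 2
  have h3 : b ^ 2 * (z - y) ^ 2 ≤ 1 * (z - y) ^ 2 :=
    mul_le_mul_of_nonneg_right (by nlinarith) (sq_nonneg _)
  have h4 := mul_le_mul_of_nonneg_right h2 (sq_nonneg y)
  rw [e]
  nlinarith [sq_nonneg (b * (z - y) - (b - a) * y)]

theorem rgc_cutoff {χ ζ : P → ℝ} {s : ℝ} (h0 : ∀ p, 0 ≤ χ p) (h1 : ∀ p, χ p ≤ 1)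
    (h : ∀ p p', nr 1 p p' → |χ p - χ p'| ≤ s) (hs : s ^ 2 ≤ 1 / 32) (x : P) :
    rgcB (fun p => χ p * ζ p) (fun p => χ p * ζ p) x ≤ 3 * rgcB ζ ζ x + 8 * s ^ 2 * ζ x ^ 2 := by
  have a := rgc_edge (y := ζ (x + (1, 0))) (z := ζ (x + (1, 1))) (h0 _) (h1 _)
    (h (x + (1, 1)) (x + (1, 0)) (by simp [nr]))
  have b := rgc_edge (y := ζ (x + (1, 1))) (z := ζ (x + (0, 1))) (h0 _) (h1 _)
    (h (x + (0, 1)) (x + (1, 1)) (by simp [nr]))
  have c := rgc_edge (y := ζ (x + (0, 1))) (z := ζ x) (h0 _) (h1 _)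
    (h x (x + (0, 1)) (by simp [nr]))
  have d := rgc_edge (y := ζ x) (z := ζ (x + (1, 0))) (h0 _) (h1 _)
    (h (x + (1, 0)) x (by simp [nr]))
  have k : ζ (x + (1, 0)) ^ 2 + ζ (x + (1, 1)) ^ 2 + ζ (x + (0, 1)) ^ 2 + ζ x ^ 2 ≤
      8 * ζ x ^ 2 + 32 * rgcB ζ ζ x := by
    unfold rgcB
    generalize ζ (x + (1, 0)) = u
    generalize ζ (x + (1, 1)) = v
    generalize ζ (x + (0, 1)) = w
    generalize ζ x = t
    nlinarith [sq_nonneg (u - 2 * t), sq_nonneg (w - 2 * t), sq_nonneg (v - 2 * t),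
      sq_nonneg (v - 2 * u + t), sq_nonneg (v - u), sq_nonneg (w - v), sq_nonneg (t - w),
      sq_nonneg (u - t), sq_nonneg t]
  have k0 : 0 ≤ rgcB ζ ζ x := by
    rw [← rgc_n1]
    unfold n1
    positivity
  have k1 := mul_le_mul_of_nonneg_left k (sq_nonneg s)
  have k2 := mul_le_mul_of_nonneg_right hs k0
  unfold rgcB at *
  nlinarith

theorem rgc_young (f g : P → ℝ) (x : P) :
    -(2 * rgcB f g x) ≤ 1 / 16 * rgcB f f x + 16 * rgcB g g x := by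
  unfold rgcB
  nlinarith [sq_nonneg ((f (x + (1, 1)) - f (x + (1, 0))) + 16 * (g (x + (1, 1)) - g (x + (1, 0)))),
    sq_nonneg ((f (x + (0, 1)) - f (x + (1, 1))) + 16 * (g (x + (0, 1)) - g (x + (1, 1)))),
    sq_nonneg ((f x - f (x + (0, 1))) + 16 * (g x - g (x + (0, 1)))),
    sq_nonneg ((f (x + (1, 0)) - f x) + 16 * (g (x + (1, 0)) - g x))]

/-- depth of a point in the fattened square, capped at `w` -/
def rgcD (l w : ℕ) (B p : P) : ℕ :=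
  (min (w : ℤ) (min (min (p.1 - B.1 * l + w) ((B.1 + 1) * l + w - p.1))
    (min (p.2 - B.2 * l + w) ((B.2 + 1) * l + w - p.2)))).toNat

theorem rgc_chi (l w : ℕ) (Y : Finset P) : ∃ ψ : P → ℕ, (∀ p, ψ p ≤ w) ∧
    (∀ p p', nr 1 p p' → ψ p ≤ ψ p' + 1) ∧ (∀ B ∈ Y, ∀ p ∈ fat l 0 B, ψ p = w) ∧
    ∀ p, ψ p ≠ 0 → ∃ B ∈ Y, p ∈ fat l w B ∧ p - (1, 0) ∈ fat l w B ∧ p - (1, 1) ∈ fat l w B ∧
      p - (0, 1) ∈ fat l w B := by
  have hle : ∀ p, (Y.sup fun B => rgcD l w B p) ≤ w := fun p =>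
    Finset.sup_le fun B _ => by unfold rgcD; omega
  refine ⟨fun p => Y.sup fun B => rgcD l w B p, hle, fun p p' h => ?_, fun B hB p hp => ?_,
    fun p hp => ?_⟩
  · refine Finset.sup_le fun B hB => ?_
    have h1 : rgcD l w B p' ≤ Y.sup fun B => rgcD l w B p' :=
      Finset.le_sup (f := fun B => rgcD l w B p') hB
    have h2 : rgcD l w B p ≤ rgcD l w B p' + 1 := by
      obtain ⟨h3, h4⟩ := h
      rw [abs_le] at h3 h4
      unfold rgcD
      omega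
    exact h2.trans (Nat.add_le_add_right h1 1)
  · refine le_antisymm (hle p) (le_trans ?_ (Finset.le_sup (f := fun B => rgcD l w B p) hB))
    simp only [fat, mem_product, mem_Icc] at hp
    unfold rgcD
    omega
  · by_contra hn
    refine hp (Nat.le_zero.1 (Finset.sup_le fun B hB => ?_))
    by_contra h
    refine hn ⟨B, hB, ?_⟩
    unfold rgcD at h
    simp only [fat, mem_product, mem_Icc, Prod.fst_sub, Prod.snd_sub]
    omega

theorem rgc_sum_le (Y : Finset P) (T : P → Finset P) (f : P → ℝ) (hf : ∀ p, 0 ≤ f p) :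
    ∑ p ∈ Y.biUnion T, f p ≤ ∑ B ∈ Y, ∑ p ∈ T B, f p := by
  induction Y using Finset.induction_on with
  | empty => simp
  | insert B Y hB ih =>
    rw [biUnion_insert, sum_insert hB]
    have := sum_union_inter (s₁ := T B) (s₂ := Y.biUnion T) (f := f)
    have h2 : 0 ≤ ∑ p ∈ T B ∩ Y.biUnion T, f p := sum_nonneg fun p _ => hf p
    linarith

theorem t_rg_cut : S_rg_cut := by
  intro l θ ζ Y hl
  obtain ⟨ψ, h1, h2, h3, h4⟩ := rgc_chi l (l / 4) Y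
  have hl0 : (100 : ℝ) ≤ l := by exact_mod_cast hl
  have hw : (l : ℝ) ≤ 5 * (l / 4 : ℕ) := by exact_mod_cast (by omega : l ≤ 5 * (l / 4))
  set w : ℝ := ((l / 4 : ℕ) : ℝ) with hwd
  have hw0 : 0 < w := by linarith
  set χ : P → ℝ := fun p => ψ p / w with hχ
  set g : P → ℝ := fun p => χ p * ζ p with hg
  have c0' : ∀ p, 0 ≤ χ p := fun p => by positivity
  have c1 : ∀ p, χ p ≤ 1 := fun p => (div_le_one hw0).2 (by rw [hwd]; exact_mod_cast h1 p)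
  have c2 : ∀ p p', nr 1 p p' → |χ p - χ p'| ≤ 5 / l := fun p p' h => by
    have a : (ψ p : ℝ) ≤ ψ p' + 1 := by exact_mod_cast h2 p p' h
    have b : (ψ p' : ℝ) ≤ ψ p + 1 := by
      exact_mod_cast h2 p' p ⟨abs_sub_comm p.1 p'.1 ▸ h.1, abs_sub_comm p.2 p'.2 ▸ h.2⟩
    have c : |(ψ p : ℝ) - ψ p'| ≤ 1 := abs_le.2 ⟨by linarith, by linarith⟩
    simp only [hχ]
    rw [← sub_div, abs_div, abs_of_pos hw0, div_le_div_iff₀ hw0 (by linarith)]
    nlinarith [abs_nonneg ((ψ p : ℝ) - ψ p')]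
  have hs : (5 / l : ℝ) ^ 2 ≤ 1 / 32 := by
    rw [div_pow, div_le_div_iff₀ (by positivity) (by norm_num)]
    nlinarith
  have hsub : under l Y ⊆ nbs l Y := biUnion_mono fun B _ x hx => by
    simp only [cell, nb, fat, mem_product, mem_Ico, mem_Icc] at hx ⊢
    omega
  have hin : ∀ x ∈ under l Y, rgcB θ ζ x = rgcB θ g x := fun x hx => by
    obtain ⟨B, hB, hx⟩ := mem_biUnion.1 hx
    have e : ∀ p ∈ fat l 0 B, g p = ζ p := fun p hp => by
      simp only [hg, hχ, h3 B hB p hp]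
      rw [← hwd, div_self hw0.ne', one_mul]
    simp only [cell, mem_product, mem_Ico] at hx
    unfold rgcB
    rw [e x, e (x + (1, 0)), e (x + (1, 1)), e (x + (0, 1))] <;>
      simp only [fat, mem_product, mem_Icc, Prod.fst_add, Prod.snd_add] <;> omega
  have hparts := rgc_parts (S := nbs l Y) θ g fun p hp => by
    obtain ⟨B, hB, a, b, c, d⟩ := h4 p fun h => hp (by simp [hg, hχ, h])
    exact ⟨mem_biUnion.2 ⟨B, hB, a⟩, mem_biUnion.2 ⟨B, hB, b⟩, mem_biUnion.2 ⟨B, hB, c⟩,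
      mem_biUnion.2 ⟨B, hB, d⟩⟩
  have hl2 : (0 : ℝ) < (l : ℝ) ^ 2 := by positivity
  have n0 : ∀ x, 0 ≤ rgcB ζ ζ x := fun x => by
    rw [← rgc_n1]
    unfold n1
    positivity
  have z0 : ∀ x, 0 ≤ ζ x ^ 2 / (l : ℝ) ^ 2 := fun x => by positivity
  have s1 : 2 * ∑ x ∈ nbs l Y, rgcB θ g x ≤ (l : ℝ) ^ 2 * ∑ p ∈ nbs l Y, n2 (cf θ) p +
      2 * ∑ p ∈ nbs l Y, ζ p ^ 2 / (l : ℝ) ^ 2 := by
    rw [hparts, ← sum_neg_distrib, mul_sum, mul_sum, mul_sum, ← sum_add_distrib]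
    refine sum_le_sum fun p _ => ?_
    have a := mul_le_mul_of_nonneg_left (rgc_n2 θ p) hl2.le
    have b : g p ^ 2 ≤ ζ p ^ 2 := by
      simp only [hg, mul_pow]
      exact mul_le_of_le_one_left (sq_nonneg _) (pow_le_one₀ (c0' p) (c1 p))
    have c : g p ^ 2 / (l : ℝ) ^ 2 ≤ ζ p ^ 2 / (l : ℝ) ^ 2 := div_le_div_of_nonneg_right b hl2.le
    generalize θ (p + (1, 0)) - 2 * θ p + θ (p - (1, 0)) = u at *
    generalize θ (p + (0, 1)) - 2 * θ p + θ (p - (0, 1)) = v at *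
    have d : g p ^ 2 / (l : ℝ) ^ 2 = (g p / l) ^ 2 := (div_pow _ _ _).symm
    have e : g p = g p / l * l := (div_mul_cancel₀ _ (by linarith)).symm
    rw [d] at c
    generalize g p / l = y at *
    rw [e]
    nlinarith [sq_nonneg (y + l * u), sq_nonneg (y + l * v)]
  have s2 : -(2 * ∑ x ∈ nbs l Y \ under l Y, rgcB θ g x) ≤
      1 / 16 * ∑ x ∈ nbs l Y \ under l Y, rgcB θ θ x +
        ∑ x ∈ nbs l Y \ under l Y, (48 * rgcB ζ ζ x + 3200 * (ζ x ^ 2 / (l : ℝ) ^ 2)) := by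
    rw [mul_sum, ← sum_neg_distrib, mul_sum, ← sum_add_distrib]
    refine sum_le_sum fun x _ => ?_
    have a := rgc_young θ g x
    have b : rgcB g g x ≤ _ := rgc_cutoff (ζ := ζ) c0' c1 c2 hs x
    have c : 8 * (5 / l : ℝ) ^ 2 * ζ x ^ 2 = 200 * (ζ x ^ 2 / (l : ℝ) ^ 2) := by ring
    linarith
  have s3 : ∑ x ∈ nbs l Y \ under l Y, (48 * rgcB ζ ζ x + 3200 * (ζ x ^ 2 / (l : ℝ) ^ 2)) ≤
      48 * ∑ x ∈ nbs l Y, rgcB ζ ζ x + 3200 * ∑ x ∈ nbs l Y, ζ x ^ 2 / (l : ℝ) ^ 2 := by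
    rw [mul_sum, mul_sum, ← sum_add_distrib]
    exact sum_le_sum_of_subset_of_nonneg sdiff_subset fun x _ _ => by
      have := n0 x
      have := z0 x
      positivity
  have s4 : ∑ x ∈ under l Y, rgcB ζ ζ x ≤ ∑ x ∈ nbs l Y, rgcB ζ ζ x :=
    sum_le_sum_of_subset_of_nonneg hsub fun x _ _ => n0 x
  have s5 : ∑ x ∈ nbs l Y, rgcB ζ ζ x + ∑ x ∈ nbs l Y, ζ x ^ 2 / (l : ℝ) ^ 2 ≤
      ∑ B ∈ Y, N0 l (cf ζ) (nb l B) := by
    rw [← sum_add_distrib]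
    refine (rgc_sum_le Y (nb l) _ fun p => add_nonneg (n0 p) (z0 p)).trans
      (sum_le_sum fun B _ => ?_)
    rw [N0, Nf, ← sum_add_distrib]
    refine sum_le_sum fun p _ => ?_
    have a : ‖cf ζ p‖ ^ 2 = ζ p ^ 2 := rgc_norm _
    have b : 0 ≤ (l : ℝ) ^ 2 * n2 (cf ζ) p := by
      unfold n2
      positivity
    rw [a, rgc_n1]
    linarith
  have s6 := sum_sdiff (f := rgcB θ g) hsub
  have s7 : ∑ x ∈ under l Y, rgcB (θ + ζ) (θ + ζ) x = ∑ x ∈ under l Y, rgcB θ θ x +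
      2 * ∑ x ∈ under l Y, rgcB θ g x + ∑ x ∈ under l Y, rgcB ζ ζ x := by
    rw [mul_sum, ← sum_add_distrib, ← sum_add_distrib]
    refine sum_congr rfl fun x hx => ?_
    rw [← hin x hx]
    simp only [rgcB, Pi.add_apply]
    ring
  have s8 : 0 ≤ ∑ x ∈ nbs l Y, rgcB ζ ζ x := sum_nonneg fun x _ => n0 x
  have s9 : 0 ≤ ∑ x ∈ nbs l Y, ζ x ^ 2 / (l : ℝ) ^ 2 := sum_nonneg fun x _ => z0 x
  simp only [rgc_n1]
  rw [s7]
  linarith

end Pool.Agent.Lib.MP_9cc147_pr.Cx
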