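import Pool.Agent.Lib.MP_9cc147_pr.Cx.K0

/-! Definitions for the bounds on one renormalisation step. -/

open scoped Classical Topology
open Finset MeasureTheory ProbabilityTheory Filter

noncomputable section
namespace Pool.Agent.Lib.MP_9cc147_pr.Cx

def c0 : ℝ := 10 ^ 8
/-- energies of a block -/
def ea (l : ℕ) (v : Fld) (B : P) : ℝ := ∑ x ∈ cell l B, n1 v x
def eb (l : ℕ) (v : Fld) (B : P) : ℝ := (l : ℝ) ^ 2 * ∑ x ∈ cell l B, n2 v x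
/-- the blocks within distance `k` of `B` -/
def nbh (k : ℕ) (B : P) : Finset P := Icc (B.1 - k) (B.1 + k) ×ˢ Icc (B.2 - k) (B.2 + k)
def Nl (l : ℕ) (v : Fld) (B : P) : ℝ := ∑ B' ∈ nbh 7 B, (ea l v B' + eb l v B')
def Nb (l : ℕ) (v : Fld) (B : P) : ℝ := ∑ B' ∈ nbh 7 B, eb l v B'
/-- the fine blocks that carry an atom -/
def Sc (R : Finset P) (c : P → Sf) : Finset P :=
  kind R c 1 ∪ (pcs R c).biUnion id ∪ bad R (red c)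

/-- what is used about the background -/
def Uc (Cu : ℝ) : Prop := ∀ n l m : ℕ, n = l * m → 100 ≤ l → 2 ≤ m →
  (∀ c : ℝ, c = 0 ∨ c = 1 → ∃ w : P → ℝ, (∀ p, |w p| ≤ 1) ∧ (∀ p ∈ sqr n, w p = uu n p - c) ∧
    ∀ B ∈ box m, (if c = 0 then B.1 ≠ 0 ∧ B.2 ≠ m - 1 else B.2 ≠ 0 ∧ B.1 ≠ m - 1) →
      Nf l (cf w) (nb l B) ≤ Cu ∧ ∀ p ∈ nb l B, p ∈ ring n → w p = 0) ∧
  ∀ B, ab m B → ∀ v : Fld, (∀ p ∈ fat l 0 B, p ∈ ring n → v p = 0) →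
    ‖∑ x ∈ cell l B, ∑ d, (dg (uu n) x d : ℝ) * dg v x d‖ ^ 2 ≤ Cu * ∑ x ∈ cell l B, n1 v x

/-- one phase data with complex couplings -/
structure Dat where
  lam : ℂ
  lam' : ℂ
  e : P → ℂ
  xt : P → ℂ
  K : Finset P → Fld → ℂ
def Dat.sub (d1 d0 : Dat) : Dat := ⟨d1.lam - d0.lam, d1.lam' - d0.lam', fun B => d1.e B - d0.e B,
  fun B => d1.xt B - d0.xt B, fun X Θ => d1.K X Θ - d0.K X Θ⟩
def Dat.mix (d0 d : Dat) (τ : ℂ) : Dat := ⟨d0.lam + τ * d.lam, d0.lam' + τ * d.lam',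
  fun B => d0.e B + τ * d.e B, fun B => d0.xt B + τ * d.xt B, fun X Θ => d0.K X Θ + τ * d.K X Θ⟩

namespace Par
variable (q : Par)

/-- what is used about the noise -/
def Zm : Prop := ∀ b j, ok b j →
  (∀ S ⊆ box (q.m b j), Mom PP (fun ω => q.L * q.κ *
      ∑ B ∈ S, N0 (q.l j) (cf (zeta q.L (q.n b) j ω)) (nb (q.l j) B)) (2 ^ S.card)) ∧
  Mom PP (fun ω => q.L * q.κ * ∑ B ∈ box (q.m b b.2),
      Nf (q.l b.2) (cf (zr (q.n b) (lev q.L b.2) ω)) (nb (q.l b.2) B)) 2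
/-- what is used about the counting -/
def CnR (C0 ε0 : ℝ) : Prop := ∀ (m : ℕ) (U : Finset P) (a p b : ℝ), q.L ≤ m → Pm m U → 0 ≤ a →
  0 ≤ p → 0 ≤ b → a ≤ ε0 → p ≤ ε0 → b ≤ ε0 →
  (∀ s, ∑ c ∈ (loc0 q.L 4 (box m) U s).filter
      (fun c => live 4 (reg q.L (box m) U) c ∧ big 4 (reg q.L (box m) U) c),
    aw (reg q.L (box m) U) a p b (q.A / 16) c ≤ p / 1000 * (16 * q.A)⁻¹ ^ U.card) ∧
  (∀ s, ∑ c ∈ (loc0 q.L 4 (box m) U s).filter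
      (fun c => live 4 (reg q.L (box m) U) c ∧ 2 ≤ nat (reg q.L (box m) U) c),
    aw (reg q.L (box m) U) a p b (q.A / 16) c ≤ C0 * (a + p) ^ 2 * (16 * q.A)⁻¹ ^ U.card) ∧
  ∀ σ, ∑ c ∈ (loc1 q.L 4 (box m) U σ).filter (live 4 (reg q.L (box m) U)),
    aw (reg q.L (box m) U) a p b (q.A / 16) c ≤
      (if Nn (box m) U σ then b / 1000 else C0 * b) * (16 * q.A)⁻¹ ^ U.card
def H (Cu : ℝ) : ℝ := q.h ^ 2 + Cu + 1 / q.κ + 1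
def g (Cu : ℝ) : ℝ := c0 * q.L ^ 2 * q.H Cu / q.κ
/-- the constants are chosen in the right order -/
structure Env (Cu C0 ε0 : ℝ) : Prop where
  odd : Odd q.L
  hL : c0 ^ 8 ≤ q.L
  hA : 2 ^ 60 * (q.L : ℝ) ^ 2 ≤ q.A
  hκ : 0 < q.κ ∧ q.κ ≤ 1
  hCu : 1 ≤ Cu
  hh : (q.L : ℝ) ^ 3 * Cu ≤ q.h ∧ 1000 ≤ q.κ * q.h
  hC0 : 1 ≤ C0 ∧ 0 < ε0 ∧ ε0 ≤ 1
  hC : (q.g Cu * q.A * C0 / ε0) ^ 8 ≤ q.C
  hε : 0 < q.ε ∧ q.ε * q.C ≤ 1
  u : Uc Cu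
  zm : q.Zm
  cn : q.CnR C0 ε0

/-- an activity on one polymer, before the noise is integrated -/
structure Act1 (t0 : ℝ) (b : ℕ × ℕ) (j : ℕ) (X : Finset P) (F : ℂ → Fld → ℂ) (a : ℝ) : Prop where
  loc : ∀ z, Loc (q.n b) (q.l j) X (F z)
  hol : Hol (q.n b) (q.l j) q.h (q.L * q.h) t0 X F
  sh : ∀ z Θ (c : ℂ), F z (fun p => Θ p + c) = F z Θ
  neg : ∀ z Θ, F (-z) (-Θ) = F z Θ
  far : ¬ spec (q.m b j) X → ∀ z, F z = F 0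
  bd : ∀ z, ‖z‖ ≤ t0 → Bd (q.n b) (q.l j) q.κ q.h (q.L * q.h) z X (F z) a
/-- the same after the noise is integrated -/
structure Act2 (t0 : ℝ) (b : ℕ × ℕ) (j : ℕ) (X : Finset P) (G : ℂ → Fld → ℂ) (a : ℝ) : Prop where
  loc : ∀ z (Θ Ξ : Fld), (∀ p ∈ nbs (q.l j) X ∩ sqr (q.n b), Θ p = Ξ p) → G z Θ = G z Ξ
  hol : ∀ z, ‖z‖ ≤ t0 → ∀ (O : Set ℂ) (vf : ℂ → Fld), IsOpen O →
    (∀ p, DifferentiableOn ℂ (fun s => vf s p) O) →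
    (∀ s ∈ O, Strip (q.n b) (q.l j) q.h (q.L * q.h) X (vf s)) →
    DifferentiableOn ℂ (fun s => G z (bg (q.n b) z + vf s)) O
  sh : ∀ z Θ (c : ℂ), G z (fun p => Θ p + c) = G z Θ
  neg : ∀ z Θ, G (-z) (-Θ) = G z Θ
  far : ¬ spec (q.m b j) X → ∀ z, G z = G 0
  bd : ∀ z, ‖z‖ ≤ t0 → ∀ θ, Dir (q.n b) θ → ∀ v, Strip (q.n b) (q.l j) q.h (q.L * q.h) X v →
    ‖G z (bg (q.n b) z + cf θ + v)‖ ≤
      a * Real.exp (2 * q.κ * ∑ B ∈ X, Nf (q.l j) (cf θ) (nb (q.l j) B))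
/-- activities of size `δ` on the small polymers at `B` -/
def Fam (t0 : ℝ) (b : ℕ × ℕ) (j : ℕ) (K : ℂ → Finset P → Fld → ℂ) (B : P) (δ : ℝ) : Prop :=
  ∀ X ∈ smalls (box (q.m b j)) B,
    q.Act2 t0 b j X (fun z => q.Ez b j (K z X)) (16 * δ * q.A⁻¹ ^ X.card)
def Sym (b : ℕ × ℕ) (j : ℕ) (K : Finset P → Fld → ℂ) (B : P) : Prop :=
  ∀ y : ℂ × ℂ, ‖y.1‖ < q.h / (3 * q.l j) → ‖y.2‖ < q.h / (3 * q.l j) →
    q.fB b j K B (-y.1, y.2) = q.fB b j K B y ∧ q.fB b j K B (y.1, -y.2) = q.fB b j K B y ∧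
      q.fB b j K B (y.2, y.1) = q.fB b j K B y
/-- the small polymers at `B` minus the extracted constant -/
def RB (b : ℕ × ℕ) (j : ℕ) (z : ℂ) (K : Finset P → Fld → ℂ) (B : P) (Θ : Fld) : ℂ :=
  ∑ X ∈ smalls (box (q.m b j)) B, q.Ez b j (K X) Θ / X.card - q.eK b j z K B
/-- relative sizes of the field at a block -/
def tt (Cu : ℝ) (j : ℕ) (V : Fld) (B : P) : ℝ := (Nl (q.l j) V B + Cu) / q.h ^ 2
def tb (Cu : ℝ) (j : ℕ) (V : Fld) (B : P) : ℝ := (Nb (q.l j) V B + Cu) / q.h ^ 2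
def EE (j : ℕ) (θ : P → ℝ) (B : P) : ℝ := Real.exp (8 * q.κ * Nl (q.l j) (cf θ) B)
/-- difference of the neutral activities of two states -/
def dK (x y : State) (b : ℕ × ℕ) (s : Lab) : ℂ → Finset P → Fld → ℂ :=
  fun z X Θ => (x.a b z).K s X Θ - (y.a b z).K s X Θ
/-- the quadratic coefficients at the two reference blocks -/
def qr (j : ℕ) (x : State) (s : Lab) (B : P) : ℝ :=
  (q.qB (1, j + 1) j ((x.a (1, j + 1) 0).K s)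
    (if Even (B.1 + B.2) then q.Bc else q.Bc + (1, 0))).re

def dat (j : ℕ) (x : State) (b : ℕ × ℕ) (z : ℂ) (s : Lab) : Dat :=
  ⟨x.lam s, q.lam' j x s, q.e j x b z s, q.xt b j z (q.lam' j x s), (x.a b z).K s⟩
def dI (b : ℕ × ℕ) (j : ℕ) (z : ℂ) (Θ : Fld) (d : Dat) (B : P) : ℂ :=
  Complex.exp (-d.e B - d.lam' / 2 * q.Qz b j z B Θ)
def dm (b : ℕ × ℕ) (j : ℕ) (z : ℂ) (Θ : Fld) (d : Dat) (ω : Om) (B : P) : ℂ :=
  -d.lam / 2 * q.Qz b j z B (Θ + cf (zeta q.L (q.n b) j ω)) + d.e B + d.lam' / 2 * q.Qz b j z B Θ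
/-- normalised weight of a one phase configuration -/
def dw (b : ℕ × ℕ) (j : ℕ) (z : ℂ) (Θ : Fld) (U : Finset P) (d : Dat) (ω : Om) (c : P → Sf) : ℂ :=
  Complex.exp (∑ B ∈ under q.L U, (d.e B + d.xt B)) *
    lw q.L 4 (box (q.m b (j + 1))) U (fun _ => q.dI b j z Θ d)
      (fun _ B => Complex.exp (q.dm b j z Θ d ω B) - 1)
      (fun _ X => d.K X (Θ + cf (zeta q.L (q.n b) j ω)) / ∏ B ∈ X, q.dI b j z Θ d B)
      (fun _ _ => 0) c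
/-- the part that is linear in the data -/
def dL (b : ℕ × ℕ) (j : ℕ) (z : ℂ) (Θ : Fld) (B' : P) (d : Dat) (ω : Om) : ℂ :=
  ∑ B ∈ cell q.L B', (q.dm b j z Θ d ω B +
    ∑ X ∈ smalls (box (q.m b j)) B, d.K X (Θ + cf (zeta q.L (q.n b) j ω)) / X.card)
/-- couplings of size `D`, activities of size `p` near `U` -/
structure Sz (Cu : ℝ) (b : ℕ × ℕ) (j : ℕ) (z : ℂ) (U : Finset P) (d : Dat) (D p : ℝ) : Prop where
  lam : ‖d.lam‖ ≤ D ∧ ‖d.lam'‖ ≤ D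
  hp : 0 ≤ p
  e : ∀ B ∈ near 4 (box (q.m b j)) (under q.L U), ‖d.e B‖ ≤ D * q.H Cu ∧ ‖d.xt B‖ ≤ D * q.H Cu
  K : ∀ X, Pm (q.m b j) X → X ⊆ near 4 (box (q.m b j)) (under q.L U) → Measurable (d.K X) ∧
    Bd (q.n b) (q.l j) q.κ q.h (q.L * q.h) z X (d.K X) (p * q.A⁻¹ ^ X.card)
/-- majorant of the noise -/
def Yc (b : ℕ × ℕ) (j : ℕ) (S : Finset P) (ω : Om) : ℝ := Real.exp (q.L * q.κ *
  ∑ B ∈ S, N0 (q.l j) (cf (zeta q.L (q.n b) j ω)) (nb (q.l j) B))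
/-- a point of the domain of the activities on `U` at scale `j + 1` -/
structure Pt (b : ℕ × ℕ) (j : ℕ) (z : ℂ) (U : Finset P) (θ : P → ℝ) (v : Fld) : Prop where
  hok : ok b (j + 1)
  pm : Pm (q.m b (j + 1)) U
  hz : ‖z‖ ≤ 1
  dir : Dir (q.n b) θ
  str : Strip (q.n b) (q.l (j + 1)) q.h (q.L * q.h) U v
end Par

end Pool.Agent.Lib.MP_9cc147_pr.Cx
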