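import Pool.Agent.Lib.MP_9cc147_pr.Cx.Rg.S
import Pool.Agent.Lib.MP_9cc147_pr.Cx.F.Kit
import Pool.Agent.Lib.MP_9cc147_pr.Cx.A.Geo

/-! The normalised weight of a one phase configuration: formula, measurability and bound. -/

open scoped Classical Topology
open Finset MeasureTheory ProbabilityTheory Filter

noncomputable section
namespace Pool.Agent.Lib.MP_9cc147_pr.Cx

/-- a one phase configuration carries only its own label -/
theorem rgdat_lab {L s0 : ℕ} {D U : Finset P} {s : Lab} {c : P → Sf} (hc : c ∈ loc0 L s0 D U s)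
    {b : P} {t : Lab} (h : lab (c b) = some t) : t = s := by
  obtain ⟨h1, h2⟩ := mem_filter.1 hc
  by_cases hb : b ∈ reg L D U
  · rw [h2 b hb] at h
    exact (Option.some.inj h).symm
  · rw [geo_mem_cfgs.1 (mem_filter.1 h1).1 b hb] at h
    simp [lab] at h

theorem rgdat_red {c : P → Sf} {b : P} {t : Lab} {β : Bool} (h : red c b = some (t, β)) :
    lab (c b) = some t := by
  unfold red at h
  rcases hc : c b with _ | x
  · rw [hc] at h; simp at h
  · rw [hc] at h
    simp only [Option.map_some, Option.some.injEq, Prod.mk.injEq] at h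
    simp [lab, h.1]

theorem rgdat_congr {L s0 : ℕ} {D U : Finset P} {s : Lab} {c : P → Sf} (hc : c ∈ loc0 L s0 D U s)
    {T M T' M' : Lab → P → ℂ} {K K' : Lab → Finset P → ℂ} (N : Finset P → (P → Option Lab) → ℂ)
    (hT : T s = T' s) (hM : M s = M' s) (hK : K s = K' s) :
    lw L s0 D U T M K N c = lw L s0 D U T' M' K' N c := by
  unfold lw
  have e1 : ∏ t, ∏ B ∈ (under L U).filter (fun b => lab (c b) = some t), T t B =
      ∏ t, ∏ B ∈ (under L U).filter (fun b => lab (c b) = some t), T' t B :=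
    prod_congr rfl fun t _ => prod_congr rfl fun B hB => by
      rw [rgdat_lab hc (mem_filter.1 hB).2, hT]
  have e2 : ∏ t, ∏ B ∈ (reg L D U).filter (fun b => c b = some (t, 1)), M t B =
      ∏ t, ∏ B ∈ (reg L D U).filter (fun b => c b = some (t, 1)), M' t B :=
    prod_congr rfl fun t _ => prod_congr rfl fun B hB => by
      have : lab (c B) = some t := by rw [(mem_filter.1 hB).2]; rfl
      rw [rgdat_lab hc this, hM]
  have e3 : ∏ t, ∏ X ∈ comps (pol (reg L D U) (red c) t), fw s0 c X * K t X =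
      ∏ t, ∏ X ∈ comps (pol (reg L D U) (red c) t), fw s0 c X * K' t X :=
    prod_congr rfl fun t _ => prod_congr rfl fun X hX => by
      obtain ⟨a, ha, -⟩ := geo_mem_comps.1 hX
      rw [rgdat_lab hc (rgdat_red (mem_filter.1 ha).2), hK]
  rw [e1, e2, e3]

theorem t_rg_k0e : S_rg_k0e := by
  intro q j x b z s U Θ
  have hI : q.It j x b z Θ s = q.dI b j z Θ (q.dat j x b z s) := by
    funext B
    simp only [Par.It, Par.Ih, Par.dI, Par.dat]
    rw [← Complex.exp_add]
    congr 1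
    ring
  unfold Par.K0 rb0 L0
  rw [← integral_const_mul]
  refine integral_congr_ae (.of_forall fun ω => ?_)
  simp only [mul_sum]
  refine sum_congr rfl fun c hc => ?_
  unfold Par.dw
  congr 1
  refine rgdat_congr hc _ hI ?_ ?_
  · funext B
    simp only [Par.inp, hI]
    simp only [Par.Ih, Par.dI, Par.dm, Par.dat]
    rw [← Complex.exp_sub]
    congr 2
    ring
  · funext X
    simp only [Par.inp, hI]
    rfl

theorem rgdat_dead {L s0 : ℕ} {D U : Finset P} {c : P → Sf} (h : ¬ live s0 (reg L D U) c)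
    (T M : Lab → P → ℂ) (K : Lab → Finset P → ℂ) (N : Finset P → (P → Option Lab) → ℂ) :
    lw L s0 D U T M K N c = 0 := by
  unfold live at h
  push Not at h
  obtain ⟨X, hX, h0⟩ := h
  obtain ⟨t, -, ht⟩ := mem_biUnion.1 hX
  have : ∏ t, ∏ X ∈ comps (pol (reg L D U) (red c) t), fw s0 c X * K t X = 0 :=
    prod_eq_zero (mem_univ t) (prod_eq_zero ht (by rw [h0, zero_mul]))
  unfold lw
  rw [this, mul_zero, zero_mul]

theorem rgdat_aw {R : Finset P} {a p b G : ℝ} (ha : 0 ≤ a) (hp : 0 ≤ p) (hb : 0 ≤ b) (hG : 0 ≤ G)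
    (c : P → Sf) : 0 ≤ aw R a p b G c := by
  unfold aw
  exact mul_nonneg (mul_nonneg (by positivity) (prod_nonneg fun _ _ => by positivity))
    (prod_nonneg fun _ _ => by positivity)

theorem rgdat_ea (l : ℕ) (v : Fld) (B : P) : 0 ≤ ea l v B :=
  sum_nonneg fun x _ => by unfold n1; positivity

/-- the numbers -/
theorem rgdat_num {q : Par} {Cu C0 ε0 D : ℝ} (hE : q.Env Cu C0 ε0) (h0 : 0 ≤ D)
    (hD : D ≤ 1 / q.g Cu ^ 2) : c0 ^ 2 ≤ (q.L : ℝ) ∧ 100 ≤ q.L ∧ 0 < q.A ∧ 1 ≤ q.H Cu ∧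
      0 ≤ q.g Cu ∧ 16 * D ≤ q.κ ∧ 100 * ((q.L : ℝ) ^ 2 * q.H Cu * D) ≤ 1 := by
  have hc : (100 : ℝ) ≤ c0 := by norm_num [c0]
  have h1 : c0 ^ 2 ≤ (q.L : ℝ) := (pow_le_pow_right₀ (by linarith) (by norm_num)).trans hE.hL
  have h2 : (100 : ℝ) ≤ q.L := by nlinarith
  have hκ := hE.hκ.1
  have hκ1 := hE.hκ.2
  have hH : 1 ≤ q.H Cu := by
    have := hE.hCu
    have : 0 ≤ 1 / q.κ := by positivity
    unfold Par.H
    nlinarith [sq_nonneg q.h]
  have hw : 1 ≤ (q.L : ℝ) ^ 2 * q.H Cu := by nlinarith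
  have hg : q.g Cu * q.κ = c0 * ((q.L : ℝ) ^ 2 * q.H Cu) := by
    unfold Par.g; field_simp
  have hg0 : 0 ≤ q.g Cu := by unfold Par.g; positivity
  have hg1 : 1 ≤ q.g Cu := by nlinarith
  have h3 : q.g Cu * D ≤ 1 := by
    rw [le_div_iff₀ (by positivity)] at hD
    nlinarith [mul_nonneg hg0 h0]
  have h4 : c0 * ((q.L : ℝ) ^ 2 * q.H Cu * D) ≤ q.κ := by
    calc c0 * ((q.L : ℝ) ^ 2 * q.H Cu * D) = q.g Cu * D * q.κ := by
          rw [mul_right_comm (q.g Cu), hg]; ring
      _ ≤ 1 * q.κ := by gcongr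
      _ = q.κ := one_mul _
  have h5 : D ≤ (q.L : ℝ) ^ 2 * q.H Cu * D := le_mul_of_one_le_left h0 hw
  have h6 : 0 ≤ (q.L : ℝ) ^ 2 * q.H Cu * D := h0.trans h5
  have h7 : 100 * ((q.L : ℝ) ^ 2 * q.H Cu * D) ≤ q.κ :=
    (mul_le_mul_of_nonneg_right hc h6).trans h4
  refine ⟨h1, by exact_mod_cast h2, ?_, hH, hg0, by linarith, by linarith⟩
  have := hE.hA
  have : 0 < 2 ^ 60 * (q.L : ℝ) ^ 2 := by positivity
  linarith

theorem rgdat_two {L : ℕ} {U : Finset P} {x : ℝ} (h0 : 0 ≤ x) (hx : 100 * ((L : ℝ) ^ 2 * x) ≤ 1) :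
    (∏ _B ∈ under L U, Real.exp (2 * x)) * Real.exp (9 * L ^ 2 * U.card * (4 * x)) ≤
      2 ^ U.card := by
  have h1 : ((under L U).card : ℝ) ≤ L ^ 2 * U.card := by
    have : (under L U).card ≤ L ^ 2 * U.card :=
      card_biUnion_le.trans (by simp [f_card_cell, mul_comm])
    exact_mod_cast this
  have h2 : Real.exp (1 / 2) ≤ 2 := by
    have := Real.exp_bound_div_one_sub_of_interval (x := 1 / 2) (by norm_num) (by norm_num)
    norm_num at this ⊢
    exact this
  rw [prod_const, ← Real.exp_nat_mul, ← Real.exp_add]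
  refine le_trans ?_ (pow_le_pow_left₀ (Real.exp_pos _).le h2 _)
  rw [← Real.exp_nat_mul, Real.exp_le_exp]
  have h3 : (0 : ℝ) ≤ U.card := by positivity
  have h4 : ((under L U).card : ℝ) * (2 * x) ≤ L ^ 2 * U.card * (2 * x) := by gcongr
  nlinarith [mul_le_mul_of_nonneg_left hx h3, mul_nonneg h3 (mul_nonneg (sq_nonneg (L : ℝ)) h0)]

theorem t_rg_dat (h_lw : S_rg_lw) (h_blo : S_rg_blo) (h_one : S_one) : S_rg_dat := by
  intro q Cu C0 ε0 b j z U θ v d D p s hE hP hS hD c hc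
  have h0 : 0 ≤ D := (norm_nonneg _).trans hS.lam.1
  obtain ⟨hL, hL1, hA, hH, hg, hκ, hx⟩ := rgdat_num hE h0 hD
  obtain ⟨b1, b2, b3⟩ := h_blo q Cu C0 ε0 b j z U θ v d D p hE hP hS hD
  have hU : U ⊆ box (q.m b (j + 1)) := hP.pm.1
  have hUn : U.Nonempty := hP.pm.2.1
  have hbox : under q.L (box (q.m b (j + 1))) = box (q.m b j) := by
    rw [f_under_box (by omega), ← q.m_succ hP.hok.pred.2.1]
  have hreg : reg q.L (box (q.m b (j + 1))) U ⊆ box (q.m b j) := by
    rw [← hbox]; exact geo_under_mono (f_near_sub _ _ _)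
  have hn : near 4 (reg q.L (box (q.m b (j + 1))) U) (under q.L U) ⊆
      near 4 (box (q.m b j)) (under q.L U) := filter_subset_filter _ hreg
  have hu : under q.L U ⊆ near 4 (box (q.m b j)) (under q.L U) := fun B hB =>
    mem_filter.2 ⟨hbox ▸ geo_under_mono hU hB, B, hB, geo_nr_refl _ _⟩
  have hpm : ∀ X, Conn X → X ⊆ near 4 (reg q.L (box (q.m b (j + 1))) U) (under q.L U) →
      Pm (q.m b j) X := fun X h1 h2 => ⟨(h2.trans hn).trans (f_near_sub _ _ _), h1⟩
  have hcl : c ∈ loc q.L 4 (box (q.m b (j + 1))) U := (mem_filter.1 hc).1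
  have dead : ∀ ω, ¬ live 4 (reg q.L (box (q.m b (j + 1))) U) c →
      q.dw b j z (bg (q.n b) z + cf θ + v) U d ω c = 0 := fun ω h => by
    unfold Par.dw
    rw [rgdat_dead h, mul_zero]
  by_cases hl : live 4 (reg q.L (box (q.m b (j + 1))) U) c
  swap
  · refine ⟨?_, fun ω => ⟨dead ω, ?_⟩⟩
    · simp only [dead _ hl]
      exact measurable_const
    · rw [dead ω hl, norm_zero]
      have := rgdat_aw (R := reg q.L (box (q.m b (j + 1))) U) (mul_nonneg hg h0) hS.hp le_rfl hA.le c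
      unfold Par.Yc
      positivity
  obtain ⟨-, -, -, o4, -⟩ := (h_one q.L 4 _ U (by omega) hU hUn).1 c hcl hl
  refine ⟨?_, fun ω => ⟨dead ω, ?_⟩⟩
  · unfold Par.dw lw
    refine measurable_const.mul (((measurable_const.mul ?_).mul ?_).mul measurable_const)
    · exact Finset.measurable_prod _ fun t _ => Finset.measurable_prod _ fun B _ =>
        (b2 B _).cexp.sub measurable_const
    · refine Finset.measurable_prod _ fun t _ => Finset.measurable_prod _ fun X hX => ?_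
      obtain ⟨h1, h2⟩ := o4 X (mem_biUnion.2 ⟨t, mem_univ _, hX⟩)
      exact measurable_const.mul (((b3 X (hpm X h1 h2) (h2.trans hn)).1 _).div_const _)
  · have hl100 : 100 ≤ q.l j := hL1.trans (Nat.le_self_pow (by omega) _)
    have hDH : 0 ≤ q.H Cu * D := mul_nonneg (by linarith) h0
    have hη : ∀ B ∈ under q.L U, ‖Complex.exp (d.e B + d.xt B)‖ ≤ Real.exp (2 * (q.H Cu * D)) :=
      fun B hB => by
        obtain ⟨e1, e2⟩ := hS.e B (hu hB)
        refine (Complex.norm_exp_le_exp_norm _).trans (Real.exp_le_exp.2 ?_)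
        linarith [norm_add_le (d.e B) (d.xt B)]
    have hI : ∀ B ∈ near 4 (reg q.L (box (q.m b (j + 1))) U) (under q.L U),
        ‖-d.e B - d.lam' / 2 * q.Qz b j z B (bg (q.n b) z + cf θ + v)‖ ≤
          q.κ / 8 * ea (q.l j) (cf θ) B + 4 * (q.H Cu * D) := fun B hB => by
      have e1 := (b1 B (hn hB)).1
      nlinarith [mul_le_mul_of_nonneg_right hκ (rgdat_ea (q.l j) (cf θ) B)]
    have key := h_lw q.L (q.l j) (box (q.m b (j + 1))) U q.κ q.A (q.g Cu * D) p 0 (4 * (q.H Cu * D))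
      θ (zeta q.L (q.n b) j ω) (fun B => d.e B + d.xt B) (fun _ => Real.exp (2 * (q.H Cu * D)))
      (fun _ => 1) (fun _ _ => 1) (fun _ => q.dI b j z (bg (q.n b) z + cf θ + v) d)
      (fun _ B => Complex.exp (q.dm b j z (bg (q.n b) z + cf θ + v) d ω B) - 1)
      (fun _ X => d.K X (bg (q.n b) z + cf θ + v + cf (zeta q.L (q.n b) j ω))) (fun _ _ => 0) c
      hL hl100 hU hUn hE.hκ.1.le hA (mul_nonneg hg h0) hS.hp le_rfl (by positivity) hcl hl
      (fun B hB => ⟨le_rfl, by rw [mul_one]; exact hη B hB, fun _ => by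
        rw [mul_one]; exact hη B hB⟩)
      (fun _ B hB => ⟨Complex.exp_ne_zero _,
        (Complex.norm_exp_le_exp_norm _).trans (Real.exp_le_exp.2 (hI B hB)), by
          unfold Par.dI
          rw [← Complex.exp_neg]
          refine (Complex.norm_exp_le_exp_norm _).trans (Real.exp_le_exp.2 ?_)
          rw [norm_neg]
          exact hI B hB⟩)
      (fun _ B hB => ((b1 B (hu hB)).2 ω).2)
      (fun _ X h1 h2 => (b3 X (hpm X h1 h2) (h2.trans hn)).2 ω)
      (fun X σ _ _ => by simp)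
    simp only [one_mul] at key
    have hl1 : q.l (j + 1) = q.L * q.l j := by unfold Par.l; ring
    unfold Par.dw Par.Yc
    rw [hl1]
    refine key.trans ?_
    have h2 := rgdat_two (L := q.L) (U := U) hDH (by rw [← mul_assoc (_ ^ 2)]; exact hx)
    have h3 := rgdat_aw (R := reg q.L (box (q.m b (j + 1))) U) (mul_nonneg hg h0) hS.hp le_rfl hA.le c
    gcongr

end Pool.Agent.Lib.MP_9cc147_pr.Cx
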