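import Pool.Agent.Lib.MP_9cc147_pr.Cx.Rg.S

/-! Deep blocks: an activity is close to its value at the affine part of the field. -/

open scoped Classical Topology
open Finset MeasureTheory ProbabilityTheory Filter

noncomputable section
namespace Pool.Agent.Lib.MP_9cc147_pr.Cx

theorem rgd_sq (a b : ℂ) : ‖a + b‖ ^ 2 ≤ 2 * ‖a‖ ^ 2 + 2 * ‖b‖ ^ 2 := by
  have h := pow_le_pow_left₀ (norm_nonneg _) (norm_add_le a b) 2
  nlinarith [sq_nonneg (‖a‖ - ‖b‖)]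

theorem rgd_n1_add (u v : Fld) (x : P) : n1 (u + v) x ≤ 2 * n1 u x + 2 * n1 v x := by
  have h : ∑ d, ‖dg (u + v) x d‖ ^ 2 ≤ ∑ d, (2 * ‖dg u x d‖ ^ 2 + 2 * ‖dg v x d‖ ^ 2) :=
    sum_le_sum fun d _ => by
      have e : dg (u + v) x d = dg u x d + dg v x d := by simp only [dg, Pi.add_apply]; ring
      rw [e]; exact rgd_sq _ _
  rw [sum_add_distrib, ← mul_sum, ← mul_sum] at h
  unfold n1; linarith

theorem rgd_n2_add (u v : Fld) (x : P) : n2 (u + v) x ≤ 2 * n2 u x + 2 * n2 v x := by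
  have h1 := rgd_sq (u (x + (1, 0)) - 2 * u x + u (x - (1, 0)))
    (v (x + (1, 0)) - 2 * v x + v (x - (1, 0)))
  have h2 := rgd_sq (u (x + (0, 1)) - 2 * u x + u (x - (0, 1)))
    (v (x + (0, 1)) - 2 * v x + v (x - (0, 1)))
  have h3 := rgd_sq (u (x + (1, 1)) - u (x + (1, 0)) - u (x + (0, 1)) + u x)
    (v (x + (1, 1)) - v (x + (1, 0)) - v (x + (0, 1)) + v x)
  unfold n2
  simp only [Pi.add_apply]
  rw [show u (x + (1, 0)) + v (x + (1, 0)) - 2 * (u x + v x) + (u (x - (1, 0)) + v (x - (1, 0))) =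
      u (x + (1, 0)) - 2 * u x + u (x - (1, 0)) + (v (x + (1, 0)) - 2 * v x + v (x - (1, 0))) by ring,
    show u (x + (0, 1)) + v (x + (0, 1)) - 2 * (u x + v x) + (u (x - (0, 1)) + v (x - (0, 1))) =
      u (x + (0, 1)) - 2 * u x + u (x - (0, 1)) + (v (x + (0, 1)) - 2 * v x + v (x - (0, 1))) by ring,
    show u (x + (1, 1)) + v (x + (1, 1)) - (u (x + (1, 0)) + v (x + (1, 0))) -
      (u (x + (0, 1)) + v (x + (0, 1))) + (u x + v x) =
      u (x + (1, 1)) - u (x + (1, 0)) - u (x + (0, 1)) + u x +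
        (v (x + (1, 1)) - v (x + (1, 0)) - v (x + (0, 1)) + v x) by ring]
  linarith

theorem rgd_n1_smul (s : ℂ) (v : Fld) (x : P) : n1 (s • v) x = ‖s‖ ^ 2 * n1 v x := by
  have e : ∀ d, dg (s • v) x d = s * dg v x d := fun d => by
    simp only [dg, Pi.smul_apply, smul_eq_mul]; ring
  simp only [n1, e, norm_mul, mul_pow, ← mul_sum]; ring

theorem rgd_n2_smul (s : ℂ) (v : Fld) (x : P) : n2 (s • v) x = ‖s‖ ^ 2 * n2 v x := by
  unfold n2
  simp only [Pi.smul_apply, smul_eq_mul]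
  rw [show s * v (x + (1, 0)) - 2 * (s * v x) + s * v (x - (1, 0)) =
      s * (v (x + (1, 0)) - 2 * v x + v (x - (1, 0))) by ring,
    show s * v (x + (0, 1)) - 2 * (s * v x) + s * v (x - (0, 1)) =
      s * (v (x + (0, 1)) - 2 * v x + v (x - (0, 1))) by ring,
    show s * v (x + (1, 1)) - s * v (x + (1, 0)) - s * v (x + (0, 1)) + s * v x =
      s * (v (x + (1, 1)) - v (x + (1, 0)) - v (x + (0, 1)) + v x) by ring]
  simp only [norm_mul, mul_pow]; ring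

theorem rgd_Nf_add (l : ℕ) (u v : Fld) (S : Finset P) :
    Nf l (u + v) S ≤ 2 * Nf l u S + 2 * Nf l v S := by
  unfold Nf
  rw [mul_sum, mul_sum, ← sum_add_distrib]
  refine sum_le_sum fun p _ => ?_
  have := mul_le_mul_of_nonneg_left (rgd_n2_add u v p) (sq_nonneg (l : ℝ))
  have := rgd_n1_add u v p
  linarith

theorem rgd_Nf_smul (l : ℕ) (s : ℂ) (v : Fld) (S : Finset P) :
    Nf l (s • v) S = ‖s‖ ^ 2 * Nf l v S := by
  unfold Nf
  rw [mul_sum]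
  exact sum_congr rfl fun p _ => by rw [rgd_n1_smul, rgd_n2_smul]; ring

theorem rgd_cell (l : ℕ) (v : Fld) (B : P) : ea l v B + eb l v B = Nf l v (cell l B) := by
  simp only [ea, eb, Nf, sum_add_distrib, mul_sum]

theorem rgd_n2_lin (V : Fld) (y : ℂ × ℂ) (x : P) : n2 (V - lin y) x = n2 V x := by
  unfold n2
  simp only [Pi.sub_apply, lin, Prod.fst_add, Prod.snd_add, Prod.fst_sub, Prod.snd_sub]
  push_cast
  congr 1
  · congr 1
    · congr 2; ring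
    · congr 2; ring
  · congr 2; ring

theorem rgd_Nf_lin (l : ℕ) (y : ℂ × ℂ) (S : Finset P) :
    Nf l (lin y) S = S.card * (‖y.1‖ ^ 2 + ‖y.2‖ ^ 2) := by
  have h1 : ∀ x, n1 (lin y) x = ‖y.1‖ ^ 2 + ‖y.2‖ ^ 2 := fun x => by
    have e0 : dg (lin y) x 0 = y.2 := by simp [dg, lin, crn]; ring
    have e1 : dg (lin y) x 1 = -y.1 := by simp [dg, lin, crn]; ring
    have e2 : dg (lin y) x 2 = -y.2 := by simp [dg, lin, crn]; ring
    have e3 : dg (lin y) x 3 = y.1 := by simp [dg, lin, crn]; ring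
    simp only [n1, Fin.sum_univ_four, e0, e1, e2, e3, norm_neg]; ring
  have h2 : ∀ x, n2 (lin y) x = 0 := fun x => by
    have h := rgd_n2_lin (lin y) y x
    rw [← h, sub_self]; simp [n2]
  simp [Nf, h1, h2, mul_add]

theorem rgd_nb_le {l : ℕ} (hl : 100 ≤ l) (v : Fld) {B B' : P} (h : B' ∈ nbh 3 B) :
    Nf l v (nb l B') ≤ ∑ B'' ∈ nbh 5 B, Nf l v (cell l B'') := by
  have l0 : (0 : ℤ) < l := by omega
  have key : ∀ p t : ℤ, t * l - ((l / 4 : ℕ) : ℤ) ≤ p → p ≤ (t + 1) * l + ((l / 4 : ℕ) : ℤ) →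
      t - 1 ≤ p / l ∧ p / l ≤ t + 1 := fun p t h1 h2 => by
    constructor
    · exact Int.le_ediv_of_mul_le l0 (by rw [sub_mul]; omega)
    · have : p / l < t + 2 := (Int.ediv_lt_iff_lt_mul l0).2 (by rw [add_mul] at h2 ⊢; omega)
      omega
  have hm : ∀ p ∈ nb l B', par l p ∈ nbh 5 B := fun p hp => by
    simp only [nb, fat, nbh, par, mem_product, mem_Icc] at hp h ⊢
    have := key _ _ hp.1.1 hp.1.2
    have := key _ _ hp.2.1 hp.2.2
    push_cast at h ⊢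
    omega
  unfold Nf
  rw [← sum_fiberwise_of_maps_to hm]
  refine sum_le_sum fun B'' _ => sum_le_sum_of_subset_of_nonneg (fun p hp => ?_)
    fun p _ _ => by unfold n1 n2; positivity
  obtain ⟨-, rfl⟩ := mem_filter.1 hp
  simp only [cell, par, mem_product, mem_Ico]
  exact ⟨⟨Int.ediv_mul_le _ l0.ne', Int.lt_ediv_add_one_mul_self _ l0⟩,
    Int.ediv_mul_le _ l0.ne', Int.lt_ediv_add_one_mul_self _ l0⟩

theorem rgd_card_nb {l : ℕ} (hl : 100 ≤ l) (B : P) : ((nb l B).card : ℝ) ≤ 4 * (l : ℝ) ^ 2 := by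
  have h : ∀ t : ℤ, ((t + 1) * l + ((l / 4 : ℕ) : ℤ) + 1 - (t * l - ((l / 4 : ℕ) : ℤ))).toNat ≤
      2 * l := fun t => by rw [add_mul]; omega
  have : (nb l B).card ≤ 2 * l * (2 * l) := by
    simp only [nb, fat, card_product, Int.card_Icc]
    exact Nat.mul_le_mul (h _) (h _)
  have : ((nb l B).card : ℝ) ≤ (2 * l * (2 * l) : ℕ) := by exact_mod_cast this
  push_cast at this
  linarith

theorem rgd_card_cell (l : ℕ) (B : P) : ((cell l B).card : ℝ) = (l : ℝ) ^ 2 := by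
  have h : ∀ t : ℤ, ((t + 1) * l - t * l).toNat = l := fun t => by rw [add_mul]; omega
  simp only [cell, card_product, Int.card_Ico, h]
  push_cast; ring

theorem rgd_card_nbh (B : P) : (nbh 5 B).card = 121 := by
  have h : ∀ t : ℤ, (t + ((5 : ℕ) : ℤ) + 1 - (t - ((5 : ℕ) : ℤ))).toNat = 11 := fun t => by omega
  simp only [nbh, card_product, Int.card_Icc, h]

/-- the two parameter family stays in the strip -/
theorem rgd_strip (h_osc : S_rg_osc) (h_str : S_rg_str) {l m L : ℕ} {h Cu T Tb : ℝ} {B : P}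
    {X : Finset P} {V : Fld} {y : ℂ × ℂ} {w : P → ℝ} {s t u : ℂ} (hL : 10 ^ 6 ≤ L) (hl : 100 ≤ l)
    (h0 : 0 < h) (hCu : 1 ≤ Cu) (hX : X ⊆ nbh 3 B) (hB : deep 5 m B) (hw : ∀ p, |w p| ≤ 1)
    (hw' : ∀ B' ∈ X, Nf l (cf w) (nb l B') ≤ Cu)
    (hy : (l : ℝ) ^ 2 * (‖y.1‖ ^ 2 + ‖y.2‖ ^ 2) ≤ c0 * (T * h ^ 2))
    (hV : ∑ B' ∈ nbh 5 B, ea l (V - lin y) B' ≤ c0 * Nb l V B) (hTb : Nb l V B + Cu = Tb * h ^ 2)
    (hs : ‖s‖ ^ 2 * (16 * c0 * T) ≤ 1) (ht : ‖t‖ ^ 2 * (16 * c0 * Tb) ≤ 1) (hu : ‖u‖ ≤ ‖t‖) :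
    Strip (l * m) l h (L * h) X (s • lin y + (t • (V - lin y) + u • cf w)) := by
  have hc : c0 = 10 ^ 8 := rfl
  have nb0 : 0 ≤ Nb l V B := sum_nonneg fun _ _ => by
    unfold eb; exact mul_nonneg (sq_nonneg _) (sum_nonneg fun _ _ => by unfold n2; positivity)
  have h2 := sq_pos_of_pos h0
  have a1 : ‖s‖ ^ 2 * ((l : ℝ) ^ 2 * (‖y.1‖ ^ 2 + ‖y.2‖ ^ 2)) ≤ h ^ 2 / 16 := by
    have := mul_le_mul_of_nonneg_left hy (sq_nonneg ‖s‖)
    have := mul_le_mul_of_nonneg_right hs h2.le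
    nlinarith
  have a2 : ‖t‖ ^ 2 * (c0 * (Nb l V B + Cu)) ≤ h ^ 2 / 16 := by
    have := mul_le_mul_of_nonneg_right ht h2.le
    rw [hTb]; nlinarith
  have a3 : ∑ B' ∈ nbh 5 B, Nf l (V - lin y) (cell l B') ≤ 2 * (c0 * Nb l V B) := by
    have e : ∑ B' ∈ nbh 5 B, eb l (V - lin y) B' ≤ Nb l V B := by
      simp only [Nb, eb, rgd_n2_lin]
      refine sum_le_sum_of_subset_of_nonneg (fun p hp => ?_) fun _ _ _ =>
        mul_nonneg (sq_nonneg _) (sum_nonneg fun _ _ => by unfold n2; positivity)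
      simp only [nbh, mem_product, mem_Icc] at hp ⊢
      push_cast at hp ⊢
      omega
    simp only [← rgd_cell, sum_add_distrib]
    rw [hc] at hV ⊢
    linarith
  have t0 := sq_nonneg ‖t‖
  have a4 : ‖t‖ ^ 2 * (c0 * Nb l V B) + ‖t‖ ^ 2 * (c0 * Cu) ≤ h ^ 2 / 16 := by linarith
  have a5 : 0 ≤ ‖t‖ ^ 2 * (c0 * Nb l V B) := by rw [hc]; positivity
  have a6 : ‖t‖ ^ 2 * Cu ≤ ‖t‖ ^ 2 * (c0 * Cu) :=
    mul_le_mul_of_nonneg_left (by rw [hc]; linarith) t0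
  have a7 : ‖t‖ ^ 2 ≤ ‖t‖ ^ 2 * Cu := le_mul_of_one_le_right t0 hCu
  have u2 : ‖u‖ ^ 2 ≤ ‖t‖ ^ 2 := pow_le_pow_left₀ (norm_nonneg _) hu 2
  have geo : ∀ p ∈ nbs l X, p ∈ fat l (4 * l) B ∧ p ∉ ring (l * m) := fun p hp => by
    obtain ⟨B', hB', hp⟩ := mem_biUnion.1 hp
    have hb := hX hB'
    have key : ∀ p t t' : ℤ, t - 3 ≤ t' → t' ≤ t + 3 → 5 ≤ t → t + 5 < m →
        t' * l - ((l / 4 : ℕ) : ℤ) ≤ p → p ≤ (t' + 1) * l + ((l / 4 : ℕ) : ℤ) →
        (t * l - ((4 * l : ℕ) : ℤ) ≤ p ∧ p ≤ (t + 1) * l + ((4 * l : ℕ) : ℤ)) ∧ 0 < p ∧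
          p < ((l * m : ℕ) : ℤ) := fun p t t' h1 h2 h3 h4 h5 h6 => by
      have l0 : (0 : ℤ) ≤ l := by omega
      have e1 := mul_le_mul_of_nonneg_right h1 l0
      have e2 := mul_le_mul_of_nonneg_right h2 l0
      have e3 := mul_le_mul_of_nonneg_right h3 l0
      have e4 := mul_le_mul_of_nonneg_right h4.le l0
      rw [Nat.cast_mul l m, mul_comm (l : ℤ) m]
      simp only [add_mul, sub_mul] at *
      omega
    simp only [nb, fat, nbh, mem_product, mem_Icc] at hp hb ⊢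
    push_cast at hb
    obtain ⟨d1, d2, d3, d4⟩ := hB
    push_cast at d1 d2 d3 d4
    have k1 := key _ _ _ hb.1.1 hb.1.2 d1 d2 hp.1.1 hp.1.2
    have k2 := key _ _ _ hb.2.1 hb.2.2 d3 d4 hp.2.1 hp.2.2
    refine ⟨⟨k1.1, k2.1⟩, fun hr => (mem_sdiff.1 hr).2 ?_⟩
    simp only [inn, mem_product, mem_Ioo]
    exact ⟨k1.2, k2.2⟩
  refine (h_str (l * m) 1000 l h (L * h) _ le_rfl hl).2 X (fun B' hB' => ?_)
    (fun p hp hr => absurd hr (geo p hp).2) fun p hp p' hp' => ?_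
  · have b1 := rgd_Nf_add l (s • lin y) (t • (V - lin y) + u • cf w) (nb l B')
    have b2 := rgd_Nf_add l (t • (V - lin y)) (u • cf w) (nb l B')
    rw [rgd_Nf_smul, rgd_Nf_lin] at b1
    rw [rgd_Nf_smul, rgd_Nf_smul] at b2
    have b3 := mul_le_mul_of_nonneg_left ((rgd_nb_le hl (V - lin y) (hX hB')).trans a3) t0
    have b4 : ‖u‖ ^ 2 * Nf l (cf w) (nb l B') ≤ ‖t‖ ^ 2 * Cu :=
      (mul_le_mul_of_nonneg_left (hw' B' hB') (sq_nonneg _)).trans
        (mul_le_mul_of_nonneg_right u2 (by linarith))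
    have b5 := mul_le_mul_of_nonneg_left (mul_le_mul_of_nonneg_right (rgd_card_nb hl B')
      (show 0 ≤ ‖y.1‖ ^ 2 + ‖y.2‖ ^ 2 by positivity)) (sq_nonneg ‖s‖)
    have b6 : 0 ≤ ‖t‖ ^ 2 * (c0 * Cu) := by linarith
    nlinarith
  · have o1 := h_osc l (s • lin y) B hl p (geo p hp).1 p' (geo p' hp').1
    have o2 := h_osc l (t • (V - lin y)) B hl p (geo p hp).1 p' (geo p' hp').1
    simp only [rgd_cell, rgd_Nf_smul, rgd_Nf_lin, rgd_card_cell, sum_const, rgd_card_nbh,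
      nsmul_eq_mul] at o1
    simp only [rgd_cell, rgd_Nf_smul, ← mul_sum] at o2
    have b3 := mul_le_mul_of_nonneg_left a3 t0
    have q1 : ‖(s • lin y) p - (s • lin y) p'‖ ≤ 10 ^ 5 * h :=
      (abs_le_of_sq_le_sq' (by rw [hc] at o1; push_cast at o1; nlinarith) (by positivity)).2
    have q2 : ‖(t • (V - lin y)) p - (t • (V - lin y)) p'‖ ≤ 10 ^ 5 * h :=
      (abs_le_of_sq_le_sq' (by rw [hc] at *; nlinarith) (by positivity)).2
    have q3 : ‖(u • cf w) p - (u • cf w) p'‖ ≤ h := by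
      have e : (u • cf w) p - (u • cf w) p' = u * ((w p - w p' : ℝ) : ℂ) := by
        simp only [Pi.smul_apply, smul_eq_mul, cf]; push_cast; ring
      have f : |w p - w p'| ≤ 2 := (abs_sub _ _).trans (by linarith [hw p, hw p'])
      have g : 2 * ‖t‖ ≤ h := (abs_le_of_sq_le_sq' (by nlinarith) h0.le).2
      rw [e, norm_mul, Complex.norm_real, Real.norm_eq_abs]
      nlinarith [norm_nonneg u, abs_nonneg (w p - w p')]
    have hL' : (10 : ℝ) ^ 6 ≤ L := by exact_mod_cast hL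
    have e : (s • lin y + (t • (V - lin y) + u • cf w)) p -
        (s • lin y + (t • (V - lin y) + u • cf w)) p' = ((s • lin y) p - (s • lin y) p') +
        ((t • (V - lin y)) p - (t • (V - lin y)) p') + ((u • cf w) p - (u • cf w) p') := by
      simp only [Pi.add_apply]; ring
    rw [e]
    have := norm_add₃_le (a := (s • lin y) p - (s • lin y) p')
      (b := (t • (V - lin y)) p - (t • (V - lin y)) p') (c := (u • cf w) p - (u • cf w) p')
    nlinarith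

theorem t_rg_deep (h_osc : S_rg_osc) (h_sch : S_rg_sch) (h_str : S_rg_str) (h_sm : S_rg_sm) :
    S_rg_deep := by
  intro q Cu C0 ε0 t0 b j X G a B z V y env hok ht0 hX hB ha act hz hy hV htt
  have hc : c0 = 10 ^ 8 := rfl
  have hL : 10 ^ 6 ≤ q.L := by
    have h1 := env.hL
    have : ((10 ^ 6 : ℕ) : ℝ) ≤ q.L := le_trans (by rw [hc]; norm_num) h1
    exact_mod_cast this
  have hl : 100 ≤ q.l j := le_trans (by omega) (Nat.le_self_pow (Nat.succ_ne_zero j) q.L)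
  have hn : q.n b = q.l j * q.m b j := by
    have := hok.2.1
    simp only [Par.n, Par.l, Par.m]
    rw [show b.2 + 2 = j + 1 + (b.2 + 1 - j) by omega, pow_add]; ring
  have hCu := env.hCu
  have h0 : 0 < q.h := by
    have : (0 : ℝ) < q.L := by exact_mod_cast (by omega : 0 < q.L)
    exact lt_of_lt_of_le (by positivity) env.hh.1
  have h2 := sq_pos_of_pos h0
  have hX3 := ((h_sm _ B (2 ^ 60) le_rfl).1 X hX).1
  have hXb : X ⊆ box (q.m b j) := mem_powerset.1 (mem_filter.1 hX).1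
  have dp : ∀ B' ∈ X, (2 ≤ B'.1 ∧ B'.1 + 2 < q.m b j) ∧ 2 ≤ B'.2 ∧ B'.2 + 2 < q.m b j :=
    fun B' hB' => by
      have hb := hX3 hB'
      obtain ⟨d1, d2, d3, d4⟩ := hB
      simp only [nbh, mem_product, mem_Icc] at hb
      push_cast at hb d1 d2 d3 d4
      omega
  have hm : 2 ≤ q.m b j := by
    obtain ⟨d1, d2, -⟩ := hB
    push_cast at d1 d2
    omega
  have ns : ¬ spec (q.m b j) X := by
    rintro ⟨h | h, -⟩ <;> simp only [sds, mem_filter, mem_univ, true_and] at h <;>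
      obtain ⟨B', hB', h⟩ := h <;> have := dp B' hB' <;> simp at h <;> omega
  obtain ⟨w, hw, hwu, hw'⟩ := (env.u _ _ _ hn hl hm).1 0 (Or.inl rfl)
  have hw'' : ∀ B' ∈ X, Nf (q.l j) (cf w) (nb (q.l j) B') ≤ Cu := fun B' hB' =>
    (hw' B' (hXb hB') (by have := dp B' hB'; rw [if_pos rfl]; omega)).1
  set T := q.tt Cu j V B with hT
  set Tb := q.tb Cu j V B with hTb
  have e1 : Nl (q.l j) V B + Cu = T * q.h ^ 2 := by rw [hT, Par.tt]; field_simp
  have e2 : Nb (q.l j) V B + Cu = Tb * q.h ^ 2 := by rw [hTb, Par.tb]; field_simp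
  have nb0 : 0 ≤ Nb (q.l j) V B := sum_nonneg fun _ _ => by
    unfold eb; exact mul_nonneg (sq_nonneg _) (sum_nonneg fun _ _ => by unfold n2; positivity)
  have nbl : Nb (q.l j) V B ≤ Nl (q.l j) V B := sum_le_sum fun _ _ =>
    le_add_of_nonneg_left (sum_nonneg fun _ _ => by unfold n1; positivity)
  have Tb0 : 0 < Tb := by nlinarith
  have TbT : Tb ≤ T := by nlinarith
  have T1 : 16 * c0 * T < 1 := by rw [hc] at htt ⊢; linarith
  have c1 : 0 < 16 * c0 * Tb := by rw [hc]; positivity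
  have c2 : 16 * c0 * Tb ≤ 16 * c0 * T := by rw [hc]; linarith
  have rad : ∀ {x : ℝ}, 0 < x → x < 1 → ‖(1 : ℂ)‖ < (√x)⁻¹ ∧
      ∀ s ∈ Metric.ball (0 : ℂ) (√x)⁻¹, ‖s‖ ^ 2 * x ≤ 1 := fun {x} x0 x1 => by
    have r0 := Real.sqrt_pos.2 x0
    refine ⟨by rw [norm_one]; exact (one_lt_inv₀ r0).2 ((Real.sqrt_lt' one_pos).2 (by rwa [one_pow])), ?_⟩
    intro s hs
    rw [mem_ball_zero_iff] at hs
    have : ‖s‖ * √x ≤ 1 := by
      have := mul_le_mul_of_nonneg_right hs.le r0.le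
      rwa [inv_mul_cancel₀ r0.ne'] at this
    have h3 := pow_le_pow_left₀ (by positivity) this 2
    rwa [mul_pow, Real.sq_sqrt x0.le, one_pow] at h3
  obtain ⟨r1, r1'⟩ := rad (c1.trans_le c2) T1
  obtain ⟨r2, r2'⟩ := rad c1 (c2.trans_lt T1)
  have z0 : ‖(0 : ℂ)‖ ≤ t0 := by rw [norm_zero]; exact (norm_nonneg z).trans hz
  let vf : ℂ → ℂ → Fld := fun s t => s • lin y + (t • (V - lin y) + (t * z) • cf w)
  have st : ∀ s ∈ Metric.ball (0 : ℂ) (√(16 * c0 * T))⁻¹, ∀ t ∈ Metric.ball (0 : ℂ)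
      (√(16 * c0 * Tb))⁻¹, Strip (q.n b) (q.l j) q.h (q.L * q.h) X (vf s t) := fun s hs t ht => by
    rw [hn]
    refine rgd_strip h_osc h_str hL hl h0 hCu hX3 hB hw hw'' (hy.trans ?_) hV e2 (r1' s hs)
      (r2' t ht) ?_
    · rw [hc]; linarith
    · rw [norm_mul]; exact mul_le_of_le_one_right (norm_nonneg _) (hz.trans ht0)
  let F : ℂ → ℂ → ℂ := fun s t => G 0 (bg (q.n b) 0 + vf s t)
  have d1 : ∀ t ∈ Metric.ball (0 : ℂ) (√(16 * c0 * Tb))⁻¹, DifferentiableOn ℂ (fun s => F s t)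
      (Metric.ball 0 (√(16 * c0 * T))⁻¹) := fun t ht =>
    act.hol 0 z0 _ (fun s => vf s t) Metric.isOpen_ball
      (fun p => by simp only [vf, Pi.add_apply, Pi.smul_apply, smul_eq_mul]; fun_prop)
      fun s hs => st s hs t ht
  have d2 : ∀ s ∈ Metric.ball (0 : ℂ) (√(16 * c0 * T))⁻¹, DifferentiableOn ℂ (F s)
      (Metric.ball 0 (√(16 * c0 * Tb))⁻¹) := fun s hs =>
    act.hol 0 z0 _ (fun t => vf s t) Metric.isOpen_ball
      (fun p => by simp only [vf, Pi.add_apply, Pi.smul_apply, smul_eq_mul]; fun_prop)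
      fun t ht => st s hs t ht
  have bd : ∀ s ∈ Metric.ball (0 : ℂ) (√(16 * c0 * T))⁻¹, ∀ t ∈ Metric.ball (0 : ℂ)
      (√(16 * c0 * Tb))⁻¹, ‖F s t‖ ≤ a := fun s hs t ht => by
    have h3 := act.bd 0 z0 0 (fun p => by simp) _ (st s hs t ht)
    have e : cf 0 = 0 := by funext p; simp [cf]
    have e' : ∀ S, Nf (q.l j) 0 S = 0 := fun S => by simp [Nf, n1, n2, dg]
    simpa only [e, add_zero, e', sum_const_zero, mul_zero, Real.exp_zero, mul_one] using h3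
  have m0 : (0 : ℂ) ∈ Metric.ball (0 : ℂ) (√(16 * c0 * T))⁻¹ :=
    Metric.mem_ball_self (lt_trans (by simp) r1)
  have s1 := h_sch.2.1 F _ _ a 1 1 d1 d2 bd r1 r2
  have s2 := (h_sch.1 (F 0) _ a 1 (d2 0 m0) (bd 0 m0) r2).2 fun t _ => by
    have h3 := act.neg 0 (bg (q.n b) 0 + vf 0 t)
    rw [neg_zero] at h3
    refine Eq.trans ?_ h3
    refine congrArg (G 0) (funext fun p => ?_)
    simp [vf, bg]; ring
  have f11 : F 1 1 = G z (bg (q.n b) z + V) := by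
    rw [act.far ns z]
    refine act.loc 0 _ _ fun p hp => ?_
    simp [vf, bg, cf, hwu p (mem_inter.1 hp).2]; ring
  have f10 : F 1 0 = G 0 (lin y) := congrArg (G 0) (funext fun p => by simp [vf, bg])
  have e : G z (bg (q.n b) z + V) - G 0 (lin y) =
      (F 1 1 - F 1 0 - F 0 1 + F 0 0) + (F 0 1 - F 0 0) := by rw [f11, f10]; ring
  rw [norm_one, one_div, inv_inv, one_div, inv_inv, mul_assoc, ← Real.sqrt_mul (c1.trans_le c2).le,
    show 16 * c0 * T * (16 * c0 * Tb) = (16 * c0) ^ 2 * (T * Tb) by ring,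
    Real.sqrt_mul (sq_nonneg _), Real.sqrt_sq (by rw [hc]; norm_num)] at s1
  rw [norm_one, one_div, inv_inv, Real.sq_sqrt c1.le] at s2
  rw [e]
  refine (norm_add_le _ _).trans ?_
  have p1 : 0 ≤ a * √(T * Tb) := by positivity
  have p2 : 0 ≤ a * Tb := by positivity
  rw [hc] at s1 s2 ⊢
  nlinarith

end Pool.Agent.Lib.MP_9cc147_pr.Cx
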