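import Pool.Agent.Lib.MP_9cc147_pr.Cx.A.Exp
import Pool.Agent.Lib.MP_9cc147_pr.Cx.A.One1

/-! Bounds and closure properties of the polymer sums `W1`, `W2` on a finite region. -/

open scoped Classical
open Finset

noncomputable section
namespace Pool.Agent.Lib.MP_9cc147_pr.Cx

lemma fin_prod {M : Type} [CommMonoid M] (Y : Finset P) (f : P → M) :
    ∏ X ∈ comps Y, ∏ B ∈ X, f B = ∏ B ∈ Y, f B := by
  conv_rhs => rw [← exp_cover Y]
  rw [prod_biUnion fun X hX X' hX' h => exp_disj Y X hX X' hX' h]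

lemma fin_pk {Y : Finset P} {K : Finset P → ℂ} {β : P → ℝ} {a : ℝ}
    (h : ∀ X ∈ comps Y, ‖K X‖ ≤ a * ∏ B ∈ X, β B) :
    ‖∏ X ∈ comps Y, K X‖ ≤ a ^ (comps Y).card * ∏ B ∈ Y, β B := by
  rw [norm_prod, ← fin_prod, ← prod_const, ← prod_mul_distrib]
  exact prod_le_prod (fun _ _ => norm_nonneg _) h

lemma fin_pk1 {Y : Finset P} {K : Finset P → ℂ} {β : P → ℝ} {a : ℝ} (ha : 0 ≤ a) (ha1 : a ≤ 1)
    (hβ : ∀ B, 0 ≤ β B) (hY : Y.Nonempty) (h : ∀ X ∈ comps Y, ‖K X‖ ≤ a * ∏ B ∈ X, β B) :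
    ‖∏ X ∈ comps Y, K X‖ ≤ a * ∏ B ∈ Y, β B :=
  (fin_pk h).trans (mul_le_mul_of_nonneg_right
    (pow_le_of_le_one ha ha1 (card_pos.2 (hY.image _)).ne') (prod_nonneg fun B _ => hβ B))

lemma fin_w1 {R : Finset P} {I : P → ℂ} {K : Finset P → ℂ} {β : P → ℝ} {a γ : ℝ} (ha : 0 ≤ a)
    (ha1 : a ≤ 1) (hγ : 0 ≤ γ) (hβ : ∀ B, 0 ≤ β B) (hI : ∀ B ∈ R, ‖I B‖ ≤ β B)
    (hK : ∀ X, X ⊆ R → Conn X → ‖K X‖ ≤ a * ∏ B ∈ X, γ * β B) :
    ‖W1 R I K - ∏ B ∈ R, I B‖ ≤ a * ((1 + γ) ^ R.card - 1) * ∏ B ∈ R, β B := by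
  have e : ∑ Y ∈ R.powerset.erase ∅, ∏ _B ∈ Y, γ = (1 + γ) ^ R.card - 1 := by
    rw [← prod_const, prod_one_add, ← add_sum_erase _ _ (empty_mem_powerset R), prod_empty]
    ring
  rw [W1, ← add_sum_erase _ _ (empty_mem_powerset R), one_comps_empty, prod_empty, mul_one,
    sdiff_empty, add_sub_cancel_left, ← e, mul_sum, sum_mul]
  refine norm_sum_le_of_le _ fun Y hY => ?_
  obtain ⟨h0, h1⟩ := mem_erase.1 hY
  have h1 := mem_powerset.1 h1
  have k := fin_pk1 ha ha1 (fun B => mul_nonneg hγ (hβ B)) (nonempty_iff_ne_empty.2 h0)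
    fun X hX => hK X ((one_comps_sub hX).trans h1) (one_comps_conn hX)
  have k2 : ‖∏ B ∈ R \ Y, I B‖ ≤ ∏ B ∈ R \ Y, β B := by
    rw [norm_prod]
    exact prod_le_prod (fun _ _ => norm_nonneg _) fun B hB => hI B (mem_sdiff.1 hB).1
  rw [norm_mul, ← prod_sdiff h1 (f := β)]
  refine (mul_le_mul k2 k (norm_nonneg _) (prod_nonneg fun B _ => hβ B)).trans_eq ?_
  rw [prod_mul_distrib]
  ring

lemma fin_part (R : Finset P) (c : P → St) (β : P → ℝ) :
    (∏ s, ∏ B ∈ fre R c s, β B) * (∏ s, ∏ B ∈ pol R c s, β B) * ∏ B ∈ bad R c, β B =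
      ∏ B ∈ R, β B := by
  rw [← prod_fiberwise R c β, Fintype.prod_option, Fintype.prod_prod_type]
  simp only [Fintype.prod_bool, prod_mul_distrib, fre, pol, bad]
  ring

lemma fin_card (R : Finset P) : (cfgs (univ : Finset St) none R).card ≤ 7 ^ R.card := by
  refine card_image_le.trans ?_
  simp

lemma fin_w2 {R : Finset P} {I : Lab → P → ℂ} {K : Lab → Finset P → ℂ}
    {N : Finset P → (P → Option Lab) → ℂ} {β : P → ℝ} {a : ℝ} (ha : 0 ≤ a)
    (ha1 : a ≤ 1) (hβ : ∀ B, 0 ≤ β B) (hI : ∀ s, ∀ B ∈ R, ‖I s B‖ ≤ β B)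
    (hK : ∀ s X, X ⊆ R → Conn X → ‖K s X‖ ≤ ∏ B ∈ X, β B)
    (hN : ∀ X σ, X ⊆ R → Conn X → ‖N X σ‖ ≤ a * ∏ B ∈ X, β B) :
    ‖W2 R I K N‖ ≤ 7 ^ R.card * (a * ∏ B ∈ R, β B) := by
  have p0 : ∀ S : Finset P, 0 ≤ ∏ B ∈ S, β B := fun S => prod_nonneg fun B _ => hβ B
  refine (norm_sum_le_of_le _ (n := fun _ => a * ∏ B ∈ R, β B) fun c hc => ?_).trans ?_
  · have k1 : ‖∏ s, ∏ B ∈ fre R c s, I s B‖ ≤ ∏ s, ∏ B ∈ fre R c s, β B := by
      rw [norm_prod]
      refine prod_le_prod (fun _ _ => norm_nonneg _) fun s _ => ?_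
      rw [norm_prod]
      exact prod_le_prod (fun _ _ => norm_nonneg _) fun B hB => hI s B (mem_filter.1 hB).1
    have k2 : ‖∏ s, ∏ X ∈ comps (pol R c s), K s X‖ ≤ ∏ s, ∏ B ∈ pol R c s, β B := by
      rw [norm_prod]
      refine prod_le_prod (fun _ _ => norm_nonneg _) fun s _ => ?_
      have := fin_pk (a := 1) (β := β) (Y := pol R c s) (K := K s) fun X hX => by
        rw [one_mul]
        exact hK s X ((one_comps_sub hX).trans (filter_subset _ _)) (one_comps_conn hX)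
      simpa using this
    have k3 := fin_pk1 ha ha1 hβ (mem_filter.1 hc).2.2 (K := fun X => N X (sig R c X))
      fun X hX => hN X _ ((one_comps_sub hX).trans (filter_subset _ _)) (one_comps_conn hX)
    rw [norm_mul, norm_mul, ← fin_part R c β]
    refine (mul_le_mul (mul_le_mul k1 k2 (norm_nonneg _) (prod_nonneg fun _ _ => p0 _)) k3
      (norm_nonneg _) (mul_nonneg (prod_nonneg fun _ _ => p0 _)
        (prod_nonneg fun _ _ => p0 _))).trans_eq ?_
    ring
  · rw [sum_const, nsmul_eq_mul]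
    refine mul_le_mul_of_nonneg_right ?_ (mul_nonneg ha (p0 _))
    exact_mod_cast (card_filter_le _ _).trans (fin_card R)

lemma fin_scale (R : Finset P) (I d : P → ℂ) (K : Finset P → ℂ) :
    W1 R (fun B => Complex.exp (-d B) * I B) (fun X => Complex.exp (-∑ B ∈ X, d B) * K X) =
      Complex.exp (-∑ B ∈ R, d B) * W1 R I K := by
  have e : ∀ S : Finset P, Complex.exp (-∑ B ∈ S, d B) = ∏ B ∈ S, Complex.exp (-d B) := fun S => by
    rw [← sum_neg_distrib, Complex.exp_sum]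
  simp only [W1, e, mul_sum, prod_mul_distrib, fin_prod]
  refine sum_congr rfl fun Y hY => ?_
  rw [← prod_sdiff (mem_powerset.1 hY) (f := fun B => Complex.exp (-d B))]
  ring

lemma fin_congr {R : Finset P} {I I' : Lab → P → ℂ} {K K' : Lab → Finset P → ℂ}
    {N N' : Finset P → (P → Option Lab) → ℂ} (hI : ∀ s, ∀ B ∈ R, I s B = I' s B)
    (hK : ∀ s X, X ⊆ R → Conn X → K s X = K' s X)
    (hN : ∀ X σ, X ⊆ R → Conn X → N X σ = N' X σ) : Wsum R I K N = Wsum R I' K' N' := by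
  refine sum_congr rfl fun c _ => ?_
  congr 1
  · congr 1
    · exact prod_congr rfl fun s _ => prod_congr rfl fun B hB => hI s B (mem_filter.1 hB).1
    · exact prod_congr rfl fun s _ => prod_congr rfl fun X hX =>
        hK s X ((one_comps_sub hX).trans (filter_subset _ _)) (one_comps_conn hX)
  · exact prod_congr rfl fun X hX =>
      hN X _ ((one_comps_sub hX).trans (filter_subset _ _)) (one_comps_conn hX)

/-- a class of functions closed under the ring operations -/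
structure FinQ {Y : Type} (Q : (Y → ℂ) → Prop) : Prop where
  zero : Q fun _ => 0
  one : Q fun _ => 1
  add : ∀ f g, Q f → Q g → Q fun y => f y + g y
  mul : ∀ f g, Q f → Q g → Q fun y => f y * g y

variable {Y : Type} {Q : (Y → ℂ) → Prop}

lemma FinQ.sum (h : FinQ Q) {ι : Type} (S : Finset ι) (f : ι → Y → ℂ) (hf : ∀ i ∈ S, Q (f i)) :
    Q fun y => ∑ i ∈ S, f i y := by
  induction S using Finset.induction_on with
  | empty => simpa using h.zero
  | insert i S hi ih =>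
    simp only [sum_insert hi]
    exact h.add _ _ (hf i (mem_insert_self _ _)) (ih fun j hj => hf j (mem_insert_of_mem hj))

lemma FinQ.prod (h : FinQ Q) {ι : Type} (S : Finset ι) (f : ι → Y → ℂ) (hf : ∀ i ∈ S, Q (f i)) :
    Q fun y => ∏ i ∈ S, f i y := by
  induction S using Finset.induction_on with
  | empty => simpa using h.one
  | insert i S hi ih =>
    simp only [prod_insert hi]
    exact h.mul _ _ (hf i (mem_insert_self _ _)) (ih fun j hj => hf j (mem_insert_of_mem hj))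

lemma FinQ.w1 (h : FinQ Q) {R : Finset P} {I : Y → P → ℂ} {K : Y → Finset P → ℂ}
    (hI : ∀ B ∈ R, Q fun y => I y B) (hK : ∀ X, X ⊆ R → Conn X → Q fun y => K y X) :
    Q fun y => W1 R (I y) (K y) :=
  h.sum _ _ fun _ hS => h.mul _ _ (h.prod _ _ fun B hB => hI B (mem_sdiff.1 hB).1)
    (h.prod _ _ fun X hX => hK X ((one_comps_sub hX).trans (mem_powerset.1 hS)) (one_comps_conn hX))

lemma FinQ.w2 (h : FinQ Q) {R : Finset P} {I : Y → Lab → P → ℂ} {K : Y → Lab → Finset P → ℂ}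
    {N : Y → Finset P → (P → Option Lab) → ℂ} (hI : ∀ s, ∀ B ∈ R, Q fun y => I y s B)
    (hK : ∀ s X, X ⊆ R → Conn X → Q fun y => K y s X)
    (hN : ∀ X σ, X ⊆ R → Conn X → Q fun y => N y X σ) : Q fun y => W2 R (I y) (K y) (N y) :=
  h.sum _ _ fun _ _ => h.mul _ _ (h.mul _ _
    (h.prod _ _ fun s _ => h.prod _ _ fun B hB => hI s B (mem_filter.1 hB).1)
    (h.prod _ _ fun s _ => h.prod _ _ fun X hX =>
      hK s X ((one_comps_sub hX).trans (filter_subset _ _)) (one_comps_conn hX)))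
    (h.prod _ _ fun X hX =>
      hN X _ ((one_comps_sub hX).trans (filter_subset _ _)) (one_comps_conn hX))

lemma finQ_meas {Y : Type} [MeasurableSpace Y] : FinQ (Y := Y) Measurable :=
  ⟨measurable_const, measurable_const, fun _ _ a b => a.add b, fun _ _ a b => a.mul b⟩

lemma finQ_hol (O : Set ℂ) : FinQ fun f : ℂ → ℂ => DifferentiableOn ℂ f O :=
  ⟨differentiableOn_const _, differentiableOn_const _, fun _ _ a b => a.add b,
    fun _ _ a b => a.mul b⟩

lemma finQ_im {Y : Type} : FinQ fun f : Y → ℂ => ∀ y, (f y).im = 0 :=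
  ⟨fun _ => rfl, fun _ => rfl, fun _ _ a b y => by simp [a y, b y],
    fun _ _ a b y => by simp [a y, b y]⟩

lemma fin_box_conn {m : ℕ} (hm : 1 ≤ m) : Conn (box m) := by
  have mem : ∀ a : P, a ∈ box m ↔ (0 ≤ a.1 ∧ a.1 < m) ∧ 0 ≤ a.2 ∧ a.2 < m := fun a => by
    simp [box]
  have k : ∀ N : ℕ, ∀ a ∈ box m, a.1 + a.2 = N → Relation.ReflTransGen (lnk (box m)) (0, 0) a := by
    intro N
    induction N with
    | zero =>
      intro a ha e
      rw [mem] at ha
      obtain rfl : a = (0, 0) := Prod.ext (by simp only; omega) (by simp only; omega)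
      exact .refl
    | succ N ih =>
      intro a ha e
      have ha' := (mem a).1 ha
      by_cases h : a.1 = 0
      · have hb : (a.1, a.2 - 1) ∈ box m := (mem _).2 (by simp only; omega)
        exact (ih _ hb (by simp only; omega)).tail ⟨hb, ha, by simp [nr]⟩
      · have hb : (a.1 - 1, a.2) ∈ box m := (mem _).2 (by simp only; omega)
        exact (ih _ hb (by simp only; omega)).tail ⟨hb, ha, by simp [nr]⟩
  have k' : ∀ a ∈ box m, Relation.ReflTransGen (lnk (box m)) (0, 0) a := fun a ha =>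
    k (a.1 + a.2).toNat a ha (by have := (mem a).1 ha; omega)
  exact ⟨⟨(0, 0), (mem _).2 (by simp only; omega)⟩, fun a ha b hb =>
    (one_rt_symm (k' a ha)).trans (k' b hb)⟩

end Pool.Agent.Lib.MP_9cc147_pr.Cx
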