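import Pool.Agent.Lib.MP_9cc147_pr.Cx.Rg.S
import Pool.Agent.Lib.MP_9cc147_pr.Cx.T.S
import Pool.Agent.Lib.MP_9cc147_pr.Cx.F.Kit
import Pool.Agent.Lib.MP_9cc147_pr.Cx.F.GauA

/-! Integration of the noise on small polymers. -/

open scoped Classical Topology
open Finset MeasureTheory ProbabilityTheory Filter

noncomputable section
namespace Pool.Agent.Lib.MP_9cc147_pr.Cx

theorem rgg_L {q : Par} {Cu C0 ε0 : ℝ} (E : q.Env Cu C0 ε0) : 1000 ≤ q.L := by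
  have h := E.hL
  have : (1000 : ℝ) ≤ c0 ^ 8 := by norm_num [c0]
  exact_mod_cast this.trans h

theorem rgg_l {q : Par} (h : 1000 ≤ q.L) (j : ℕ) : 1000 ≤ q.l j :=
  h.trans (by simpa [Par.l] using Nat.pow_le_pow_right (by omega : 0 < q.L) (Nat.le_add_left 1 j))

theorem rgg_A {q : Par} {Cu C0 ε0 : ℝ} (E : q.Env Cu C0 ε0) : 2 ^ 60 ≤ q.A := by
  have h : (1000 : ℝ) ≤ q.L := by exact_mod_cast rgg_L E
  have := E.hA
  nlinarith

theorem rgg_h {q : Par} {Cu C0 ε0 : ℝ} (E : q.Env Cu C0 ε0) : 1000 ≤ q.h := by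
  have h1 := E.hh.2
  have h2 := E.hκ
  by_contra h
  rcases le_total 0 q.h with h3 | h3 <;> nlinarith

theorem rgg_sq (a b : ℂ) : ‖a + b‖ ^ 2 ≤ 2 * ‖a‖ ^ 2 + 2 * ‖b‖ ^ 2 := by
  have h := pow_le_pow_left₀ (norm_nonneg _) (norm_add_le a b) 2
  nlinarith [sq_nonneg (‖a‖ - ‖b‖)]

theorem rgg_n1 (u w : Fld) (x : P) : n1 (u + w) x ≤ 2 * n1 u x + 2 * n1 w x := by
  have h : ∑ d, ‖dg (u + w) x d‖ ^ 2 ≤ ∑ d, (2 * ‖dg u x d‖ ^ 2 + 2 * ‖dg w x d‖ ^ 2) :=
    sum_le_sum fun d _ => by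
      rw [show dg (u + w) x d = dg u x d + dg w x d by simp only [dg, Pi.add_apply]; ring]
      exact rgg_sq _ _
  rw [sum_add_distrib, ← mul_sum, ← mul_sum] at h
  unfold n1
  linarith

theorem rgg_n2 (u w : Fld) (p : P) : n2 (u + w) p ≤ 2 * n2 u p + 2 * n2 w p := by
  have h1 := rgg_sq (u (p + (1, 0)) - 2 * u p + u (p - (1, 0)))
    (w (p + (1, 0)) - 2 * w p + w (p - (1, 0)))
  have h2 := rgg_sq (u (p + (0, 1)) - 2 * u p + u (p - (0, 1)))
    (w (p + (0, 1)) - 2 * w p + w (p - (0, 1)))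
  have h3 := rgg_sq (u (p + (1, 1)) - u (p + (1, 0)) - u (p + (0, 1)) + u p)
    (w (p + (1, 1)) - w (p + (1, 0)) - w (p + (0, 1)) + w p)
  have e1 : ∀ a b c d e f : ℂ, a + b - 2 * (c + d) + (e + f) = a - 2 * c + e + (b - 2 * d + f) :=
    fun _ _ _ _ _ _ => by ring
  have e2 : ∀ a b c d e f g h : ℂ,
      a + b - (c + d) - (e + f) + (g + h) = a - c - e + g + (b - d - f + h) :=
    fun _ _ _ _ _ _ _ _ => by ring
  simp only [n2, Pi.add_apply, e1, e2]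
  linarith

theorem rgg_n1_nn (v : Fld) (x : P) : 0 ≤ n1 v x := by unfold n1; positivity
theorem rgg_n2_nn (v : Fld) (x : P) : 0 ≤ n2 v x := by unfold n2; positivity
theorem rgg_Nf_nn (l : ℕ) (v : Fld) (S : Finset P) : 0 ≤ Nf l v S :=
  sum_nonneg fun _ _ => add_nonneg (rgg_n1_nn _ _) (mul_nonneg (sq_nonneg _) (rgg_n2_nn _ _))

theorem rgg_Nf_add (l : ℕ) (u w : Fld) (S : Finset P) :
    Nf l (u + w) S ≤ 2 * Nf l u S + 2 * Nf l w S := by
  unfold Nf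
  rw [mul_sum, mul_sum, ← sum_add_distrib]
  refine sum_le_sum fun p _ => ?_
  have h1 := rgg_n1 u w p
  have h2 := mul_le_mul_of_nonneg_left (rgg_n2 u w p) (sq_nonneg (l : ℝ))
  linarith

theorem rgg_Nf_zero (l : ℕ) (S : Finset P) : Nf l 0 S = 0 := by simp [Nf, n1, n2, dg]

theorem rgg_bU (g : P → ℝ) (hg : ∀ p, 0 ≤ g p) (X : Finset P) (S : P → Finset P) :
    ∑ p ∈ X.biUnion S, g p ≤ ∑ B ∈ X, ∑ p ∈ S B, g p := by
  induction X using Finset.induction_on with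
  | empty => simp
  | insert a X ha ih =>
    rw [biUnion_insert, sum_insert ha]
    have h1 := sum_union_inter (s₁ := S a) (s₂ := X.biUnion S) (f := g)
    have h2 : 0 ≤ ∑ p ∈ S a ∩ X.biUnion S, g p := sum_nonneg fun p _ => hg p
    linarith

theorem rgg_mem_nb {l : ℕ} {B p : P} : p ∈ nb l B ↔
    (B.1 * l - (l / 4 : ℕ) ≤ p.1 ∧ p.1 ≤ (B.1 + 1) * l + (l / 4 : ℕ)) ∧
      B.2 * l - (l / 4 : ℕ) ≤ p.2 ∧ p.2 ≤ (B.2 + 1) * l + (l / 4 : ℕ) := by
  rw [nb, fat, mem_product, mem_Icc, mem_Icc]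

theorem rgg_reg (l : ℕ) (X : Finset P) (θ : P → ℝ) :
    Reg l X θ ≤ ∑ B ∈ X, Nf l (cf θ) (nb l B) := by
  have hs : under l X ⊆ nbs l X := biUnion_mono fun B _ p hp => by
    rw [f_mem_cell'] at hp
    rw [rgg_mem_nb]
    omega
  have h1 := sum_sdiff (f := n1 (cf θ)) hs
  have h2 : 0 ≤ ∑ x ∈ nbs l X \ under l X, n1 (cf θ) x := sum_nonneg fun _ _ => rgg_n1_nn _ _
  have h3 := rgg_bU (fun p => n1 (cf θ) p + (l : ℝ) ^ 2 * n2 (cf θ) p)
    (fun p => add_nonneg (rgg_n1_nn _ _) (mul_nonneg (sq_nonneg _) (rgg_n2_nn _ _))) X (nb l)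
  rw [sum_add_distrib, ← mul_sum] at h3
  unfold Reg Nf
  unfold nbs at *
  linarith

theorem rgg_strip0 (n l : ℕ) (h : ℝ) {h' : ℝ} (hh : 0 ≤ h') (X : Finset P) : Strip n l h h' X 0 :=
  ⟨fun _ _ => by rw [rgg_Nf_zero]; positivity, fun _ _ _ => rfl, 0, fun _ => rfl,
    fun _ _ => by simpa using hh⟩

theorem t_rg_g (h_zel : S_zel) (h_hol : S_T_hol) : S_rg_g := by
  intro q Cu C0 ε0 t0 b j X F a E hb hX h4 ha H
  have hL := rgg_L E
  have hL' : (1000 : ℝ) ≤ q.L := by exact_mod_cast hL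
  obtain ⟨hPP, hz⟩ := h_zel
  obtain ⟨z1, z2, z3, -, z5⟩ := hz q.L (q.n b) j (by omega) (f_n_pos q (by omega) hb)
  have hY := (E.zm b j hb).1 X hX.1
  have hκ := E.hκ.1
  have mc : Measurable fun ω => cf (zeta q.L (q.n b) j ω) :=
    measurable_pi_lambda _ fun p =>
      Complex.measurable_ofReal.comp ((measurable_pi_apply p).comp z2.1)
  have me : ∀ z (Θ : Fld), Measurable fun ω => F z (Θ + cf (zeta q.L (q.n b) j ω)) :=
    fun z Θ => (H.loc z).1.comp (measurable_const.add mc)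
  have key : ∀ z, ‖z‖ ≤ t0 → ∀ θ, Dir (q.n b) θ → ∀ v, Strip (q.n b) (q.l j) q.h (q.L * q.h) X v →
      ∀ ω, ‖F z (bg (q.n b) z + cf θ + v + cf (zeta q.L (q.n b) j ω))‖ ≤
        a * Real.exp (2 * q.κ * ∑ B ∈ X, Nf (q.l j) (cf θ) (nb (q.l j) B)) *
          Real.exp (q.L * q.κ *
            ∑ B ∈ X, N0 (q.l j) (cf (zeta q.L (q.n b) j ω)) (nb (q.l j) B)) := by
    intro z hz θ hθ v hv ω
    have h1 := H.bd z hz _ (f_dir_add hθ (z1 ω).1) v hv
    rw [f_cf_add, ← add_assoc, add_right_comm] at h1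
    refine h1.trans ?_
    rw [mul_assoc, ← Real.exp_add]
    refine mul_le_mul_of_nonneg_left (Real.exp_le_exp.2 ?_) ha
    have h2 := rgg_reg (q.l j) X (θ + zeta q.L (q.n b) j ω)
    have h3 : ∑ B ∈ X, Nf (q.l j) (cf (θ + zeta q.L (q.n b) j ω)) (nb (q.l j) B) ≤
        2 * ∑ B ∈ X, Nf (q.l j) (cf θ) (nb (q.l j) B) +
          q.L * ∑ B ∈ X, N0 (q.l j) (cf (zeta q.L (q.n b) j ω)) (nb (q.l j) B) := by
      rw [mul_sum, mul_sum, ← sum_add_distrib]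
      refine sum_le_sum fun B _ => ?_
      rw [f_cf_add]
      have k1 := rgg_Nf_add (q.l j) (cf θ) (cf (zeta q.L (q.n b) j ω)) (nb (q.l j) B)
      have k2 := rgg_Nf_nn (q.l j) (cf (zeta q.L (q.n b) j ω)) (nb (q.l j) B)
      have k3 : 0 ≤ ∑ p ∈ nb (q.l j) B, ‖cf (zeta q.L (q.n b) j ω) p‖ ^ 2 / (q.l j : ℝ) ^ 2 := by
        positivity
      unfold N0
      nlinarith
    nlinarith [mul_le_mul_of_nonneg_left (h2.trans h3) hκ.le]
  refine ⟨⟨fun z Θ Ξ h => ?_, fun z hz O vf hO hd hs => ?_, fun z Θ c => ?_, fun z Θ => ?_,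
    fun h z => by rw [H.far h z], fun z hz θ hθ v hv => ?_⟩, fun z hz θ hθ v hv =>
    (hY.1.const_mul _).mono' (me z _).aestronglyMeasurable (.of_forall (key z hz θ hθ v hv))⟩
  · exact integral_congr_ae (.of_forall fun ω => (H.loc z).2 _ _ fun p hp => by
      simp only [Pi.add_apply, h p hp])
  · refine h_hol PP O (fun s ω => F z (bg (q.n b) z + vf s + cf (zeta q.L (q.n b) j ω))) hO
      (fun s _ => me z _) (fun ω => ?_) fun s0 h0 => ⟨_, hY.1.const_mul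
        (a * Real.exp (2 * q.κ * ∑ B ∈ X, Nf (q.l j) (cf 0) (nb (q.l j) B))), ?_⟩
    · simp only [add_right_comm _ (vf _)]
      exact H.hol _ (z1 ω).1 O (fun _ => z) vf hO (differentiableOn_const _) hd
        fun s h => ⟨hz, hs s h⟩
    · filter_upwards [hO.mem_nhds h0] with s h ω
      have := key z hz 0 (f_dir_zero _) (vf s) (hs s h) ω
      rwa [show bg (q.n b) z + cf 0 = bg (q.n b) z by rw [f_cf_zero, add_zero]] at this
  · refine integral_congr_ae (.of_forall fun ω => ?_)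
    simp only
    rw [← H.sh z (Θ + cf (zeta q.L (q.n b) j ω)) c]
    congr 1
    funext p
    simp only [Pi.add_apply]
    ring
  · have mp := (z5 (gaussianReal 0 1) (by rw [gaussianReal_map_neg, neg_zero])).1
    rw [← hPP] at mp
    have e := integral_map (μ := PP) mp.measurable.aemeasurable
      (f := fun ω => F (-z) (-Θ + cf (zeta q.L (q.n b) j ω))) (me _ _).aestronglyMeasurable
    rw [mp.map_eq] at e
    unfold Par.Ez
    rw [e]
    refine congrArg _ (funext fun ω => ?_)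
    rw [← H.neg z, (z3 ω).1]
    congr 1
    funext p
    simp [cf, add_comm]
  · refine (norm_integral_le_of_norm_le (hY.1.const_mul _)
      (.of_forall (key z hz θ hθ v hv))).trans ?_
    rw [integral_const_mul]
    have h16 : (2 : ℝ) ^ X.card ≤ 16 :=
      (pow_le_pow_right₀ one_le_two h4).trans (by norm_num)
    refine (mul_le_mul_of_nonneg_left (hY.2.trans h16) (by positivity)).trans_eq (by ring)

theorem rgg_small {m : ℕ} {B : P} {X : Finset P} (h : X ∈ smalls (box m) B) :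
    Pm m X ∧ B ∈ X ∧ X.card ≤ 4 := by
  obtain ⟨h1, h2, h3, h4⟩ := mem_filter.1 h
  exact ⟨⟨mem_powerset.1 h1, h2⟩, h3, h4⟩

theorem rgg_near {k k' : ℕ} (h : k ≤ k') (R X : Finset P) : near k R X ⊆ near k' R X := by
  intro p hp
  obtain ⟨h1, a, ha, h2, h3⟩ := mem_filter.1 hp
  have : (k : ℤ) ≤ k' := by exact_mod_cast h
  exact mem_filter.2 ⟨h1, a, ha, h2.trans this, h3.trans this⟩

theorem rgg_act {q : Par} {t0 : ℝ} {j : ℕ} {x y : State} (hx : q.Str t0 j x) (hy : q.Str t0 j y)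
    {b : ℕ × ℕ} (hb : Par.ok b j) (s : Lab) {X : Finset P} (hX : Pm (q.m b j) X) {δ : ℝ}
    (h : ∀ z, ‖z‖ ≤ t0 → q.BdJ b j z X (Par.dK x y b s z X) δ) :
    q.Act1 t0 b j X (fun z => Par.dK x y b s z X) (δ * q.A⁻¹ ^ X.card) where
  loc z := ⟨(hx.locK b z s X hb hX).1.sub (hy.locK b z s X hb hX).1, fun Θ Ξ e => by
    unfold Par.dK
    rw [(hx.locK b z s X hb hX).2 Θ Ξ e, (hy.locK b z s X hb hX).2 Θ Ξ e]⟩
  hol θ hθ O zf vf h1 h2 h3 h4 :=
    (hx.holK b s X hb hX θ hθ O zf vf h1 h2 h3 h4).sub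
      (hy.holK b s X hb hX θ hθ O zf vf h1 h2 h3 h4)
  sh z Θ c := by
    unfold Par.dK
    rw [hx.shK b z s X Θ c hb hX, hy.shK b z s X Θ c hb hX]
  neg z Θ := by
    unfold Par.dK
    rw [hx.negK b z s X Θ hb hX, hy.negK b z s X Θ hb hX]
  far e z := by
    unfold Par.dK
    rw [hx.farK b z s X hb hX e, hy.farK b z s X hb hX e]
  bd := h

theorem rgg_dK0 (x : State) (b : ℕ × ℕ) (s : Lab) :
    Par.dK x zero b s = fun z => (x.a b z).K s := by
  funext z X Θ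
  simp [Par.dK, zero]

theorem rgg_lin (h_str : S_rg_str) {L l m : ℕ} {h : ℝ} (hL : 1000 ≤ L) (hl : 1000 ≤ l) {B : P}
    (hB : deep 5 m B) {X : Finset P} (hX : X ⊆ nbh 3 B) {w : ℂ × ℂ} (h1 : ‖w.1‖ < h / (3 * l))
    (h2 : ‖w.2‖ < h / (3 * l)) : Strip (l * m) l h (L * h) X (lin w) := by
  have hl' : (1000 : ℝ) ≤ l := by exact_mod_cast hl
  have hL' : (1000 : ℝ) ≤ L := by exact_mod_cast hL
  rw [lt_div_iff₀ (by positivity)] at h1 h2
  have n1' := norm_nonneg w.1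
  have n2' := norm_nonneg w.2
  have pos : ∀ p ∈ nbs l X, ((B.1 - 4) * l < p.1 ∧ p.1 < (B.1 + 5) * l) ∧
      (B.2 - 4) * l < p.2 ∧ p.2 < (B.2 + 5) * l := fun p hp => by
    obtain ⟨B', hB', hp⟩ := mem_biUnion.1 hp
    have k := hX hB'
    rw [nbh, mem_product, mem_Icc, mem_Icc] at k
    rw [rgg_mem_nb] at hp
    have l0 : (0 : ℤ) ≤ l := by positivity
    have a1 := mul_le_mul_of_nonneg_right k.1.1 l0
    have a2 := mul_le_mul_of_nonneg_right k.1.2 l0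
    have a3 := mul_le_mul_of_nonneg_right k.2.1 l0
    have a4 := mul_le_mul_of_nonneg_right k.2.2 l0
    have a5 : ((l / 4 : ℕ) : ℤ) < l := by omega
    push_cast at a1 a2 a3 a4
    refine ⟨⟨?_, ?_⟩, ?_, ?_⟩ <;> nlinarith [hp.1.1, hp.1.2, hp.2.1, hp.2.2]
  refine (h_str (l * m) L l h (L * h) (lin w) hL (by omega)).2 X (fun B' _ => ?_)
    (fun p hp hr => ?_) fun p hp p' hp' => ?_
  · have e : ∀ p, n1 (lin w) p + (l : ℝ) ^ 2 * n2 (lin w) p = ‖w.1‖ ^ 2 + ‖w.2‖ ^ 2 := fun p => by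
      have d0 : dg (lin w) p 0 = w.2 := by simp [dg, lin, crn]; ring
      have d1 : dg (lin w) p 1 = -w.1 := by simp [dg, lin, crn]; ring
      have d2 : dg (lin w) p 2 = -w.2 := by simp [dg, lin, crn]; ring
      have d3 : dg (lin w) p 3 = w.1 := by simp [dg, lin, crn]; ring
      have s1 : lin w (p + (1, 0)) - 2 * lin w p + lin w (p - (1, 0)) = 0 := by simp [lin]; ring
      have s2 : lin w (p + (0, 1)) - 2 * lin w p + lin w (p - (0, 1)) = 0 := by simp [lin]; ring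
      have s3 : lin w (p + (1, 1)) - lin w (p + (1, 0)) - lin w (p + (0, 1)) + lin w p = 0 := by
        simp [lin]; ring
      rw [n1, n2, Fin.sum_univ_four, d0, d1, d2, d3, s1, s2, s3, norm_neg, norm_neg, norm_zero]
      ring
    have c : ((nb l B').card : ℝ) ≤ (2 * l) ^ 2 := by
      have k : ∀ a : ℤ, ((a + 1) * l + (l / 4 : ℕ) + 1 - (a * l - (l / 4 : ℕ))).toNat ≤ 2 * l :=
        fun a => by rw [add_mul]; omega
      rw [nb, fat, card_product, Int.card_Icc, Int.card_Icc, sq]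
      exact_mod_cast Nat.mul_le_mul (k _) (k _)
    rw [Nf, sum_congr rfl fun p _ => e p, sum_const, nsmul_eq_mul]
    have b1 := pow_le_pow_left₀ (by positivity) h1.le 2
    have b2 := pow_le_pow_left₀ (by positivity) h2.le 2
    nlinarith [mul_le_mul_of_nonneg_right c (by positivity : 0 ≤ ‖w.1‖ ^ 2 + ‖w.2‖ ^ 2),
      sq_nonneg h]
  · refine absurd ?_ (mem_sdiff.1 hr).2
    obtain ⟨⟨p1, p2⟩, p3, p4⟩ := pos p hp
    obtain ⟨b1, b2, b3, b4⟩ := hB
    have l0 : (0 : ℤ) ≤ l := by positivity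
    rw [inn, mem_product, mem_Ioo, mem_Ioo]
    push_cast at *
    refine ⟨⟨?_, ?_⟩, ?_, ?_⟩ <;> nlinarith
  · obtain ⟨⟨p1, p2⟩, p3, p4⟩ := pos p hp
    obtain ⟨⟨r1, r2⟩, r3, r4⟩ := pos p' hp'
    have k : ∀ a a' : ℤ, |a - a'| ≤ 9 * l → ‖(a : ℂ) - a'‖ ≤ 9 * l := fun a a' e => by
      rw [← Int.cast_sub, Complex.norm_intCast]
      exact_mod_cast e
    have k1 := k p.1 p'.1 (abs_le.2 ⟨by linarith, by linarith⟩)
    have k2 := k p.2 p'.2 (abs_le.2 ⟨by linarith, by linarith⟩)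
    rw [show lin w p - lin w p' = w.1 * (p.1 - p'.1) + w.2 * (p.2 - p'.2) by simp [lin]; ring]
    refine (norm_add_le _ _).trans ?_
    rw [norm_mul, norm_mul]
    have h0 : 0 ≤ h := le_trans (by positivity) h1.le
    nlinarith [mul_le_mul_of_nonneg_left k1 n1', mul_le_mul_of_nonneg_left k2 n2']

end Pool.Agent.Lib.MP_9cc147_pr.Cx
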