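import Pool.Agent.Lib.MP_9cc147_pr.Cx.Rg.FinA
import Pool.Agent.Lib.MP_9cc147_pr.Cx.Rg.GA
import Pool.Agent.Lib.MP_9cc147_pr.Cx.K.Tk1
import Pool.Agent.Lib.MP_9cc147_pr.Cx.Z.Op

/-! Pointwise bounds on the polymer sums at the last scale. -/

open scoped Classical Topology
open Finset MeasureTheory ProbabilityTheory Filter

noncomputable section
namespace Pool.Agent.Lib.MP_9cc147_pr.Cx

theorem finb_Nf0 (l : ℕ) (v : Fld) (S : Finset P) : 0 ≤ Nf l v S :=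
  sum_nonneg fun _ _ => by unfold n1 n2; positivity

theorem finb_ea (l : ℕ) (θ : P → ℝ) (B : P) : ea l (cf θ) B ≤ Nf l (cf θ) (nb l B) := by
  have h := rgg_reg l {B} θ
  rw [sum_singleton, Reg, rg_under_one] at h
  have h1 : 0 ≤ ∑ x ∈ nbs l {B} \ cell l B, n1 (cf θ) x :=
    sum_nonneg fun _ _ => by unfold n1; positivity
  have h2 : 0 ≤ (l : ℝ) ^ 2 * ∑ p ∈ nbs l {B}, n2 (cf θ) p :=
    mul_nonneg (by positivity) (sum_nonneg fun _ _ => by unfold n2; positivity)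
  unfold ea
  linarith

namespace Par
variable {q : Par} {Cu C0 ε0 t0 α ν ρ : ℝ} {x : State} {b : ℕ × ℕ} {z : ℂ} {θ : P → ℝ}

theorem finb_card (hb : ok b b.2) : ((box (q.m b b.2)).card : ℝ) ≤ 4 * q.L ^ 2 ∧
    (box (q.m b b.2)).card ≤ 4 * q.L ^ 2 := by
  have : (box (q.m b b.2)).card ≤ 4 * q.L ^ 2 := by
    rw [f_card_box, m_top]
    rcases hb.1 with h | h <;> rw [h] <;> nlinarith
  exact ⟨by exact_mod_cast this, this⟩

theorem finb_num (E : q.Env Cu C0 ε0) : Cu ≤ q.H Cu ∧ 1 / q.κ ≤ q.H Cu ∧ q.ε ≤ q.κ ∧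
    100 * (q.L ^ 2 * q.H Cu) ≤ q.C ∧ q.ε ≤ 1 := by
  have k0 := E.hκ.1
  have a0 : 0 < 1 / q.κ := by positivity
  have a1 : Cu ≤ q.H Cu := by unfold H; nlinarith [sq_nonneg q.h]
  have a2 : 1 / q.κ ≤ q.H Cu := by unfold H; nlinarith [sq_nonneg q.h, E.hCu]
  have sm := k1_small E
  have l1 : (1 : ℝ) ≤ q.L ^ 2 := one_le_pow₀ E.L1'
  have e0 := E.hε.1
  have H1 := E.H1
  have a3 : q.ε * q.H Cu ≤ 1 := by nlinarith [mul_pos e0 (lt_of_lt_of_le one_pos H1)]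
  have g1 : 1 ≤ q.g Cu := le_trans (by norm_num) E.g8
  refine ⟨a1, a2, ?_, ?_, by nlinarith⟩
  · have : q.ε * (1 / q.κ) ≤ 1 := (mul_le_mul_of_nonneg_left a2 e0.le).trans a3
    rwa [mul_one_div, div_le_one k0] at this
  · have h := E.g_ge.trans ((le_self_pow₀ g1 (by norm_num : 8 ≠ 0)).trans E.g8C)
    rw [c0] at h
    nlinarith [mul_pos (lt_of_lt_of_le one_pos l1) (lt_of_lt_of_le one_pos H1)]

theorem finb_Q (h_qz : S_rg_qz) (E : q.Env Cu C0 ε0) (G : q.Good t0 b.2 x α ν ρ) (hb : ok b b.2)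
    (hz : ‖z‖ ≤ t0) (hθ : Dir (q.n b) θ) (s : Lab) {B : P} (hB : B ∈ box (q.m b b.2)) :
    ‖-(x.lam s / 2 : ℂ) * q.Qz b b.2 z B (bg (q.n b) z + cf θ)‖ ≤
      α * (Nf (q.l b.2) (cf θ) (nb (q.l b.2) B) + Cu) := by
  have h := ((h_qz q Cu C0 ε0 b b.2 z E hb B hB).1 (hz.trans G.t.2) (cf θ) fun p _ hp => by
    simp [cf, zdir_ring hθ hp]).1
  have h2 := finb_ea (q.l b.2) θ B
  have h3 : ‖-(x.lam s / 2 : ℂ)‖ ≤ α / 2 := by
    rw [norm_neg, norm_div, Complex.norm_real, Real.norm_eq_abs, Complex.norm_two]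
    linarith [G.bnd.lam s]
  rw [norm_mul]
  refine (mul_le_mul h3 h (norm_nonneg _) (by linarith [G.a.1])).trans ?_
  nlinarith [G.a.1]

/-- the majorant of a block -/
def finbβ (q : Par) (Cu : ℝ) (b : ℕ × ℕ) (θ : P → ℝ) (B : P) : ℝ :=
  Real.exp (q.κ * Nf (q.l b.2) (cf θ) (nb (q.l b.2) B) + q.ε * Cu)

theorem finb_I (h_qz : S_rg_qz) (E : q.Env Cu C0 ε0) (G : q.Good t0 b.2 x α ν ρ) (hb : ok b b.2)
    (hz : ‖z‖ ≤ t0) (hθ : Dir (q.n b) θ) (s : Lab) {B : P} (hB : B ∈ box (q.m b b.2)) :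
    ‖q.Ih b b.2 z (x.lam s) B (bg (q.n b) z + cf θ)‖ ≤ finbβ q Cu b θ B := by
  refine k1_exp ((finb_Q h_qz E G hb hz hθ s hB).trans ?_)
  have := finb_Nf0 (q.l b.2) (cf θ) (nb (q.l b.2) B)
  have h := (finb_num E).2.2.1
  nlinarith [G.a.2, E.hCu]

theorem finb_K (E : q.Env Cu C0 ε0) (hθ : Dir (q.n b) θ) {X : Finset P} {F : Fld → ℂ} {a : ℝ}
    (ha : 0 ≤ a) (h : q.BdJ b b.2 z X F a) :
    ‖F (bg (q.n b) z + cf θ)‖ ≤ a * ∏ B ∈ X, q.A⁻¹ * finbβ q Cu b θ B := by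
  have h1 := h θ hθ 0 (rgg_strip0 _ _ _ (by have := E.hpos; positivity) X)
  rw [add_zero] at h1
  refine h1.trans ?_
  have A0 := E.Apos
  rw [prod_mul_distrib, prod_const, mul_assoc]
  refine mul_le_mul_of_nonneg_left (mul_le_mul_of_nonneg_left ?_ (by positivity)) ha
  unfold finbβ
  rw [← Real.exp_sum, sum_add_distrib, ← mul_sum]
  refine Real.exp_le_exp.2 (le_add_of_le_of_nonneg
    (mul_le_mul_of_nonneg_left (rgg_reg _ _ _) E.hκ.1.le) (sum_nonneg fun _ _ => ?_))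
  have := E.hε.1; have := E.hCu; positivity

theorem finb_β (E : q.Env Cu C0 ε0) (hb : ok b b.2) :
    ∏ B ∈ box (q.m b b.2), finbβ q Cu b θ B ≤
      2 * Real.exp (q.κ * ∑ B ∈ box (q.m b b.2), Nf (q.l b.2) (cf θ) (nb (q.l b.2) B)) := by
  unfold finbβ
  rw [← Real.exp_sum, sum_add_distrib, ← mul_sum, Real.exp_add, mul_comm, sum_const, nsmul_eq_mul]
  refine mul_le_mul_of_nonneg_right ?_ (Real.exp_pos _).le
  have h1 := (finb_card (q := q) hb).1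
  have sm := k1_small E
  have e0 := E.hε.1
  have h2 : q.ε * Cu ≤ q.ε * q.H Cu := mul_le_mul_of_nonneg_left (finb_num E).1 e0.le
  have h3 : 0 ≤ q.ε * Cu := by have := E.hCu; positivity
  have h4 := mul_le_mul h1 h2 h3 (by positivity)
  have : Real.exp (1 / 2) ≤ 2 :=
    (Real.exp_bound_div_one_sub_of_interval (by norm_num) (by norm_num)).trans (by norm_num)
  exact le_trans (Real.exp_le_exp.2 (by nlinarith)) this

theorem finb_w (h_qz : S_rg_qz) (E : q.Env Cu C0 ε0) (G : q.Good t0 b.2 x α ν ρ) (hb : ok b b.2)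
    (hz : ‖z‖ ≤ t0) (hθ : Dir (q.n b) θ) (s : Lab) :
    ‖W1 (box (q.m b b.2)) (fun B => q.Ih b b.2 z (x.lam s) B (bg (q.n b) z + cf θ))
        (fun X => (x.a b z).K s X (bg (q.n b) z + cf θ)) -
      ∏ B ∈ box (q.m b b.2), q.Ih b b.2 z (x.lam s) B (bg (q.n b) z + cf θ)‖ ≤
      16 * q.L ^ 2 / q.A * α *
        Real.exp (q.κ * ∑ B ∈ box (q.m b b.2), Nf (q.l b.2) (cf θ) (nb (q.l b.2) B)) := by
  have A0 := E.Apos
  have α0 := G.a.1
  refine (fin_w1 (γ := q.A⁻¹) (β := finbβ q Cu b θ) α0 (G.a.2.trans (finb_num E).2.2.2.2)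
    (by positivity) (fun _ => (Real.exp_pos _).le) (fun B hB => finb_I h_qz E G hb hz hθ s hB)
    fun X h1 h2 => finb_K E hθ α0 (G.bnd.K b z s X hb hz ⟨h1, h2⟩)).trans ?_
  have h1 : (1 + q.A⁻¹) ^ (box (q.m b b.2)).card - 1 ≤ 8 * q.L ^ 2 / q.A := by
    have a1 : (1 + q.A⁻¹) ^ (box (q.m b b.2)).card ≤ Real.exp (4 * q.L ^ 2 / q.A) := by
      refine (pow_le_pow_left₀ (by positivity) (by linarith [Real.add_one_le_exp q.A⁻¹] :
        1 + q.A⁻¹ ≤ Real.exp q.A⁻¹) _).trans ?_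
      rw [← Real.exp_nat_mul, div_eq_mul_inv]
      exact Real.exp_le_exp.2 (mul_le_mul_of_nonneg_right (finb_card hb).1 (by positivity))
    have a2 : 4 * q.L ^ 2 / q.A ≤ 1 := by
      rw [div_le_one A0]; nlinarith [E.hA, sq_nonneg (q.L : ℝ)]
    have a3 := Real.abs_exp_sub_one_le (x := 4 * q.L ^ 2 / q.A)
      (by rwa [abs_of_nonneg (by positivity)])
    rw [abs_of_nonneg (by positivity : (0 : ℝ) ≤ 4 * q.L ^ 2 / q.A)] at a3
    have a4 := (le_abs_self _).trans a3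
    calc _ ≤ 2 * (4 * q.L ^ 2 / q.A) := by linarith
      _ = _ := by ring
  refine (mul_le_mul (mul_le_mul_of_nonneg_left h1 α0) (finb_β E hb)
    (prod_nonneg fun _ _ => (Real.exp_pos _).le) (by positivity)).trans_eq (by ring)

theorem finb_1 (h_qz : S_rg_qz) (E : q.Env Cu C0 ε0) (G : q.Good t0 b.2 x α ν ρ) (hb : ok b b.2)
    (hz : ‖z‖ ≤ t0) (hθ : Dir (q.n b) θ) (s : Lab) :
    ‖W1 (box (q.m b b.2)) (fun B => q.Ih b b.2 z (x.lam s) B (bg (q.n b) z + cf θ))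
        (fun X => (x.a b z).K s X (bg (q.n b) z + cf θ)) - 1‖ ≤ q.C / 2 * α *
      Real.exp (q.L * q.κ * ∑ B ∈ box (q.m b b.2), Nf (q.l b.2) (cf θ) (nb (q.l b.2) B)) := by
  have w := finb_w h_qz E G hb hz hθ s
  obtain ⟨n1, n2, n3, n4, n5⟩ := finb_num E
  have F0 : 0 ≤ ∑ B ∈ box (q.m b b.2), Nf (q.l b.2) (cf θ) (nb (q.l b.2) B) :=
    sum_nonneg fun _ _ => finb_Nf0 _ _ _
  have h1 : ‖∑ B ∈ box (q.m b b.2), -(x.lam s / 2 : ℂ) * q.Qz b b.2 z B (bg (q.n b) z + cf θ)‖ ≤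
      α * (∑ B ∈ box (q.m b b.2), Nf (q.l b.2) (cf θ) (nb (q.l b.2) B) +
        4 * (q.L ^ 2 * q.H Cu)) := by
    refine (norm_sum_le_of_le _ fun B hB => finb_Q h_qz E G hb hz hθ s hB).trans ?_
    rw [← mul_sum, sum_add_distrib, sum_const, nsmul_eq_mul]
    refine mul_le_mul_of_nonneg_left (add_le_add le_rfl ?_) G.a.1
    have := mul_le_mul (finb_card (q := q) hb).1 n1 (by linarith [E.hCu]) (by positivity)
    linarith
  generalize ∑ B ∈ box (q.m b b.2), Nf (q.l b.2) (cf θ) (nb (q.l b.2) B) = F at w F0 h1 ⊢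
  have α0 := G.a.1
  have k0 := E.hκ.1
  have H1 := E.H1
  have l1 : (1 : ℝ) ≤ q.L ^ 2 := one_le_pow₀ E.L1'
  have L2 : (2 : ℝ) ≤ q.L := le_trans (by norm_num) E.Lbig
  have kF : 0 ≤ q.κ * F := mul_nonneg k0.le F0
  have h2 := Complex.norm_exp_sub_sum_le_norm_mul_exp
    (∑ B ∈ box (q.m b b.2), -(x.lam s / 2 : ℂ) * q.Qz b b.2 z B (bg (q.n b) z + cf θ)) 1
  simp only [range_one, sum_singleton, pow_zero, Nat.factorial_zero, Nat.cast_one, div_one,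
    pow_one] at h2
  have h3 : α * (F + 4 * (q.L ^ 2 * q.H Cu)) ≤ q.κ * F + 1 := by
    have sm := k1_small E
    have : α * F ≤ q.κ * F := mul_le_mul_of_nonneg_right (G.a.2.trans n3) F0
    have : α * (q.L ^ 2 * q.H Cu) ≤ q.ε * (q.L ^ 2 * q.H Cu) :=
      mul_le_mul_of_nonneg_right G.a.2 (by positivity)
    nlinarith
  have e1 : 1 ≤ Real.exp (q.κ * F) := Real.one_le_exp kF
  have h4 : F + 4 * (q.L ^ 2 * q.H Cu) ≤ 5 * (q.L ^ 2 * q.H Cu) * Real.exp (q.κ * F) := by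
    have a1 : F ≤ q.H Cu * Real.exp (q.κ * F) := by
      have : q.κ * F ≤ Real.exp (q.κ * F) := by linarith [Real.add_one_le_exp (q.κ * F)]
      calc F = 1 / q.κ * (q.κ * F) := by field_simp
        _ ≤ _ := mul_le_mul n2 this kF (by linarith)
    have a2 : q.H Cu * Real.exp (q.κ * F) ≤ q.L ^ 2 * q.H Cu * Real.exp (q.κ * F) := by
      rw [mul_assoc]; exact le_mul_of_one_le_left (by positivity) l1
    nlinarith [mul_pos (lt_of_lt_of_le one_pos l1) (lt_of_lt_of_le one_pos H1)]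
  have e2 : Real.exp (q.κ * F) * Real.exp (q.κ * F) ≤ Real.exp (q.L * q.κ * F) := by
    rw [← Real.exp_add]; exact Real.exp_le_exp.2 (by nlinarith)
  have e3 : Real.exp (q.κ * F) ≤ Real.exp (q.L * q.κ * F) := Real.exp_le_exp.2 (by nlinarith)
  have h5 : ‖∏ B ∈ box (q.m b b.2), q.Ih b b.2 z (x.lam s) B (bg (q.n b) z + cf θ) - 1‖ ≤
      15 * (q.L ^ 2 * q.H Cu) * α * Real.exp (q.L * q.κ * F) := by
    unfold Ih
    rw [← Complex.exp_sum]
    refine h2.trans ((mul_le_mul (h1.trans (mul_le_mul_of_nonneg_left h4 α0))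
      (Real.exp_le_exp.2 (h1.trans h3)) (Real.exp_pos _).le (by positivity)).trans ?_)
    rw [Real.exp_add]
    have : Real.exp 1 ≤ 3 := Real.exp_one_lt_d9.le.trans (by norm_num)
    calc _ = 5 * (q.L ^ 2 * q.H Cu) * α * (Real.exp (q.κ * F) * Real.exp (q.κ * F)) * Real.exp 1 := by
          ring
      _ ≤ 5 * (q.L ^ 2 * q.H Cu) * α * Real.exp (q.L * q.κ * F) * 3 := by gcongr
      _ = _ := by ring
  have h6 : 16 * q.L ^ 2 / q.A ≤ q.L ^ 2 * q.H Cu := by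
    rw [div_le_iff₀ E.Apos]
    have := E.A60
    nlinarith [mul_le_mul H1 this (by norm_num) (by linarith)]
  refine (norm_sub_le_norm_sub_add_norm_sub _ _ _).trans ((add_le_add
    (w.trans (mul_le_mul (mul_le_mul_of_nonneg_right h6 α0) e3 (Real.exp_pos _).le
      (by positivity))) h5).trans ?_)
  rw [← add_mul, ← add_mul]
  gcongr
  nlinarith [mul_pos (lt_of_lt_of_le one_pos l1) (lt_of_lt_of_le one_pos H1)]

theorem finb_2 (h_qz : S_rg_qz) (E : q.Env Cu C0 ε0) (h7 : 100 * 7 ^ (4 * q.L ^ 2) ≤ q.C)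
    (G : q.Good t0 b.2 x α ν ρ) (hb : ok b b.2) (hz : ‖z‖ ≤ t0) (hθ : Dir (q.n b) θ) :
    ‖W2 (box (q.m b b.2))
        (fun s B => Complex.exp (-(x.a b z).d s B) * q.Ih b b.2 z (x.lam s) B (bg (q.n b) z + cf θ))
        (fun s X => Complex.exp (-∑ B ∈ X, (x.a b z).d s B) * (x.a b z).K s X (bg (q.n b) z + cf θ))
        (fun X σ => (x.a b z).N X σ (bg (q.n b) z + cf θ))‖ ≤ q.C / 2 * ν * ρ ^ 4 *
      Real.exp (q.L * q.κ * ∑ B ∈ box (q.m b b.2), Nf (q.l b.2) (cf θ) (nb (q.l b.2) B)) := by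
  obtain ⟨n1, n2, n3, n4, n5⟩ := finb_num E
  have ρ1 := G.n.2.1
  have ν0 := G.n.1
  have e0 := E.hε.1
  have r0 : ∀ B, 0 ≤ (if corner (q.m b b.2) B then ρ else 1) * Real.exp q.ε := fun B => by
    split_ifs <;> positivity
  have β0 : ∀ B, 0 ≤ finbβ q Cu b θ B := fun _ => (Real.exp_pos _).le
  have hd : ∀ s, ∀ B ∈ box (q.m b b.2), ‖Complex.exp (-(x.a b z).d s B)‖ ≤
      (if corner (q.m b b.2) B then ρ else 1) * Real.exp q.ε := fun s B hB => le_trans (by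
    rw [Complex.norm_exp, Complex.neg_re]
    exact Real.exp_le_exp.2 (neg_le_abs _)) (k1_d G hb hz s hB)
  have hA : ∀ X : Finset P, ∏ B ∈ X, q.A⁻¹ * finbβ q Cu b θ B ≤ ∏ B ∈ X, finbβ q Cu b θ B :=
    fun X => prod_le_prod (fun B _ => mul_nonneg (inv_nonneg.2 E.Apos.le) (β0 B)) fun B _ =>
      mul_le_of_le_one_left (β0 B) (inv_le_one_of_one_le₀ E.A1)
  have p0 : ∀ X : Finset P, 0 ≤ ∏ B ∈ X, finbβ q Cu b θ B := fun X => prod_nonneg fun B _ => β0 B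
  refine (fin_w2 (a := ν) (β := fun B => (if corner (q.m b b.2) B then ρ else 1) * Real.exp q.ε *
    finbβ q Cu b θ B) ν0 ((le_mul_of_one_le_right ν0 (one_le_pow₀ ρ1)).trans (G.n.2.2.trans n5))
    (fun B => mul_nonneg (r0 B) (β0 B)) (fun s B hB => ?_) (fun s X h1 h2 => ?_)
    fun X σ h1 h2 => ?_).trans ?_
  · rw [norm_mul]
    exact mul_le_mul (hd s B hB) (finb_I h_qz E G hb hz hθ s hB) (norm_nonneg _) (r0 B)
  · rw [norm_mul, prod_mul_distrib, ← sum_neg_distrib, Complex.exp_sum, norm_prod]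
    refine mul_le_mul (prod_le_prod (fun _ _ => norm_nonneg _) fun B hB => hd s B (h1 hB))
      ((finb_K E hθ G.a.1 (G.bnd.K b z s X hb hz ⟨h1, h2⟩)).trans ?_) (norm_nonneg _)
      (prod_nonneg fun B _ => r0 B)
    exact (mul_le_mul (G.a.2.trans n5) (hA X) (prod_nonneg fun B _ =>
      mul_nonneg (inv_nonneg.2 E.Apos.le) (β0 B)) zero_le_one).trans_eq (one_mul _)
  · refine (finb_K E hθ (by positivity) (G.bnd.N b z X σ hb hz ⟨h1, h2⟩)).trans ?_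
    rw [prod_mul_distrib (g := finbβ q Cu b θ)
      (f := fun B => (if corner (q.m b b.2) B then ρ else 1) * Real.exp q.ε), prod_mul_distrib
      (g := fun _ => Real.exp q.ε), k1_prod, prod_const, mul_assoc]
    refine mul_le_mul_of_nonneg_left (mul_le_mul (le_mul_of_one_le_right (by positivity)
      (one_le_pow₀ (Real.one_le_exp e0.le))) (hA X) (prod_nonneg fun B _ =>
      mul_nonneg (inv_nonneg.2 E.Apos.le) (β0 B)) (by positivity)) ν0
  · set F := ∑ B ∈ box (q.m b b.2), Nf (q.l b.2) (cf θ) (nb (q.l b.2) B) with hF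
    have F0 : 0 ≤ q.κ * F := mul_nonneg E.hκ.1.le (sum_nonneg fun _ _ => finb_Nf0 _ _ _)
    have e3 : Real.exp (q.κ * F) ≤ Real.exp (q.L * q.κ * F) :=
      Real.exp_le_exp.2 (by nlinarith [E.L1'])
    have a1 : (7 : ℝ) ^ (box (q.m b b.2)).card ≤ 7 ^ (4 * q.L ^ 2) :=
      pow_le_pow_right₀ (by norm_num) (finb_card hb).2
    have a2 : ρ ^ ncor (q.m b b.2) (box (q.m b b.2)) ≤ ρ ^ 4 := pow_le_pow_right₀ ρ1 (k1_ncor4 _ _)
    have a3 : Real.exp q.ε ^ (box (q.m b b.2)).card ≤ 3 := by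
      rw [← Real.exp_nat_mul]
      refine le_trans (Real.exp_le_exp.2 ?_) (Real.exp_one_lt_d9.le.trans (by norm_num))
      have sm := k1_small E
      have := mul_le_mul_of_nonneg_right (finb_card (q := q) hb).1 e0.le
      have : q.ε * q.L ^ 2 * 1 ≤ q.ε * q.L ^ 2 * q.H Cu := by have := E.H1; gcongr
      nlinarith [mul_nonneg e0.le (sq_nonneg (q.L : ℝ))]
    have a4 := (finb_β (θ := θ) E hb).trans (mul_le_mul_of_nonneg_left e3 (by norm_num))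
    rw [prod_mul_distrib, prod_mul_distrib, k1_prod, prod_const]
    have := p0 (box (q.m b b.2))
    calc _ ≤ 7 ^ (4 * q.L ^ 2) * (ν * (ρ ^ 4 * 3 * (2 * Real.exp (q.L * q.κ * F)))) := by gcongr
      _ = 6 * 7 ^ (4 * q.L ^ 2) * ν * ρ ^ 4 * Real.exp (q.L * q.κ * F) := by ring
      _ ≤ _ := by
          gcongr
          have : (0 : ℝ) < 7 ^ (4 * q.L ^ 2) := by positivity
          linarith

theorem finb_3 (h_qz : S_rg_qz) (E : q.Env Cu C0 ε0) (G : q.Good t0 b.2 x α ν ρ) (hb : ok b b.2)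
    (s : Lab) (θ : P → ℝ) (hθ : Dir (q.n b) θ)
    (hF : q.κ * ∑ B ∈ box (q.m b b.2), Nf (q.l b.2) (cf θ) (nb (q.l b.2) B) ≤ 1) :
    ‖W1 (box (q.m b b.2)) (fun B => q.Ih b b.2 0 (x.lam s) B (cf θ))
        (fun X => (x.a b 0).K s X (cf θ)) -
      Complex.exp (-(x.lam s / 2 : ℂ) * En (cf θ) (box (q.n b)))‖ ≤ 100 * q.L ^ 2 / q.A * α := by
  have w := finb_w (z := 0) h_qz E G hb (by simpa using G.t.1.le) hθ s
  have e0 : bg (q.n b) 0 = 0 := by funext p; simp [bg]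
  have e1 : ∏ B ∈ box (q.m b b.2), q.Ih b b.2 0 (x.lam s) B (cf θ) =
      Complex.exp (-(x.lam s / 2 : ℂ) * En (cf θ) (box (q.n b))) := by
    unfold Ih
    rw [← Complex.exp_sum, ← mul_sum]
    congr 2
    have : En (cf θ) (box (q.n b)) = ∑ B ∈ box (q.m b b.2), En (cf θ) (cell (q.l b.2) B) := by
      rw [q.n_eq (j := b.2) (by omega)]
      exact f_sum_box (by have := E.l100 b.2; omega) _ _
    rw [this]
    refine sum_congr rfl fun B _ => ?_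
    simp [Qz, e0, En, dg]
  rw [e0, zero_add, e1] at w
  refine w.trans ?_
  have : Real.exp _ ≤ 3 := (Real.exp_le_exp.2 hF).trans (Real.exp_one_lt_d9.le.trans (by norm_num))
  have A0 := E.Apos
  have α0 := G.a.1
  calc _ ≤ 16 * q.L ^ 2 / q.A * α * 3 := by gcongr
    _ = 48 * (q.L ^ 2 / q.A * α) := by ring
    _ ≤ 100 * (q.L ^ 2 / q.A * α) := by gcongr; norm_num
    _ = _ := by ring

end Par
end Pool.Agent.Lib.MP_9cc147_pr.Cx
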