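import Pool.Agent.Lib.MP_9cc147_pr.Cx.Rg.FinA
import Pool.Agent.Lib.MP_9cc147_pr.Cx.T.Maj
import Pool.Agent.Lib.MP_9cc147_pr.Cx.T.Hol
import Pool.Agent.Lib.MP_9cc147_pr.Cx.J.Geo

/-! The last integration: structural clauses. -/

open scoped Classical Topology ComplexConjugate
open Finset MeasureTheory ProbabilityTheory Filter

noncomputable section
namespace Pool.Agent.Lib.MP_9cc147_pr.Cx

/-- the one phase sum at the last scale -/
def finhI (q : Par) (x : State) (b : ℕ × ℕ) (z : ℂ) (s : Lab) (θ : P → ℝ) : ℂ :=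
  W1 (box (q.m b b.2)) (fun B => q.Ih b b.2 z (x.lam s) B (bg (q.n b) z + cf θ))
    (fun X => (x.a b z).K s X (bg (q.n b) z + cf θ))
/-- the rest of the partition function at the last scale -/
def finhJ (q : Par) (x : State) (b : ℕ × ℕ) (z : ℂ) (θ : P → ℝ) : ℂ :=
  W2 (box (q.m b b.2))
    (fun s B => Complex.exp (-(x.a b z).d s B) * q.Ih b b.2 z (x.lam s) B (bg (q.n b) z + cf θ))
    (fun s X => Complex.exp (-∑ B ∈ X, (x.a b z).d s B) * (x.a b z).K s X (bg (q.n b) z + cf θ))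
    (fun X σ => (x.a b z).N X σ (bg (q.n b) z + cf θ))

theorem finh_En_diff {O : Set ℂ} {F : ℂ → Fld} (h : ∀ p, DifferentiableOn ℂ (fun τ => F τ p) O)
    (S : Finset P) : DifferentiableOn ℂ (fun τ => En (F τ) S) O :=
  DifferentiableOn.fun_sum fun _ _ => (DifferentiableOn.fun_sum fun _ _ =>
    ((h _).fun_sub (h _)).fun_pow 2).const_mul _

theorem finh_Ih_diff (q : Par) {O : Set ℂ} {zf : ℂ → ℂ} (hz : DifferentiableOn ℂ zf O)
    (b : ℕ × ℕ) (j : ℕ) (lam : ℝ) (B : P) (θ : P → ℝ) :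
    DifferentiableOn ℂ (fun τ => q.Ih b j (zf τ) lam B (bg (q.n b) (zf τ) + cf θ)) O := by
  refine (((finh_En_diff (F := fun τ => bg (q.n b) (zf τ) + cf θ)
    (fun p => (hz.mul_const _).add_const _) _).fun_sub ?_).const_mul _).cexp
  split_ifs
  · exact finh_En_diff (F := fun τ => bg (q.n b) (zf τ)) (fun p => hz.mul_const _) _
  · exact differentiableOn_const _

theorem finh_Ih_zero (q : Par) (b : ℕ × ℕ) (j : ℕ) (lam : ℝ) (B : P) (Θ : Fld) :
    q.Ih b j 0 lam B Θ = Complex.exp (-(lam / 2 : ℂ) * En Θ (cell (q.l j) B)) := by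
  simp only [Par.Ih, Par.Qz, jg_bg_zero, jg_En_zero, ite_self, sub_zero]

theorem finh_real (n : ℕ) (θ : P → ℝ) : (fun p => conj ((bg n 0 + cf θ) p)) = bg n 0 + cf θ := by
  ext p; simp [bg, cf]

theorem finh_Ih_im (q : Par) (b : ℕ × ℕ) (j : ℕ) (lam : ℝ) (B : P) (θ : P → ℝ) :
    (q.Ih b j 0 lam B (bg (q.n b) 0 + cf θ)).im = 0 := by
  rw [← Complex.conj_eq_iff_im, finh_Ih_zero, ← Complex.exp_conj, map_mul, ← jg_En_conj, finh_real]
  simp [map_ofNat]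

theorem finh_strip (n l : ℕ) {h h' : ℝ} (k : 0 ≤ h') (X : Finset P) : Strip n l h h' X 0 :=
  ⟨fun _ _ => by simp [Nf, n1, n2, dg]; positivity, fun _ _ _ => rfl, 0, fun _ => rfl,
    fun _ _ => by simpa using k⟩

theorem finh_int_im {f : Om → ℂ} (h : ∀ ω, (f ω).im = 0) : (∫ ω, f ω ∂PP).im = 0 := by
  have e : f = fun ω => ((f ω).re : ℂ) := funext fun ω => Complex.ext (by simp) (by simp [h ω])
  rw [e, integral_complex_ofReal]
  exact Complex.ofReal_im _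

section
variable {q : Par} {t0 : ℝ} {x : State} {b : ℕ × ℕ}

theorem finh_split (h_w12 : S_w12) (hm : 1 ≤ q.m b b.2) (z : ℂ) (θ : P → ℝ) :
    q.WW b.2 x b z (bg (q.n b) z + cf θ) =
      ∑ s, Complex.exp (-∑ B ∈ box (q.m b b.2), (x.a b z).d s B) * finhI q x b z s θ +
        finhJ q x b z θ := by
  rw [Par.WW, h_w12 _ _ _ _ (fin_box_conn hm)]
  simp only [fin_scale, finhI, finhJ]

theorem finh_mI (S : q.Str t0 b.2 x) (hb : Par.ok b b.2) {ζ : Om → P → ℝ} (hζ : Measurable ζ)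
    (z : ℂ) (s : Lab) : Measurable fun ω => finhI q x b z s (ζ ω) :=
  have m : Measurable fun ω => bg (q.n b) z + cf (ζ ω) := (T.meas_cf hζ).const_add _
  finQ_meas.w1 (fun B _ => T.meas_Ih q b _ z _ B m)
    fun X h1 h2 => (S.locK b z s X hb ⟨h1, h2⟩).1.comp m

theorem finh_mJ (S : q.Str t0 b.2 x) (hb : Par.ok b b.2) {ζ : Om → P → ℝ} (hζ : Measurable ζ)
    (z : ℂ) : Measurable fun ω => finhJ q x b z (ζ ω) :=
  have m : Measurable fun ω => bg (q.n b) z + cf (ζ ω) := (T.meas_cf hζ).const_add _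
  finQ_meas.w2 (fun s B _ => (T.meas_Ih q b _ z _ B m).const_mul _)
    (fun s X h1 h2 => ((S.locK b z s X hb ⟨h1, h2⟩).1.comp m).const_mul _)
    fun X σ h1 h2 => (S.locN b z X σ hb ⟨h1, h2⟩).1.comp m

theorem finh_hI (S : q.Str t0 b.2 x) (hb : Par.ok b b.2) (hh : 0 ≤ q.h) {θ : P → ℝ}
    (hθ : Dir (q.n b) θ) (s : Lab) : Hz t0 fun z => finhI q x b z s θ := fun O zf hO hz ht =>
  (finQ_hol O).w1 (fun B _ => finh_Ih_diff q hz b _ _ B θ) fun X h1 h2 => by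
    simpa using S.holK b s X hb ⟨h1, h2⟩ θ hθ O zf (fun _ => 0) hO hz
      (fun _ => differentiableOn_const _) fun σ hσ => ⟨ht σ hσ, finh_strip _ _ (by positivity) X⟩

theorem finh_hJ (S : q.Str t0 b.2 x) (hb : Par.ok b b.2) (hh : 0 ≤ q.h) {θ : P → ℝ}
    (hθ : Dir (q.n b) θ) : Hz t0 fun z => finhJ q x b z θ := fun O zf hO hz ht =>
  (finQ_hol O).w2
    (fun s B hB => (S.hold b s B hb hB O zf hO hz ht).neg.cexp.mul (finh_Ih_diff q hz b _ _ B θ))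
    (fun s X h1 h2 => (DifferentiableOn.fun_sum fun B hB =>
      S.hold b s B hb (h1 hB) O zf hO hz ht).neg.cexp.mul (by
        simpa using S.holK b s X hb ⟨h1, h2⟩ θ hθ O zf (fun _ => 0) hO hz
          (fun _ => differentiableOn_const _)
          fun σ hσ => ⟨ht σ hσ, finh_strip _ _ (by positivity) X⟩))
    fun X σ h1 h2 => by
      simpa using S.holN b X σ hb ⟨h1, h2⟩ θ hθ O zf (fun _ => 0) hO hz
        (fun _ => differentiableOn_const _) fun σ hσ => ⟨ht σ hσ, finh_strip _ _ (by positivity) X⟩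

theorem finh_Kim (S : q.Str t0 b.2 x) (hb : Par.ok b b.2) (θ : P → ℝ) (s : Lab) {X : Finset P}
    (hX : Pm (q.m b b.2) X) : ((x.a b 0).K s X (bg (q.n b) 0 + cf θ)).im = 0 := by
  rw [← Complex.conj_eq_iff_im, ← S.cjK b s X _ hb hX, finh_real]

theorem finh_iI (S : q.Str t0 b.2 x) (hb : Par.ok b b.2) (s : Lab) (θ : P → ℝ) :
    (finhI q x b 0 s θ).im = 0 :=
  finQ_im.w1 (I := fun θ B => q.Ih b b.2 0 (x.lam s) B (bg (q.n b) 0 + cf θ))
    (K := fun θ X => (x.a b 0).K s X (bg (q.n b) 0 + cf θ))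
    (fun B _ θ => finh_Ih_im q b _ _ B θ) (fun X h1 h2 θ => finh_Kim S hb θ s ⟨h1, h2⟩) θ

theorem finh_iJ (S : q.Str t0 b.2 x) (hb : Par.ok b b.2) (θ : P → ℝ) :
    (finhJ q x b 0 θ).im = 0 := by
  refine finQ_im.w2 (I := fun θ s B => Complex.exp (-(x.a b 0).d s B) *
      q.Ih b b.2 0 (x.lam s) B (bg (q.n b) 0 + cf θ))
    (K := fun θ s X => Complex.exp (-∑ B ∈ X, (x.a b 0).d s B) *
      (x.a b 0).K s X (bg (q.n b) 0 + cf θ))
    (N := fun θ X σ => (x.a b 0).N X σ (bg (q.n b) 0 + cf θ)) (fun s B hB θ => ?_)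
    (fun s X h1 h2 θ => ?_) (fun X σ h1 h2 θ => ?_) θ
  · simp [Complex.exp_im, finh_Ih_im, S.cjd b s B hb hB]
  · have e : (∑ B ∈ X, (x.a b 0).d s B).im = 0 := by
      rw [Complex.im_sum]; exact sum_eq_zero fun B hB => S.cjd b s B hb (h1 hB)
    rw [Complex.mul_im, finh_Kim S hb θ s ⟨h1, h2⟩, Complex.exp_im, Complex.neg_im, e]
    simp
  · rw [← Complex.conj_eq_iff_im, ← S.cjN b X σ _ hb ⟨h1, h2⟩, finh_real]

theorem finh_even (h_zel : S_zel) (hL : 100 ≤ q.L) (S : q.Str t0 b.2 x) (hb : Par.ok b b.2)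
    (z : ℂ) : q.finW x b (-z) = q.finW x b z := by
  obtain ⟨-, -, hng, -, hmp⟩ := h_zel.2 q.L (q.n b) (lev q.L b.2) hL (T.n_pos q hL hb)
  have mp := (hmp (gaussianReal 0 1) (by rw [gaussianReal_map_neg, neg_zero])).1
  rw [← h_zel.1] at mp
  rw [Par.finW, ← mp.integral_comp measurableEmbedding_neg]
  refine integral_congr_ae (.of_forall fun ω => ?_)
  have e : bg (q.n b) (-z) + cf (zr (q.n b) (lev q.L b.2) (-ω)) =
      -(bg (q.n b) z + cf (zr (q.n b) (lev q.L b.2) ω)) := by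
    rw [(hng ω).2.2, jg_bg_neg]; ext p; simp [cf, add_comm]
  simp only [e, Par.WW]
  refine fin_congr (fun s B hB => ?_) (fun s X h1 h2 => ?_) fun X σ h1 h2 => ?_
  · rw [S.negd b z s B hb hB]
    simp only [Par.Ih, Par.Qz, jg_bg_neg, jg_En_neg]
  · rw [S.negK b z s X _ hb ⟨h1, h2⟩, sum_congr rfl fun B hB => S.negd b z s B hb (h1 hB)]
  · exact S.negN b z X σ _ hb ⟨h1, h2⟩

/-- all clauses on `fin1`, `fin2`, `finW` from one pointwise majorant -/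
theorem finh_main (h_w12 : S_w12) (h_zel : S_zel) (hL : 100 ≤ q.L) (hh : 0 ≤ q.h) (ht : 0 ≤ t0)
    (S : q.Str t0 b.2 x) (hb : Par.ok b b.2) {G : Om → ℝ} (hG : Integrable G PP)
    (h2 : ∫ ω, G ω ∂PP ≤ 2) {c1 c2 : ℝ} (p1 : 0 ≤ c1) (p2 : 0 ≤ c2)
    (hI : ∀ s z ω, ‖z‖ ≤ t0 → ‖finhI q x b z s (zr (q.n b) (lev q.L b.2) ω) - 1‖ ≤ c1 * G ω)
    (hJ : ∀ z ω, ‖z‖ ≤ t0 → ‖finhJ q x b z (zr (q.n b) (lev q.L b.2) ω)‖ ≤ c2 * G ω) :
    (∀ s, Hz t0 (fun z => q.fin1 x b z s) ∧ (q.fin1 x b 0 s).im = 0 ∧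
      ∀ z, ‖z‖ ≤ t0 → ‖q.fin1 x b z s - 1‖ ≤ 2 * c1) ∧
    Hz t0 (q.fin2 x b) ∧ (q.fin2 x b 0).im = 0 ∧
    ∀ z, ‖z‖ ≤ t0 → ‖q.fin2 x b z‖ ≤ 2 * c2 ∧ q.finW x b (-z) = q.finW x b z := by
  have : IsProbabilityMeasure PP := by unfold PP; infer_instance
  obtain ⟨hd, ⟨-, -, hζ⟩, -⟩ := h_zel.2 q.L (q.n b) (lev q.L b.2) hL (T.n_pos q hL hb)
  have hm : 1 ≤ q.m b b.2 := by have := T.m_ge q hL hb; omega
  have bI : ∀ s z ω, ‖z‖ ≤ t0 →
      ‖finhI q x b z s (zr (q.n b) (lev q.L b.2) ω)‖ ≤ 1 + c1 * G ω := fun s z ω hz => by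
    have := norm_add_le (finhI q x b z s (zr (q.n b) (lev q.L b.2) ω) - 1) 1
    rw [sub_add_cancel, norm_one] at this
    linarith [hI s z ω hz]
  have g1 : Integrable (fun ω => 1 + c1 * G ω) PP := (integrable_const 1).add (hG.const_mul c1)
  have iI : ∀ s z, ‖z‖ ≤ t0 →
      Integrable (fun ω => finhI q x b z s (zr (q.n b) (lev q.L b.2) ω)) PP := fun s z hz =>
    g1.mono' (finh_mI S hb hζ z s).aestronglyMeasurable (.of_forall fun ω => bI s z ω hz)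
  have iJ : ∀ z, ‖z‖ ≤ t0 →
      Integrable (fun ω => finhJ q x b z (zr (q.n b) (lev q.L b.2) ω)) PP := fun z hz =>
    (hG.const_mul c2).mono' (finh_mJ S hb hζ z).aestronglyMeasurable (.of_forall fun ω => hJ z ω hz)
  have f1 : ∀ z s, q.fin1 x b z s = ∫ ω, finhI q x b z s (zr (q.n b) (lev q.L b.2) ω) ∂PP :=
    fun _ _ => rfl
  have f2 : ∀ z, ‖z‖ ≤ t0 →
      q.fin2 x b z = ∫ ω, finhJ q x b z (zr (q.n b) (lev q.L b.2) ω) ∂PP := fun z hz => by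
    simp only [Par.fin2, Par.finW, finh_split h_w12 hm, f1]
    rw [integral_add (integrable_finsetSum _ fun s _ => (iI s z hz).const_mul _) (iJ z hz),
      integral_finsetSum _ fun s _ => (iI s z hz).const_mul _]
    simp only [integral_const_mul, add_sub_cancel_left]
  have nb : ∀ (f : Om → ℂ) (c : ℝ), 0 ≤ c → (∀ ω, ‖f ω‖ ≤ c * G ω) → ‖∫ ω, f ω ∂PP‖ ≤ 2 * c :=
    fun f c hc h => by
      refine (norm_integral_le_of_norm_le (hG.const_mul c) (.of_forall h)).trans ?_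
      rw [integral_const_mul, mul_comm]
      exact mul_le_mul_of_nonneg_right h2 hc
  refine ⟨fun s => ⟨fun O zf hO hz hs => ?_, finh_int_im fun ω => finh_iI S hb s _,
    fun z hz => ?_⟩, fun O zf hO hz hs => ?_, ?_, fun z hz => ⟨?_, finh_even h_zel hL S hb z⟩⟩
  · exact t_T_hol PP O (fun τ ω => finhI q x b (zf τ) s (zr (q.n b) (lev q.L b.2) ω)) hO
      (fun τ _ => finh_mI S hb hζ _ s) (fun ω => finh_hI S hb hh (hd ω).2.2 s O zf hO hz hs)
      fun τ hτ => ⟨_, g1, (hO.eventually_mem hτ).mono fun σ hσ ω => bI s _ ω (hs σ hσ)⟩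
  · have e : q.fin1 x b z s - 1 = ∫ ω, finhI q x b z s (zr (q.n b) (lev q.L b.2) ω) - 1 ∂PP := by
      rw [integral_sub (iI s z hz) (integrable_const _), f1]; simp
    rw [e]
    exact nb _ _ p1 fun ω => hI s z ω hz
  · exact (t_T_hol PP O (fun τ ω => finhJ q x b (zf τ) (zr (q.n b) (lev q.L b.2) ω)) hO
      (fun τ _ => finh_mJ S hb hζ _) (fun ω => finh_hJ S hb hh (hd ω).2.2 O zf hO hz hs)
      fun τ hτ => ⟨_, hG.const_mul c2, (hO.eventually_mem hτ).mono fun σ hσ ω =>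
        hJ _ ω (hs σ hσ)⟩).congr fun τ hτ => f2 _ (hs τ hτ)
  · rw [f2 0 (by simpa using ht)]
    exact finh_int_im fun ω => finh_iJ S hb _
  · rw [f2 z hz]
    exact nb _ _ p2 fun ω => hJ z ω hz
end

end Pool.Agent.Lib.MP_9cc147_pr.Cx
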