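import Pool.Agent.Lib.MP_9cc147_pr.Cx.Rg.S
import Pool.Agent.Lib.MP_9cc147_pr.Cx.T.Geo

/-! Symmetries of the quadratic form of a deep block. -/

open scoped Classical Topology ComplexConjugate
open Finset MeasureTheory ProbabilityTheory Filter

noncomputable section
namespace Pool.Agent.Lib.MP_9cc147_pr.Cx

theorem rgiso_sds {m : ℕ} {B : P} (h : deep 5 m B) {X : Finset P} (hX : ∀ a ∈ X, nr 3 B a) :
    (sds m (near 1 (box m) X)).card ≤ 1 := by
  have : sds m (near 1 (box m) X) = ∅ := by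
    refine eq_empty_of_forall_notMem fun i hi => ?_
    obtain ⟨a, ha, e⟩ := T.mem_sds.1 hi
    obtain ⟨-, a', ha', k⟩ := T.mem_near.1 ha
    have k' := T.nr_iff.1 (T.nr_trans (hX a' ha') k le_rfl)
    unfold deep at h
    fin_cases i <;> simp at e <;> omega
  rw [this]; simp

theorem rgiso_box {m : ℕ} {B a : P} (h : deep 5 m B) (k : nr 5 B a) : a ∈ box m := by
  rw [T.nr_iff] at k
  unfold deep at h
  rw [T.mem_box]
  omega

theorem rgiso_mv {m m' : ℕ} {g : Sy} {c B : P} (h : deep 5 m B) (h' : deep 5 m' (fm g c B))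
    {X : Finset P} (hX : ∀ a ∈ X, nr 3 B a) : Mv m m' g c X := by
  refine ⟨fun a ⟨a', ha', k⟩ => ?_, rgiso_sds h hX, rgiso_sds h' fun a ha => ?_⟩
  · have k' : nr 5 B a := T.nr_trans (hX a' ha') k (by norm_num)
    exact iff_of_true (rgiso_box h k') (rgiso_box h' ((T.nr_fm _ _ _ _ _).2 k'))
  · obtain ⟨a', ha', rfl⟩ := mem_image.1 ha
    exact (T.nr_fm _ _ _ _ _).2 (hX a' ha')

theorem rgiso_mem {R X : Finset P} {B : P} :
    X ∈ smalls R B ↔ X ⊆ R ∧ Conn X ∧ B ∈ X ∧ X.card ≤ 4 := by simp [smalls]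

theorem rgiso_conn (β : P → P) (hβ : ∀ a b, nr 1 a b → nr 1 (β a) (β b)) {X : Finset P}
    (h : Conn X) : Conn (X.image β) := by
  refine ⟨h.1.image β, fun a ha b hb => ?_⟩
  obtain ⟨a, ha', rfl⟩ := mem_image.1 ha
  obtain ⟨b, hb', rfl⟩ := mem_image.1 hb
  have k := h.2 a ha' b hb'
  clear hb hb'
  induction k with
  | refl => exact .refl
  | tail _ k ih =>
    exact ih.tail ⟨mem_image_of_mem β k.1, mem_image_of_mem β k.2.1, hβ _ _ k.2.2⟩

theorem rgiso_smalls {m m' : ℕ} {g : Sy} {c B : P} (h : deep 5 m B) (h' : deep 5 m' (fm g c B)) :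
    smalls (box m') (fm g c B) = (smalls (box m) B).image (image (fm g c)) := by
  ext Y
  rw [mem_image, rgiso_mem]
  constructor
  · rintro ⟨-, h2, h3, h4⟩
    have inv : ∀ a, fm g c ((T.fE g c).symm a) = a := (T.fE g c).apply_symm_apply
    have c2 := rgiso_conn (T.fE g c).symm
      (fun a b k => (T.nr_fm 1 g c _ _).1 (by rwa [inv, inv])) h2
    have c3 : B ∈ Y.image (T.fE g c).symm := mem_image.2 ⟨_, h3, (T.fE g c).symm_apply_apply B⟩
    have c4 : (Y.image (T.fE g c).symm).card ≤ 4 := card_image_le.trans h4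
    refine ⟨Y.image (T.fE g c).symm, rgiso_mem.2 ⟨fun a ha => rgiso_box h (T.nr_trans
      (T.conn_nr c2 c4 c3 ha) (T.nr_refl 0 a) (by norm_num)), c2, c3, c4⟩, ?_⟩
    rw [image_image, show fm g c ∘ (T.fE g c).symm = id from funext inv, image_id]
  · rintro ⟨X, hX, rfl⟩
    obtain ⟨-, h2, h3, h4⟩ := rgiso_mem.1 hX
    have c2 := rgiso_conn (fm g c) (fun a b k => (T.nr_fm 1 g c _ _).2 k) h2
    have c3 := mem_image_of_mem (fm g c) h3
    have c4 : (X.image (fm g c)).card ≤ 4 := card_image_le.trans h4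
    exact ⟨fun a ha => rgiso_box h' (T.nr_trans (T.conn_nr c2 c4 c3 ha) (T.nr_refl 0 a)
      (by norm_num)), c2, c3, c4⟩

theorem rgiso_tr (h_zel : S_zel) (h_ziso : S_ziso) {q : Par} {t0 : ℝ} {j : ℕ} {x : State}
    (hL : 100 ≤ q.L) (H : q.Str t0 j x) {b b' : ℕ × ℕ} (hb : Par.ok b j) (hb' : Par.ok b' j)
    {g : Sy} {c B B' : P} {s : Lab} (e1 : fm g c B = B') (e2 : pm g c s = s)
    (h : deep 5 (q.m b j) B) (h' : deep 5 (q.m b' j) B') {y y' : ℂ × ℂ} {a : ℂ}
    (hy : ∀ p, lin y (vm g (smul (q.l j) c) p) = lin y' p + a) :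
    q.fB b' j ((x.a b' 0).K s) B' y = q.fB b j ((x.a b 0).K s) B y' := by
  subst e1
  unfold Par.fB
  rw [rgiso_smalls h h', sum_image fun X _ Y _ e => image_injective (T.fm_inj g c) e]
  refine sum_congr rfl fun X hX => ?_
  obtain ⟨h1, h2, h3, h4⟩ := rgiso_mem.1 hX
  have mv := rgiso_mv h h' fun a ha => T.conn_nr h2 h4 h3 ha
  obtain ⟨mp, zi⟩ := h_ziso q j g c hL
  have loc := H.locK b 0 s X hb ⟨h1, h2⟩
  have mz := (h_zel.2 q.L (q.n b) j hL (T.n_pos q hL hb)).2.1.1
  have mF : Measurable fun ω => (x.a b 0).K s X (lin y' + cf (zeta q.L (q.n b) j ω)) :=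
    loc.1.comp (measurable_const.add (measurable_pi_lambda _ fun p =>
      Complex.measurable_ofReal.comp ((measurable_pi_apply p).comp mz)))
  rw [card_image_of_injective _ (T.fm_inj g c)]
  congr 1
  unfold Par.Ez
  conv_rhs => rw [← mp.map_eq, integral_map mp.measurable.aemeasurable mF.aestronglyMeasurable]
  refine integral_congr_ae (.of_forall fun ω => ?_)
  have k := H.isoK b b' g c s X (lin y + cf (zeta q.L (q.n b') j ω)) hb hb' ⟨h1, h2⟩ mv
  rw [e2] at k
  simp only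
  rw [k, ← H.shK b 0 s X (lin y' + cf (zeta q.L (q.n b) j _)) a hb ⟨h1, h2⟩]
  refine loc.2 _ _ fun p hp => ?_
  simp only [Function.comp, Pi.add_apply, cf, hy, (zi b b' X hb hb' h1 mv ω p hp).2]
  ring

theorem rgiso_re {q : Par} {t0 : ℝ} {j : ℕ} {x : State} (H : q.Str t0 j x) {b : ℕ × ℕ}
    (hb : Par.ok b j) (s : Lab) (B : P) {y : ℂ × ℂ} (hy : ∀ p, conj (lin y p) = lin y p) :
    conj (q.fB b j ((x.a b 0).K s) B y) = q.fB b j ((x.a b 0).K s) B y := by
  unfold Par.fB Par.Ez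
  rw [map_sum]
  refine sum_congr rfl fun X hX => ?_
  obtain ⟨h1, h2, -⟩ := rgiso_mem.1 hX
  rw [map_div₀, map_natCast, ← integral_conj]
  congr 2
  funext ω
  rw [← H.cjK b s X _ hb ⟨h1, h2⟩]
  congr 1
  funext p
  simp only [Pi.add_apply, map_add, hy, cf, Complex.conj_ofReal]

theorem t_rg_iso (h_zel : S_zel) (h_ziso : S_ziso) : S_rg_iso := by
  intro q t0 j x b s B hL H hb h
  have hL' : 100 ≤ q.L := by omega
  refine ⟨fun y _ _ => ⟨?_, ?_, ?_⟩, ?_⟩
  · refine (rgiso_tr h_zel h_ziso hL' H hb hb (g := ⟨false, true, false⟩) (c := (2 * B.1 + 1, 0))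
      (a := y.1 * (q.l j * (2 * B.1 + 1))) ?_ ?_ h h fun p => ?_).symm
    · ext <;> simp [fm, vm]; ring
    · simp [pm, fm, vm]
    · simp [lin, vm, smul]; ring
  · refine (rgiso_tr h_zel h_ziso hL' H hb hb (g := ⟨false, false, true⟩) (c := (0, 2 * B.2 + 1))
      (a := y.2 * (q.l j * (2 * B.2 + 1))) ?_ ?_ h h fun p => ?_).symm
    · ext <;> simp [fm, vm]; ring
    · simp [pm, fm, vm]
    · simp [lin, vm, smul]; ring
  · refine (rgiso_tr h_zel h_ziso hL' H hb hb (g := ⟨true, false, false⟩)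
      (c := (B.1 - B.2, B.2 - B.1))
      (a := y.1 * (q.l j * (B.1 - B.2)) + y.2 * (q.l j * (B.2 - B.1))) ?_ ?_ h h fun p => ?_).symm
    · ext <;> simp [fm, vm]
    · simp [pm, fm, vm]
    · simp [lin, vm, smul]; ring
  · set B' := if Even (B.1 + B.2) then q.Bc else q.Bc + (1, 0) with hB'
    have ho : Par.ok (1, j + 1) j := ⟨.inl rfl, Nat.le_succ j, Nat.succ_pos j⟩
    have hd : deep 5 (q.m (1, j + 1) j) B' := by
      have e : q.m (1, j + 1) j = q.L ^ 2 := by
        unfold Par.m; rw [show (1, j + 1).2 + 1 - j = 2 by simp only; omega]; simp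
      have : 1000 ≤ q.L ^ 2 := hL.trans (Nat.le_self_pow two_ne_zero _)
      rw [e, hB']
      unfold deep Par.Bc
      generalize q.L ^ 2 = M at this
      split_ifs <;> simp only [Prod.fst_add, Prod.snd_add] <;> omega
    have tr : ∀ y, q.fB (1, j + 1) j ((x.a (1, j + 1) 0).K s) B' y =
        q.fB b j ((x.a b 0).K s) B y := by
      intro y
      refine rgiso_tr h_zel h_ziso hL' H hb ho (g := ⟨false, false, false⟩) (c := B' - B)
        (a := y.1 * (q.l j * (B' - B).1) + y.2 * (q.l j * (B' - B).2)) ?_ ?_ h hd fun p => ?_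
      · ext <;> simp [fm, vm]
      · have : Even ((B' - B).1 + (B' - B).2) := by
          rw [hB']
          unfold Par.Bc
          split_ifs with k <;> simp only [Int.even_iff, Prod.fst_sub, Prod.snd_sub, Prod.fst_add,
            Prod.snd_add] at k ⊢ <;> omega
        simpa [pm, fm, vm] using fun k => absurd this (by simpa using k)
      · simp [lin, vm, smul]; ring
    have e : q.qB (1, j + 1) j ((x.a (1, j + 1) 0).K s) B' = q.qB b j ((x.a b 0).K s) B := by
      simp only [Par.qB, tr]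
    rw [Par.qr, ← hB', e]
    refine (Complex.conj_eq_iff_re.1 ?_).symm
    rw [Par.qB, map_div₀, map_sub, rgiso_re H hb s B fun p => by simp [lin],
      rgiso_re H hb s B fun p => by simp [lin], map_pow, Complex.conj_ofReal]

end Pool.Agent.Lib.MP_9cc147_pr.Cx
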