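import Pool.Agent.Lib.MP_9cc147_pr.Cx.Rg.S
import Pool.Agent.Lib.MP_9cc147_pr.Cx.F.Kit

/-! Consequences of the order of the constants, and small rules. -/

open scoped Classical Topology
open Finset MeasureTheory ProbabilityTheory Filter

noncomputable section
namespace Pool.Agent.Lib.MP_9cc147_pr.Cx
namespace Par
variable {q : Par} {Cu C0 ε0 : ℝ}

theorem l_succ (q : Par) (j : ℕ) : q.l (j + 1) = q.L * q.l j := by
  unfold l; rw [pow_succ']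

theorem Env.Lbig (E : q.Env Cu C0 ε0) : (10 : ℝ) ^ 64 ≤ q.L := by
  have := E.hL; rw [c0] at this; refine le_trans (le_of_eq ?_) this; norm_num
theorem Env.Lnat (E : q.Env Cu C0 ε0) : 10 ^ 64 ≤ q.L := by exact_mod_cast E.Lbig
theorem Env.L1000 (E : q.Env Cu C0 ε0) : 1000 ≤ q.L := le_trans (by norm_num) E.Lnat
theorem Env.L1 (E : q.Env Cu C0 ε0) : 1 ≤ q.L := le_trans (by norm_num) E.Lnat
theorem Env.L1' (E : q.Env Cu C0 ε0) : (1 : ℝ) ≤ q.L := by exact_mod_cast E.L1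
theorem Env.Lc2 (E : q.Env Cu C0 ε0) : c0 ^ 2 ≤ q.L :=
  le_trans (by rw [c0]; norm_num) E.Lbig
theorem Env.L_le_l (E : q.Env Cu C0 ε0) (j : ℕ) : q.L ≤ q.l j :=
  Nat.le_self_pow (Nat.succ_ne_zero j) _
theorem Env.l100 (E : q.Env Cu C0 ε0) (j : ℕ) : 100 ≤ q.l j :=
  le_trans (le_trans (by norm_num) E.L1000) (E.L_le_l j)
theorem Env.lpos (E : q.Env Cu C0 ε0) (j : ℕ) : (0 : ℝ) < q.l j := by
  have := E.l100 j; exact_mod_cast (by omega : 0 < q.l j)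
theorem Env.A60 (E : q.Env Cu C0 ε0) : (2 : ℝ) ^ 60 ≤ q.A := by
  have := E.hA; have h := E.L1'; nlinarith [one_le_pow₀ (n := 2) h]
theorem Env.A1 (E : q.Env Cu C0 ε0) : (1 : ℝ) ≤ q.A := le_trans (by norm_num) E.A60
theorem Env.Apos (E : q.Env Cu C0 ε0) : (0 : ℝ) < q.A := lt_of_lt_of_le one_pos E.A1
theorem Env.h1 (E : q.Env Cu C0 ε0) : (1 : ℝ) ≤ q.h :=
  le_trans (one_le_mul_of_one_le_of_one_le (one_le_pow₀ E.L1') E.hCu) E.hh.1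
theorem Env.hpos (E : q.Env Cu C0 ε0) : (0 : ℝ) < q.h := lt_of_lt_of_le one_pos E.h1
theorem Env.H1 (E : q.Env Cu C0 ε0) : 1 ≤ q.H Cu := by
  have := E.hCu; have := E.hκ.1; unfold H
  have : 0 < 1 / q.κ := by positivity
  nlinarith [sq_nonneg q.h]
theorem Env.g_ge (E : q.Env Cu C0 ε0) : c0 * q.L ^ 2 * q.H Cu ≤ q.g Cu := by
  unfold g
  rw [le_div_iff₀ E.hκ.1]
  have h : 0 ≤ c0 * q.L ^ 2 * q.H Cu := by
    have := E.H1; rw [c0]; positivity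
  nlinarith [E.hκ.2]
theorem Env.g8 (E : q.Env Cu C0 ε0) : (10 : ℝ) ^ 8 ≤ q.g Cu := by
  refine le_trans ?_ E.g_ge
  have h1 := one_le_mul_of_one_le_of_one_le (one_le_pow₀ (n := 2) E.L1') E.H1
  rw [c0, mul_assoc]; nlinarith
theorem Env.gpos (E : q.Env Cu C0 ε0) : 0 < q.g Cu := lt_of_lt_of_le (by norm_num) E.g8
theorem Env.g_le (E : q.Env Cu C0 ε0) : q.g Cu ≤ q.g Cu * q.A * C0 / ε0 := by
  rw [le_div_iff₀ E.hC0.2.1]
  have h1 := one_le_mul_of_one_le_of_one_le E.A1 E.hC0.1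
  have := E.gpos
  have := E.hC0.2.2
  rw [mul_assoc]; nlinarith
theorem Env.g8C (E : q.Env Cu C0 ε0) : q.g Cu ^ 8 ≤ q.C :=
  le_trans (pow_le_pow_left₀ E.gpos.le E.g_le 8) E.hC
theorem Env.Cbig (E : q.Env Cu C0 ε0) : (10 : ℝ) ^ 64 ≤ q.C := by
  refine le_trans ?_ E.g8C
  calc (10 : ℝ) ^ 64 = (10 ^ 8) ^ 8 := by norm_num
    _ ≤ _ := pow_le_pow_left₀ (by norm_num) E.g8 8
theorem Env.Cpos (E : q.Env Cu C0 ε0) : 0 < q.C := lt_of_lt_of_le (by norm_num) E.Cbig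
/-- `(g A C0 / ε0) ^ 4 ≤ √C` -/
theorem Env.sqrtC (E : q.Env Cu C0 ε0) : (q.g Cu * q.A * C0 / ε0) ^ 4 ≤ √q.C :=
  Real.le_sqrt_of_sq_le (by rw [← pow_mul]; exact E.hC)
theorem Env.eps_g8 (E : q.Env Cu C0 ε0) : q.ε * q.g Cu ^ 8 ≤ 1 :=
  le_trans (mul_le_mul_of_nonneg_left E.g8C E.hε.1.le) E.hε.2
theorem Env.small (E : q.Env Cu C0 ε0) {D : ℝ} (hD : D ≤ 100 * q.ε) : D ≤ 1 / q.g Cu ^ 2 := by
  have g0 := E.gpos
  rw [le_div_iff₀ (by positivity)]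
  have h6 : (100 : ℝ) ≤ q.g Cu ^ 6 :=
    le_trans (le_trans (by norm_num) E.g8) (le_self_pow₀ (le_trans (by norm_num) E.g8) (by norm_num))
  have h1 := E.eps_g8
  have h2 : 0 ≤ q.ε * q.g Cu ^ 2 := mul_nonneg E.hε.1.le (by positivity)
  have h3 : q.ε * q.g Cu ^ 8 = q.ε * q.g Cu ^ 2 * q.g Cu ^ 6 := by ring
  have h4 : D * q.g Cu ^ 2 ≤ 100 * q.ε * q.g Cu ^ 2 := by gcongr
  nlinarith

theorem Sz.mono {b : ℕ × ℕ} {j : ℕ} {z : ℂ} {U : Finset P} {d : Dat} {D p D' p' : ℝ}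
    (E : q.Env Cu C0 ε0) (h : q.Sz Cu b j z U d D p) (hD : D ≤ D') (hp : p ≤ p') :
    q.Sz Cu b j z U d D' p' := by
  have hH : D * q.H Cu ≤ D' * q.H Cu := mul_le_mul_of_nonneg_right hD (zero_le_one.trans E.H1)
  refine ⟨⟨h.lam.1.trans hD, h.lam.2.trans hD⟩, h.hp.trans hp,
    fun B hB => ⟨(h.e B hB).1.trans hH, (h.e B hB).2.trans hH⟩,
    fun X hX hs => ⟨(h.K X hX hs).1, (h.K X hX hs).2.mono ?_⟩⟩
  have := E.Apos
  gcongr

theorem Pt.under_sub {b : ℕ × ℕ} {j : ℕ} {z : ℂ} {U : Finset P} {θ : P → ℝ} {v : Fld}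
    (E : q.Env Cu C0 ε0) (h : q.Pt b j z U θ v) : under q.L U ⊆ box (q.m b j) := by
  intro B hB
  rw [m_succ q h.hok.pred.2.1, ← f_par_box E.L1]
  exact h.pm.1 ((f_mem_under E.L1).1 hB)

/-- the difference of the activities of two good states -/
theorem act1_dK {t0 : ℝ} {j : ℕ} {x y : State} {s : Lab} {b : ℕ × ℕ} {V X : Finset P} {δ : ℝ}
    (hx : q.Str t0 j x) (hy : q.Str t0 j y) (hb : ok b j) (hX : Pm (q.m b j) X) (hV : X ⊆ V)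
    (hd : q.Dif t0 j x y s b V δ) :
    q.Act1 t0 b j X (fun z => dK x y b s z X) (δ * q.A⁻¹ ^ X.card) := by
  refine ⟨fun z => ⟨(hx.locK b z s X hb hX).1.sub (hy.locK b z s X hb hX).1, fun Θ Ξ h => ?_⟩,
    fun θ hθ O zf vf hO hz hv hs => (hx.holK b s X hb hX θ hθ O zf vf hO hz hv hs).sub
      (hy.holK b s X hb hX θ hθ O zf vf hO hz hv hs), fun z Θ c => ?_, fun z Θ => ?_,
    fun h z => ?_, fun z hz => hd z X hz hX hV⟩
  · simp only [dK, (hx.locK b z s X hb hX).2 Θ Ξ h, (hy.locK b z s X hb hX).2 Θ Ξ h]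
  · simp only [dK, hx.shK b z s X Θ c hb hX, hy.shK b z s X Θ c hb hX]
  · simp only [dK, hx.negK b z s X Θ hb hX, hy.negK b z s X Θ hb hX]
  · funext Θ
    simp only [dK, hx.farK b z s X hb hX h, hy.farK b z s X hb hX h]

end Par

theorem rg_under_one (L : ℕ) (B : P) : under L {B} = cell L B := by simp [under]

theorem rg_smalls_pm {m : ℕ} {B : P} {X : Finset P} (h : X ∈ smalls (box m) B) :
    Pm m X ∧ B ∈ X ∧ X.card ≤ 4 := by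
  obtain ⟨h1, h2, h3, h4⟩ := mem_filter.1 h
  exact ⟨⟨mem_powerset.1 h1, h2⟩, h3, h4⟩

end Pool.Agent.Lib.MP_9cc147_pr.Cx
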