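import Pool.Agent.Lib.MP_9cc147_pr.Cx.Rg.LinA

/-! Contraction of the linear part of one renormalisation step. -/

open scoped Classical Topology
open Finset MeasureTheory ProbabilityTheory Filter

noncomputable section
namespace Pool.Agent.Lib.MP_9cc147_pr.Cx

theorem t_rg_lin (h_blk : S_rg_blk) (h_thin : S_rg_thin) (h_str : S_rg_str) (h_qz : S_rg_qz)
    (h_sm : S_rg_sm) : S_rg_lin := by
  intro q Cu C0 ε0 t0 b j K δ qe qo z B' θ v env ht hδ hz pt hF hqe hqo hsym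
  have hc0 : c0 = 10 ^ 8 := rfl
  have hLr : (10 : ℝ) ^ 64 ≤ q.L := le_trans (le_of_eq (by rw [hc0]; norm_num)) env.hL
  have hL1 : (1 : ℝ) ≤ q.L := le_trans (by norm_num) hLr
  have hL0 : (0 : ℝ) < q.L := by linarith
  have hL : 1000 ≤ q.L := by
    have : ((1000 : ℕ) : ℝ) ≤ q.L := le_trans (by norm_num) hLr
    exact_mod_cast this
  have hl : 100 ≤ q.l j := le_trans (by omega) (Nat.le_self_pow (Nat.succ_ne_zero j) q.L)
  have hl0 : (0 : ℝ) < q.l j := by exact_mod_cast (by omega : 0 < q.l j)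
  have el : q.l (j + 1) = q.L * q.l j := by unfold Par.l; rw [pow_succ, mul_comm]
  have hA : 0 < q.A := lt_of_lt_of_le (by positivity) env.hA
  have hκ := env.hκ.1
  have hCu := env.hCu
  have hL3 : (1 : ℝ) ≤ (q.L : ℝ) ^ 3 := one_le_pow₀ hL1
  have hh3 : (q.L : ℝ) ^ 3 ≤ q.h := le_trans (le_mul_of_one_le_right (by positivity) hCu) env.hh.1
  have hh1 : 1 ≤ q.h := hL3.trans hh3
  have hh0 : 0 < q.h ^ 2 := by positivity
  have hok := pt.hok.pred
  have hbox : cell q.L B' ⊆ box (q.m b j) := by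
    rw [q.m_succ hok.2.1]
    exact f_cell_sub (by omega) (pt.pm.1 (mem_singleton_self _))
  have hstr := pt.str
  rw [el] at hstr ⊢
  have hS := fun X => (h_str (q.n b) q.L (q.l j) q.h (q.L * q.h) v hL hl).1 {B'} X hstr
  have hun : under q.L {B'} = cell q.L B' := singleton_biUnion
  obtain ⟨ρ, hρ⟩ : ∃ ρ, ρ = q.κ * Reg (q.L * q.l j) {B'} θ := ⟨_, rfl⟩
  obtain ⟨V, hV⟩ : ∃ V, V = cf θ + v := ⟨_, rfl⟩
  have hΘ : bg (q.n b) z + cf θ + v = bg (q.n b) z + V := by rw [hV, add_assoc]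
  have hNθ := rgl_reg (q.L * q.l j) θ B'
  have hNθ0 := rgl_Nf (q.L * q.l j) (cf θ) (nb (q.L * q.l j) B')
  have hNV := rgl_Nf_add (q.L * q.l j) (cf θ) v (nb (q.L * q.l j) B')
  have hNv := hstr.1 B' (mem_singleton_self _)
  have hNV0 := rgl_Nf (q.L * q.l j) V (nb (q.L * q.l j) B')
  obtain ⟨t1, t2, t3, t4⟩ := h_thin q.L (q.l j) V B' hL hl
  obtain ⟨t4, t5⟩ := t4 _ hbox
  have t6 := (h_thin q.L (q.l j) (cf θ) B' hL hl).1
  rw [← hV] at hNV
  rw [← hρ]
  generalize Nf (q.L * q.l j) V (nb (q.L * q.l j) B') = N at hNV hNV0 t1 t2 t3 t4 t5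
  have hκN : q.κ * Nf (q.L * q.l j) (cf θ) (nb (q.L * q.l j) B') ≤ 8 * ρ := by
    rw [hρ]; linarith [mul_le_mul_of_nonneg_left hNθ hκ.le]
  have hρ0 : 0 ≤ ρ := by linarith [mul_nonneg hκ.le hNθ0]
  obtain ⟨x, hx⟩ : ∃ x, x = N / q.h ^ 2 := ⟨_, rfl⟩
  have hx0 : 0 ≤ x := by rw [hx]; positivity
  have hx1 : x ≤ 2 + ρ := by
    rw [hx, div_le_iff₀ hh0]
    have k1 : 16 ≤ q.κ * q.h ^ 2 := by
      linarith [mul_le_mul env.hh.2 hh1 zero_le_one (by positivity)]
    refine le_of_mul_le_mul_left ?_ hκ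
    linarith [mul_le_mul_of_nonneg_left k1 hρ0, mul_le_mul_of_nonneg_left hNV hκ.le,
      mul_le_mul_of_nonneg_left hNv hκ.le]
  obtain ⟨e, he⟩ : ∃ e, e = Cu / q.h ^ 2 := ⟨_, rfl⟩
  have he0 : 0 ≤ e := by rw [he]; positivity
  have he1 : (q.L : ℝ) ^ 6 * e ≤ 1 := by
    rw [he, ← mul_div_assoc, div_le_one hh0]
    have := mul_le_mul env.hh.1 hh3 (by positivity) (by linarith)
    linarith
  have hp : ∀ k : ℕ, k ≤ 6 → (q.L : ℝ) ^ k * e ≤ 1 := fun k hk =>
    (mul_le_mul_of_nonneg_right (pow_le_pow_right₀ hL1 hk) he0).trans he1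
  have he2 : (q.L : ℝ) ^ 2 * e ≤ 1 / q.L := by
    rw [le_div_iff₀ hL0]; have := hp 3 (by norm_num); linarith
  have he3 : (q.L : ℝ) ^ 3 * e ≤ 1 / q.L := by
    rw [le_div_iff₀ hL0]; have := hp 4 (by norm_num); linarith
  have he4 : (q.L : ℝ) ^ 2 * e ≤ 1 / (q.L : ℝ) ^ 2 := by
    rw [le_div_iff₀ (by positivity)]; have := hp 4 (by norm_num); linarith
  have he5 : e ≤ (q.L : ℝ) ^ 2 * e := le_mul_of_one_le_left he0 (one_le_pow₀ hL1)
  have hi1 : 1 / (q.L : ℝ) ≤ 1 := by rw [div_le_one hL0]; exact hL1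
  have hi0 : 0 ≤ 1 / (q.L : ℝ) := by positivity
  have hcL : c0 / q.L = 10 ^ 8 * (1 / q.L) := by rw [hc0]; ring
  have hcard : ((cell q.L B').card : ℝ) = (q.L : ℝ) ^ 2 := by rw [f_card_cell]; norm_cast
  have hsum : ∀ (S : Finset P) (f : P → ℝ) (a : ℝ), S ⊆ cell q.L B' → ∑ B ∈ S, f B ≤ a * N →
      ∑ B ∈ S, (f B + Cu) / q.h ^ 2 ≤ a * x + (q.L : ℝ) ^ 2 * e := fun S f a hs hf => by
    have k1 : (S.card : ℝ) ≤ (q.L : ℝ) ^ 2 := by rw [← hcard]; exact_mod_cast card_le_card hs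
    rw [← sum_div, sum_add_distrib, sum_const, nsmul_eq_mul, hx, he, ← mul_div_assoc,
      ← mul_div_assoc, ← add_div]
    gcongr
  have hEE : ∀ B ∈ cell q.L B', 1 ≤ q.EE j θ B ∧ q.EE j θ B ≤ Real.exp (ρ / 2) := fun B hB => by
    refine ⟨Real.one_le_exp (mul_nonneg (by positivity) (rgl_Nl _ _ _)), Real.exp_le_exp.2 ?_⟩
    have k1 := mul_le_mul_of_nonneg_left (t6 B hB) hκ.le
    have k2 : c0 / q.L ≤ 1 / 128 := by
      rw [div_le_iff₀ hL0, hc0]; linarith [show (128 : ℝ) * 10 ^ 8 ≤ 10 ^ 64 by norm_num]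
    have k3 := mul_le_mul_of_nonneg_right k2 (mul_nonneg hκ.le hNθ0)
    linarith
  have htt : ∀ B, 0 ≤ q.tt Cu j V B := fun B =>
    div_nonneg (add_nonneg (rgl_Nl _ _ _) (by linarith)) hh0.le
  have htb : ∀ B, 0 ≤ q.tb Cu j V B := fun B =>
    div_nonneg (add_nonneg (rgl_Nb _ _ _) (by linarith)) hh0.le
  have hblk := fun B hB => h_blk q Cu C0 ε0 t0 b j K δ z θ v env hok ht hδ hz pt.dir B (hbox hB)
    (hF B hB) fun X hX => (hS X fun B1 h1 => ⟨B, hun ▸ hB, by
      have := rgl_mem_nbh.1 (((h_sm (box (q.m b j)) B _ le_rfl).1 X hX).1 h1)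
      exact ⟨this.1.trans (by norm_num), this.2.trans (by norm_num)⟩⟩).1
  have hqz := fun B hB => (h_qz q Cu C0 ε0 b j z env hok B (hbox hB)).1 pt.hz V fun p hp hr => by
    have := (((hS {B} fun B1 h1 => ⟨B, hun ▸ hB, by
      rw [mem_singleton.1 h1]; exact ⟨by simp, by simp⟩⟩).2) B (mem_singleton_self _)).2 p hp hr
    rw [hV, Pi.add_apply, this, cf, rgl_ring pt.dir hr]; simp
  rw [← hV] at hblk
  rw [hΘ] at hblk ⊢
  obtain ⟨u, hu⟩ : ∃ u, u = δ / q.A := ⟨_, rfl⟩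
  have hu0 : 0 ≤ u := by rw [hu]; positivity
  have hE1 : 1 ≤ Real.exp (ρ / 2) := Real.one_le_exp (by linarith)
  have hQ : 600 * δ / q.A * (q.l j : ℝ) ^ 2 / q.h ^ 2 = 600 * u / q.h ^ 2 * (q.l j : ℝ) ^ 2 := by
    rw [hu]; ring
  rw [hQ] at hqe hqo
  have hco : ∀ y : ℝ, |y| ≤ 2 * (600 * u / q.h ^ 2 * (q.l j : ℝ) ^ 2) →
      ‖((y / (q.l j : ℝ) ^ 2 : ℝ) / 2 : ℂ)‖ ≤ 600 * u / q.h ^ 2 := fun y hy => by
    rw [norm_div, Complex.norm_real, Real.norm_eq_abs, abs_div, abs_of_pos (pow_pos hl0 2),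
      Complex.norm_two, div_le_iff₀ two_pos, div_le_iff₀ (pow_pos hl0 2)]
    linarith
  have hca := hco (-(qe + qo)) (by rw [abs_neg]; linarith [abs_add_le qe qo])
  have hcc := hco (qe - qo) (by linarith [abs_sub qe qo])
  have hnab : ∀ B, deep 5 (q.m b j) B → ¬ ab (q.m b j) B := fun B h1 h2 => by
    rcases h2 with rfl | rfl <;> simp only [deep] at h1 <;> omega
  have key := rgl_abs (C := cell q.L B') (dp := deep 5 (q.m b j))
    (nc := fun B => ∃ B', ab (q.m b j) B' ∧ nr 3 B B')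
    (T := fun B => ((-(qe + qo) / (q.l j : ℝ) ^ 2 : ℝ) / 2 : ℂ) *
      q.Qz b j z B (bg (q.n b) z + V) + q.RB b j z (K z) B (bg (q.n b) z + V))
    (Rm := fun B => q.RB b j z (K z) B (bg (q.n b) z + V) - q.qB b j (K 0) B / (q.l j : ℂ) ^ 2 *
      En (bg (q.n b) z + V) (cell (q.l j) B))
    (EV := fun B => En V (cell (q.l j) B)) (sg := fun B => if Even (B.1 + B.2) then 1 else -1)
    (er := fun B => (if Even (B.1 + B.2) then 1 else -1) *
      (En (bg (q.n b) z + V) (cell (q.l j) B) - En V (cell (q.l j) B)))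
    (tt := q.tt Cu j V) (tb := q.tb Cu j V) (c := (((qe - qo) / (q.l j : ℝ) ^ 2 : ℝ) / 2 : ℂ))
    (w := x + 1) hu0 hE1 env.hL (by linarith) htt htb
    (fun B hB => by
      have := hsum {B} (Nl (q.l j) V) (c0 / q.L) (by simpa using hB) (by simpa using t1 B hB)
      rw [sum_singleton] at this
      refine this.trans ?_
      rw [hcL]; linarith)
    ((hsum _ _ _ subset_rfl t2).trans (by linarith))
    ((hsum _ _ _ subset_rfl t3).trans (by
      have : (225 : ℝ) / (q.L : ℝ) ^ 2 = 225 * (1 / (q.L : ℝ) ^ 2) := by ring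
      rw [this]
      linarith [show 0 ≤ 1 / (q.L : ℝ) ^ 2 by positivity]))
    ((hsum _ _ _ (filter_subset _ _) t4).trans (by rw [hcL]; linarith))
    (rgl_corner _ _)
    (fun B hB _ => by
      have k1 := (hblk B hB).1
      have k2 := mul_le_mul hca (hqz B hB).1 (norm_nonneg _) (by positivity)
      have k3 : 600 * u / q.h ^ 2 * (2 * ea (q.l j) V B + 2 * Cu) ≤
          1200 * u * q.tt Cu j V B := by
        have := rgl_ea_le (q.l j) V B
        unfold Par.tt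
        rw [div_mul_eq_mul_div, ← mul_div_assoc]
        refine div_le_div_of_nonneg_right ?_ hh0.le
        linarith [mul_le_mul_of_nonneg_left this hu0]
      rw [← norm_mul] at k2
      rw [mul_div_assoc, ← hu] at k1
      refine (norm_add_le _ _).trans ?_
      have k4 : 0 ≤ (if ∃ B', ab (q.m b j) B' ∧ nr 3 B B' then √(q.tt Cu j V B) else 0) := by
        split_ifs <;> positivity
      generalize (if ∃ B', ab (q.m b j) B' ∧ nr 3 B B' then √(q.tt Cu j V B) else 0) = s at k1 k4 ⊢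
      have k5 := mul_le_mul_of_nonneg_left (hEE B hB).2
        (mul_nonneg hu0 (add_nonneg (htt B) k4))
      have k6 := mul_le_mul_of_nonneg_left hE1 (mul_nonneg hu0 (htt B))
      linarith)
    (fun B hB hd => by
      refine ⟨?_, ((hblk B hB).2 hd (hsym B hB hd).1).trans ?_⟩
      · simp only [Par.Qz, if_neg (hnab B hd), (hsym B hB hd).2]
        split_ifs <;> push_cast <;> ring
      · rw [mul_div_assoc, ← hu]
        have := htt B
        have := htb B
        have := (hEE B hB).2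
        rw [hc0]
        gcongr)
    (by
      refine (mul_le_mul hcc t5 (norm_nonneg _) (by positivity)).trans ?_
      have : 600 * u / q.h ^ 2 * (c0 / q.L * N) = 600 * u * (c0 / q.L * x) := by rw [hx]; ring
      rw [this, hc0]
      gcongr
      linarith)
    (by
      have k1 : ∑ B ∈ (cell q.L B').filter (deep 5 (q.m b j)),
          ‖(if Even (B.1 + B.2) then 1 else -1 : ℂ) *
            (En (bg (q.n b) z + V) (cell (q.l j) B) - En V (cell (q.l j) B))‖ ≤
          ∑ B ∈ cell q.L B', (1 / q.L * Nl (q.l j) V B + (q.L + 1) * Cu) := by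
        refine le_trans (sum_le_sum fun B hB => ?_) (sum_le_sum_of_subset_of_nonneg
          (filter_subset (deep 5 (q.m b j)) _) fun B _ _ => by
            have := rgl_Nl (q.l j) V B; positivity)
        have k2 := ((hqz B (mem_filter.1 hB).1).2 (hnab B (mem_filter.1 hB).2)).2
        have k3 := rgl_am (rgl_ea (q.l j) V B) (by linarith : 0 ≤ Cu) hL0
        have k4 := mul_le_mul_of_nonneg_left (rgl_ea_le (q.l j) V B) hi0
        have k5 : ‖(if Even (B.1 + B.2) then 1 else -1 : ℂ)‖ = 1 := by split_ifs <;> simp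
        rw [norm_mul, k5, one_mul]
        rw [mul_comm (ea _ _ _), div_eq_mul_one_div] at k3
        linarith
      rw [sum_add_distrib, ← mul_sum, sum_const, nsmul_eq_mul, hcard] at k1
      have k2 := k1.trans (add_le_add (mul_le_mul_of_nonneg_left t2 hi0) le_rfl)
      refine (mul_le_mul hcc k2 (sum_nonneg fun _ _ => norm_nonneg _) (by positivity)).trans ?_
      have : 600 * u / q.h ^ 2 * (1 / q.L * (225 * N) + (q.L : ℝ) ^ 2 * ((q.L + 1) * Cu)) =
          600 * u * (225 * (1 / q.L) * x + ((q.L : ℝ) ^ 3 * e + (q.L : ℝ) ^ 2 * e)) := by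
        rw [hx, he]; ring
      rw [this, div_eq_mul_one_div 227]
      refine mul_le_mul_of_nonneg_left ?_ (by positivity)
      linarith [mul_nonneg hi0 hx0])
  refine key.trans ?_
  have k1 : x + 1 ≤ 4 * Real.exp (ρ / 4) := by linarith [Real.add_one_le_exp (ρ / 4)]
  have k2 : (x + 1) ^ 2 ≤ 16 * Real.exp (ρ / 2) := by
    refine (pow_le_pow_left₀ (by linarith) k1 2).trans_eq ?_
    rw [mul_pow, sq (Real.exp _), ← Real.exp_add]; congr 1
    · norm_num
    · congr 1; ring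
  have k3 : Real.exp ρ = Real.exp (ρ / 2) * Real.exp (ρ / 2) := by
    rw [← Real.exp_add, add_halves]
  have k4 : δ / (100 * q.A) = u / 100 := by rw [hu]; field_simp
  rw [k3, k4]
  linarith [mul_le_mul_of_nonneg_left k2 (mul_nonneg hu0 (Real.exp_pos (ρ / 2)).le)]

end Pool.Agent.Lib.MP_9cc147_pr.Cx
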