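import Pool.Agent.Lib.MP_9cc147_pr.Cx.Rg.S
import Pool.Agent.Lib.MP_9cc147_pr.Cx.F.Kit

/-! Lemmas for the contraction of the linear part. -/

open scoped Classical Topology
open Finset MeasureTheory ProbabilityTheory Filter

noncomputable section
namespace Pool.Agent.Lib.MP_9cc147_pr.Cx

theorem rgl_n1 (v : Fld) (x : P) : 0 ≤ n1 v x := by unfold n1; positivity
theorem rgl_n2 (v : Fld) (x : P) : 0 ≤ n2 v x := by unfold n2; positivity
theorem rgl_ea (l : ℕ) (v : Fld) (B : P) : 0 ≤ ea l v B := sum_nonneg fun _ _ => rgl_n1 _ _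
theorem rgl_eb (l : ℕ) (v : Fld) (B : P) : 0 ≤ eb l v B :=
  mul_nonneg (by positivity) (sum_nonneg fun _ _ => rgl_n2 _ _)
theorem rgl_Nl (l : ℕ) (v : Fld) (B : P) : 0 ≤ Nl l v B :=
  sum_nonneg fun _ _ => add_nonneg (rgl_ea _ _ _) (rgl_eb _ _ _)
theorem rgl_Nb (l : ℕ) (v : Fld) (B : P) : 0 ≤ Nb l v B := sum_nonneg fun _ _ => rgl_eb _ _ _
theorem rgl_Nf (l : ℕ) (v : Fld) (S : Finset P) : 0 ≤ Nf l v S :=
  sum_nonneg fun _ _ => add_nonneg (rgl_n1 _ _) (mul_nonneg (by positivity) (rgl_n2 _ _))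

theorem rgl_mem_nbh {k : ℕ} {B B' : P} : B' ∈ nbh k B ↔ nr k B B' := by
  simp only [nbh, nr, mem_product, mem_Icc, abs_le]
  omega

theorem rgl_ea_le (l : ℕ) (v : Fld) (B : P) : ea l v B ≤ Nl l v B := by
  have h : B ∈ nbh 7 B := rgl_mem_nbh.2 ⟨by simp, by simp⟩
  have := single_le_sum (f := fun B' => ea l v B' + eb l v B')
    (fun _ _ => add_nonneg (rgl_ea _ _ _) (rgl_eb _ _ _)) h
  have h2 := rgl_eb l v B
  unfold Nl
  linarith

theorem rgl_sq (a b : ℂ) : ‖a + b‖ ^ 2 ≤ 2 * ‖a‖ ^ 2 + 2 * ‖b‖ ^ 2 := by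
  have h := pow_le_pow_left₀ (norm_nonneg _) (norm_add_le a b) 2
  nlinarith [sq_nonneg (‖a‖ - ‖b‖)]

theorem rgl_Nf_add (l : ℕ) (v w : Fld) (S : Finset P) :
    Nf l (v + w) S ≤ 2 * Nf l v S + 2 * Nf l w S := by
  unfold Nf
  rw [mul_sum, mul_sum, ← sum_add_distrib]
  refine sum_le_sum fun p _ => ?_
  have h1 : n1 (v + w) p ≤ 2 * n1 v p + 2 * n1 w p := by
    have : ∑ d, ‖dg (v + w) p d‖ ^ 2 ≤ ∑ d, (2 * ‖dg v p d‖ ^ 2 + 2 * ‖dg w p d‖ ^ 2) := by
      refine sum_le_sum fun d _ => ?_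
      have e : dg (v + w) p d = dg v p d + dg w p d := by
        simp only [dg, Pi.add_apply]; ring
      rw [e]; exact rgl_sq _ _
    rw [sum_add_distrib, ← mul_sum, ← mul_sum] at this
    unfold n1
    linarith
  have h2 : n2 (v + w) p ≤ 2 * n2 v p + 2 * n2 w p := by
    have k : ∀ a a' b b' d d' : ℂ, ‖a + a' - 2 * (b + b') + (d + d')‖ ^ 2 ≤
        2 * ‖a - 2 * b + d‖ ^ 2 + 2 * ‖a' - 2 * b' + d'‖ ^ 2 := fun a a' b b' d d' => by
      rw [show a + a' - 2 * (b + b') + (d + d') = (a - 2 * b + d) + (a' - 2 * b' + d') by ring]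
      exact rgl_sq _ _
    have k' : ∀ a a' b b' d d' e e' : ℂ, ‖a + a' - (b + b') - (d + d') + (e + e')‖ ^ 2 ≤
        2 * ‖a - b - d + e‖ ^ 2 + 2 * ‖a' - b' - d' + e'‖ ^ 2 := fun a a' b b' d d' e e' => by
      rw [show a + a' - (b + b') - (d + d') + (e + e') = (a - b - d + e) + (a' - b' - d' + e') by
        ring]
      exact rgl_sq _ _
    unfold n2
    simp only [Pi.add_apply]
    refine (add_le_add (add_le_add (k _ _ _ _ _ _) (k _ _ _ _ _ _)) (k' _ _ _ _ _ _ _ _)).trans_eq ?_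
    ring
  have h3 := mul_le_mul_of_nonneg_left h2 (sq_nonneg (l : ℝ))
  linarith

theorem rgl_reg (l : ℕ) (θ : P → ℝ) (B : P) : Nf l (cf θ) (nb l B) ≤ 8 * Reg l {B} θ := by
  have e : nbs l {B} = nb l B := singleton_biUnion
  unfold Nf Reg
  rw [e, sum_add_distrib, ← mul_sum]
  have h1 : ∑ x ∈ nb l B, n1 (cf θ) x ≤
      ∑ x ∈ nb l B \ under l {B}, n1 (cf θ) x + ∑ x ∈ under l {B}, n1 (cf θ) x := by
    rw [← sum_union sdiff_disjoint]
    exact sum_le_sum_of_subset_of_nonneg (by rw [sdiff_union_self_eq_union]; exact subset_union_left)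
      fun _ _ _ => rgl_n1 _ _
  have h2 : 0 ≤ ∑ x ∈ under l {B}, n1 (cf θ) x := sum_nonneg fun _ _ => rgl_n1 _ _
  have h3 : 0 ≤ (l : ℝ) ^ 2 * ∑ p ∈ nb l B, n2 (cf θ) p :=
    mul_nonneg (by positivity) (sum_nonneg fun _ _ => rgl_n2 _ _)
  linarith

theorem rgl_ring {n : ℕ} {f : P → ℝ} (hf : Dir n f) {p : P} (hp : p ∈ ring n) : f p = 0 := by
  obtain ⟨x, y⟩ := p
  simp only [ring, sqr, inn, Finset.mem_sdiff, mem_product, mem_Ioo, mem_Icc] at hp
  have h : x = 0 ∨ x = n ∨ y = 0 ∨ y = n := by omega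
  have a := (hf (x, y)).1
  have b := (hf (x, y)).2.1
  have c := (hf (-x, y)).2.2.1
  have d := (hf (x, -y)).2.2.2
  dsimp only at a b c d
  rcases h with rfl | rfl | rfl | rfl
  · rw [neg_zero] at a; linarith
  · rw [show -(n : ℤ) + 2 * n = n by ring] at c; linarith
  · rw [neg_zero] at b; linarith
  · rw [show -(n : ℤ) + 2 * n = n by ring] at d; linarith

theorem rgl_corner (m : ℕ) (C : Finset P) :
    (C.filter fun B => ∃ B', ab m B' ∧ nr 3 B B').card ≤ 98 := by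
  have hc : ∀ B : P, (nbh 3 B).card = 49 := fun B => by
    have : ∀ a : ℤ, (a + 3 + 1 - (a - 3)).toNat = 7 := fun a => by omega
    simp [nbh, this]
  have hs : (C.filter fun B => ∃ B', ab m B' ∧ nr 3 B B') ⊆
      nbh 3 (0, 0) ∪ nbh 3 ((m : ℤ) - 1, (m : ℤ) - 1) := by
    intro B hB
    obtain ⟨B', h1, h2⟩ := (mem_filter.1 hB).2
    have h3 : nr 3 B' B := ⟨by rw [abs_sub_comm]; exact h2.1, by rw [abs_sub_comm]; exact h2.2⟩
    rcases h1 with rfl | rfl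
    · exact mem_union_left _ (rgl_mem_nbh.2 h3)
    · exact mem_union_right _ (rgl_mem_nbh.2 h3)
  have := (card_le_card hs).trans (card_union_le _ _)
  rw [hc, hc] at this
  exact this

theorem rgl_am {x y L : ℝ} (hx : 0 ≤ x) (hy : 0 ≤ y) (hL : 0 < L) :
    2 * √(x * y) ≤ x / L + L * y := by
  have h : √(x * y) ≤ (x / L + L * y) / 2 := by
    refine Real.sqrt_le_iff.2 ⟨by positivity, ?_⟩
    have e : x * y = (x / L) * (L * y) := by field_simp
    rw [e]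
    nlinarith [sq_nonneg (x / L - L * y)]
  linarith

/-- the bookkeeping of the sums over the blocks of one cell -/
theorem rgl_abs {C : Finset P} {dp nc : P → Prop} {T Rm EV er sg : P → ℂ} {tt tb : P → ℝ}
    {c : ℂ} {u E L w : ℝ} (hu : 0 ≤ u) (hE : 1 ≤ E) (hL : c0 ^ 8 ≤ L) (hw : 1 ≤ w)
    (htt : ∀ B, 0 ≤ tt B) (htb : ∀ B, 0 ≤ tb B) (h1 : ∀ B ∈ C, tt B ≤ c0 / L * w)
    (h2 : ∑ B ∈ C, tt B ≤ 225 * w) (h3 : ∑ B ∈ C, tb B ≤ 225 / L ^ 2 * w)
    (h4 : ∑ B ∈ C.filter (fun B => ¬ dp B), tt B ≤ c0 / L * w) (h5 : (C.filter nc).card ≤ 98)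
    (hn : ∀ B ∈ C, ¬ dp B → ‖T B‖ ≤ u * E * (11200 * tt B + 10 ^ 4 * if nc B then √(tt B) else 0))
    (hd : ∀ B ∈ C, dp B → T B = Rm B + c * (sg B * EV B + er B) ∧
      ‖Rm B‖ ≤ c0 ^ 3 * u * E * (tt B ^ 2 + √(tt B * tb B) + tb B + tt B / L ^ 2))
    (h6 : ‖c‖ * ‖∑ B ∈ C.filter dp, sg B * EV B‖ ≤ 600 * u * (c0 / L * w))
    (h7 : ‖c‖ * ∑ B ∈ C.filter dp, ‖er B‖ ≤ 600 * u * (227 / L * w)) :
    ‖∑ B ∈ C, T B‖ ≤ u * E * (w ^ 2 / 1600) := by
  have hc0 : c0 = 10 ^ 8 := rfl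
  have hc1 : (1 : ℝ) ≤ c0 := by rw [hc0]; norm_num
  have hL1 : (1 : ℝ) ≤ L := (one_le_pow₀ hc1).trans hL
  have hL0 : (0 : ℝ) < L := by linarith
  have hw2 : w ≤ w ^ 2 := by nlinarith
  obtain ⟨i, hi⟩ : ∃ i, i = L⁻¹ := ⟨_, rfl⟩
  have hi0 : 0 < i := by rw [hi]; positivity
  have hi1 : i ≤ 1 / 10 ^ 64 := by
    rw [hi, inv_eq_one_div]
    refine one_div_le_one_div_of_le (by norm_num) (le_trans (le_of_eq ?_) hL)
    rw [hc0]; norm_num
  have hdiv : ∀ a : ℝ, a / L = a * i := fun a => by rw [hi, div_eq_mul_inv]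
  have hdiv2 : ∀ a : ℝ, a / L ^ 2 = a * i ^ 2 := fun a => by rw [hi, div_eq_mul_inv, inv_pow]
  have hii : i ^ 2 ≤ i := by nlinarith
  have hiw : i * w ≤ 1 / 10 ^ 64 * w ^ 2 := mul_le_mul hi1 hw2 (by linarith) (by norm_num)
  have hiw2 : i * w ^ 2 ≤ 1 / 10 ^ 64 * w ^ 2 := mul_le_mul_of_nonneg_right hi1 (by positivity)
  have hi2w : i ^ 2 * w ≤ i * w := mul_le_mul_of_nonneg_right hii (by linarith)
  rw [← sum_filter_add_sum_filter_not C dp]
  have huE : 0 ≤ u * E := by positivity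
  have a1 : ‖∑ B ∈ C.filter (fun B => ¬ dp B), T B‖ ≤ u * E * (w ^ 2 / 6400) := by
    refine (norm_sum_le_of_le _ fun B hB => hn B (mem_filter.1 hB).1 (mem_filter.1 hB).2).trans ?_
    rw [← mul_sum]
    refine mul_le_mul_of_nonneg_left ?_ huE
    rw [sum_add_distrib, ← mul_sum, ← mul_sum]
    have b1 : ∑ B ∈ C.filter (fun B => ¬ dp B), (if nc B then √(tt B) else 0) ≤
        98 * (w / 10 ^ 24) := by
      refine (sum_le_sum_of_subset_of_nonneg (filter_subset _ _) fun B _ _ => by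
        split_ifs <;> positivity).trans ?_
      rw [← sum_filter]
      refine (sum_le_card_nsmul _ _ (w / 10 ^ 24) fun B hB => ?_).trans ?_
      · refine Real.sqrt_le_iff.2 ⟨by positivity, (h1 B (mem_filter.1 hB).1).trans ?_⟩
        rw [hdiv, hc0]
        nlinarith [sq_nonneg w]
      · rw [nsmul_eq_mul]
        have : ((C.filter nc).card : ℝ) ≤ 98 := by exact_mod_cast h5
        exact mul_le_mul_of_nonneg_right this (by positivity)
    rw [hdiv, hc0] at h4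
    nlinarith [sq_nonneg w]
  have a2 : ‖∑ B ∈ C.filter dp, Rm B‖ ≤ u * E * (w ^ 2 / 6400) := by
    refine (norm_sum_le_of_le _ fun B hB =>
      (hd B (mem_filter.1 hB).1 (mem_filter.1 hB).2).2).trans ?_
    rw [← mul_sum]
    have b1 : ∑ B ∈ C.filter dp, (tt B ^ 2 + √(tt B * tb B) + tb B + tt B / L ^ 2) ≤
        ∑ B ∈ C, ((c0 * i * w + i + i ^ 2) * tt B + (L + 1) * tb B) := by
      refine le_trans (sum_le_sum_of_subset_of_nonneg (filter_subset _ _) fun B _ _ => by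
        have := htt B; have := htb B; positivity) (sum_le_sum fun B hB => ?_)
      have t1 := mul_le_mul_of_nonneg_right (h1 B hB) (htt B)
      have t2 := rgl_am (htt B) (htb B) hL0
      have t3 := Real.sqrt_nonneg (tt B * tb B)
      rw [hdiv] at t1 t2
      rw [hdiv2]
      nlinarith
    rw [sum_add_distrib (f := fun B => (c0 * i * w + i + i ^ 2) * tt B), ← mul_sum,
      ← mul_sum] at b1
    have b2 : (c0 * i * w + i + i ^ 2) * ∑ B ∈ C, tt B ≤ (c0 * i * w + i + i ^ 2) * (225 * w) :=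
      mul_le_mul_of_nonneg_left h2 (by positivity)
    have b3 : (L + 1) * ∑ B ∈ C, tb B ≤ (L + 1) * (225 / L ^ 2 * w) :=
      mul_le_mul_of_nonneg_left h3 (by positivity)
    have b4 : (L + 1) * (225 / L ^ 2 * w) = 225 * (i * w) + 225 * (i ^ 2 * w) := by
      rw [hi]; field_simp
    have b5 : ∑ B ∈ C.filter dp, (tt B ^ 2 + √(tt B * tb B) + tb B + tt B / L ^ 2) ≤
        w ^ 2 / 10 ^ 40 := by
      rw [hc0] at b1 b2
      nlinarith [sq_nonneg w]
    have b6 := mul_le_mul_of_nonneg_left b5 (show 0 ≤ c0 ^ 3 * u * E by positivity)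
    refine b6.trans ?_
    rw [hc0]
    nlinarith [mul_nonneg huE (sq_nonneg w)]
  have a3 : ∑ B ∈ C.filter dp, T B = ∑ B ∈ C.filter dp, Rm B +
      (c * ∑ B ∈ C.filter dp, sg B * EV B + c * ∑ B ∈ C.filter dp, er B) := by
    rw [← mul_add, ← sum_add_distrib, mul_sum, ← sum_add_distrib]
    exact sum_congr rfl fun B hB => (hd B (mem_filter.1 hB).1 (mem_filter.1 hB).2).1
  have a4 : ‖c * ∑ B ∈ C.filter dp, er B‖ ≤ 600 * u * (227 / L * w) := by
    rw [norm_mul]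
    exact (mul_le_mul_of_nonneg_left (norm_sum_le _ _) (norm_nonneg _)).trans h7
  rw [← norm_mul] at h6
  have a5 : 600 * u * (c0 / L * w) + 600 * u * (227 / L * w) ≤ u * E * (w ^ 2 / 6400) := by
    rw [hdiv, hdiv, hc0]
    have t1 : u * (i * w) ≤ u * (1 / 10 ^ 64 * w ^ 2) := mul_le_mul_of_nonneg_left hiw hu
    have t2 : u * w ^ 2 * 1 ≤ u * w ^ 2 * E := mul_le_mul_of_nonneg_left hE (by positivity)
    nlinarith [mul_nonneg hu (sq_nonneg w)]
  rw [a3]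
  have a6 := norm_add_le (c * ∑ B ∈ C.filter dp, sg B * EV B) (c * ∑ B ∈ C.filter dp, er B)
  refine (norm_add_le _ _).trans ?_
  have a7 := norm_add_le (∑ B ∈ C.filter dp, Rm B)
    (c * ∑ B ∈ C.filter dp, sg B * EV B + c * ∑ B ∈ C.filter dp, er B)
  nlinarith [mul_nonneg huE (sq_nonneg w)]

end Pool.Agent.Lib.MP_9cc147_pr.Cx
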