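import Pool.Agent.Lib.MP_9cc147_pr.Cx.Rg.S
import Pool.Agent.Lib.MP_9cc147_pr.Cx.J.Lw
import Pool.Agent.Lib.MP_9cc147_pr.Cx.N.Geo

/-! The weight of one local configuration of a step. -/

open scoped Classical
open Finset

noncomputable section
namespace Pool.Agent.Lib.MP_9cc147_pr.Cx

/-- the factors of a local weight that sit on one block -/
def rglwB (W : Finset P) (c : P → Sf) (E : P → ℂ) (T M It : Lab → P → ℂ) (B : P) : ℂ :=
  (if B ∈ W then E B else 1) * (∏ s, if B ∈ W ∧ lab (c B) = some s then T s B else 1) *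
    (∏ s, if c B = some (s, 1) then M s B else 1) *
    ∏ s, if red c B = some (s, true) then (It s B)⁻¹ else 1

theorem rglw_ite {α : Type} [CommMonoid α] {W R : Finset P} (h : W ⊆ R) (f : P → α) :
    ∏ B ∈ R, (if B ∈ W then f B else 1) = ∏ B ∈ W, f B := by
  rw [← prod_filter, filter_mem_eq_inter, inter_eq_right.2 h]

theorem rglw_id (L : ℕ) (D U : Finset P) (h : under L U ⊆ reg L D U) (E : P → ℂ)
    (T M It : Lab → P → ℂ) (K : Lab → Finset P → ℂ) (N : Finset P → (P → Option Lab) → ℂ)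
    (c : P → Sf) :
    (∏ B ∈ under L U, E B) * lw L 4 D U T M (fun s X => K s X / ∏ B ∈ X, It s B) N c =
      (∏ B ∈ reg L D U, rglwB (under L U) c E T M It B) *
        (∏ s, ∏ X ∈ comps (pol (reg L D U) (red c) s), fw 4 c X * K s X) *
        ∏ X ∈ comps (bad (reg L D U) (red c)), N X (sig (reg L D U) (red c) X) := by
  rw [lw]
  generalize reg L D U = R at *
  generalize under L U = W at *
  have e1 : ∀ s, ∏ X ∈ comps (pol R (red c) s), fw 4 c X * (K s X / ∏ B ∈ X, It s B) =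
      (∏ X ∈ comps (pol R (red c) s), fw 4 c X * K s X) *
        ∏ B ∈ R, if red c B = some (s, true) then (It s B)⁻¹ else 1 := fun s => by
    rw [← prod_filter, ← pol, jl_prod_comps (pol R (red c) s), ← prod_mul_distrib]
    exact prod_congr rfl fun X _ => by rw [prod_inv_distrib, div_eq_mul_inv, mul_assoc]
  have e2 : ∀ s, ∏ B ∈ W.filter (fun b => lab (c b) = some s), T s B =
      ∏ B ∈ R, if B ∈ W ∧ lab (c B) = some s then T s B else 1 := fun s => by
    rw [← prod_filter]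
    refine prod_congr ?_ fun _ _ => rfl
    ext B
    simp only [mem_filter]
    exact ⟨fun h1 => ⟨h h1.1, h1⟩, fun h1 => h1.2⟩
  simp only [e1, e2, prod_filter, rglwB, prod_mul_distrib, rglw_ite h]
  rw [prod_comm (s := R), prod_comm (s := R), prod_comm (s := R)]
  ring

theorem rglw_fw (c : P → Sf) (X : Finset P) : ‖fw 4 c X‖ ≤ 1 := by
  unfold fw
  split_ifs <;> simp [Nat.cast_inv_le_one]

theorem rglw_ea (l : ℕ) (v : Fld) (B : P) : 0 ≤ ea l v B :=
  sum_nonneg fun _ _ => by unfold n1; positivity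

theorem rglw_N0 (l : ℕ) (v : Fld) (B : P) : ea l v B ≤ N0 l v (nb l B) := by
  have h1 : ∀ p, 0 ≤ n1 v p := fun p => by unfold n1; positivity
  have h2 : ∀ p, 0 ≤ (l : ℝ) ^ 2 * n2 v p := fun p => by unfold n2; positivity
  have hs : cell l B ⊆ nb l B := fun x hx => by
    simp only [cell, nb, fat, mem_product, mem_Ico, mem_Icc] at hx ⊢
    omega
  refine le_trans ?_ (le_add_of_nonneg_right (sum_nonneg fun _ _ => by positivity))
  exact (sum_le_sum_of_subset_of_nonneg hs fun p _ _ => h1 p).trans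
    (sum_le_sum fun p _ => le_add_of_nonneg_right (h2 p))

/-- the bound on the factors of one block -/
theorem rglw_blk {W : Finset P} {c : P → Sf} {E : P → ℂ} {ρ M It : Lab → P → ℂ} {B : P}
    {κ a g e z r r' : ℝ} (hκ : 0 ≤ κ) (hg : 0 ≤ g) (he : 0 ≤ e)
    (h0 : c B = none → B ∈ W) (h1 : ∀ s, c B = some (s, 1) → B ∈ W)
    (hE : B ∈ W → ‖E B‖ * r' ≤ r ∧ ∀ s, ‖E B * ρ s B‖ ≤ r)
    (hI : ∀ s, B ∈ W ∨ red c B = some (s, true) → It s B ≠ 0 ∧
      ‖It s B‖ ≤ Real.exp (κ / 8 * e + g) ∧ ‖(It s B)⁻¹‖ ≤ Real.exp (κ / 8 * e + g))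
    (hM : B ∈ W → ∀ s, ‖M s B‖ ≤ a * Real.exp (κ / 8 * e + κ * z)) :
    ‖rglwB W c E (fun s B => ρ s B * It s B) M It B‖ * (if red c B = none then r' else 1) ≤
      (if B ∈ W then r else 1) * (if ∃ s, c B = some (s, 1) then a else 1) * Real.exp g *
        Real.exp (κ * ((if ∃ s, c B = some (s, 1) then z else 0) + 1 / 4 *
          if (B ∈ W ↔ ¬ (red c B = none ∨ ∃ s, red c B = some (s, true))) then e else 0)) := by
  have g1 : 1 ≤ Real.exp g := Real.one_le_exp hg
  have k1 : Real.exp (κ / 8 * e + g) ≤ Real.exp g * Real.exp (κ * (0 + 1 / 4 * e)) := by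
    rw [← Real.exp_add]
    exact Real.exp_le_exp.2 (by nlinarith [mul_nonneg hκ he])
  have pol : ∀ s, red c B = some (s, true) → lab (c B) = some s → (∀ t, c B ≠ some (t, 1)) →
      ‖rglwB W c E (fun s B => ρ s B * It s B) M It B‖ * (if red c B = none then r' else 1) ≤
      (if B ∈ W then r else 1) * (if ∃ s, c B = some (s, 1) then a else 1) * Real.exp g *
        Real.exp (κ * ((if ∃ s, c B = some (s, 1) then z else 0) + 1 / 4 *
          if (B ∈ W ↔ ¬ (red c B = none ∨ ∃ s, red c B = some (s, true))) then e else 0)) := by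
    intro s p1 p2 p3
    obtain ⟨i1, -, i3⟩ := hI s (Or.inr p1)
    have q1 : ¬ ∃ t, c B = some (t, 1) := fun ⟨t, h⟩ => p3 t h
    by_cases hW : B ∈ W
    · have e1 : rglwB W c E (fun s B => ρ s B * It s B) M It B = E B * ρ s B := by
        simp [rglwB, hW, p1, p2, p3]
        field_simp
      have r0 := (hE hW).2 s
      rw [e1, if_neg q1, if_neg q1, if_pos hW, if_neg (by simp [p1]), if_neg (by simp [p1, hW])]
      simp only [mul_one, mul_zero, add_zero, Real.exp_zero]
      exact r0.trans (le_mul_of_one_le_right ((norm_nonneg _).trans r0) g1)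
    · have e1 : rglwB W c E (fun s B => ρ s B * It s B) M It B = (It s B)⁻¹ := by
        simp [rglwB, hW, p1, p3]
      rw [e1, if_neg q1, if_neg q1, if_neg hW, if_neg (by simp [p1]), if_pos (by simp [p1, hW])]
      simp only [mul_one, one_mul]
      exact i3.trans k1
  rcases hB : c B with _ | ⟨s, i⟩
  · have hW := h0 hB
    have p1 : red c B = none := by simp [red, hB]
    have e1 : rglwB W c E (fun s B => ρ s B * It s B) M It B = E B := by
      simp [rglwB, hW, p1, hB, lab]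
    obtain ⟨r0, r1⟩ := hE hW
    rw [e1, if_pos p1, if_pos hW, if_neg (by simp), if_neg (by simp), if_neg (by simp [p1, hW])]
    simp only [mul_one, mul_zero, add_zero, Real.exp_zero]
    exact r0.trans (le_mul_of_one_le_right ((norm_nonneg _).trans (r1 0)) g1)
  · have p2 : lab (c B) = some s := by simp [lab, hB]
    rw [← hB]
    fin_cases i
    · have p1 : red c B = some (s, false) := by simp [red, hB]
      have q1 : ¬ ∃ t, c B = some (t, 1) := by simp [hB]
      by_cases hW : B ∈ W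
      · have e1 : rglwB W c E (fun s B => ρ s B * It s B) M It B = E B * ρ s B * It s B := by
          simp [rglwB, hW, p1, hB, lab, mul_assoc]
        have r0 := (hE hW).2 s
        rw [e1, if_neg q1, if_neg q1, if_pos hW, if_neg (by simp [p1]), if_pos (by simp [p1, hW]),
          norm_mul]
        simp only [mul_one]
        rw [mul_assoc r]
        exact mul_le_mul r0 ((hI s (Or.inl hW)).2.1.trans k1) (norm_nonneg _)
          ((norm_nonneg _).trans r0)
      · have e1 : rglwB W c E (fun s B => ρ s B * It s B) M It B = 1 := by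
          simp [rglwB, hW, p1, hB]
        rw [e1, if_neg q1, if_neg q1, if_neg hW, if_neg (by simp [p1]), if_neg (by simp [p1, hW])]
        simpa using hg
    · have p1 : red c B = some (s, false) := by simp [red, hB]
      have q1 : ∃ t, c B = some (t, 1) := ⟨s, hB⟩
      have hW := h1 s hB
      have e1 : rglwB W c E (fun s B => ρ s B * It s B) M It B =
          E B * ρ s B * It s B * M s B := by
        simp [rglwB, hW, p1, hB, lab, mul_assoc]
      have r0 := (hE hW).2 s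
      have r1 := (norm_nonneg _).trans r0
      rw [e1, if_pos q1, if_pos q1, if_pos hW, if_neg (by simp [p1]), if_pos (by simp [p1, hW]),
        norm_mul, norm_mul, mul_one]
      refine (mul_le_mul (mul_le_mul r0 (hI s (Or.inl hW)).2.1 (norm_nonneg _) r1) (hM hW s)
        (norm_nonneg _) (by positivity)).trans (le_of_eq ?_)
      rw [show κ * (z + 1 / 4 * e) = κ / 8 * e + (κ / 8 * e + κ * z) by ring, Real.exp_add,
        Real.exp_add (κ / 8 * e) (κ / 8 * e + κ * z)]
      ring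
    · exact pol s (by simp [red, hB]) p2 (by simp [hB])
    · exact pol s (by simp [red, hB]) p2 (by simp [hB])

theorem rglw_fin {x1 x2 x3 y r am p1 p2 κ g n n' sM sF r1 r2 Q sX S c L : ℝ} (h1 : 0 ≤ x1)
    (h3 : 0 ≤ x3) (b1 : x1 * y ≤ r * am * Real.exp (n * g) * Real.exp (κ * (sM + 1 / 4 * sF)))
    (b2 : x2 ≤ p1 * Real.exp (κ * r1)) (b3 : x3 ≤ p2 * y * Real.exp (κ * r2)) (hr : 0 ≤ r)
    (ha : 0 ≤ am) (hp1 : 0 ≤ p1) (hp2 : 0 ≤ p2) (hκ : 0 ≤ κ) (hg : 0 ≤ g) (hn : n ≤ n')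
    (hQ : r1 + r2 + 1 / 4 * sF ≤ Q + c * sX) (s1 : sM ≤ S) (s2 : sX ≤ S) (s3 : 0 ≤ S)
    (hc : 0 ≤ c) (hL : c + 1 ≤ L) :
    x1 * x2 * x3 ≤ r * Real.exp (n' * g) * (am * p1 * p2) * Real.exp (κ * Q) *
      Real.exp (L * κ * S) := by
  have e1 : Real.exp (n * g) ≤ Real.exp (n' * g) :=
    Real.exp_le_exp.2 (mul_le_mul_of_nonneg_right hn hg)
  have e2 : Real.exp (κ * (sM + 1 / 4 * sF)) * Real.exp (κ * r1) * Real.exp (κ * r2) ≤
      Real.exp (κ * Q) * Real.exp (L * κ * S) := by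
    rw [← Real.exp_add, ← Real.exp_add, ← Real.exp_add]
    refine Real.exp_le_exp.2 ?_
    have h4 : sM + 1 / 4 * sF + r1 + r2 ≤ Q + L * S := by
      nlinarith [mul_le_mul_of_nonneg_left s2 hc, mul_le_mul_of_nonneg_right hL s3]
    nlinarith [mul_le_mul_of_nonneg_left h4 hκ]
  calc x1 * x2 * x3 ≤ x1 * (p1 * Real.exp (κ * r1)) * (p2 * y * Real.exp (κ * r2)) :=
        mul_le_mul (mul_le_mul_of_nonneg_left b2 h1) b3 h3 (by positivity)
    _ = x1 * y * (p1 * p2 * Real.exp (κ * r1) * Real.exp (κ * r2)) := by ring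
    _ ≤ r * am * Real.exp (n * g) * Real.exp (κ * (sM + 1 / 4 * sF)) *
        (p1 * p2 * Real.exp (κ * r1) * Real.exp (κ * r2)) :=
        mul_le_mul_of_nonneg_right b1 (by positivity)
    _ = r * (am * p1 * p2) * (Real.exp (n * g) *
        (Real.exp (κ * (sM + 1 / 4 * sF)) * Real.exp (κ * r1) * Real.exp (κ * r2))) := by ring
    _ ≤ r * (am * p1 * p2) * (Real.exp (n' * g) * (Real.exp (κ * Q) * Real.exp (L * κ * S))) :=
        mul_le_mul_of_nonneg_left (mul_le_mul e1 e2 (by positivity) (by positivity))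
          (by positivity)
    _ = _ := by ring

theorem t_rg_lw (h_one : S_one) (h_reg : S_rg_reg) : S_rg_lw := by
  intro L l D U κ A a p b g θ ζ η r r' ρ It M K N c hL hl hUD hU hκ hA ha hp hb hg hc hlive
    hE hI hM hK hN
  have hc0 : c0 = 10 ^ 8 := rfl
  have hL9 : 9 ≤ L := by
    have : (9 : ℝ) ≤ L := le_trans (by rw [hc0]; norm_num) hL
    exact_mod_cast this
  have hW := one_under_reg (L := L) (by omega) hUD
  obtain ⟨-, o1, o2, o3, o4⟩ := (h_one L 4 D U (by omega) hUD hU).1 c hc hlive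
  have hcard : ((reg L D U).card : ℝ) ≤ 9 * L ^ 2 * U.card := by
    have := (CN.card_under L (near 1 D U)).trans (Nat.mul_le_mul_left _ (CN.card_near D U))
    have h2 : ((reg L D U).card : ℝ) ≤ ((L ^ 2 * (9 * U.card) : ℕ) : ℝ) := by exact_mod_cast this
    push_cast at h2
    linarith
  have hreg := fun F => h_reg L l θ ζ U F (pcs (reg L D U) c ∪ comps (bad (reg L D U) (red c)))
    hL hl fun X hX => (o4 X hX).2
  rw [Complex.exp_sum, rglw_id L D U hW]
  generalize reg L D U = R at *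
  generalize Reg (L * l) U θ = Q at *
  generalize under L U = W at *
  have hcov : ∀ B, B ∈ (pcs R c ∪ comps (bad R (red c))).biUnion id ↔
      B ∈ R ∧ (red c B = none ∨ ∃ s, red c B = some (s, true)) := fun B => by
    have e1 : B ∈ (pcs R c).biUnion id ↔ ∃ s, B ∈ pol R (red c) s := by
      simp only [pcs, mem_biUnion, mem_univ, true_and]
      refine ⟨fun ⟨X, ⟨s, h⟩, h'⟩ => ⟨s, one_comps_sub h h'⟩, fun ⟨s, h⟩ => ?_⟩
      obtain ⟨X, h1, h2⟩ := CN.mem_comps h
      exact ⟨X, ⟨s, h1⟩, h2⟩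
    rw [union_biUnion, mem_union, e1, jl_cover]
    simp only [pol, bad, mem_filter]
    exact ⟨fun h => h.elim (fun ⟨s, h⟩ => ⟨h.1, Or.inr ⟨s, h.2⟩⟩) fun h => ⟨h.1, Or.inl h.2⟩,
      fun h => h.2.elim (fun h' => Or.inr ⟨h.1, h'⟩) fun ⟨s, h'⟩ => Or.inl ⟨s, h.1, h'⟩⟩
  have hN4 : ∀ B ∈ W, B ∈ near 4 R W := fun B hB => mem_filter.2 ⟨hW hB, B, hB, one_nr_refl _ _⟩
  have hpol : ∀ s, ∀ B ∈ R, red c B = some (s, true) → B ∈ near 4 R W := fun s B h1 h2 => by
    obtain ⟨X, hX, hB⟩ := CN.mem_comps (Y := pol R (red c) s) (mem_filter.2 ⟨h1, h2⟩)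
    exact (o3 X (mem_biUnion.2 ⟨s, mem_univ _, hX⟩)).2 hB
  have hXs : ∀ B ∈ R, (red c B = none ∨ ∃ s, red c B = some (s, true)) → B ∈ near 4 R W :=
    fun B h1 h2 => h2.elim (fun h => hN4 B (o2 (mem_filter.2 ⟨h1, h⟩))) fun ⟨s, h⟩ => hpol s B h1 h
  have hr := hreg (R.filter fun B => B ∈ W ↔ ¬ (red c B = none ∨ ∃ s, red c B = some (s, true)))
    (fun B hB => by
      refine (mem_filter.1 (?_ : B ∈ near 4 R W)).2
      rcases mem_union.1 hB with h | h
      · obtain ⟨h1, h2⟩ := mem_filter.1 h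
        by_cases h3 : B ∈ W
        · exact hN4 B h3
        · exact hXs B h1 (not_not.1 fun h4 => h3 (h2.2 h4))
      · exact hXs B ((hcov B).1 h).1 ((hcov B).1 h).2)
    fun B hB h1 h2 => (mem_filter.1 hB).2.1 h1 ((hcov B).1 h2).2
  have hdis : Disjoint (pcs R c) (comps (bad R (red c))) := disjoint_left.2 fun X h h' => by
    obtain ⟨s, -, hs⟩ := mem_biUnion.1 h
    obtain ⟨x, hx⟩ := jl_comps_ne hs
    have e1 := (mem_filter.1 (one_comps_sub hs hx)).2
    rw [(mem_filter.1 (one_comps_sub h' hx)).2] at e1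
    exact absurd e1 (by simp)
  rw [sum_union hdis] at hr
  have b2 : ‖∏ s, ∏ X ∈ comps (pol R (red c) s), fw 4 c X * K s X‖ ≤
      (∏ X ∈ pcs R c, p * A⁻¹ ^ X.card) * Real.exp (κ * ∑ X ∈ pcs R c, Reg l X (θ + ζ)) := by
    rw [mul_sum, Real.exp_sum, ← prod_mul_distrib, jl_pcs]
    refine jl_norm_prod _ _ _ fun s _ => jl_norm_prod _ _ _ fun X hX => ?_
    have h1 := o3 X (mem_biUnion.2 ⟨s, mem_univ _, hX⟩)
    rw [norm_mul]
    exact (mul_le_of_le_one_left (norm_nonneg _) (rglw_fw c X)).trans (hK s X h1.1 h1.2)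
  have b3 : ‖∏ X ∈ comps (bad R (red c)), N X (sig R (red c) X)‖ ≤
      (∏ X ∈ comps (bad R (red c)), b * A⁻¹ ^ X.card) *
        (∏ B ∈ R, if red c B = none then r' B else 1) *
        Real.exp (κ * ∑ X ∈ comps (bad R (red c)), Reg l X (θ + ζ)) := by
    rw [mul_sum, Real.exp_sum, ← prod_filter, ← bad, jl_prod_comps (bad R (red c)),
      ← prod_mul_distrib, ← prod_mul_distrib]
    exact jl_norm_prod _ _ _ fun X hX =>
      hN X _ (one_comps_conn hX) ((one_comps_sub hX).trans o2)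
  have hr' : ∀ B ∈ R, 0 ≤ if red c B = none then r' B else 1 := fun B hB => by
    split_ifs with h
    · exact zero_le_one.trans (hE B (o2 (mem_filter.2 ⟨hB, h⟩))).1
    · exact zero_le_one
  have b1 : ‖∏ B ∈ R, rglwB W c (fun B => Complex.exp (η B)) (fun s B => ρ s B * It s B) M It B‖ *
      (∏ B ∈ R, if red c B = none then r' B else 1) ≤
      (∏ B ∈ W, r B) * a ^ (kind R c 1).card * Real.exp (R.card * g) *
        Real.exp (κ * (∑ B ∈ kind R c 1, ea l (cf ζ) B + 1 / 4 * ∑ B ∈ R.filter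
          (fun B => B ∈ W ↔ ¬ (red c B = none ∨ ∃ s, red c B = some (s, true))),
            ea l (cf θ) B)) := by
    rw [norm_prod, ← prod_mul_distrib]
    refine (prod_le_prod (fun B hB => mul_nonneg (norm_nonneg _) (hr' B hB)) fun B hB =>
      rglw_blk (r := r B) (z := ea l (cf ζ) B) hκ hg (rglw_ea l (cf θ) B)
        (fun h => o2 (mem_filter.2 ⟨hB, by simp [red, h]⟩))
        (fun s h => o1 (mem_filter.2 ⟨hB, s, h⟩)) (fun h => (hE B h).2)
        (fun s h => hI s B (h.elim (hN4 B) (hpol s B hB))) fun h s => hM s B h).trans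
      (le_of_eq ?_)
    rw [prod_mul_distrib, prod_mul_distrib, prod_mul_distrib, rglw_ite hW, ← Real.exp_sum,
      ← Real.exp_sum, ← mul_sum, sum_add_distrib, ← mul_sum, ← prod_filter, ← sum_filter,
      ← sum_filter, prod_const, sum_const, nsmul_eq_mul]
    rfl
  have hr0 : 0 ≤ ∏ B ∈ W, r B :=
    prod_nonneg fun B hB => (norm_nonneg _).trans ((hE B hB).2.2 0)
  have n0 : ∀ B, 0 ≤ N0 l (cf ζ) (nb l B) := fun B => (rglw_ea _ _ _).trans (rglw_N0 _ _ _)
  have s1 : ∑ B ∈ kind R c 1, ea l (cf ζ) B ≤ ∑ B ∈ Sc R c, N0 l (cf ζ) (nb l B) :=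
    (sum_le_sum fun B _ => rglw_N0 l _ B).trans (sum_le_sum_of_subset_of_nonneg
      (subset_union_left.trans subset_union_left) fun B _ _ => n0 B)
  have s2 : ∑ B ∈ (pcs R c ∪ comps (bad R (red c))).biUnion id, N0 l (cf ζ) (nb l B) ≤
      ∑ B ∈ Sc R c, N0 l (cf ζ) (nb l B) := by
    refine sum_le_sum_of_subset_of_nonneg ?_ fun B _ _ => n0 B
    rw [union_biUnion, jl_cover, Sc, union_assoc]
    exact subset_union_right
  have s3 : 0 ≤ ∑ B ∈ Sc R c, N0 l (cf ζ) (nb l B) := sum_nonneg fun B _ => n0 B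
  have hLc : c0 + 1 ≤ L := le_trans (by rw [hc0]; norm_num) hL
  have hP1 : 0 ≤ ∏ X ∈ pcs R c, p * A⁻¹ ^ X.card := prod_nonneg fun _ _ => by positivity
  have hP2 : 0 ≤ ∏ X ∈ comps (bad R (red c)), b * A⁻¹ ^ X.card :=
    prod_nonneg fun _ _ => by positivity
  rw [norm_mul, norm_mul, aw]
  exact rglw_fin (norm_nonneg _) (norm_nonneg _) b1 b2 b3 hr0 (pow_nonneg ha _) hP1 hP2 hκ hg
    hcard hr s1 s2 s3 (by rw [hc0]; norm_num) hLc

end Pool.Agent.Lib.MP_9cc147_pr.Cx
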