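import Pool.Agent.Lib.MP_9cc147_pr.Cx.Rg.S
import Pool.Agent.Lib.MP_9cc147_pr.Cx.F.Kit

/-! Differences of the terms with several atoms or with one large polymer. -/

open scoped Classical Topology
open Finset MeasureTheory ProbabilityTheory Filter

noncomputable section
namespace Pool.Agent.Lib.MP_9cc147_pr.Cx

/-- the gain of the Schwarz lemma -/
def rgmul_r (S D : ℝ) : ℝ := if S < D then S / D else 1

theorem rgmul_r0 {S D : ℝ} (hS : 0 ≤ S) : 0 ≤ rgmul_r S D := by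
  unfold rgmul_r
  split_ifs with h
  exacts [div_nonneg hS (hS.trans h.le), zero_le_one]

theorem rgmul_r1 {S D : ℝ} (hS : 0 ≤ S) : rgmul_r S D * D ≤ S := by
  unfold rgmul_r
  split_ifs with h
  · rw [div_mul_cancel₀ _ (hS.trans_lt h).ne']
  · linarith

theorem rgmul_sch (h_sch : S_rg_sch) {f : ℂ → ℂ} (hf : Differentiable ℂ f) {S D M : ℝ}
    (hS : 0 ≤ S) (hD : 0 ≤ D) (hM : ∀ τ : ℂ, ‖τ‖ * S ≤ D → ‖f τ‖ ≤ M) (h1 : ‖f 1‖ ≤ M) :
    ‖f 1 - f 0‖ ≤ 2 * M * rgmul_r S D := by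
  have h0 := hM 0 (by simpa using hD)
  unfold rgmul_r
  split_ifs with h
  · rcases hS.eq_or_lt with rfl | hS'
    · rw [hf.apply_eq_apply_of_bounded (isBounded_iff_forall_norm_le.2
        ⟨M, by rintro _ ⟨τ, rfl⟩; exact hM τ (by simpa using hD)⟩) 1 0]
      simp
    · have := (h_sch.1 f (D / S) M 1 hf.differentiableOn (fun τ hτ => hM τ
        ((le_div_iff₀ hS').1 (mem_ball_zero_iff.1 hτ).le))
        (by rwa [norm_one, one_lt_div hS'])).1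
      rwa [norm_one, one_div_div] at this
  · linarith [norm_sub_le (f 1) (f 0)]

theorem rgmul_ent (q : Par) b j z Θ U (d0 d : Dat) ω c :
    Differentiable ℂ fun τ => q.dw b j z Θ U (d0.mix d τ) ω c := by
  simp only [Par.dw, lw, Par.dI, Par.dm, Dat.mix]
  fun_prop (disch := exact fun _ => prod_ne_zero_iff.2 fun _ _ => Complex.exp_ne_zero _)

theorem rgmul_mix0 (d0 d : Dat) : d0.mix d 0 = d0 := by simp [Dat.mix]

theorem rgmul_aw {R : Finset P} {a p b G : ℝ} (ha : 0 ≤ a) (hp : 0 ≤ p) (hb : 0 ≤ b) (hG : 0 ≤ G)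
    (c : P → Sf) : 0 ≤ aw R a p b G c := by
  unfold aw
  exact mul_nonneg (mul_nonneg (pow_nonneg ha _) (prod_nonneg fun _ _ => by positivity))
    (prod_nonneg fun _ _ => by positivity)

variable {q : Par} {Cu C0 ε0 : ℝ} {b : ℕ × ℕ} {j : ℕ} {z : ℂ} {U : Finset P}

theorem rgmul_mono {d : Dat} {D p D' p' : ℝ} (hA : 0 ≤ q.A) (hH : 0 ≤ q.H Cu)
    (h : q.Sz Cu b j z U d D p) (h1 : D ≤ D') (h2 : p ≤ p') : q.Sz Cu b j z U d D' p' :=
  ⟨⟨h.lam.1.trans h1, h.lam.2.trans h1⟩, h.hp.trans h2,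
    fun B hB => ⟨(h.e B hB).1.trans (by gcongr), (h.e B hB).2.trans (by gcongr)⟩,
    fun X a1 a2 => ⟨(h.K X a1 a2).1, (h.K X a1 a2).2.mono (by gcongr)⟩⟩

theorem rgmul_sz {d0 d : Dat} {D p D' p' : ℝ} (h0 : q.Sz Cu b j z U d0 D p)
    (h : q.Sz Cu b j z U d D' p') (τ : ℂ) :
    q.Sz Cu b j z U (d0.mix d τ) (D + ‖τ‖ * D') (p + ‖τ‖ * p') := by
  have k : ∀ {x y : ℂ} {s t : ℝ}, ‖x‖ ≤ s → ‖y‖ ≤ t → ‖x + τ * y‖ ≤ s + ‖τ‖ * t := fun a1 a2 =>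
    (norm_add_le _ _).trans (add_le_add a1 (by rw [norm_mul]; gcongr))
  refine ⟨⟨k h0.lam.1 h.lam.1, k h0.lam.2 h.lam.2⟩, add_nonneg h0.hp (mul_nonneg (norm_nonneg _) h.hp),
    fun B hB => ⟨(k (h0.e B hB).1 (h.e B hB).1).trans_eq (by ring),
      (k (h0.e B hB).2 (h.e B hB).2).trans_eq (by ring)⟩,
    fun X a1 a2 => ⟨(h0.K X a1 a2).1.add ((h.K X a1 a2).1.const_mul τ), fun θ a3 v a4 =>
      (k ((h0.K X a1 a2).2 θ a3 v a4) ((h.K X a1 a2).2 θ a3 v a4)).trans_eq (by ring)⟩⟩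

theorem rgmul_num (hq : q.Env Cu C0 ε0) : 1 ≤ q.H Cu ∧ 1 ≤ q.g Cu ∧ 1 ≤ q.A ∧ 9 ≤ q.L ∧
    100 * (q.g Cu ^ 2 * C0 / ε0) ≤ √q.C ∧ q.ε * (100 * q.g Cu ^ 2) ≤ ε0 := by
  obtain ⟨k0, k1⟩ := hq.hκ
  obtain ⟨a0, e0, e1⟩ := hq.hC0
  have hL : (9 : ℝ) ≤ q.L := le_trans (by norm_num [c0]) hq.hL
  have hH : 1 ≤ q.H Cu := by
    unfold Par.H
    have := hq.hCu
    have : 0 < 1 / q.κ := by positivity
    nlinarith [sq_nonneg q.h]
  have hg : 1 ≤ q.g Cu := by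
    unfold Par.g c0
    rw [le_div_iff₀ k0]
    nlinarith [mul_le_mul (show (1 : ℝ) ≤ (q.L : ℝ) ^ 2 by nlinarith) hH zero_le_one (sq_nonneg _)]
  have hA : 10 ≤ q.A := le_trans (by nlinarith) hq.hA
  obtain ⟨x, hx⟩ : ∃ x, x = q.g Cu * q.A * C0 / ε0 := ⟨_, rfl⟩
  have hC := hq.hC
  rw [← hx] at hC
  have r1 : 1 ≤ C0 / ε0 := (one_le_div e0).2 (e1.trans a0)
  have h2 : 100 * (q.g Cu ^ 2 * C0 / ε0) ≤ x ^ 2 := by
    rw [hx, mul_div_assoc, mul_div_assoc, mul_pow, mul_pow, ← mul_assoc, mul_comm 100]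
    gcongr
    · nlinarith
    · exact le_self_pow₀ r1 two_ne_zero
  have h3 : 1 ≤ q.g Cu ^ 2 * C0 / ε0 := by
    rw [mul_div_assoc]; exact one_le_mul_of_one_le_of_one_le (one_le_pow₀ hg) r1
  have x1 : 1 ≤ x ^ 2 := by linarith
  have h4 : (x ^ 2) ^ 2 ≤ q.C := le_trans (by
    rw [show x ^ 8 = (x ^ 2) ^ 4 by ring]; exact pow_le_pow_right₀ x1 (by norm_num)) hC
  refine ⟨hH, hg, by linarith, by exact_mod_cast hL, h2.trans (Real.le_sqrt_of_sq_le h4), ?_⟩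
  have h5 : 100 * (q.g Cu ^ 2 / ε0) ≤ q.C := by
    have : q.g Cu ^ 2 / ε0 ≤ q.g Cu ^ 2 * C0 / ε0 := by
      gcongr; exact le_mul_of_one_le_right (by positivity) a0
    nlinarith
  have h6 := (mul_le_mul_of_nonneg_left h5 hq.hε.1.le).trans hq.hε.2
  rwa [← mul_div_assoc, ← mul_div_assoc, div_le_one e0] at h6

theorem rgmul_ari {g C0 ε0 D Δ δ w x : ℝ} (hg : 1 ≤ g) (a0 : 1 ≤ C0) (e0 : 0 < ε0) (e1 : ε0 ≤ 1)
    (D0 : 0 ≤ D) (Δ0 : 0 ≤ Δ) (δ0 : 0 ≤ δ) (w1 : w * (4 * g ^ 2) = ε0)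
    (hC : 100 * (g ^ 2 * C0 / ε0) ≤ x) :
    2 * rgmul_r (Δ + δ) D * (C0 * (2 * (g * (2 * D)) + 2 * D) ^ 2) +
      2 * rgmul_r δ (ε0 / 2) * (ε0 / 1000) + 2 * rgmul_r Δ w * (D / 1000) ≤
        8 * (δ / 500 + x * D * (Δ + δ)) := by
  have S0 : 0 ≤ Δ + δ := add_nonneg Δ0 δ0
  obtain ⟨y, hy⟩ : ∃ y, y = g ^ 2 * C0 / ε0 := ⟨_, rfl⟩
  rw [← hy] at hC
  have y1 : y * ε0 = g ^ 2 * C0 := by rw [hy]; field_simp
  have y0 : 0 ≤ y := by rw [hy]; positivity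
  have k0 : C0 * (4 * g + 2) ^ 2 ≤ 36 * y := by
    linarith [mul_le_mul_of_nonneg_left (show (4 * g + 2) ^ 2 ≤ 36 * g ^ 2 by nlinarith)
      (show 0 ≤ C0 by linarith), mul_le_of_le_one_right y0 e1]
  have b1 : 2 * rgmul_r (Δ + δ) D * (C0 * (2 * (g * (2 * D)) + 2 * D) ^ 2) ≤
      72 * y * (D * (Δ + δ)) := by
    have := mul_le_mul k0 (mul_le_mul_of_nonneg_left (rgmul_r1 (D := D) S0) D0)
      (mul_nonneg D0 (mul_nonneg (rgmul_r0 S0) D0)) (by positivity)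
    linarith
  have b2 : 2 * rgmul_r δ (ε0 / 2) * (ε0 / 1000) ≤ δ / 250 := by
    linarith [rgmul_r1 (D := ε0 / 2) δ0]
  have k1 : 1 ≤ 4 * y * w := by
    refine le_of_mul_le_mul_right ?_ e0
    have : 4 * y * w * ε0 = ε0 * C0 := by rw [← w1] at y1 ⊢; linear_combination 4 * w * y1
    linarith [mul_le_mul_of_nonneg_left a0 e0.le]
  have k2 : rgmul_r Δ w ≤ 4 * y * (Δ + δ) := by
    linarith [mul_le_mul_of_nonneg_left k1 (rgmul_r0 (D := w) Δ0),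
      mul_le_mul_of_nonneg_left (rgmul_r1 (D := w) Δ0) y0, mul_nonneg y0 δ0]
  have DS : 0 ≤ D * (Δ + δ) := mul_nonneg D0 S0
  linarith [mul_le_mul_of_nonneg_left k2 D0, mul_nonneg y0 DS, mul_le_mul_of_nonneg_right hC DS]

theorem t_rg_mul (h_one : S_one) (h_dat : S_rg_dat) (h_y : S_rg_y) (h_sch : S_rg_sch) :
    S_rg_mul := by
  intro q Cu C0 ε0 b j z U θ v d0 d1 D Δ δ s hq hP s0 s1 sd hD
  obtain ⟨hH, hg, hA, hL, hC, hε⟩ := rgmul_num hq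
  obtain ⟨a0, e0, e1⟩ := hq.hC0
  obtain ⟨y1, y2⟩ := h_y q Cu C0 ε0 b j hq hP.hok
  replace y2 := y2 U
  have cn := fun a p a1 a2 a3 a4 => hq.cn (q.m b (j + 1)) U a p 0 (q.L_le_m (by omega) hP.hok)
    hP.pm a1 a2 le_rfl a3 a4 e0.le
  have on := (h_one q.L 4 (box (q.m b (j + 1))) U (by omega) hP.pm.1 hP.pm.2.1).1
  have dat := fun d D p h1 h2 => h_dat q Cu C0 ε0 b j z U θ v d D p s hq hP h1 h2
  have A0 : 0 ≤ q.A := by linarith
  have H0 : 0 ≤ q.H Cu := by linarith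
  have D0 : 0 ≤ D := s0.hp
  have Δ0 : 0 ≤ Δ := (norm_nonneg _).trans sd.lam.1
  have δ0 : 0 ≤ δ := sd.hp
  obtain ⟨g, hgd⟩ : ∃ g, g = q.g Cu := ⟨_, rfl⟩
  rw [← hgd] at hg hC hε dat
  have g2 : g ≤ g ^ 2 := le_self_pow₀ hg two_ne_zero
  have g0 : 0 < g ^ 2 := by positivity
  obtain ⟨w, hw⟩ : ∃ w, w = ε0 / (4 * g ^ 2) := ⟨_, rfl⟩
  have w1 : w * (4 * g ^ 2) = ε0 := by rw [hw]; field_simp
  have w0 : 0 < w := by rw [hw]; positivity
  have Dw : D ≤ w := by nlinarith [hq.hε.1]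
  have w2 : 2 * w ≤ 1 / g ^ 2 := by rw [le_div_iff₀ g0]; nlinarith
  have w3 : 2 * (g * (2 * w)) ≤ ε0 := by nlinarith
  have w4 : 2 * w ≤ ε0 / 2 := by nlinarith
  have oe : ∀ c, one q b j U c ↔ nat (reg q.L (box (q.m b (j + 1))) U) c = 1 ∧
      ¬ big 4 (reg q.L (box (q.m b (j + 1))) U) c := fun _ => Iff.rfl
  generalize bg (q.n b) z + cf θ + v = Θ at *
  generalize reg q.L (box (q.m b (j + 1))) U = R at *
  generalize hE : Real.exp (q.κ * Reg (q.l (j + 1)) U θ) = E at *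
  have E0 : 0 ≤ E := hE ▸ (Real.exp_pos _).le
  have path : ∀ (da db dd : Dat) (S D' Dt pt : ℝ), da.mix dd 1 = db → 0 ≤ S → 0 ≤ D' →
      Dt ≤ 1 / g ^ 2 → q.Sz Cu b j z U db Dt pt →
      (∀ τ : ℂ, ‖τ‖ * S ≤ D' → q.Sz Cu b j z U (da.mix dd τ) Dt pt) →
      ∀ c ∈ loc0 q.L 4 (box (q.m b (j + 1))) U s, ∀ ω,
        ‖q.dw b j z Θ U db ω c - q.dw b j z Θ U da ω c‖ ≤
          2 * rgmul_r S D' * 2 ^ U.card * E * aw R (g * Dt) pt 0 q.A c * q.Yc b j (Sc R c) ω := by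
    intro da db dd S D' Dt pt e h1 h2 h3 h4 h5 c hc ω
    have := rgmul_sch h_sch (rgmul_ent q b j z Θ U da dd ω c) h1 h2
      (fun τ hτ => ((dat _ _ _ (h5 τ hτ) h3 c hc).2 ω).2) (e ▸ ((dat _ _ _ h4 h3 c hc).2 ω).2)
    rw [e, rgmul_mix0] at this
    exact this.trans_eq (by ring)
  have int : ∀ c (k a p k' a' p' : ℝ) (f : Om → ℂ), 0 ≤ k → 0 ≤ a → 0 ≤ p → 0 ≤ k' → 0 ≤ a' →
      0 ≤ p' → (∀ ω, ‖f ω‖ ≤ k * aw R a p 0 q.A c * q.Yc b j (Sc R c) ω +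
        k' * aw R a' p' 0 q.A c * q.Yc b j (Sc R c) ω) → ‖∫ ω, f ω ∂PP‖ ≤
        k * aw R (2 * a) p 0 (q.A / 16) c + k' * aw R (2 * a') p' 0 (q.A / 16) c := by
    intro c k a p k' a' p' f h1 h2 h3 h4 h5 h6 h
    obtain ⟨i1, i2⟩ := y1 _ (y2 c a p 0 h2 h3 le_rfl).1
    refine (norm_integral_le_of_norm_le ((i1.const_mul _).add (i1.const_mul _))
      (.of_forall h)).trans ?_
    rw [integral_add' (i1.const_mul _) (i1.const_mul _), integral_const_mul, integral_const_mul,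
      mul_assoc, mul_assoc]
    exact add_le_add (mul_le_mul_of_nonneg_left ((mul_le_mul_of_nonneg_left i2
      (rgmul_aw h2 h3 le_rfl A0 c)).trans (y2 c a p 0 h2 h3 le_rfl).2) h1)
      (mul_le_mul_of_nonneg_left ((mul_le_mul_of_nonneg_left i2
      (rgmul_aw h5 h6 le_rfl A0 c)).trans (y2 c a' p' 0 h5 h6 le_rfl).2) h4)
  have S0 : 0 ≤ Δ + δ := add_nonneg Δ0 δ0
  have r1 := rgmul_r0 (D := D) S0
  have r2 := rgmul_r0 (D := w) Δ0
  have r3 := rgmul_r0 (D := ε0 / 2) δ0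
  have gg : 0 ≤ g := by linarith
  let d' : Dat := ⟨d1.lam, d1.lam', d1.e, d1.xt, d0.K⟩
  have s' : q.Sz Cu b j z U d' D D := ⟨s1.lam, D0, s1.e, s0.K⟩
  have sc : q.Sz Cu b j z U ⟨d1.lam - d0.lam, d1.lam' - d0.lam', fun B => d1.e B - d0.e B,
      fun B => d1.xt B - d0.xt B, fun _ _ => 0⟩ Δ 0 :=
    ⟨sd.lam, le_rfl, sd.e, fun _ _ _ => ⟨measurable_const, Bd.zero (by simp)⟩⟩
  have sk : q.Sz Cu b j z U ⟨0, 0, fun _ => 0, fun _ => 0, (d1.sub d0).K⟩ 0 δ :=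
    ⟨by simp, δ0, by simp, sd.K⟩
  have p1 := path d0 d1 (d1.sub d0) (Δ + δ) D (2 * D) (2 * D) (by simp [Dat.mix, Dat.sub]) S0 D0
    (by linarith) (rgmul_mono A0 H0 s1 (by linarith) (by linarith)) fun τ h =>
      rgmul_mono A0 H0 (rgmul_sz s0 sd τ) (by nlinarith [norm_nonneg τ])
        (by nlinarith [norm_nonneg τ])
  have p2 := path d0 d' _ Δ w (2 * w) D (by simp [Dat.mix, d']) Δ0 w0.le w2
    (rgmul_mono A0 H0 s' (by linarith) le_rfl) fun τ h =>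
      rgmul_mono A0 H0 (rgmul_sz s0 sc τ) (by linarith) (by simp)
  have p3 := path d' d1 _ δ (ε0 / 2) (2 * w) ε0 (by simp [Dat.mix, Dat.sub, d']) δ0 (by linarith) w2
    (rgmul_mono A0 H0 s1 (by linarith) (by linarith)) fun τ h =>
      rgmul_mono A0 H0 (rgmul_sz s' sk τ) (by linarith) (by linarith)
  have aw0 : ∀ a p c, 0 ≤ a → 0 ≤ p → 0 ≤ aw R a p 0 (q.A / 16) c := fun a p c h1 h2 =>
    rgmul_aw h1 h2 le_rfl (by positivity) c
  have each : ∀ c ∈ loc0 q.L 4 (box (q.m b (j + 1))) U s, ¬ (nat R c = 1 ∧ ¬ big 4 R c) →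
      ‖∫ ω, (q.dw b j z Θ U d1 ω c - q.dw b j z Θ U d0 ω c) ∂PP‖ ≤
      (if live 4 R c ∧ 2 ≤ nat R c then 2 * rgmul_r (Δ + δ) D * 2 ^ U.card * E *
        aw R (2 * (g * (2 * D))) (2 * D) 0 (q.A / 16) c else 0) +
      if live 4 R c ∧ big 4 R c then 2 * rgmul_r δ (ε0 / 2) * 2 ^ U.card * E *
        aw R (2 * (g * (2 * w))) ε0 0 (q.A / 16) c + 2 * rgmul_r Δ w * 2 ^ U.card * E *
        aw R (2 * (g * (2 * w))) D 0 (q.A / 16) c else 0 := fun c hc h => by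
    by_cases lv : live 4 R c
    · by_cases bgc : big 4 R c
      · rw [if_neg fun e => by have := bgc.1; omega, if_pos ⟨lv, bgc⟩, zero_add]
        exact int c _ _ _ _ _ _ _ (by positivity) (by positivity) e0.le (by positivity)
          (by positivity) D0 fun ω => (norm_sub_le_norm_sub_add_norm_sub _ _ _).trans
            (add_le_add (p3 c hc ω) (p2 c hc ω))
      · have n1 := (on c (mem_filter.1 hc).1 lv).1
        rw [if_pos ⟨lv, by by_contra e; exact h ⟨by omega, bgc⟩⟩, if_neg fun e => bgc e.2]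
        simpa using int c _ _ _ 0 0 0 _ (by positivity) (by positivity) (by positivity) le_rfl
          le_rfl le_rfl fun ω => by simpa using p1 c hc ω
    · simp [lv, ((dat _ _ _ s1 (by linarith) c hc).2 _).1 lv,
        ((dat _ _ _ s0 (by linarith) c hc).2 _).1 lv]
  refine (norm_sum_le _ _).trans ((sum_le_sum fun c hc =>
    each c (mem_filter.1 hc).1 ((oe c).not.1 (mem_filter.1 hc).2)).trans ((sum_le_sum_of_subset_of_nonneg
      (filter_subset _ _) fun c _ _ => ?_).trans ?_))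
  · have := aw0 (2 * (g * (2 * D))) (2 * D) c (by positivity) (by positivity)
    have := aw0 (2 * (g * (2 * w))) ε0 c (by positivity) e0.le
    have := aw0 (2 * (g * (2 * w))) D c (by positivity) D0
    split_ifs <;> positivity
  rw [sum_add_distrib, ← sum_filter, ← sum_filter, sum_add_distrib, ← mul_sum, ← mul_sum, ← mul_sum]
  have c1 := (cn (2 * (g * (2 * D))) (2 * D) (by positivity) (by positivity)
    (le_trans (by gcongr) w3) (by linarith)).2.1 s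
  have c2 := (cn (2 * (g * (2 * w))) ε0 (by positivity) e0.le w3 le_rfl).1 s
  have c3 := (cn (2 * (g * (2 * w))) D (by positivity) D0 w3 (by linarith)).1 s
  refine (add_le_add (mul_le_mul_of_nonneg_left c1 (by positivity)) (add_le_add
    (mul_le_mul_of_nonneg_left c2 (by positivity))
    (mul_le_mul_of_nonneg_left c3 (by positivity)))).trans ?_
  have hZ : 2 ^ U.card * (16 * q.A)⁻¹ ^ U.card ≤ 1 / 8 * q.A⁻¹ ^ U.card := by
    rw [← mul_pow, show 2 * (16 * q.A)⁻¹ = 1 / 8 * q.A⁻¹ by rw [mul_inv]; ring, mul_pow]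
    gcongr
    exact pow_le_of_le_one (by norm_num) (by norm_num) hP.pm.2.1.card_pos.ne'
  calc _ = (2 * rgmul_r (Δ + δ) D * (C0 * (2 * (g * (2 * D)) + 2 * D) ^ 2) +
        2 * rgmul_r δ (ε0 / 2) * (ε0 / 1000) + 2 * rgmul_r Δ w * (D / 1000)) *
        (2 ^ U.card * (16 * q.A)⁻¹ ^ U.card) * E := by ring
    _ ≤ (8 * (δ / 500 + √q.C * D * (Δ + δ))) * (1 / 8 * q.A⁻¹ ^ U.card) * E := by
      gcongr
      exact rgmul_ari hg a0 e0 e1 D0 Δ0 δ0 w1 hC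
    _ = _ := by ring

end Pool.Agent.Lib.MP_9cc147_pr.Cx
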