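import Pool.Agent.Lib.MP_9cc147_pr.Cx.Rg.OneA

/-! Terms with one small atom agree with the linear part up to second order. -/

open scoped Classical Topology
open Finset MeasureTheory ProbabilityTheory Filter

noncomputable section
namespace Pool.Agent.Lib.MP_9cc147_pr.Cx

theorem rgone_ea (l : ℕ) (v : Fld) (B : P) : 0 ≤ ea l v B :=
  sum_nonneg fun x _ => by unfold n1; positivity

theorem rgone_N0 (l : ℕ) (v : Fld) (B : P) : ea l v B ≤ N0 l v (nb l B) := by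
  have h1 : cell l B ⊆ nb l B := fun x hx => by
    rw [f_mem_cell'] at hx
    simp only [nb, fat, mem_product, mem_Icc]
    omega
  have h2 : ∀ p, 0 ≤ n1 v p := fun p => by unfold n1; positivity
  have h3 : ∀ p, 0 ≤ (l : ℝ) ^ 2 * n2 v p := fun p => by unfold n2; positivity
  have h4 : ea l v B ≤ Nf l v (nb l B) :=
    (sum_le_sum fun p _ => le_add_of_nonneg_right (h3 p)).trans
      (sum_le_sum_of_subset_of_nonneg h1 fun p _ _ => add_nonneg (h2 p) (h3 p))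
  exact h4.trans (le_add_of_nonneg_right (by positivity))

variable {q : Par} {Cu C0 ε0 : ℝ} {b : ℕ × ℕ} {j : ℕ} {z : ℂ} {B' : P} {θ : P → ℝ} {v : Fld}
  {d d0 d1 : Dat} {D Δ δ p : ℝ}

theorem rgone_min {U : Finset P} (h0 : q.Sz Cu b j z U d0 D D) (h1 : q.Sz Cu b j z U d1 D D)
    (h : q.Sz Cu b j z U (d1.sub d0) Δ δ) : q.Sz Cu b j z U (d1.sub d0) (min Δ (2 * D)) δ := by
  rcases le_total Δ (2 * D) with a | a
  · rwa [min_eq_left a]
  · rw [min_eq_right a]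
    refine ⟨⟨(norm_sub_le _ _).trans ?_, (norm_sub_le _ _).trans ?_⟩, h.hp, fun B hB =>
      ⟨(norm_sub_le _ _).trans ?_, (norm_sub_le _ _).trans ?_⟩, h.K⟩
    · linarith [h0.lam.1, h1.lam.1]
    · linarith [h0.lam.2, h1.lam.2]
    · linarith [(h0.e B hB).1, (h1.e B hB).1]
    · linarith [(h0.e B hB).2, (h1.e B hB).2]

theorem rgone_box (hL : 100 ≤ q.L) (hP : q.Pt b j z {B'} θ v) : cell q.L B' ⊆ box (q.m b j) := by
  rw [q.m_succ hP.hok.pred.2.1]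
  exact f_cell_sub (by omega) (hP.pm.1 (mem_singleton_self _))

theorem rgone_under (L : ℕ) (B' : P) : under L {B'} = cell L B' := singleton_biUnion

theorem rgone_cell (hL : 100 ≤ q.L) (hP : q.Pt b j z {B'} θ v) :
    cell q.L B' ⊆ near 4 (box (q.m b j)) (under q.L {B'}) := fun B hB =>
  mem_filter.2 ⟨rgone_box hL hP hB, B, by rwa [rgone_under], by simp [nr]⟩

theorem rgone_sm (h_sm : S_rg_sm) (hA : 2 ^ 60 ≤ q.A) {B : P} (hB : B ∈ cell q.L B')
    {X : Finset P} (hX : X ∈ smalls (box (q.m b j)) B) : Pm (q.m b j) X ∧ X.card ≤ 4 ∧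
      1 ≤ X.card ∧ X ⊆ near 4 (box (q.m b j)) (under q.L {B'}) := by
  obtain ⟨h1, h2, h3, h4⟩ := mem_filter.1 hX
  refine ⟨⟨mem_powerset.1 h1, h2⟩, h4, card_pos.2 ⟨B, h3⟩, fun a ha => ?_⟩
  obtain ⟨h5, B0, h6, h7⟩ := mem_filter.1 (((h_sm _ B _ hA).1 X hX).2 ha)
  rw [mem_singleton.1 h6] at h7
  exact mem_filter.2 ⟨h5, B, by rwa [rgone_under],
    h7.1.trans (by norm_num), h7.2.trans (by norm_num)⟩

theorem rgone_oE (h_blo : S_rg_blo) (E : q.Env Cu C0 ε0) (hL : 100 ≤ q.L) (hH : 1 ≤ q.H Cu)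
    (hP : q.Pt b j z {B'} θ v) (hd : q.Sz Cu b j z {B'} d D p) (hD : D ≤ 1 / q.g Cu ^ 2)
    {S1 S2 : Finset P} (h1 : S1 ⊆ near 4 (box (q.m b j)) (under q.L {B'}))
    (h2 : S2 ⊆ near 4 (box (q.m b j)) (under q.L {B'})) (hc : S1.card + S2.card ≤ 2 * q.L ^ 2) :
    ‖q.oE b j z (bg (q.n b) z + cf θ + v) B' S1 S2 d‖ ≤ D * (2 * (∑ B ∈ S1, ea (q.l j) (cf θ) B +
      ∑ B ∈ S2, ea (q.l j) (cf θ) B) + 10 * q.L ^ 2 * q.H Cu) := by
  have D0 : 0 ≤ D := (norm_nonneg _).trans hd.lam.1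
  have hb := (h_blo q Cu C0 ε0 b j z _ θ v d D p E hP hd hD).1
  have a : ∀ S : Finset P, S ⊆ near 4 (box (q.m b j)) (under q.L {B'}) →
      ‖∑ B ∈ S, q.oI b j z (bg (q.n b) z + cf θ + v) d B‖ ≤
        D * (2 * ∑ B ∈ S, ea (q.l j) (cf θ) B + 4 * q.H Cu * S.card) := fun S hS => by
    refine (norm_sum_le_of_le S fun B hB => (hb B (hS hB)).1).trans (le_of_eq ?_)
    rw [← mul_sum, sum_add_distrib, ← mul_sum, sum_const, nsmul_eq_mul]
    ring
  have c : ‖∑ B ∈ cell q.L B', (d.e B + d.xt B)‖ ≤ (q.L : ℝ) ^ 2 * (2 * (D * q.H Cu)) := by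
    refine (norm_sum_le_of_le (n := fun _ => 2 * (D * q.H Cu)) _ fun B hB =>
      (norm_add_le _ _).trans ?_).trans (le_of_eq ?_)
    · have := hd.e B (rgone_cell hL hP hB)
      linarith [this.1, this.2]
    · rw [sum_const, f_card_cell, nsmul_eq_mul]
      push_cast
      ring
  have hc' : (S1.card : ℝ) + S2.card ≤ 2 * (q.L : ℝ) ^ 2 := by exact_mod_cast hc
  have e : D * q.H Cu * ((S1.card : ℝ) + S2.card) ≤ D * q.H Cu * (2 * (q.L : ℝ) ^ 2) := by gcongr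
  refine (norm_sub_le _ _).trans ((add_le_add ((norm_add_le _ _).trans
    (add_le_add c (a S1 h1))) (a S2 h2)).trans ?_)
  nlinarith

theorem rgone_l (hL : 100 ≤ q.L) (j : ℕ) : 100 ≤ q.l j ∧ q.l (j + 1) = q.L * q.l j :=
  ⟨hL.trans (Nat.le_self_pow (by omega) _), by unfold Par.l; ring⟩

/-- one mark -/
theorem rgone_M (h_blo : S_rg_blo) (h_reg : S_rg_reg) (E : q.Env Cu C0 ε0)
    (hP : q.Pt b j z {B'} θ v) (h0 : q.Sz Cu b j z {B'} d0 D D) (h1 : q.Sz Cu b j z {B'} d1 D D)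
    (h : q.Sz Cu b j z {B'} (d1.sub d0) Δ δ) (hΔ : Δ ≤ 2 * D) (hD : D ≤ 2 * q.ε) (ω : Om) {B : P}
    (hB : B ∈ cell q.L B') :
    ‖q.oM b j z (bg (q.n b) z + cf θ + v) B' d1 ω B - q.oM b j z (bg (q.n b) z + cf θ + v) B' d0 ω B‖ ≤
      15 * q.g Cu ^ 2 * D * (Δ + δ) * Real.exp (q.κ * Reg (q.l (j + 1)) {B'} θ) *
        q.Yc b j {B} ω := by
  have D0 : 0 ≤ D := h0.hp
  have Δ0 : 0 ≤ Δ := (norm_nonneg _).trans h.lam.1
  have δ0 := h.hp
  have k0 := E.hκ.1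
  obtain ⟨e1, e2, e3, e4, e5, -, hH, -, hc, hL⟩ := rgone_env E D0 hD
  set S := ∑ B ∈ cell q.L B', ea (q.l j) (cf θ) B with hS
  set x := ea (q.l j) (cf (zeta q.L (q.n b) j ω)) B with hx
  have S0 : 0 ≤ S := sum_nonneg fun B _ => rgone_ea _ _ _
  have x0 : 0 ≤ x := rgone_ea _ _ _
  have hBS : ea (q.l j) (cf θ) B ≤ S := single_le_sum (fun B _ => rgone_ea _ _ B) hB
  have hL2 : (1 : ℝ) ≤ (q.L : ℝ) ^ 2 := one_le_pow₀ (by exact_mod_cast (by omega : 1 ≤ q.L))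
  have hLH : q.H Cu ≤ (q.L : ℝ) ^ 2 * q.H Cu := by nlinarith
  have a : ∀ {d : Dat} {D p : ℝ}, q.Sz Cu b j z {B'} d D p → D ≤ 1 / q.g Cu ^ 2 →
      ‖q.oE b j z (bg (q.n b) z + cf θ + v) B' (cell q.L B') ∅ d‖ ≤
        D * (5 * S + 5 * x + 10 * q.L ^ 2 * q.H Cu) ∧
      ‖q.dm b j z (bg (q.n b) z + cf θ + v) d ω B‖ ≤
        D * (5 * S + 5 * x + 10 * q.L ^ 2 * q.H Cu) := fun {d D p} hd hD => by
    have D0 : 0 ≤ D := (norm_nonneg _).trans hd.lam.1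
    refine ⟨(rgone_oE h_blo E hL hH hP hd hD (rgone_cell hL hP) (empty_subset _)
      (by rw [f_card_cell, card_empty]; omega)).trans ?_,
      (((h_blo q Cu C0 ε0 b j z _ θ v d D p E hP hd hD).1 B (rgone_cell hL hP hB)).2 ω).1.trans ?_⟩
    · rw [sum_empty]
      gcongr D * ?_
      linarith
    · gcongr D * ?_
      linarith
  have b0 := a h0 (by linarith)
  have b1 := a h1 (by linarith)
  have b2 := a h (by linarith)
  rw [← Par.oE_sub, ← Par.dm_sub] at b2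
  have a0 : 0 ≤ 5 * S + 5 * x + 10 * q.L ^ 2 * q.H Cu := by linarith
  refine (rgone_mark b0.1 b0.2 b1.2 b2.1 b2.2
    ((mul_le_mul_of_nonneg_right hΔ a0).trans_eq (mul_assoc _ _ _))).trans ?_
  have a1 : 0 ≤ 5 * S + 5 * x := by linarith
  have a2 : 0 ≤ 10 * (q.L : ℝ) ^ 2 * q.H Cu := by linarith
  have n := (rgone_num a1 a2 k0 e2 e3 e4 e5).2
  have r := h_reg q.L (q.l j) θ θ {B'} (cell q.L B') ∅ hc (rgone_l hL j).1 (by simp)
    (fun B hB => ⟨B, by simpa [rgone_under] using hB, by simp [nr]⟩) (by simp)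
  simp only [sum_empty, biUnion_empty, mul_zero, add_zero, zero_add, ← (rgone_l hL j).2] at r
  have y : Real.exp (q.κ / 20 * (5 * S + 5 * x)) ≤
      Real.exp (q.κ * Reg (q.l (j + 1)) {B'} θ) * q.Yc b j {B} ω := by
    rw [Par.Yc, ← Real.exp_add, sum_singleton]
    have u := rgone_N0 (q.l j) (cf (zeta q.L (q.n b) j ω)) B
    have L1 : (1 : ℝ) ≤ q.L := by exact_mod_cast (by omega : 1 ≤ q.L)
    have w : q.κ * x ≤ q.L * q.κ * N0 (q.l j) (cf (zeta q.L (q.n b) j ω)) (nb (q.l j) B) := by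
      exact mul_le_mul (le_mul_of_one_le_left k0.le L1) u x0 (by positivity)
    have w' := mul_le_mul_of_nonneg_left r k0.le
    have w2 := mul_nonneg k0.le x0
    refine Real.exp_le_exp.2 ?_
    linarith
  calc _ = 5 * D * Δ * ((5 * S + 5 * x + 10 * q.L ^ 2 * q.H Cu) ^ 2 *
        Real.exp (4 * (D * (5 * S + 5 * x + 10 * q.L ^ 2 * q.H Cu)))) := by ring
    _ ≤ 5 * D * (Δ + δ) * (3 * q.g Cu ^ 2 * (Real.exp (q.κ * Reg (q.l (j + 1)) {B'} θ) *
        q.Yc b j {B} ω)) := by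
        exact mul_le_mul (mul_le_mul_of_nonneg_left (by linarith) (by linarith))
          (n.trans (mul_le_mul_of_nonneg_left y (mul_nonneg (by norm_num) (sq_nonneg _))))
          (mul_nonneg (sq_nonneg _) (Real.exp_pos _).le)
          (mul_nonneg (by linarith) (by linarith))
    _ = _ := by ring

/-- one small polymer -/
theorem rgone_K (h_blo : S_rg_blo) (h_reg : S_rg_reg) (h_sm : S_rg_sm) (E : q.Env Cu C0 ε0)
    (hP : q.Pt b j z {B'} θ v) (h0 : q.Sz Cu b j z {B'} d0 D D) (h1 : q.Sz Cu b j z {B'} d1 D D)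
    (h : q.Sz Cu b j z {B'} (d1.sub d0) Δ δ) (hΔ : Δ ≤ 2 * D) (hD : D ≤ 2 * q.ε) (ω : Om) {B : P}
    (hB : B ∈ cell q.L B') {X : Finset P} (hX : X ∈ smalls (box (q.m b j)) B) :
    ‖q.oK b j z (bg (q.n b) z + cf θ + v) B' d1 ω X - q.oK b j z (bg (q.n b) z + cf θ + v) B' d0 ω X‖ ≤
      15 * q.g Cu ^ 2 * D * (Δ + δ) * Real.exp (q.κ * Reg (q.l (j + 1)) {B'} θ) *
        (q.A⁻¹ ^ X.card * q.Yc b j X ω) := by
  have D0 : 0 ≤ D := h0.hp
  have Δ0 : 0 ≤ Δ := (norm_nonneg _).trans h.lam.1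
  have δ0 := h.hp
  have k0 := E.hκ.1
  obtain ⟨e1, e2, e3, e4, e5, -, hH, hA, hc, hL⟩ := rgone_env E D0 hD
  obtain ⟨x1, x2, -, x4⟩ := rgone_sm h_sm hA hB hX
  have A0 : 0 < q.A := lt_of_lt_of_le (by positivity) hA
  set S := ∑ B ∈ cell q.L B' \ X, ea (q.l j) (cf θ) B + ∑ B ∈ X \ cell q.L B', ea (q.l j) (cf θ) B
    with hS
  have S0 : 0 ≤ S := add_nonneg (sum_nonneg fun B _ => rgone_ea _ _ _)
    (sum_nonneg fun B _ => rgone_ea _ _ _)
  have a : ∀ {d : Dat} {D p : ℝ}, q.Sz Cu b j z {B'} d D p → D ≤ 1 / q.g Cu ^ 2 →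
      ‖q.oE b j z (bg (q.n b) z + cf θ + v) B' (cell q.L B' \ X) (X \ cell q.L B') d‖ ≤
        D * (2 * S + 10 * q.L ^ 2 * q.H Cu) ∧
      ‖d.K X (bg (q.n b) z + cf θ + v + cf (zeta q.L (q.n b) j ω))‖ ≤ p * q.A⁻¹ ^ X.card *
        Real.exp (q.κ * Reg (q.l j) X (θ + zeta q.L (q.n b) j ω)) := fun {d D p} hd hD => by
    refine ⟨rgone_oE h_blo E hL hH hP hd hD (sdiff_subset.trans (rgone_cell hL hP))
      (sdiff_subset.trans x4) ?_,
      ((h_blo q Cu C0 ε0 b j z _ θ v d D p E hP hd hD).2.2 X x1 x4).2 ω⟩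
    have u := card_le_card (sdiff_subset (s := cell q.L B') (t := X))
    have u' := card_le_card (sdiff_subset (s := X) (t := cell q.L B'))
    rw [f_card_cell] at u
    nlinarith
  have b0 := a h0 (by linarith)
  have b1 := a h1 (by linarith)
  have b2 := a h (by linarith)
  rw [← Par.oE_sub] at b2
  have a0 : 0 ≤ 2 * S + 10 * q.L ^ 2 * q.H Cu := by positivity
  refine (rgone_pol b0.1 b1.1 b2.1
    ((mul_le_mul_of_nonneg_right hΔ a0).trans_eq (mul_assoc _ _ _)) b0.2 b2.2).trans ?_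
  have n := (rgone_num (a1 := 2 * S) (by positivity) (by positivity) k0 e2 e3 e4 e5).1
  have r := h_reg q.L (q.l j) θ (zeta q.L (q.n b) j ω) {B'} (cell q.L B' \ X ∪ X \ cell q.L B') {X}
    hc (rgone_l hL j).1 (by simp) (fun B hB => by
      have : B ∈ near 4 (box (q.m b j)) (under q.L {B'}) := by
        simp only [singleton_biUnion, id, mem_union, Finset.mem_sdiff] at hB
        rcases hB with (h | h) | h
        · exact rgone_cell hL hP h.1
        · exact x4 h.1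
        · exact x4 h
      exact (mem_filter.1 this).2) (by
      intro B hB hB2
      simp only [singleton_biUnion, id, mem_union, Finset.mem_sdiff, rgone_under] at hB hB2 ⊢
      tauto)
  simp only [sum_singleton, singleton_biUnion, id, ← (rgone_l hL j).2] at r
  rw [sum_union (Finset.disjoint_left.2 fun a h1 h2 =>
    (Finset.mem_sdiff.1 h1).2 (Finset.mem_sdiff.1 h2).1), ← hS] at r
  have y : Real.exp (q.κ * Reg (q.l j) X (θ + zeta q.L (q.n b) j ω)) *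
      Real.exp (q.κ / 20 * (2 * S)) ≤
      Real.exp (q.κ * Reg (q.l (j + 1)) {B'} θ) * q.Yc b j X ω := by
    rw [Par.Yc, ← Real.exp_add, ← Real.exp_add]
    have u : 0 ≤ ∑ B ∈ X, N0 (q.l j) (cf (zeta q.L (q.n b) j ω)) (nb (q.l j) B) :=
      sum_nonneg fun B _ => (rgone_ea _ _ _).trans (rgone_N0 _ _ _)
    have L1 : c0 ≤ q.L := le_trans (by norm_num [c0]) hc
    have w := mul_le_mul_of_nonneg_right L1 (mul_nonneg k0.le u)
    have w' := mul_le_mul_of_nonneg_left r k0.le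
    have w2 := mul_nonneg k0.le S0
    refine Real.exp_le_exp.2 ?_
    linarith
  set R := Real.exp (q.κ * Reg (q.l j) X (θ + zeta q.L (q.n b) j ω))
  have R0 : 0 ≤ R := (Real.exp_pos _).le
  have c0' : 0 ≤ D * (Δ + δ) * q.A⁻¹ ^ X.card := by positivity
  calc _ = D * (Δ + δ) * q.A⁻¹ ^ X.card * (R * ((2 * S + 10 * q.L ^ 2 * q.H Cu) *
        Real.exp (4 * (D * (2 * S + 10 * q.L ^ 2 * q.H Cu))))) := by ring
    _ ≤ D * (Δ + δ) * q.A⁻¹ ^ X.card * (R * (15 * q.g Cu ^ 2 * Real.exp (q.κ / 20 * (2 * S)))) := by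
        refine mul_le_mul_of_nonneg_left (mul_le_mul_of_nonneg_left (n.trans ?_) R0) c0'
        exact mul_le_mul_of_nonneg_right
          (mul_le_mul_of_nonneg_right (by norm_num) (sq_nonneg _)) (Real.exp_pos _).le
    _ = D * (Δ + δ) * q.A⁻¹ ^ X.card * (15 * q.g Cu ^ 2) * (R * Real.exp (q.κ / 20 * (2 * S))) := by
        ring
    _ ≤ D * (Δ + δ) * q.A⁻¹ ^ X.card * (15 * q.g Cu ^ 2) *
        (Real.exp (q.κ * Reg (q.l (j + 1)) {B'} θ) * q.Yc b j X ω) :=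
        mul_le_mul_of_nonneg_left y (mul_nonneg c0' (by positivity))
    _ = _ := by ring

theorem rgone_main (h_one : S_one) (h_blo : S_rg_blo) (h_reg : S_rg_reg) (h_sm : S_rg_sm)
    (h_y : S_rg_y) (h_dat : S_rg_dat) (E : q.Env Cu C0 ε0)
    (hP : q.Pt b j z {B'} θ v) (h0 : q.Sz Cu b j z {B'} d0 D D) (h1 : q.Sz Cu b j z {B'} d1 D D)
    (h : q.Sz Cu b j z {B'} (d1.sub d0) Δ δ) (hΔ : Δ ≤ 2 * D) (hD : D ≤ 2 * q.ε) (s : Lab) :
    ‖∑ c ∈ (loc0 q.L 4 (box (q.m b (j + 1))) {B'} s).filter (one q b j {B'}),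
      ∫ ω, (q.dw b j z (bg (q.n b) z + cf θ + v) {B'} d1 ω c -
        q.dw b j z (bg (q.n b) z + cf θ + v) {B'} d0 ω c) ∂PP -
      ∫ ω, q.dL b j z (bg (q.n b) z + cf θ + v) B' (d1.sub d0) ω ∂PP‖ ≤
    √q.C * D * (Δ + δ) * q.A⁻¹ * Real.exp (q.κ * Reg (q.l (j + 1)) {B'} θ) := by
  have D0 : 0 ≤ D := h0.hp
  have Δ0 : 0 ≤ Δ := (norm_nonneg _).trans h.lam.1
  have δ0 := h.hp
  obtain ⟨e1, -, -, -, -, e6, -, hA, -, hL⟩ := rgone_env E D0 hD
  have A0 : 0 < q.A := lt_of_lt_of_le (by positivity) hA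
  have hD' : D ≤ 1 / q.g Cu ^ 2 := by linarith
  obtain ⟨y1, y2⟩ := h_y q Cu C0 ε0 b j E hP.hok
  set Θ := bg (q.n b) z + cf θ + v with hΘ
  have iw : ∀ {d : Dat}, q.Sz Cu b j z {B'} d D D →
      ∀ c ∈ (loc0 q.L 4 (box (q.m b (j + 1))) {B'} s).filter (one q b j {B'}),
      Integrable (fun ω => q.dw b j z Θ {B'} d ω c) PP := fun {d} hd c hc => by
    obtain ⟨m1, m2⟩ := h_dat q Cu C0 ε0 b j z _ θ v d D D s E hP hd hD' c (mem_filter.1 hc).1
    exact ((y1 _ (y2 {B'} c 0 0 0 le_rfl le_rfl le_rfl).1).1.const_mul _).mono'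
      m1.aestronglyMeasurable (.of_forall fun ω => (m2 ω).2)
  set k := 15 * q.g Cu ^ 2 * D * (Δ + δ) * Real.exp (q.κ * Reg (q.l (j + 1)) {B'} θ) with hk
  have k0 : 0 ≤ k := by positivity
  set Ψ : Om → ℂ := fun ω => ∑ B ∈ cell q.L B',
    (q.oM b j z Θ B' d1 ω B - q.oM b j z Θ B' d0 ω B + ∑ X ∈ smalls (box (q.m b j)) B,
      (q.oK b j z Θ B' d1 ω X - q.oK b j z Θ B' d0 ω X) / X.card) with hΨ
  set G : Om → ℝ := fun ω => ∑ B ∈ cell q.L B',
    (k * q.Yc b j {B} ω + ∑ X ∈ smalls (box (q.m b j)) B, k * (q.A⁻¹ ^ X.card * q.Yc b j X ω))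
    with hG
  have i1 : ∀ B ∈ cell q.L B', Integrable (q.Yc b j {B}) PP ∧ ∫ ω, q.Yc b j {B} ω ∂PP ≤ 2 :=
    fun B hB => by simpa using y1 {B} (singleton_subset_iff.2 (rgone_box hL hP hB))
  have i2 : ∀ B ∈ cell q.L B', ∀ X ∈ smalls (box (q.m b j)) B,
      Integrable (q.Yc b j X) PP ∧ ∫ ω, q.Yc b j X ω ∂PP ≤ 16 := fun B hB X hX => by
    obtain ⟨x1, x2, -, -⟩ := rgone_sm h_sm hA hB hX
    exact ⟨(y1 X x1.1).1, (y1 X x1.1).2.trans
      ((pow_le_pow_right₀ (by norm_num) x2).trans (by norm_num))⟩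
  have i3 : ∀ B ∈ cell q.L B', Integrable (fun ω =>
      ∑ X ∈ smalls (box (q.m b j)) B, k * (q.A⁻¹ ^ X.card * q.Yc b j X ω)) PP := fun B hB =>
    integrable_finsetSum _ fun X hX => ((i2 B hB X hX).1.const_mul _).const_mul _
  have i4 : ∀ B ∈ cell q.L B', Integrable (fun ω => k * q.Yc b j {B} ω +
      ∑ X ∈ smalls (box (q.m b j)) B, k * (q.A⁻¹ ^ X.card * q.Yc b j X ω)) PP := fun B hB =>
    ((i1 B hB).1.const_mul _).add (i3 B hB)
  have iG : Integrable G PP := integrable_finsetSum _ i4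
  have bG : ∫ ω, G ω ∂PP ≤ (q.L : ℝ) ^ 2 * (3 * k) := by
    simp only [hG]
    rw [integral_finsetSum _ i4]
    refine (sum_le_card_nsmul _ _ (3 * k) fun B hB => ?_).trans
      (by rw [f_card_cell, nsmul_eq_mul]; push_cast; exact le_rfl)
    rw [integral_add ((i1 B hB).1.const_mul _) (i3 B hB), integral_const_mul,
      integral_finsetSum _ fun X hX => ((i2 B hB X hX).1.const_mul _).const_mul _]
    have u : ∑ X ∈ smalls (box (q.m b j)) B, ∫ ω, k * (q.A⁻¹ ^ X.card * q.Yc b j X ω) ∂PP ≤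
        ∑ X ∈ smalls (box (q.m b j)) B, k * (q.A⁻¹ ^ X.card * 16) := sum_le_sum fun X hX => by
      rw [integral_const_mul, integral_const_mul]
      gcongr
      exact (i2 B hB X hX).2
    rw [← mul_sum, ← sum_mul] at u
    have u2 := (h_sm (box (q.m b j)) B _ hA).2.2
    have u3 : 2 / q.A ≤ 1 / 16 := by
      rw [div_le_div_iff₀ A0 (by norm_num)]
      linarith
    have u4 := mul_le_mul_of_nonneg_left (i1 B hB).2 k0
    have u5 := mul_le_mul_of_nonneg_left (u2.trans u3) k0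
    linarith
  have pt : ∀ ω, ‖Ψ ω‖ ≤ G ω := fun ω => norm_sum_le_of_le _ fun B hB =>
    (norm_add_le _ _).trans (add_le_add (rgone_M h_blo h_reg E hP h0 h1 h hΔ hD ω hB)
      (norm_sum_le_of_le _ fun X hX => by
        have c1 : (1 : ℝ) ≤ X.card := by exact_mod_cast (rgone_sm h_sm hA hB hX).2.2.1
        rw [norm_div, Complex.norm_natCast]
        exact (div_le_self (norm_nonneg _) c1).trans
          (rgone_K h_blo h_reg h_sm E hP h0 h1 h hΔ hD ω hB hX)))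
  have mM : ∀ {d : Dat}, q.Sz Cu b j z {B'} d D D → ∀ B,
      Measurable fun ω => q.oM b j z Θ B' d ω B := fun {d} hd B => by
    have := (h_blo q Cu C0 ε0 b j z _ θ v d D D E hP hd hD').2.1 B Θ
    exact ((this.cexp.sub_const 1).const_mul _).sub this
  have mK : ∀ {d : Dat}, q.Sz Cu b j z {B'} d D D → ∀ B ∈ cell q.L B',
      ∀ X ∈ smalls (box (q.m b j)) B, Measurable fun ω => q.oK b j z Θ B' d ω X :=
    fun {d} hd B hB X hX => by
      obtain ⟨x1, -, -, x4⟩ := rgone_sm h_sm hA hB hX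
      exact (((h_blo q Cu C0 ε0 b j z _ θ v d D D E hP hd hD').2.2 X x1 x4).1 Θ).mul_const _
  have mΨ : Measurable Ψ := Finset.measurable_sum _ fun B hB => ((mM h1 B).sub (mM h0 B)).add
    (Finset.measurable_sum _ fun X hX => ((mK h1 B hB X hX).sub (mK h0 B hB X hX)).div_const _)
  have iΨ : Integrable Ψ PP := iG.mono' mΨ.aestronglyMeasurable (.of_forall pt)
  have iv : ∀ c ∈ (loc0 q.L 4 (box (q.m b (j + 1))) {B'} s).filter (one q b j {B'}),
      Integrable (fun ω => q.dw b j z Θ {B'} d1 ω c - q.dw b j z Θ {B'} d0 ω c) PP :=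
    fun c hc => (iw h1 c hc).sub (iw h0 c hc)
  have iW := integrable_finsetSum _ iv
  have id : ∀ ω, q.dL b j z Θ B' (d1.sub d0) ω =
      ∑ c ∈ (loc0 q.L 4 (box (q.m b (j + 1))) {B'} s).filter (one q b j {B'}),
        (q.dw b j z Θ {B'} d1 ω c - q.dw b j z Θ {B'} d0 ω c) - Ψ ω := fun ω => by
    have hb := hP.pm.1 (mem_singleton_self _)
    have a1 := rgone_alg h_one q z Θ hL hP.hok hb d1 ω s
    have a0 := rgone_alg h_one q z Θ hL hP.hok hb d0 ω s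
    simp only [hΨ, sub_div, sum_sub_distrib, sum_add_distrib] at a1 a0 ⊢
    rw [Par.dL_sub]
    linear_combination a0 - a1
  simp only [id]
  rw [integral_sub iW iΨ, integral_finsetSum _ iv, sub_sub_cancel]
  refine (norm_integral_le_of_norm_le iG (.of_forall pt)).trans (bG.trans ?_)
  calc _ = 45 * q.g Cu ^ 2 * q.L ^ 2 * (D * (Δ + δ) * Real.exp (q.κ * Reg (q.l (j + 1)) {B'} θ)) := by
        rw [hk]; ring
    _ ≤ √q.C * q.A⁻¹ * (D * (Δ + δ) * Real.exp (q.κ * Reg (q.l (j + 1)) {B'} θ)) := by gcongr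
    _ = _ := by ring

theorem t_rg_one (h_one : S_one) (h_blo : S_rg_blo) (h_reg : S_rg_reg) (h_sm : S_rg_sm)
    (h_y : S_rg_y) (h_dat : S_rg_dat) : S_rg_one := by
  intro q Cu C0 ε0 b j z B' θ v d0 d1 D Δ δ s E hP h0 h1 h hD
  refine (rgone_main h_one h_blo h_reg h_sm h_y h_dat E hP h0 h1 (rgone_min h0 h1 h)
    (min_le_right _ _) hD s).trans ?_
  have D0 : 0 ≤ D := h0.hp
  have A0 : 0 ≤ q.A := le_trans (by positivity) E.hA
  gcongr
  exact min_le_left _ _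

end Pool.Agent.Lib.MP_9cc147_pr.Cx
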