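import Pool.Agent.Lib.MP_9cc147_pr.Cx.Rg.S
import Pool.Agent.Lib.MP_9cc147_pr.Cx.F.Kit

/-! Terms with one small atom: elementary bounds and the algebraic form. -/

open scoped Classical Topology
open Finset MeasureTheory ProbabilityTheory Filter

noncomputable section
namespace Pool.Agent.Lib.MP_9cc147_pr.Cx

theorem rgone_e0 {x : ℂ} {u : ℝ} (h : ‖x‖ ≤ u) : ‖Complex.exp x‖ ≤ Real.exp u := by
  rw [Complex.norm_exp]
  exact Real.exp_le_exp.2 ((Complex.re_le_norm x).trans h)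

theorem rgone_e1 {x : ℂ} {u w : ℝ} (h : ‖x‖ ≤ u) (h' : u ≤ w) :
    ‖Complex.exp x - 1‖ ≤ u * Real.exp w := by
  have h1 := Complex.norm_exp_sub_sum_le_norm_mul_exp x 1
  simp only [range_one, sum_singleton, pow_zero, Nat.factorial_zero, Nat.cast_one, div_one,
    pow_one] at h1
  have h0 : 0 ≤ u := (norm_nonneg _).trans h
  refine h1.trans ?_
  gcongr
  exact h.trans h'

theorem rgone_e2 {x : ℂ} {u w : ℝ} (h : ‖x‖ ≤ u) (h' : u ≤ w) :
    ‖Complex.exp x - 1 - x‖ ≤ u * w * Real.exp w := by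
  have h1 := Complex.norm_exp_sub_sum_le_norm_mul_exp x 2
  simp only [sum_range_succ, range_one, sum_singleton, pow_zero, Nat.factorial_zero, Nat.cast_one,
    div_one, pow_one, Nat.factorial_one] at h1
  have h0 : 0 ≤ u := (norm_nonneg _).trans h
  rw [sub_sub]
  refine h1.trans ?_
  rw [sq]
  gcongr
  · exact mul_nonneg h0 (h0.trans h')
  · exact h.trans h'
  · exact h.trans h'

theorem rgone_mark {E0 E1 m0 m1 : ℂ} {u w : ℝ} (a0 : ‖E0‖ ≤ u) (b0 : ‖m0‖ ≤ u) (b1 : ‖m1‖ ≤ u)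
    (a : ‖E1 - E0‖ ≤ w) (b : ‖m1 - m0‖ ≤ w) (hw : w ≤ 2 * u) :
    ‖(Complex.exp E1 * (Complex.exp m1 - 1) - m1) - (Complex.exp E0 * (Complex.exp m0 - 1) - m0)‖ ≤
      5 * u * w * Real.exp (4 * u) := by
  have hu : 0 ≤ u := (norm_nonneg _).trans a0
  have hw0 : 0 ≤ w := (norm_nonneg _).trans a
  have h1 : Complex.exp E1 = Complex.exp E0 * Complex.exp (E1 - E0) := by
    rw [← Complex.exp_add]; congr 1; ring
  have h2 : Complex.exp m1 = Complex.exp m0 * Complex.exp (m1 - m0) := by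
    rw [← Complex.exp_add]; congr 1; ring
  have h3 : (Complex.exp E1 * (Complex.exp m1 - 1) - m1) -
      (Complex.exp E0 * (Complex.exp m0 - 1) - m0) =
      Complex.exp E0 * (Complex.exp (E1 - E0) - 1) * (Complex.exp m1 - 1) +
      (Complex.exp (E0 + m0) - 1) * (Complex.exp (m1 - m0) - 1) +
      (Complex.exp (m1 - m0) - 1 - (m1 - m0)) := by
    rw [Complex.exp_add, h1]
    linear_combination (Complex.exp E0) * h2
  have c : ‖E0 + m0‖ ≤ 2 * u := (norm_add_le _ _).trans (by linarith)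
  have e4 : Real.exp (4 * u) = Real.exp u * Real.exp (2 * u) * Real.exp u := by
    rw [← Real.exp_add, ← Real.exp_add]; congr 1; ring
  have e5 : Real.exp (4 * u) = Real.exp (2 * u) * Real.exp (2 * u) := by
    rw [← Real.exp_add]; congr 1; ring
  have e6 : Real.exp (2 * u) ≤ Real.exp (4 * u) := Real.exp_le_exp.2 (by linarith)
  have t1 : ‖Complex.exp E0 * (Complex.exp (E1 - E0) - 1) * (Complex.exp m1 - 1)‖ ≤
      u * w * Real.exp (4 * u) := by
    rw [norm_mul, norm_mul, e4]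
    calc _ ≤ Real.exp u * (w * Real.exp (2 * u)) * (u * Real.exp u) := by
          gcongr
          · exact rgone_e0 a0
          · exact rgone_e1 a hw
          · exact rgone_e1 b1 le_rfl
      _ = _ := by ring
  have t2 : ‖(Complex.exp (E0 + m0) - 1) * (Complex.exp (m1 - m0) - 1)‖ ≤
      2 * u * w * Real.exp (4 * u) := by
    rw [norm_mul, e5]
    calc _ ≤ (2 * u * Real.exp (2 * u)) * (w * Real.exp (2 * u)) := by
          gcongr
          · exact rgone_e1 c le_rfl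
          · exact rgone_e1 b hw
      _ = _ := by ring
  have t3 : ‖Complex.exp (m1 - m0) - 1 - (m1 - m0)‖ ≤ 2 * u * w * Real.exp (4 * u) :=
    (rgone_e2 b hw).trans (by rw [mul_comm w]; gcongr)
  rw [h3]
  refine (norm_add₃_le).trans ?_
  linarith

theorem rgone_pol {F0 F1 K0 K1 : ℂ} {u w k k' : ℝ} (a0 : ‖F0‖ ≤ u) (a1 : ‖F1‖ ≤ u)
    (a : ‖F1 - F0‖ ≤ w) (hw : w ≤ 2 * u) (b0 : ‖K0‖ ≤ k) (b : ‖K1 - K0‖ ≤ k') :
    ‖K1 * (Complex.exp F1 - 1) - K0 * (Complex.exp F0 - 1)‖ ≤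
      (k' * u + k * w) * Real.exp (4 * u) := by
  have hu : 0 ≤ u := (norm_nonneg _).trans a0
  have hw0 : 0 ≤ w := (norm_nonneg _).trans a
  have hk : 0 ≤ k := (norm_nonneg _).trans b0
  have hk' : 0 ≤ k' := (norm_nonneg _).trans b
  have h1 : Complex.exp F1 = Complex.exp F0 * Complex.exp (F1 - F0) := by
    rw [← Complex.exp_add]; congr 1; ring
  have h3 : K1 * (Complex.exp F1 - 1) - K0 * (Complex.exp F0 - 1) =
      (K1 - K0) * (Complex.exp F1 - 1) + K0 * Complex.exp F0 * (Complex.exp (F1 - F0) - 1) := by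
    linear_combination K0 * h1
  have e4 : Real.exp (4 * u) = Real.exp u * Real.exp (3 * u) := by
    rw [← Real.exp_add]; congr 1; ring
  have t1 : ‖(K1 - K0) * (Complex.exp F1 - 1)‖ ≤ k' * (u * Real.exp (4 * u)) := by
    rw [norm_mul]
    gcongr
    exact rgone_e1 a1 (by linarith)
  have t2 : ‖K0 * Complex.exp F0 * (Complex.exp (F1 - F0) - 1)‖ ≤
      k * Real.exp u * (w * Real.exp (3 * u)) := by
    rw [norm_mul, norm_mul]
    gcongr
    · exact rgone_e0 a0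
    · exact rgone_e1 a (by linarith)
  rw [h3]
  refine (norm_add_le _ _).trans ((add_le_add t1 t2).trans (le_of_eq ?_))
  rw [e4]
  ring

theorem rgone_num {a1 a2 κ D g : ℝ} (h1 : 0 ≤ a1) (h2 : 0 ≤ a2) (hκ : 0 < κ)
    (hD : 4 * D ≤ κ / 80) (hD2 : 4 * D * a2 ≤ 1) (hg : a2 + 80 / κ ≤ g) (hg1 : 1 ≤ g) :
    (a1 + a2) * Real.exp (4 * (D * (a1 + a2))) ≤ 3 * g ^ 2 * Real.exp (κ / 20 * a1) ∧
    (a1 + a2) ^ 2 * Real.exp (4 * (D * (a1 + a2))) ≤ 3 * g ^ 2 * Real.exp (κ / 20 * a1) := by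
  set x := Real.exp (κ / 80 * a1) with hx
  have x1 : 1 ≤ x := Real.one_le_exp (by positivity)
  have x2 : a1 ≤ 80 / κ * x := by
    have := Real.add_one_le_exp (κ / 80 * a1)
    rw [div_mul_eq_mul_div, le_div_iff₀ hκ]
    linarith
  have x3 : a1 + a2 ≤ g * x := by nlinarith
  have x4 : Real.exp (4 * (D * (a1 + a2))) ≤ 3 * x := by
    have : Real.exp 1 ≤ 3 := (Real.exp_one_lt_d9.le.trans (by norm_num))
    calc _ ≤ Real.exp (1 + κ / 80 * a1) := Real.exp_le_exp.2 (by nlinarith)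
      _ ≤ _ := by rw [Real.exp_add]; gcongr
  have x5 : Real.exp (κ / 20 * a1) = x ^ 4 := by
    rw [hx, ← Real.exp_nat_mul]; congr 1; push_cast; ring
  have x6 : 1 ≤ g * x := one_le_mul_of_one_le_of_one_le hg1 x1
  have x7 : (g * x) ^ 2 * (3 * x) ≤ 3 * g ^ 2 * x ^ 4 := by
    have : x ^ 3 ≤ x ^ 4 := pow_le_pow_right₀ x1 (by norm_num)
    calc _ = 3 * g ^ 2 * x ^ 3 := by ring
      _ ≤ _ := by gcongr
  rw [x5]
  refine ⟨le_trans ?_ x7, le_trans ?_ x7⟩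
  · gcongr
    nlinarith
  · gcongr

theorem rgone_env {q : Par} {Cu C0 ε0 D : ℝ} (E : q.Env Cu C0 ε0) (h0 : 0 ≤ D)
    (hD : D ≤ 2 * q.ε) : 2 * D ≤ 1 / q.g Cu ^ 2 ∧ 4 * D ≤ q.κ / 80 ∧
      4 * D * (10 * q.L ^ 2 * q.H Cu) ≤ 1 ∧ 10 * q.L ^ 2 * q.H Cu + 80 / q.κ ≤ q.g Cu ∧
      1 ≤ q.g Cu ∧ 45 * q.g Cu ^ 2 * q.L ^ 2 ≤ √q.C * q.A⁻¹ ∧ 1 ≤ q.H Cu ∧ 2 ^ 60 ≤ q.A ∧
      c0 ^ 2 ≤ q.L ∧ 100 ≤ q.L := by
  obtain ⟨k0, k1⟩ := E.hκ
  have hL : (10 : ℝ) ^ 16 ≤ q.L := le_trans (by norm_num [c0]) E.hL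
  have hL2 : (1 : ℝ) ≤ (q.L : ℝ) ^ 2 := one_le_pow₀ (by linarith)
  have hA : (2 : ℝ) ^ 60 ≤ q.A := le_trans (by nlinarith) E.hA
  have ik : 1 ≤ 1 / q.κ := by rw [le_div_iff₀ k0]; linarith
  have hH : 1 / q.κ ≤ q.H Cu := by
    have := E.hCu
    unfold Par.H
    nlinarith [sq_nonneg q.h]
  have hH1 : 1 ≤ q.H Cu := ik.trans hH
  have hLH : q.H Cu ≤ (q.L : ℝ) ^ 2 * q.H Cu := by nlinarith
  have hLH' : (q.L : ℝ) ^ 2 ≤ (q.L : ℝ) ^ 2 * q.H Cu := by nlinarith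
  have hg : 10 ^ 8 * ((q.L : ℝ) ^ 2 * q.H Cu) ≤ q.g Cu := by
    unfold Par.g c0
    rw [le_div_iff₀ k0]
    nlinarith
  set G := q.g Cu
  have G1 : (10 : ℝ) ^ 8 ≤ G := by linarith
  have hC : (G * q.A) ^ 8 ≤ q.C := by
    refine le_trans ?_ E.hC
    obtain ⟨a, b, c⟩ := E.hC0
    have : 0 ≤ G * q.A := by positivity
    gcongr
    rw [le_div_iff₀ b]
    nlinarith
  have hGA : G ≤ G * q.A := by nlinarith
  have hC' : G ^ 8 ≤ q.C := le_trans (by gcongr) hC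
  have hDG : D * G ^ 2 * 1000 ≤ 1 := by
    have a : D * G ^ 8 ≤ 2 := by
      have := E.hε
      calc D * G ^ 8 ≤ 2 * q.ε * q.C := by gcongr; linarith
        _ ≤ 2 := by linarith
    have b : 2000 ≤ G ^ 6 := le_trans (by linarith) (le_self_pow₀ (by linarith) (by norm_num))
    have c : 0 ≤ D * G ^ 2 := by positivity
    have d : D * G ^ 8 = D * G ^ 2 * G ^ 6 := by ring
    nlinarith
  have hDG' : D * G * 1000 ≤ 1 := by
    have : D * G ≤ D * G ^ 2 := by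
      gcongr
      exact le_self_pow₀ (by linarith) (by norm_num)
    linarith
  have e80 : 80 / q.κ = 80 * (1 / q.κ) := by ring
  refine ⟨?_, ?_, ?_, ?_, by linarith, ?_, hH1, hA, le_trans (by norm_num [c0]) hL, ?_⟩
  · rw [le_div_iff₀ (by positivity)]
    nlinarith
  · have a : 1 ≤ G * q.κ := by
      rw [← div_le_iff₀ k0]
      linarith
    nlinarith
  · nlinarith
  · linarith
  · have a : (G * q.A) ^ 4 ≤ √q.C := Real.le_sqrt_of_sq_le (by rw [← pow_mul]; exact hC)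
    have A0 : 0 < q.A := by linarith
    rw [← div_eq_mul_inv, le_div_iff₀ A0]
    refine le_trans ?_ a
    have b : q.A ≤ q.A ^ 4 := le_self_pow₀ (by linarith) (by norm_num)
    have c : 45 * (q.L : ℝ) ^ 2 ≤ G ^ 2 := by nlinarith
    calc _ = G ^ 2 * (45 * (q.L : ℝ) ^ 2) * q.A := by ring
      _ ≤ G ^ 2 * G ^ 2 * q.A ^ 4 := by gcongr
      _ = _ := by ring
  · have : ((100 : ℕ) : ℝ) ≤ q.L := by push_cast; linarith
    exact_mod_cast this

namespace Par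
variable (q : Par) (b : ℕ × ℕ) (j : ℕ) (z : ℂ) (Θ : Fld)

/-- exponent of the factor of one block -/
def oI (d : Dat) (B : P) : ℂ := -d.e B - d.lam' / 2 * q.Qz b j z B Θ
/-- exponent of the factors that accompany an atom -/
def oE (B' : P) (S1 S2 : Finset P) (d : Dat) : ℂ :=
  ∑ B ∈ cell q.L B', (d.e B + d.xt B) + ∑ B ∈ S1, q.oI b j z Θ d B - ∑ B ∈ S2, q.oI b j z Θ d B
def oM (B' : P) (d : Dat) (ω : Om) (B : P) : ℂ :=
  Complex.exp (q.oE b j z Θ B' (cell q.L B') ∅ d) * (Complex.exp (q.dm b j z Θ d ω B) - 1) -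
    q.dm b j z Θ d ω B
def oK (B' : P) (d : Dat) (ω : Om) (X : Finset P) : ℂ :=
  d.K X (Θ + cf (zeta q.L (q.n b) j ω)) *
    (Complex.exp (q.oE b j z Θ B' (cell q.L B' \ X) (X \ cell q.L B') d) - 1)

theorem oE_sub (B' : P) (S1 S2 : Finset P) (d0 d1 : Dat) :
    q.oE b j z Θ B' S1 S2 d1 - q.oE b j z Θ B' S1 S2 d0 = q.oE b j z Θ B' S1 S2 (d1.sub d0) := by
  have h : ∀ B, q.oI b j z Θ (d1.sub d0) B = q.oI b j z Θ d1 B - q.oI b j z Θ d0 B := fun B => by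
    simp only [oI, Dat.sub]; ring
  simp only [oE, h]
  simp only [sum_sub_distrib, sum_add_distrib, Dat.sub]
  ring

theorem dm_sub (d0 d1 : Dat) (ω : Om) (B : P) :
    q.dm b j z Θ d1 ω B - q.dm b j z Θ d0 ω B = q.dm b j z Θ (d1.sub d0) ω B := by
  simp only [dm, Dat.sub]; ring

theorem dL_sub (B' : P) (d0 d1 : Dat) (ω : Om) :
    q.dL b j z Θ B' (d1.sub d0) ω = q.dL b j z Θ B' d1 ω - q.dL b j z Θ B' d0 ω := by
  simp only [dL, ← dm_sub, ← sum_sub_distrib]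
  refine sum_congr rfl fun B _ => ?_
  simp only [Dat.sub, sub_div, sum_sub_distrib]
  ring
end Par

/-- the terms with one small atom minus their linear part -/
theorem rgone_alg (h_one : S_one) (q : Par) {b : ℕ × ℕ} {j : ℕ} (z : ℂ) (Θ : Fld) {B' : P}
    (hL : 100 ≤ q.L) (hb : Par.ok b (j + 1)) (hB : B' ∈ box (q.m b (j + 1))) (d : Dat) (ω : Om)
    (s : Lab) :
    ∑ c ∈ (loc0 q.L 4 (box (q.m b (j + 1))) {B'} s).filter (one q b j {B'}),
      q.dw b j z Θ {B'} d ω c - q.dL b j z Θ B' d ω =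
    ∑ B ∈ cell q.L B', (q.oM b j z Θ B' d ω B +
      ∑ X ∈ smalls (box (q.m b j)) B, q.oK b j z Θ B' d ω X / X.card) := by
  have h := (h_one q.L 4 (box (q.m b (j + 1))) {B'} (by omega) (singleton_subset_iff.2 hB)
    (singleton_nonempty _)).2 (fun _ => q.dI b j z Θ d)
    (fun _ B => Complex.exp (q.dm b j z Θ d ω B) - 1)
    (fun _ X => d.K X (Θ + cf (zeta q.L (q.n b) j ω)) / ∏ B ∈ X, q.dI b j z Θ d B) s
  have hu : under q.L {B'} = cell q.L B' := singleton_biUnion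
  rw [if_pos (card_singleton _), f_under_box (by omega), ← q.m_succ hb.pred.2.1, hu] at h
  have hI : ∀ X : Finset P, ∏ B ∈ X, q.dI b j z Θ d B =
      Complex.exp (∑ B ∈ X, q.oI b j z Θ d B) := fun X => by rw [Complex.exp_sum]; rfl
  have h1 : ∑ c ∈ (loc0 q.L 4 (box (q.m b (j + 1))) {B'} s).filter (one q b j {B'}),
      q.dw b j z Θ {B'} d ω c = Complex.exp (q.oE b j z Θ B' (cell q.L B') ∅ d) *
      ∑ B ∈ cell q.L B', (Complex.exp (q.dm b j z Θ d ω B) - 1 +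
        ∑ X ∈ smalls (box (q.m b j)) B, d.K X (Θ + cf (zeta q.L (q.n b) j ω)) /
          Complex.exp (∑ B ∈ X, q.oI b j z Θ d B) / X.card) := by
    have hf : (loc0 q.L 4 (box (q.m b (j + 1))) {B'} s).filter (one q b j {B'}) =
        (loc0 q.L 4 (box (q.m b (j + 1))) {B'} s).filter fun c =>
          nat (reg q.L (box (q.m b (j + 1))) {B'}) c = 1 ∧
            ¬ big 4 (reg q.L (box (q.m b (j + 1))) {B'}) c := by
      ext c
      simp only [mem_filter, one]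
    simp only [Par.dw]
    rw [← mul_sum, hf, h, hu, Par.oE, sum_empty, sub_zero, Complex.exp_add, mul_assoc]
    simp only [hI, smalls]
  rw [h1, Par.dL, mul_sum, ← sum_sub_distrib]
  refine sum_congr rfl fun B _ => ?_
  have h2 : ∀ X : Finset P, q.oK b j z Θ B' d ω X / X.card =
      Complex.exp (q.oE b j z Θ B' (cell q.L B') ∅ d) * (d.K X (Θ + cf (zeta q.L (q.n b) j ω)) /
        Complex.exp (∑ B ∈ X, q.oI b j z Θ d B) / X.card) -
      d.K X (Θ + cf (zeta q.L (q.n b) j ω)) / X.card := fun X => by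
    have h3 : q.oE b j z Θ B' (cell q.L B' \ X) (X \ cell q.L B') d =
        q.oE b j z Θ B' (cell q.L B') ∅ d - ∑ B ∈ X, q.oI b j z Θ d B := by
      simp only [Par.oE, sum_empty, add_sub_assoc, sum_sdiff_sub_sum_sdiff]
      ring
    rw [Par.oK, h3, Complex.exp_sub]
    ring
  simp only [h2, sum_sub_distrib, ← mul_sum, Par.oM]
  ring

end Pool.Agent.Lib.MP_9cc147_pr.Cx
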