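import Pool.Agent.Lib.MP_9cc147_pr.Cx.Rg.S
import Pool.Agent.Lib.MP_9cc147_pr.Cx.K.Sob

/-! Oscillation and affine approximation on a square of blocks. -/

open scoped Classical Topology
open Finset MeasureTheory ProbabilityTheory Filter

noncomputable section
namespace Pool.Agent.Lib.MP_9cc147_pr.Cx

theorem rgo_tel (g : ℤ → ℂ) {a b : ℤ} (h : a ≤ b) :
    ‖g b - g a‖ ≤ ∑ t ∈ Ico a b, ‖g (t + 1) - g t‖ := by
  induction b, h using Int.leInduction with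
  | base => simp
  | succ b hb ih =>
    have e : Ico a (b + 1) = insert b (Ico a b) := by
      ext t
      simp only [mem_Ico, mem_insert]
      omega
    rw [e, sum_insert (by simp)]
    exact (norm_sub_le_norm_sub_add_norm_sub _ (g b) _).trans (by linarith)

theorem rgo_1d (g : ℤ → ℂ) (α : ℤ) (N : ℕ) {a b : ℤ} (ha : α ≤ a ∧ a ≤ α + N)
    (hb : α ≤ b ∧ b ≤ α + N) :
    ‖g a - g b‖ ^ 2 ≤ N * ∑ t ∈ Ico α (α + N), ‖g (t + 1) - g t‖ ^ 2 := by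
  wlog h : b ≤ a generalizing a b
  · rw [norm_sub_rev]
    exact this hb ha (by omega)
  have h1 : ‖g a - g b‖ ≤ ∑ t ∈ Ico α (α + N), ‖g (t + 1) - g t‖ := (rgo_tel g h).trans
    (sum_le_sum_of_subset_of_nonneg (Ico_subset_Ico hb.1 ha.2) fun _ _ _ => norm_nonneg _)
  refine (pow_le_pow_left₀ (norm_nonneg _) h1 2).trans (sq_sum_le_card_mul_sum_sq.trans_eq ?_)
  simp

theorem rgo_two (x y : ℂ) : ‖x + y‖ ^ 2 ≤ 2 * ‖x‖ ^ 2 + 2 * ‖y‖ ^ 2 := by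
  have := pow_le_pow_left₀ (norm_nonneg _) (norm_add_le x y) 2
  nlinarith [sq_nonneg (‖x‖ - ‖y‖)]

theorem rgo_sup (g : ℤ → ℂ) (b : ℤ) (D : ℕ) : D * ‖g b‖ ^ 2 ≤
    2 * ∑ t ∈ Ico b (b + D), ‖g t‖ ^ 2 +
      2 * D ^ 2 * ∑ t ∈ Ico b (b + D), ‖g (t + 1) - g t‖ ^ 2 := by
  have h : ∑ _t ∈ Ico b (b + D), ‖g b‖ ^ 2 ≤ ∑ t ∈ Ico b (b + D),
      (2 * ‖g t‖ ^ 2 + 2 * (D * ∑ t ∈ Ico b (b + D), ‖g (t + 1) - g t‖ ^ 2)) :=
    sum_le_sum fun t ht => by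
      have h1 := rgo_two (g t) (g b - g t)
      have h2 := rgo_1d g b D (a := b) (b := t) ⟨le_rfl, by omega⟩
        ⟨(mem_Ico.1 ht).1, (mem_Ico.1 ht).2.le⟩
      rw [add_sub_cancel] at h1
      linarith
  rw [sum_add_distrib, ← mul_sum, sum_const, sum_const] at h
  simp only [Int.card_Ico, add_sub_cancel_left, Int.toNat_natCast, nsmul_eq_mul] at h
  linarith

theorem rgo_row (f : ℤ → ℤ → ℂ) (α b : ℤ) (l : ℕ) {a a' : ℤ}
    (ha : α ≤ a ∧ a ≤ α + (9 * l : ℕ)) (ha' : α ≤ a' ∧ a' ≤ α + (9 * l : ℕ)) :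
    ‖f a b - f a' b‖ ^ 2 ≤ 18 * (∑ s ∈ Ico α (α + (9 * l : ℕ)), ∑ t ∈ Ico b (b + l),
      (‖f (s + 1) t - f s t‖ ^ 2 +
        (l : ℝ) ^ 2 * ‖f (s + 1) (t + 1) - f s (t + 1) - (f (s + 1) t - f s t)‖ ^ 2)) := by
  refine (rgo_1d (fun s => f s b) α (9 * l) ha ha').trans ?_
  rw [mul_sum, mul_sum]
  refine sum_le_sum fun s _ => ?_
  have := rgo_sup (fun t => f (s + 1) t - f s t) b l
  rw [sum_add_distrib, ← mul_sum]
  push_cast
  linarith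

theorem rgo_poi (f : ℤ → ℤ → ℂ) (α β : ℤ) {N : ℕ} (hN : 1 ≤ N) : ∃ y : ℂ,
    ∑ a ∈ Ico α (α + N), ∑ b ∈ Ico β (β + N), ‖f a b - y‖ ^ 2 ≤
      2 * N ^ 2 * ∑ a ∈ Ico α (α + N), ∑ b ∈ Ico β (β + N),
        (‖f (a + 1) b - f a b‖ ^ 2 + ‖f a (b + 1) - f a b‖ ^ 2) := by
  obtain ⟨a', ha', hm⟩ := exists_min_image (Ico α (α + N))
    (fun a => ∑ b ∈ Ico β (β + N), ‖f a (b + 1) - f a b‖ ^ 2) ⟨α, mem_Ico.2 ⟨le_rfl, by omega⟩⟩
  have h1 := card_nsmul_le_sum _ _ _ hm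
  refine ⟨f a' β, (sum_le_sum fun a ha => sum_le_sum fun b hb => show _ ≤
    2 * (N * ∑ t ∈ Ico α (α + N), ‖f (t + 1) b - f t b‖ ^ 2) +
      2 * (N * ∑ t ∈ Ico β (β + N), ‖f a' (t + 1) - f a' t‖ ^ 2) from ?_).trans ?_⟩
  · have h2 := rgo_two (f a b - f a' b) (f a' b - f a' β)
    have h3 := rgo_1d (fun s => f s b) α N ⟨(mem_Ico.1 ha).1, (mem_Ico.1 ha).2.le⟩
      ⟨(mem_Ico.1 ha').1, (mem_Ico.1 ha').2.le⟩
    have h4 := rgo_1d (f a') β N ⟨(mem_Ico.1 hb).1, (mem_Ico.1 hb).2.le⟩ ⟨le_rfl, by omega⟩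
    rw [sub_add_sub_cancel] at h2
    linarith
  · simp only [sum_add_distrib, ← mul_sum, sum_const, Int.card_Ico, add_sub_cancel_left,
      Int.toNat_natCast, nsmul_eq_mul] at h1 ⊢
    rw [sum_comm (s := Ico β (β + N))]
    have := mul_le_mul_of_nonneg_left h1 (show (0 : ℝ) ≤ 2 * N ^ 2 by positivity)
    nlinarith

theorem rgo_sq {l : ℕ} (hl : 0 < l) (k : ℕ) (B : P) (F : P → ℝ) :
    ∑ B' ∈ nbh k B, ∑ x ∈ cell l B', F x = ∑ x ∈ Ico ((B.1 - k) * l) ((B.1 + k + 1) * l) ×ˢ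
      Ico ((B.2 - k) * l) ((B.2 + k + 1) * l), F x := by
  have hl' : (0 : ℤ) < l := by exact_mod_cast hl
  rw [← sum_biUnion fun _ _ _ _ e => disjoint_left.2 fun _ h1 h2 =>
    e (((k_cell_par hl).1 h1).symm.trans ((k_cell_par hl).1 h2))]
  refine sum_congr ?_ fun _ _ => rfl
  ext x
  refine (k_under_par hl).trans ?_
  simp only [nbh, par, mem_product, mem_Icc, mem_Ico, ← Int.le_ediv_iff_mul_le hl',
    ← Int.ediv_lt_iff_lt_mul hl', Int.lt_add_one_iff]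

theorem rgo_e (v : Fld) (a b : ℤ) : ‖v (a + 1, b) - v (a, b)‖ ^ 2 ≤ 2 * n1 v (a, b) ∧
    ‖v (a, b + 1) - v (a, b)‖ ^ 2 ≤ 2 * n1 v (a, b) := by
  have h : ∀ d, ‖dg v (a, b) d‖ ^ 2 ≤ 2 * n1 v (a, b) := fun d => by
    have := single_le_sum (f := fun d => ‖dg v (a, b) d‖ ^ 2) (fun _ _ => by positivity)
      (mem_univ d)
    unfold n1
    linarith
  refine ⟨(k_dg v a b).2.2.2 ▸ h 3, ?_⟩
  rw [norm_sub_rev, ← (k_dg v a b).2.2.1]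
  exact h 2

theorem t_rg_osc : S_rg_osc := by
  intro l v B hl p hp p' hp'
  have hl' : (100 : ℤ) ≤ l := by exact_mod_cast hl
  obtain ⟨⟨h1, h2⟩, h3, h4⟩ := k_mem_fat.1 hp
  obtain ⟨⟨k1, k2⟩, k3, k4⟩ := k_mem_fat.1 hp'
  have n0 : ∀ x, 0 ≤ n1 v x + (l : ℝ) ^ 2 * n2 v x := fun x =>
    add_nonneg (k_n1_nonneg v x) (mul_nonneg (sq_nonneg _) (k_n2_nonneg v x))
  have e : ∑ B' ∈ nbh 5 B, (ea l v B' + eb l v B') =
      ∑ B' ∈ nbh 5 B, ∑ x ∈ cell l B', (n1 v x + (l : ℝ) ^ 2 * n2 v x) :=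
    sum_congr rfl fun B' _ => by rw [ea, eb, mul_sum, sum_add_distrib]
  rw [e, rgo_sq (by omega)]
  push_cast at *
  have r1 := rgo_row (fun s t => v (s, t)) ((B.1 - 4) * l) p.2 l (a := p.1)
    (a' := p'.1) ⟨by linarith, by push_cast; linarith⟩ ⟨by linarith, by push_cast; linarith⟩
  have r2 := rgo_row (fun s t => v (t, s)) ((B.2 - 4) * l) p'.1 l (a := p.2)
    (a' := p'.2) ⟨by linarith, by push_cast; linarith⟩ ⟨by linarith, by push_cast; linarith⟩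
  have key : ∀ (I J : Finset ℤ) (G : ℤ → ℤ → ℝ),
      (∀ s t, G s t ≤ 2 * (n1 v (s, t) + (l : ℝ) ^ 2 * n2 v (s, t))) →
      I ⊆ Ico ((B.1 - 5) * l) ((B.1 + 5 + 1) * l) → J ⊆ Ico ((B.2 - 5) * l) ((B.2 + 5 + 1) * l) →
      ∑ s ∈ I, ∑ t ∈ J, G s t ≤ 2 * ∑ x ∈ Ico ((B.1 - 5) * l) ((B.1 + 5 + 1) * l) ×ˢ
        Ico ((B.2 - 5) * l) ((B.2 + 5 + 1) * l), (n1 v x + (l : ℝ) ^ 2 * n2 v x) :=
    fun I J G hG hI hJ => by
      rw [← sum_product', mul_sum]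
      exact (sum_le_sum fun x _ => hG x.1 x.2).trans (sum_le_sum_of_subset_of_nonneg
        (product_subset_product hI hJ) fun x _ _ => mul_nonneg (by norm_num) (n0 x))
  have m0 := fun x => mul_nonneg (sq_nonneg (l : ℝ)) (k_n2_nonneg v x)
  have s1 := r1.trans (mul_le_mul_of_nonneg_left (key _ _ _ (fun s t => by
      have a1 := mul_le_mul_of_nonneg_left (k_n2a v s t).2.2 (sq_nonneg (l : ℝ))
      rw [show v (s + 1, t + 1) - v (s, t + 1) - (v (s + 1, t) - v (s, t)) =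
        v (s + 1, t + 1) - v (s + 1, t) - v (s, t + 1) + v (s, t) by ring]
      linarith [(rgo_e v s t).1, m0 (s, t)])
    (Ico_subset_Ico (by linarith) (by push_cast; linarith))
    (Ico_subset_Ico (by linarith) (by linarith))) (by norm_num))
  rw [sum_comm] at r2
  have s2 := r2.trans (mul_le_mul_of_nonneg_left (key _ _ _ (fun t s => by
      have a1 := mul_le_mul_of_nonneg_left (k_n2a v t s).2.2 (sq_nonneg (l : ℝ))
      rw [show v (t + 1, s + 1) - v (t + 1, s) - (v (t, s + 1) - v (t, s)) =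
        v (t + 1, s + 1) - v (t + 1, s) - v (t, s + 1) + v (t, s) by ring]
      linarith [(rgo_e v t s).2, m0 (t, s)])
    (Ico_subset_Ico (by linarith) (by linarith))
    (Ico_subset_Ico (by linarith) (by push_cast; linarith))) (by norm_num))
  have t2 := rgo_two (v (p.1, p.2) - v (p'.1, p.2)) (v (p'.1, p.2) - v (p'.1, p'.2))
  rw [sub_add_sub_cancel] at t2
  have z0 := sum_nonneg (s := Ico ((B.1 - 5) * l) ((B.1 + 5 + 1) * l) ×ˢ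
    Ico ((B.2 - 5) * l) ((B.2 + 5 + 1) * l)) fun x _ => n0 x
  unfold c0
  change ‖v (p.1, p.2) - v (p'.1, p'.2)‖ ^ 2 ≤ _
  linarith

theorem rgo_lin (v : Fld) (y : ℂ × ℂ) (a b : ℤ) : n1 (v - lin y) (a, b) = 1 / 2 *
    (‖v (a + 1, b + 1) - v (a + 1, b) - y.2‖ ^ 2 + ‖v (a + 1, b + 1) - v (a, b + 1) - y.1‖ ^ 2 +
      ‖v (a, b + 1) - v (a, b) - y.2‖ ^ 2 + ‖v (a + 1, b) - v (a, b) - y.1‖ ^ 2) := by
  obtain ⟨e0, e1, e2, e3⟩ := k_dg (v - lin y) a b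
  rw [n1, Fin.sum_univ_four, e0, e1, e2, e3, norm_sub_rev ((v - lin y) (a, b + 1)),
    norm_sub_rev ((v - lin y) (a, b))]
  simp only [Pi.sub_apply, lin]
  push_cast
  ring_nf

theorem rgo_mean {S : Finset P} (f : P → ℂ) (y : ℂ) :
    S.card * ‖y‖ ^ 2 ≤ 2 * ∑ x ∈ S, ‖f x‖ ^ 2 + 2 * ∑ x ∈ S, ‖f x - y‖ ^ 2 := by
  rw [mul_sum, mul_sum, ← sum_add_distrib, ← nsmul_eq_mul]
  refine card_nsmul_le_sum _ _ _ fun x _ => ?_
  have := rgo_two (f x) (y - f x)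
  rwa [add_sub_cancel, norm_sub_rev] at this

theorem rgo_dd (v : Fld) (x : P) :
    ‖v (x.1 + 1 + 1, x.2) - v (x.1 + 1, x.2) - (v (x.1 + 1, x.2) - v (x.1, x.2))‖ ^ 2 ≤
      n2 v (x + (1, 0)) ∧
    ‖v (x.1 + 1, x.2 + 1) - v (x.1, x.2 + 1) - (v (x.1 + 1, x.2) - v (x.1, x.2))‖ ^ 2 ≤
      n2 v (x + (0, 0)) ∧
    ‖v (x.1 + 1, x.2 + 1) - v (x.1 + 1, x.2) - (v (x.1, x.2 + 1) - v (x.1, x.2))‖ ^ 2 ≤
      n2 v (x + (0, 0)) ∧
    ‖v (x.1, x.2 + 1 + 1) - v (x.1, x.2 + 1) - (v (x.1, x.2 + 1) - v (x.1, x.2))‖ ^ 2 ≤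
      n2 v (x + (0, 1)) := by
  obtain ⟨a, b⟩ := x
  have h1 := (k_n2a v (a + 1) b).1
  have h2 := (k_n2a v a b).2.2
  have h3 := (k_n2a v a (b + 1)).2.1
  rw [add_sub_cancel_right] at h1 h3
  simp only [Prod.mk_add_mk, add_zero]
  exact ⟨le_of_eq_of_le (by congr 2; ring) h1, le_of_eq_of_le (by congr 2; ring) h2,
    le_of_eq_of_le (by congr 2; ring) h2, le_of_eq_of_le (by congr 2; ring) h3⟩

theorem t_rg_aff : S_rg_aff := by
  intro l v B hl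
  have hl' : (100 : ℤ) ≤ l := by exact_mod_cast hl
  obtain ⟨y1, h1⟩ := rgo_poi (fun a b => v (a + 1, b) - v (a, b)) ((B.1 - 5) * l) ((B.2 - 5) * l)
    (N := 12 * l) (by omega)
  obtain ⟨y2, h2⟩ := rgo_poi (fun a b => v (a, b + 1) - v (a, b)) ((B.1 - 5) * l) ((B.2 - 5) * l)
    (N := 12 * l) (by omega)
  rw [← sum_product', ← sum_product'] at h1 h2
  have cQ : ((Ico ((B.1 - 5) * l) ((B.1 - 5) * l + (12 * l : ℕ)) ×ˢ
      Ico ((B.2 - 5) * l) ((B.2 - 5) * l + (12 * l : ℕ))).card : ℝ) = 144 * l ^ 2 := by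
    simp only [card_product, Int.card_Ico, add_sub_cancel_left, Int.toNat_natCast]
    push_cast
    ring
  have mQ : ∀ x : P, x ∈ Ico ((B.1 - 5) * l) ((B.1 - 5) * l + (12 * l : ℕ)) ×ˢ
      Ico ((B.2 - 5) * l) ((B.2 - 5) * l + (12 * l : ℕ)) ↔ ((B.1 - 5) * l ≤ x.1 ∧
        x.1 < (B.1 - 5) * l + 12 * l) ∧ (B.2 - 5) * l ≤ x.2 ∧ x.2 < (B.2 - 5) * l + 12 * l :=
    fun x => by simp only [mem_product, mem_Ico]; push_cast; rfl
  generalize Ico ((B.1 - 5) * l) ((B.1 - 5) * l + (12 * l : ℕ)) ×ˢ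
    Ico ((B.2 - 5) * l) ((B.2 - 5) * l + (12 * l : ℕ)) = Q at h1 h2 cQ mQ
  have sh : ∀ (g : P → ℝ), (∀ x, 0 ≤ g x) → ∀ i j : ℤ, 0 ≤ i → i ≤ 1 → 0 ≤ j → j ≤ 1 →
      ∑ x ∈ Q, g (x + (i, j)) ≤ ∑ B' ∈ nbh 7 B, ∑ x ∈ cell l B', g x := fun g hg i j _ _ _ _ => by
    rw [rgo_sq (by omega)]
    refine k_shift g hg _ _ _ fun x hx => ?_
    obtain ⟨⟨a1, a2⟩, a3, a4⟩ := (mQ x).1 hx
    simp only [mem_product, mem_Ico, Prod.fst_add, Prod.snd_add]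
    push_cast
    exact ⟨⟨by linarith, by linarith⟩, by linarith, by linarith⟩
  have eb' : Nb l v B = (l : ℝ) ^ 2 * ∑ B' ∈ nbh 7 B, ∑ x ∈ cell l B', n2 v x := by
    rw [Nb, mul_sum]
    rfl
  have el' : Nl l v B = ∑ B' ∈ nbh 7 B, ∑ x ∈ cell l B', n1 v x + Nb l v B := by
    rw [Nl, sum_add_distrib]
    rfl
  have s0 := sh (n2 v) (k_n2_nonneg v) 0 0 le_rfl (by norm_num) le_rfl (by norm_num)
  have s1 := sh (n2 v) (k_n2_nonneg v) 1 0 (by norm_num) le_rfl le_rfl (by norm_num)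
  have s2 := sh (n2 v) (k_n2_nonneg v) 0 1 le_rfl (by norm_num) (by norm_num) le_rfl
  have s3 := sh (n1 v) (k_n1_nonneg v) 0 0 le_rfl (by norm_num) le_rfl (by norm_num)
  have g1 : ∑ x ∈ Q, ‖v (x.1 + 1, x.2) - v (x.1, x.2) - y1‖ ^ 2 ≤ 576 * Nb l v B := by
    refine h1.trans ((mul_le_mul_of_nonneg_left ((sum_le_sum fun x _ => show _ ≤
      n2 v (x + (1, 0)) + n2 v (x + (0, 0)) from add_le_add ?_ ?_).trans (sum_add_distrib.trans_le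
        (add_le_add s1 s0))) (by positivity)).trans_eq (by rw [eb']; push_cast; ring))
    exacts [(rgo_dd v x).1, (rgo_dd v x).2.1]
  have g2 : ∑ x ∈ Q, ‖v (x.1, x.2 + 1) - v (x.1, x.2) - y2‖ ^ 2 ≤ 576 * Nb l v B := by
    refine h2.trans ((mul_le_mul_of_nonneg_left ((sum_le_sum fun x _ => show _ ≤
      n2 v (x + (0, 0)) + n2 v (x + (0, 1)) from add_le_add ?_ ?_).trans (sum_add_distrib.trans_le
        (add_le_add s0 s2))) (by positivity)).trans_eq (by rw [eb']; push_cast; ring))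
    exacts [(rgo_dd v x).2.2.1, (rgo_dd v x).2.2.2]
  have b0 : 0 ≤ Nb l v B := by
    rw [eb']
    exact mul_nonneg (sq_nonneg _) (sum_nonneg fun _ _ => sum_nonneg fun x _ => k_n2_nonneg v x)
  refine ⟨(y1, y2), ?_, ?_⟩
  · have m1 := rgo_mean (S := Q) (fun x => v (x.1 + 1, x.2) - v (x.1, x.2)) y1
    have m2 := rgo_mean (S := Q) (fun x => v (x.1, x.2 + 1) - v (x.1, x.2)) y2
    have u1 : ∑ x ∈ Q, ‖v (x.1 + 1, x.2) - v (x.1, x.2)‖ ^ 2 ≤ 2 * ∑ x ∈ Q, n1 v x := by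
      rw [mul_sum]
      exact sum_le_sum fun x _ => (rgo_e v x.1 x.2).1
    have u2 : ∑ x ∈ Q, ‖v (x.1, x.2 + 1) - v (x.1, x.2)‖ ^ 2 ≤ 2 * ∑ x ∈ Q, n1 v x := by
      rw [mul_sum]
      exact sum_le_sum fun x _ => (rgo_e v x.1 x.2).2
    have u0 : 0 ≤ ∑ x ∈ Q, n1 v x := sum_nonneg fun x _ => k_n1_nonneg v x
    simp only [Prod.mk_zero_zero, add_zero] at s3
    rw [cQ] at m1 m2
    rw [el']
    unfold c0
    change (l : ℝ) ^ 2 * (‖y1‖ ^ 2 + ‖y2‖ ^ 2) ≤ _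
    linarith
  · have sh' : ∀ (g : P → ℝ), (∀ x, 0 ≤ g x) → ∀ i j : ℤ, 0 ≤ i → i ≤ 1 → 0 ≤ j → j ≤ 1 →
        ∑ x ∈ Ico ((B.1 - (5 : ℕ)) * l) ((B.1 + (5 : ℕ) + 1) * l) ×ˢ
          Ico ((B.2 - (5 : ℕ)) * l) ((B.2 + (5 : ℕ) + 1) * l), g (x + (i, j)) ≤ ∑ x ∈ Q, g x :=
      fun g hg i j _ _ _ _ => k_shift g hg _ _ _ fun x hx => by
        simp only [mem_product, mem_Ico] at hx
        obtain ⟨⟨a1, a2⟩, a3, a4⟩ := hx
        rw [mQ, Prod.fst_add, Prod.snd_add]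
        push_cast at *
        exact ⟨⟨by linarith, by linarith⟩, by linarith, by linarith⟩
    have w1 := fun i j => sh' (fun x => ‖v (x.1 + 1, x.2) - v (x.1, x.2) - y1‖ ^ 2)
      (fun _ => sq_nonneg _) i j
    have w2 := fun i j => sh' (fun x => ‖v (x.1, x.2 + 1) - v (x.1, x.2) - y2‖ ^ 2)
      (fun _ => sq_nonneg _) i j
    have a1 := w1 0 0 le_rfl (by norm_num) le_rfl (by norm_num)
    have a2 := w1 0 1 le_rfl (by norm_num) (by norm_num) le_rfl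
    have a3 := w2 0 0 le_rfl (by norm_num) le_rfl (by norm_num)
    have a4 := w2 1 0 (by norm_num) le_rfl le_rfl (by norm_num)
    simp only [Prod.fst_add, Prod.snd_add, add_zero] at a1 a2 a3 a4
    simp only [ea]
    rw [rgo_sq (by omega), sum_congr rfl fun x _ => rgo_lin v (y1, y2) x.1 x.2, ← mul_sum,
      sum_add_distrib, sum_add_distrib, sum_add_distrib]
    refine (mul_le_mul_of_nonneg_left (add_le_add (add_le_add (add_le_add (a4.trans g2)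
      (a2.trans g1)) (a3.trans g2)) (a1.trans g1)) (by norm_num)).trans ?_
    unfold c0
    linarith

end Pool.Agent.Lib.MP_9cc147_pr.Cx
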