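import Pool.Agent.Lib.MP_9cc147_pr.Cx.Rg.S
import Pool.Agent.Lib.MP_9cc147_pr.Cx.K.Sob

/-! Energies of blocks along a ray. -/

open scoped Classical Topology
open Finset MeasureTheory ProbabilityTheory Filter

noncomputable section
namespace Pool.Agent.Lib.MP_9cc147_pr.Cx

theorem rgray_sh {M : Type*} [AddCommMonoid M] (l : ℕ) (B w : P) (h : P → M) :
    ∑ x ∈ cell l B, h (x + l • w) = ∑ y ∈ cell l (B + w), h y := by
  refine sum_equiv (Equiv.addRight (l • w)) (fun x => ?_) fun _ _ => rfl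
  have e1 : (l • w).1 = l * w.1 := by simp
  have e2 : (l • w).2 = l * w.2 := by simp
  simp only [k_mem_cell, Equiv.coe_addRight, Prod.fst_add, Prod.snd_add, e1, e2]
  constructor <;> rintro ⟨⟨h1, h2⟩, h3, h4⟩ <;> refine ⟨⟨?_, ?_⟩, ?_, ?_⟩ <;> linarith

theorem rgray_dd (v : Fld) (d e : Fin 4) : ∃ o : P, (-1 ≤ o.1 ∧ o.1 ≤ 1 ∧ -1 ≤ o.2 ∧ o.2 ≤ 1) ∧
    ∀ a b : ℤ, ‖dg v ((a, b) + dir e) d - dg v (a, b) d‖ ^ 2 ≤ n2 v (a + o.1, b + o.2) := by
  have A := fun a b : ℤ => (k_n2a v a b).1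
  have B := fun a b : ℤ => (k_n2a v a b).2.1
  have C := fun a b : ℤ => (k_n2a v a b).2.2
  have g0 := fun a b => (k_dg v a b).1
  have g1 := fun a b => (k_dg v a b).2.1
  have g2 := fun a b => (k_dg v a b).2.2.1
  have g3 := fun a b => (k_dg v a b).2.2.2
  have e0 := fun a b => (k_dir a b).1
  have e1 := fun a b => (k_dir a b).2.1
  have e2 := fun a b => (k_dir a b).2.2.1
  have e3 := fun a b => (k_dir a b).2.2.2
  match d, e with
  | 0, 0 => exact ⟨(1, 0), by decide, fun a b => k_pm (C _ _) (.inl (by rw [e0, g0, g0]; ring_nf))⟩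
  | 0, 1 => exact ⟨(1, 1), by decide, fun a b => k_pm (B _ _) (.inl (by rw [e1, g0, g0]; ring_nf))⟩
  | 0, 2 => exact ⟨(0, 0), by decide, fun a b => k_pm (C _ _) (.inr (by rw [e2, g0, g0]; ring_nf))⟩
  | 0, 3 => exact ⟨(1, 0), by decide, fun a b => k_pm (B _ _) (.inr (by rw [e3, g0, g0]; ring_nf))⟩
  | 1, 0 => exact ⟨(1, 1), by decide, fun a b => k_pm (A _ _) (.inr (by rw [e0, g1, g1]; ring_nf))⟩
  | 1, 1 => exact ⟨(0, 1), by decide, fun a b => k_pm (C _ _) (.inr (by rw [e1, g1, g1]; ring_nf))⟩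
  | 1, 2 => exact ⟨(0, 1), by decide, fun a b => k_pm (A _ _) (.inl (by rw [e2, g1, g1]; ring_nf))⟩
  | 1, 3 => exact ⟨(0, 0), by decide, fun a b => k_pm (C _ _) (.inl (by rw [e3, g1, g1]; ring_nf))⟩
  | 2, 0 => exact ⟨(0, 0), by decide, fun a b => k_pm (C _ _) (.inr (by rw [e0, g2, g2]; ring_nf))⟩
  | 2, 1 => exact ⟨(0, 1), by decide, fun a b => k_pm (B _ _) (.inr (by rw [e1, g2, g2]; ring_nf))⟩
  | 2, 2 => exact ⟨(-1, 0), by decide, fun a b => k_pm (C _ _) (.inl (by rw [e2, g2, g2]; ring_nf))⟩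
  | 2, 3 => exact ⟨(0, 0), by decide, fun a b => k_pm (B _ _) (.inl (by rw [e3, g2, g2]; ring_nf))⟩
  | 3, 0 => exact ⟨(1, 0), by decide, fun a b => k_pm (A _ _) (.inl (by rw [e0, g3, g3]; ring_nf))⟩
  | 3, 1 => exact ⟨(0, 0), by decide, fun a b => k_pm (C _ _) (.inl (by rw [e1, g3, g3]; ring_nf))⟩
  | 3, 2 => exact ⟨(0, 0), by decide, fun a b => k_pm (A _ _) (.inr (by rw [e2, g3, g3]; ring_nf))⟩
  | 3, 3 => exact ⟨(0, -1), by decide, fun a b => k_pm (C _ _) (.inr (by rw [e3, g3, g3]; ring_nf))⟩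

theorem rgray_near {l : ℕ} (hl : 1 ≤ l) {B x w : P} (hx : x ∈ cell l B)
    (hw : -(l : ℤ) ≤ w.1 ∧ w.1 ≤ l ∧ -(l : ℤ) ≤ w.2 ∧ w.2 ≤ l) : x + w ∈ under l (nbh 2 B) := by
  have hl' : (0 : ℤ) < l := by exact_mod_cast hl
  obtain ⟨⟨h1, h2⟩, h3, h4⟩ := k_mem_cell.1 hx
  obtain ⟨w1, w2, w3, w4⟩ := hw
  rw [k_under_par hl]
  simp only [nbh, par, mem_product, mem_Icc, Prod.fst_add, Prod.snd_add, Nat.cast_ofNat]
  refine ⟨⟨(Int.le_ediv_iff_mul_le hl').2 ?_,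
    Int.lt_add_one_iff.1 ((Int.ediv_lt_iff_lt_mul hl').2 ?_)⟩, (Int.le_ediv_iff_mul_le hl').2 ?_,
    Int.lt_add_one_iff.1 ((Int.ediv_lt_iff_lt_mul hl').2 ?_)⟩ <;> linarith

theorem rgray_under {l : ℕ} (hl : 1 ≤ l) (S : Finset P) (f : P → ℝ) :
    ∑ x ∈ under l S, f x = ∑ B ∈ S, ∑ x ∈ cell l B, f x :=
  sum_biUnion fun _ _ _ _ h => disjoint_left.2 fun _ h1 h2 =>
    h (((k_cell_par hl).1 h1).symm.trans ((k_cell_par hl).1 h2))

/-- the change of an edge difference over one block -/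
theorem rgray_step {l : ℕ} (hl : 1 ≤ l) (v : Fld) (B : P) (d e : Fin 4) :
    ∑ x ∈ cell l B, ‖dg v (x + l • dir e) d - dg v x d‖ ^ 2 ≤ 2 * ∑ B' ∈ nbh 2 B, eb l v B' := by
  obtain ⟨o, ho, h⟩ := rgray_dd v d e
  have h1 : ∀ x ∈ cell l B, ‖dg v (x + l • dir e) d - dg v x d‖ ^ 2 ≤
      2 * l * ∑ r ∈ range l, n2 v (x + (r • dir e + o)) := by
    intro x _
    have := k_ray1 (fun y => dg v y d - dg v (x + l • dir e) d) (dir e) x l l le_rfl
    simp only [sub_self, norm_zero, sub_sub_sub_cancel_right] at this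
    rw [norm_sub_rev] at this
    refine this.trans ?_
    rw [zero_pow two_ne_zero, mul_zero, zero_add]
    refine mul_le_mul_of_nonneg_left (sum_le_sum fun r _ => ?_) (by positivity)
    rw [← add_assoc]
    exact h (x + r • dir e).1 (x + r • dir e).2
  have h2 : ∀ r ∈ range l, ∑ x ∈ cell l B, n2 v (x + (r • dir e + o)) ≤
      ∑ y ∈ under l (nbh 2 B), n2 v y := by
    intro r hr
    have hr' : (r : ℤ) < l := by exact_mod_cast mem_range.1 hr
    refine k_shift _ (k_n2_nonneg v) _ _ _ fun y hy => rgray_near hl hy ?_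
    fin_cases e <;> simp [dir] <;> omega
  refine (sum_le_sum h1).trans ?_
  rw [← mul_sum, sum_comm]
  refine (mul_le_mul_of_nonneg_left (sum_le_sum h2) (by positivity)).trans (le_of_eq ?_)
  rw [sum_const, card_range, nsmul_eq_mul, rgray_under hl]
  unfold eb
  rw [← mul_sum]
  ring

theorem rgray_ea (l : ℕ) (v : Fld) (B : P) :
    ea l v B = 1 / 2 * ∑ d, ∑ x ∈ cell l B, ‖dg v x d‖ ^ 2 := by
  rw [sum_comm, mul_sum]
  rfl

theorem rgray_eb (l : ℕ) (v : Fld) (S : Finset P) : 0 ≤ ∑ B ∈ S, eb l v B :=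
  sum_nonneg fun _ _ => mul_nonneg (by positivity) (sum_nonneg fun _ _ => k_n2_nonneg _ _)

theorem rgray_one {l : ℕ} (hl : 1 ≤ l) (v : Fld) (B : P) (e : Fin 4) (W t : ℕ) (ht : t ≤ W) :
    ea l v B ≤ 2 * ea l v (B + (t : ℤ) • dir e) +
      8 * W * ∑ r ∈ range W, ∑ B' ∈ nbh 2 (B + (r : ℤ) • dir e), eb l v B' := by
  have h1 : ∀ d, ∑ x ∈ cell l B, ‖dg v x d‖ ^ 2 ≤
      2 * ∑ x ∈ cell l (B + (t : ℤ) • dir e), ‖dg v x d‖ ^ 2 +
        4 * W * ∑ r ∈ range W, ∑ B' ∈ nbh 2 (B + (r : ℤ) • dir e), eb l v B' := by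
    intro d
    have h2 := sum_le_sum fun x (_ : x ∈ cell l B) =>
      k_ray1 (fun y => dg v y d) (l • dir e) x W t ht
    rw [sum_add_distrib, ← mul_sum, ← mul_sum, sum_comm] at h2
    have h3 : ∀ r : ℕ, r • l • dir e = l • (r : ℤ) • dir e := fun r => by
      rw [natCast_zsmul, smul_comm]
    simp only [h3] at h2
    rw [rgray_sh l B _ fun y => ‖dg v y d‖ ^ 2] at h2
    have h4 : ∀ r ∈ range W, ∑ x ∈ cell l B, ‖dg v (x + l • (r : ℤ) • dir e + l • dir e) d -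
        dg v (x + l • (r : ℤ) • dir e) d‖ ^ 2 ≤
        2 * ∑ B' ∈ nbh 2 (B + (r : ℤ) • dir e), eb l v B' := fun r _ => by
      rw [rgray_sh l B _ fun y => ‖dg v (y + l • dir e) d - dg v y d‖ ^ 2]
      exact rgray_step hl v _ d e
    have h5 := mul_le_mul_of_nonneg_left (sum_le_sum h4) (by positivity : (0 : ℝ) ≤ 2 * W)
    rw [← mul_sum] at h5
    linarith
  have h6 := sum_le_sum fun d (_ : d ∈ univ) => h1 d
  rw [sum_add_distrib, sum_const, card_univ, Fintype.card_fin, nsmul_eq_mul, ← mul_sum] at h6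
  rw [rgray_ea, rgray_ea]
  push_cast at h6
  linarith

theorem rgray_cs {ι : Type*} (S : Finset ι) (f g : ι → ℝ) :
    ∑ i ∈ S, f i * g i ≤ √(∑ i ∈ S, f i ^ 2) * √(∑ i ∈ S, g i ^ 2) :=
  Real.sum_mul_le_sqrt_mul_sqrt S f g

theorem rgray_two {l : ℕ} (hl : 1 ≤ l) (v : Fld) (B : P) :
    ‖En v (cell l B) - En v (cell l (B + (1, 0)))‖ ≤
      (√(ea l v B) + √(ea l v (B + (1, 0)))) * √(8 * ∑ B' ∈ nbh 2 B, eb l v B') := by
  set S := cell l B ×ˢ (univ : Finset (Fin 4)) with hS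
  set f : P × Fin 4 → ℂ := fun y => dg v y.1 y.2 with hf
  set g : P × Fin 4 → ℂ := fun y => dg v (y.1 + l • dir 0) y.2 with hg
  have hd : dir 0 = (1, 0) := rfl
  have h1 : En v (cell l B) - En v (cell l (B + (1, 0))) =
      1 / 2 * ∑ y ∈ S, (f y + g y) * (f y - g y) := by
    unfold En
    rw [← hd, ← rgray_sh l B (dir 0), ← sum_sub_distrib, hS, sum_product, mul_sum]
    refine sum_congr rfl fun x _ => ?_
    rw [← mul_sub, ← sum_sub_distrib]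
    congr 1
    exact sum_congr rfl fun d _ => by simp only [hf, hg]; ring
  have h2 : ∑ y ∈ S, ‖f y‖ ^ 2 = 2 * ea l v B := by
    rw [rgray_ea, hS, sum_product_right]
    ring
  have h3 : ∑ y ∈ S, ‖g y‖ ^ 2 = 2 * ea l v (B + (1, 0)) := by
    rw [rgray_ea, hS, sum_product_right, ← hd]
    simp only [hg, fun d => rgray_sh l B (dir 0) fun y => ‖dg v y d‖ ^ 2]
    ring
  have h4 : ∑ y ∈ S, ‖f y - g y‖ ^ 2 ≤ 8 * ∑ B' ∈ nbh 2 B, eb l v B' := by
    rw [hS, sum_product_right]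
    have := sum_le_sum fun d (_ : d ∈ univ) => rgray_step hl v B d 0
    rw [sum_const, card_univ, Fintype.card_fin, nsmul_eq_mul (α := ℝ)] at this
    simp only [hf, hg, norm_sub_rev (dg v _ _) (dg v (_ + l • dir 0) _)]
    push_cast at this
    linarith
  have h5 : ‖∑ y ∈ S, (f y + g y) * (f y - g y)‖ ≤
      ∑ y ∈ S, ‖f y‖ * ‖f y - g y‖ + ∑ y ∈ S, ‖g y‖ * ‖f y - g y‖ := by
    rw [← sum_add_distrib]
    refine (norm_sum_le _ _).trans (sum_le_sum fun y _ => ?_)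
    rw [norm_mul, ← add_mul]
    exact mul_le_mul_of_nonneg_right (norm_add_le _ _) (norm_nonneg _)
  have h6 := rgray_cs S (fun y => ‖f y‖) fun y => ‖f y - g y‖
  have h7 := rgray_cs S (fun y => ‖g y‖) fun y => ‖f y - g y‖
  rw [h2] at h6
  rw [h3] at h7
  have h8 := Real.sqrt_le_sqrt h4
  have h9 : ∀ a : ℝ, √(2 * a) ≤ 2 * √a := fun a => by
    rw [Real.sqrt_mul (by norm_num)]
    exact mul_le_mul_of_nonneg_right (Real.sqrt_le_iff.2 (by norm_num)) (Real.sqrt_nonneg _)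
  have h10 := mul_le_mul (h9 (ea l v B)) h8 (Real.sqrt_nonneg _) (by positivity)
  have h11 := mul_le_mul (h9 (ea l v (B + (1, 0)))) h8 (Real.sqrt_nonneg _) (by positivity)
  rw [h1, norm_mul]
  have h12 : ‖(1 / 2 : ℂ)‖ = 1 / 2 := by simp
  rw [h12]
  linarith

theorem t_rg_ray : S_rg_ray := by
  intro l v B hl
  refine ⟨fun d W hW => ?_, rgray_two hl v B⟩
  have hW' : (0 : ℝ) < W := by exact_mod_cast hW
  have h1 := sum_le_sum fun t (ht : t ∈ range W) => rgray_one hl v B d W t (mem_range.1 ht).le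
  rw [sum_const, sum_add_distrib, sum_const, card_range, nsmul_eq_mul, nsmul_eq_mul,
    ← mul_sum] at h1
  have h2 : 0 ≤ ∑ r ∈ range W, ∑ B' ∈ nbh 2 (B + (r : ℤ) • dir d), eb l v B' :=
    sum_nonneg fun _ _ => rgray_eb _ _ _
  generalize ∑ r ∈ range W, ∑ B' ∈ nbh 2 (B + (r : ℤ) • dir d), eb l v B' = b at h1 h2 ⊢
  generalize ∑ t ∈ range W, ea l v (B + (t : ℤ) • dir d) = a at h1 ⊢
  rw [← mul_le_mul_iff_right₀ hW']
  have h3 : W * (2 / W * a + 16 * W * b) = 2 * a + 2 * (W * (8 * W * b)) := by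
    field_simp
    ring
  have h4 : 0 ≤ W * (8 * W * b) := by positivity
  rw [h3]
  linarith

end Pool.Agent.Lib.MP_9cc147_pr.Cx
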