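import Pool.Agent.Lib.MP_9cc147_pr.Cx.Rg.S
import Pool.Agent.Lib.MP_9cc147_pr.Cx.T.Geo2

/-! The regulator passes from one scale to the next. -/

open scoped Classical Topology
open Finset MeasureTheory ProbabilityTheory Filter

noncomputable section
namespace Pool.Agent.Lib.MP_9cc147_pr.Cx

theorem rgreg_bi {ι : Type} (g : P → ℝ) (hg : ∀ x, 0 ≤ g x) (X : Finset ι) (f : ι → Finset P) :
    ∑ x ∈ X.biUnion f, g x ≤ ∑ B ∈ X, ∑ x ∈ f B, g x := by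
  induction X using Finset.induction_on with
  | empty => simp
  | insert a s ha ih =>
    rw [biUnion_insert, sum_insert ha]
    have h1 := sum_union_inter (s₁ := f a) (s₂ := s.biUnion f) (f := g)
    have h2 : 0 ≤ ∑ x ∈ f a ∩ s.biUnion f, g x := sum_nonneg fun x _ => hg x
    linarith

theorem rgreg_sq (a b : ℂ) : ‖a + b‖ ^ 2 ≤ 2 * ‖a‖ ^ 2 + 2 * ‖b‖ ^ 2 := by
  have h := pow_le_pow_left₀ (norm_nonneg _) (norm_add_le a b) 2
  nlinarith [sq_nonneg (‖a‖ - ‖b‖)]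

theorem rgreg_n1 (v w : Fld) (x : P) : n1 (v + w) x ≤ 2 * n1 v x + 2 * n1 w x := by
  have h : ∑ d, ‖dg (v + w) x d‖ ^ 2 ≤ ∑ d, (2 * ‖dg v x d‖ ^ 2 + 2 * ‖dg w x d‖ ^ 2) :=
    sum_le_sum fun d _ => by
      rw [show dg (v + w) x d = dg v x d + dg w x d by simp only [dg, Pi.add_apply]; ring]
      exact rgreg_sq _ _
  rw [sum_add_distrib, ← mul_sum, ← mul_sum] at h
  unfold n1; linarith

theorem rgreg_n2 (v w : Fld) (p : P) : n2 (v + w) p ≤ 2 * n2 v p + 2 * n2 w p := by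
  have h1 := rgreg_sq (v (p + (1, 0)) - 2 * v p + v (p - (1, 0)))
    (w (p + (1, 0)) - 2 * w p + w (p - (1, 0)))
  have h2 := rgreg_sq (v (p + (0, 1)) - 2 * v p + v (p - (0, 1)))
    (w (p + (0, 1)) - 2 * w p + w (p - (0, 1)))
  have h3 := rgreg_sq (v (p + (1, 1)) - v (p + (1, 0)) - v (p + (0, 1)) + v p)
    (w (p + (1, 1)) - w (p + (1, 0)) - w (p + (0, 1)) + w p)
  unfold n2
  simp only [Pi.add_apply]
  rw [show v (p + (1, 0)) + w (p + (1, 0)) - 2 * (v p + w p) + (v (p - (1, 0)) + w (p - (1, 0))) =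
      v (p + (1, 0)) - 2 * v p + v (p - (1, 0)) + (w (p + (1, 0)) - 2 * w p + w (p - (1, 0))) by ring,
    show v (p + (0, 1)) + w (p + (0, 1)) - 2 * (v p + w p) + (v (p - (0, 1)) + w (p - (0, 1))) =
      v (p + (0, 1)) - 2 * v p + v (p - (0, 1)) + (w (p + (0, 1)) - 2 * w p + w (p - (0, 1))) by ring,
    show v (p + (1, 1)) + w (p + (1, 1)) - (v (p + (1, 0)) + w (p + (1, 0))) -
      (v (p + (0, 1)) + w (p + (0, 1))) + (v p + w p) =
      v (p + (1, 1)) - v (p + (1, 0)) - v (p + (0, 1)) + v p +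
        (w (p + (1, 1)) - w (p + (1, 0)) - w (p + (0, 1)) + w p) by ring]
  linarith

theorem rgreg_cf (θ ζ : P → ℝ) : cf (θ + ζ) = cf θ + cf ζ := by
  ext p; simp [cf]

theorem rgreg_nb_par {l : ℕ} (hl : 100 ≤ l) {B x : P} (hx : x ∈ nb l B) : nr 1 B (par l x) := by
  have h0 : (0 : ℤ) < l := by exact_mod_cast (show 0 < l by omega)
  have hw : ((l / 4 : ℕ) : ℤ) < l := by exact_mod_cast (show l / 4 < l by omega)
  obtain ⟨h1, h2, h3, h4⟩ := T.mem_fat.1 hx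
  have key : ∀ b y : ℤ, b * l - (l / 4 : ℕ) ≤ y → y ≤ (b + 1) * l + (l / 4 : ℕ) →
      b - 1 ≤ y / l ∧ y / l < b + 2 := fun b y e1 e2 =>
    ⟨(Int.le_ediv_iff_mul_le h0).2 (by linarith), (Int.ediv_lt_iff_lt_mul h0).2 (by linarith)⟩
  have k1 := key _ _ h1 h2
  have k2 := key _ _ h3 h4
  rw [T.nr_iff]
  simp only [par]
  omega

theorem rgreg_nb_nr {l : ℕ} (hl : 100 ≤ l) {a b x : P} (ha : x ∈ nb l a) (hb : x ∈ nb l b) :
    nr 1 a b := by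
  have h0 : (0 : ℤ) < l := by exact_mod_cast (show 0 < l by omega)
  have hw : 2 * ((l / 4 : ℕ) : ℤ) < l := by exact_mod_cast (show 2 * (l / 4) < l by omega)
  obtain ⟨h1, h2, h3, h4⟩ := T.mem_fat.1 ha
  obtain ⟨h5, h6, h7, h8⟩ := T.mem_fat.1 hb
  have key : ∀ s t y : ℤ, s * l - (l / 4 : ℕ) ≤ y → y ≤ (t + 1) * l + (l / 4 : ℕ) → s - t < 2 :=
    fun s t y e1 e2 => lt_of_mul_lt_mul_right (a := (l : ℤ)) (by linarith) h0.le
  have k1 := key _ _ _ h1 h6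
  have k2 := key _ _ _ h5 h2
  have k3 := key _ _ _ h3 h8
  have k4 := key _ _ _ h7 h4
  rw [T.nr_iff]
  omega

theorem rgreg_cell_nb (l : ℕ) (B : P) : cell l B ⊆ nb l B := fun x hx => by
  simp only [cell, mem_product, mem_Ico] at hx
  have : (0 : ℤ) ≤ (l / 4 : ℕ) := by positivity
  exact T.mem_fat.2 ⟨by linarith [hx.1.1], by linarith [hx.1.2], by linarith [hx.2.1],
    by linarith [hx.2.2]⟩

theorem rgreg_under_nbs (l : ℕ) (X : Finset P) : under l X ⊆ nbs l X := fun x hx => by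
  obtain ⟨B, hB, h⟩ := mem_biUnion.1 hx
  exact mem_biUnion.2 ⟨B, hB, rgreg_cell_nb l B h⟩

theorem rgreg_nbs_mono (l : ℕ) {X Y : Finset P} (h : X ⊆ Y) : nbs l X ⊆ nbs l Y :=
  biUnion_subset_biUnion_of_subset_left _ h

theorem rgreg_ea {l : ℕ} (hl : 0 < l) (v : Fld) (F : Finset P) :
    ∑ B ∈ F, ea l v B = ∑ x ∈ under l F, n1 v x := by
  unfold under ea
  rw [sum_biUnion]
  intro a _ b _ hab
  exact disjoint_left.2 fun x h1 h2 => hab (((T.mem_cell hl).1 h1).symm.trans ((T.mem_cell hl).1 h2))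

theorem rgreg_under {L l : ℕ} (hL : 0 < L) (hl : 0 < l) (U : Finset P) (x : P) :
    x ∈ under (L * l) U ↔ par l x ∈ under L U := by
  rw [T.mem_under (Nat.mul_pos hL hl), T.mem_under hL]
  have e : par (L * l) x = par L (par l x) := by
    simp only [par]
    rw [Int.ediv_ediv_of_nonneg (Int.natCast_nonneg _),
      Int.ediv_ediv_of_nonneg (Int.natCast_nonneg _)]
    push_cast
    rw [mul_comm (L : ℤ)]
  rw [e]

/-- the regulators of separated polymers add up -/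
theorem rgreg_sum {l : ℕ} (hl : 100 ≤ l) (φ : P → ℝ) {Xs : Finset (Finset P)}
    (hs : ∀ X ∈ Xs, ∀ Y ∈ Xs, X ≠ Y → ∀ a ∈ X, ∀ b ∈ Y, ¬ nr 1 a b) :
    ∑ X ∈ Xs, Reg l X φ ≤ Reg l (Xs.biUnion id) φ := by
  have hd : ∀ X ∈ Xs, ∀ Y ∈ Xs, ∀ x, x ∈ nbs l X → x ∈ nbs l Y → X = Y := by
    intro X hX Y hY x h1 h2
    by_contra hne
    obtain ⟨a, ha, e1⟩ := mem_biUnion.1 h1
    obtain ⟨b, hb, e2⟩ := mem_biUnion.1 h2
    exact hs X hX Y hY hne a ha b hb (rgreg_nb_nr hl e1 e2)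
  have key : ∀ (g : P → ℝ), (∀ x, 0 ≤ g x) → ∀ (S : Finset P → Finset P) (V : Finset P),
      (∀ X, S X ⊆ nbs l X) → (∀ X ∈ Xs, S X ⊆ V) → ∑ X ∈ Xs, ∑ x ∈ S X, g x ≤ ∑ x ∈ V, g x := by
    intro g hg S V h1 h2
    rw [← sum_biUnion]
    · exact sum_le_sum_of_subset_of_nonneg (biUnion_subset.2 h2) fun x _ _ => hg x
    · intro X hX Y hY hne
      exact disjoint_left.2 fun x e1 e2 => hne (hd X hX Y hY x (h1 X e1) (h1 Y e2))
  have hsub : ∀ X ∈ Xs, X ⊆ Xs.biUnion id := fun X hX => subset_biUnion_of_mem id hX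
  have k1 := key _ (T.n1_nn (cf φ)) (under l) (under l (Xs.biUnion id)) (rgreg_under_nbs l)
    fun X hX => T.under_mono (hsub X hX)
  have k2 := key _ (T.n1_nn (cf φ)) (fun X => nbs l X \ under l X)
    (nbs l (Xs.biUnion id) \ under l (Xs.biUnion id)) (fun X => sdiff_subset) fun X hX x hx => by
      obtain ⟨e1, e2⟩ := mem_sdiff.1 hx
      refine mem_sdiff.2 ⟨rgreg_nbs_mono l (hsub X hX) e1, fun e3 => e2 ?_⟩
      obtain ⟨B, hB, e4⟩ := mem_biUnion.1 e3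
      obtain ⟨Y, hY, e5⟩ := mem_biUnion.1 hB
      have e6 : x ∈ under l Y := mem_biUnion.2 ⟨B, e5, e4⟩
      rw [hd X hX Y hY x e1 (rgreg_under_nbs l Y e6)]; exact e6
  have k3 := key _ (T.n2_nn (cf φ)) (nbs l) (nbs l (Xs.biUnion id)) (fun X => Subset.rfl)
    fun X hX => rgreg_nbs_mono l (hsub X hX)
  unfold Reg
  rw [sum_add_distrib, sum_add_distrib, ← mul_sum, ← mul_sum]
  have := mul_le_mul_of_nonneg_left k3 (sq_nonneg (l : ℝ))
  linarith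

theorem rgreg_N0 (l : ℕ) (v : Fld) (Z : Finset P) :
    ∑ x ∈ nbs l Z, n1 v x + (l : ℝ) ^ 2 * ∑ x ∈ nbs l Z, n2 v x ≤ ∑ B ∈ Z, N0 l v (nb l B) := by
  rw [mul_sum, ← sum_add_distrib]
  refine (rgreg_bi _ (fun x => add_nonneg (T.n1_nn v x)
    (mul_nonneg (sq_nonneg _) (T.n2_nn v x))) Z (nb l)).trans (sum_le_sum fun B _ => ?_)
  unfold N0 Nf
  exact le_add_of_nonneg_right (sum_nonneg fun p _ => by positivity)

theorem rgreg_N0_nn (l : ℕ) (v : Fld) (S : Finset P) : 0 ≤ N0 l v S :=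
  add_nonneg (sum_nonneg fun x _ => add_nonneg (T.n1_nn v x)
    (mul_nonneg (sq_nonneg _) (T.n2_nn v x))) (sum_nonneg fun p _ => by positivity)

theorem t_rg_reg (h_out : S_rg_out) (h_cut : S_rg_cut) : S_rg_reg := by
  intro L l θ ζ U F Xs hL hl hs hn hF
  have hc : c0 = 10 ^ 8 := rfl
  have hLr : (10 : ℝ) ^ 16 ≤ L := by rw [hc] at hL; linarith
  have hL1 : 1000 ≤ L := by
    have : ((1000 : ℕ) : ℝ) ≤ L := by push_cast; linarith
    exact_mod_cast this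
  have hL0 : 0 < L := by omega
  have hl0 : 0 < l := by omega
  refine le_trans (add_le_add_left (rgreg_sum hl (θ + ζ) hs) _) ?_
  set Z := Xs.biUnion id
  set W := under L U
  set Y := Z ∩ W
  set O := (F ∪ Z.biUnion (nbh 1)) \ W
  have a0 := T.n1_nn (cf θ)
  have b0 := T.n2_nn (cf θ)
  have hO := h_out L l (cf θ) U O hL1 hl fun B hB => by
    obtain ⟨e1, e2⟩ := mem_sdiff.1 hB
    refine ⟨e2, ?_⟩
    rcases mem_union.1 e1 with e | e
    · obtain ⟨B0, h0, h1⟩ := hn B (mem_union_left _ e)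
      exact ⟨B0, h0, T.nr_trans h1 (T.nr_refl 0 B) (by norm_num)⟩
    · obtain ⟨B1, h1, h2⟩ := mem_biUnion.1 e
      obtain ⟨B0, h0, h3⟩ := hn B1 (mem_union_right _ h1)
      refine ⟨B0, h0, T.nr_trans h3 (k' := 1) ?_ (by norm_num)⟩
      simp only [nbh, mem_product, mem_Icc] at h2
      rw [T.nr_iff]; omega
  have hC := h_cut l θ ζ Y hl
  rw [rgreg_ea hl0] at hO ⊢
  have mU := rgreg_under hL0 hl0 U
  have mO : ∀ x, x ∉ under (L * l) U → (par l x ∈ F ∨ x ∈ nbs l Z) → x ∈ under l O := by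
    intro x h1 h2
    refine (T.mem_under hl0).2 (mem_sdiff.2 ⟨?_, fun e => h1 ((mU x).2 e)⟩)
    rcases h2 with h2 | h2
    · exact mem_union_left _ h2
    · obtain ⟨B, hB, e⟩ := mem_biUnion.1 h2
      refine mem_union_right _ (mem_biUnion.2 ⟨B, hB, ?_⟩)
      have := T.nr_iff.1 (rgreg_nb_par hl e)
      simp only [nbh, mem_product, mem_Icc]
      omega
  have hYU : under l Y ⊆ under (L * l) U := fun x hx =>
    (mU x).2 (mem_inter.1 ((T.mem_under hl0).1 hx)).2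
  have key : ∀ S : Finset P, (∀ x ∈ S, x ∉ under l Y ∧ (par l x ∈ F ∨ x ∈ nbs l Z)) →
      ∑ x ∈ S, n1 (cf θ) x ≤ ∑ x ∈ under (L * l) U \ under l Y, n1 (cf θ) x +
        ∑ x ∈ under l O, n1 (cf θ) x := by
    intro S hS
    have h1 := sum_union_inter (s₁ := under (L * l) U \ under l Y) (s₂ := under l O)
      (f := n1 (cf θ))
    have h2 : 0 ≤ ∑ x ∈ (under (L * l) U \ under l Y) ∩ under l O, n1 (cf θ) x :=
      sum_nonneg fun x _ => a0 x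
    have h3 : ∑ x ∈ S, n1 (cf θ) x ≤ ∑ x ∈ under (L * l) U \ under l Y ∪ under l O, n1 (cf θ) x := by
      refine sum_le_sum_of_subset_of_nonneg (fun x hx => ?_) fun x _ _ => a0 x
      by_cases e : x ∈ under (L * l) U
      · exact mem_union_left _ (mem_sdiff.2 ⟨e, (hS x hx).1⟩)
      · exact mem_union_right _ (mO x e (hS x hx).2)
    linarith
  have hYZ : Y ⊆ Z := inter_subset_left
  have k1 := key (nbs l Y \ under l Y) fun x hx =>
    ⟨(mem_sdiff.1 hx).2, Or.inr (rgreg_nbs_mono l hYZ (mem_sdiff.1 hx).1)⟩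
  have k2 := key (nbs l Z \ under l Z) fun x hx =>
    ⟨fun e => (mem_sdiff.1 hx).2 (T.under_mono hYZ e), Or.inr (mem_sdiff.1 hx).1⟩
  have k3 := key (under l F) fun x hx => by
    have e := (T.mem_under hl0).1 hx
    refine ⟨fun e1 => ?_, Or.inl e⟩
    have e2 := mem_inter.1 ((T.mem_under hl0).1 e1)
    exact hF _ e e2.2 e2.1
  have k4 : ∑ x ∈ under l Z \ under l Y, n1 (cf θ) x ≤ ∑ x ∈ under l O, n1 (cf θ) x := by
    refine sum_le_sum_of_subset_of_nonneg (fun x hx => ?_) fun x _ _ => a0 x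
    obtain ⟨e1, e2⟩ := mem_sdiff.1 hx
    exact mO x (fun e => e2 ((T.mem_under hl0).2
      (mem_inter.2 ⟨(T.mem_under hl0).1 e1, (mU x).1 e⟩))) (Or.inr (rgreg_under_nbs l Z e1))
  have s1 := sum_sdiff (f := n1 (cf θ)) hYU
  have s2 := sum_sdiff (f := n1 (cf (θ + ζ))) (T.under_mono (L := l) hYZ)
  have two : ∀ S : Finset P, S ⊆ nbs l Z → ∑ x ∈ S, n1 (cf (θ + ζ)) x ≤
      2 * ∑ x ∈ S, n1 (cf θ) x + 2 * ∑ x ∈ nbs l Z, n1 (cf ζ) x := by
    intro S hS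
    have h1 : ∑ x ∈ S, n1 (cf ζ) x ≤ ∑ x ∈ nbs l Z, n1 (cf ζ) x :=
      sum_le_sum_of_subset_of_nonneg hS fun x _ _ => T.n1_nn _ x
    have h2 : ∑ x ∈ S, n1 (cf (θ + ζ)) x ≤ ∑ x ∈ S, (2 * n1 (cf θ) x + 2 * n1 (cf ζ) x) :=
      sum_le_sum fun x _ => by rw [rgreg_cf]; exact rgreg_n1 _ _ x
    rw [sum_add_distrib, ← mul_sum, ← mul_sum] at h2
    linarith
  have t1 := two (under l Z \ under l Y) (sdiff_subset.trans (rgreg_under_nbs l Z))
  have t2 := two (nbs l Z \ under l Z) sdiff_subset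
  have t3 : ∑ x ∈ nbs l Z, n2 (cf (θ + ζ)) x ≤
      2 * ∑ x ∈ nbs l Z, n2 (cf θ) x + 2 * ∑ x ∈ nbs l Z, n2 (cf ζ) x := by
    rw [mul_sum, mul_sum, ← sum_add_distrib]
    exact sum_le_sum fun x _ => by rw [rgreg_cf]; exact rgreg_n2 _ _ x
  have hZU : nbs l Z ⊆ nbs (L * l) U := fun p hp => by
    obtain ⟨B, hB, e⟩ := mem_biUnion.1 hp
    obtain ⟨B0, h0, h1⟩ := hn B (mem_union_right _ hB)
    refine mem_biUnion.2 ⟨par L B0, (T.mem_under hL0).1 h0, ?_⟩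
    rw [mul_comm L l]
    exact T.nb_up (by omega) (T.nr_trans h1 (T.nr_refl 0 B) (by norm_num)) e
  have u1 : ∑ x ∈ nbs l Z, n2 (cf θ) x ≤ ∑ x ∈ nbs (L * l) U, n2 (cf θ) x :=
    sum_le_sum_of_subset_of_nonneg hZU fun x _ _ => b0 x
  have u2 : ∑ x ∈ nbs l Y, n2 (cf θ) x ≤ ∑ x ∈ nbs l Z, n2 (cf θ) x :=
    sum_le_sum_of_subset_of_nonneg (rgreg_nbs_mono l hYZ) fun x _ _ => b0 x
  have u3 : ∑ B ∈ Y, N0 l (cf ζ) (nb l B) ≤ ∑ B ∈ Z, N0 l (cf ζ) (nb l B) :=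
    sum_le_sum_of_subset_of_nonneg hYZ fun B _ _ => rgreg_N0_nn _ _ _
  have u4 := rgreg_N0 l (cf ζ) Z
  have p1 : 0 ≤ ∑ x ∈ nbs l Z, n1 (cf ζ) x := sum_nonneg fun x _ => T.n1_nn _ x
  have p2 : 0 ≤ (l : ℝ) ^ 2 * ∑ x ∈ nbs l Z, n2 (cf ζ) x :=
    mul_nonneg (sq_nonneg _) (sum_nonneg fun x _ => T.n2_nn _ x)
  have p3 : 0 ≤ ∑ x ∈ nbs (L * l) U \ under (L * l) U, n1 (cf θ) x := sum_nonneg fun x _ => a0 x
  have p4 : 0 ≤ ∑ x ∈ nbs (L * l) U, n2 (cf θ) x := sum_nonneg fun x _ => b0 x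
  have p5 : 0 ≤ ∑ x ∈ under (L * l) U \ under l Y, n1 (cf θ) x := sum_nonneg fun x _ => a0 x
  have p6 : 0 ≤ ∑ x ∈ under l O, n1 (cf θ) x := sum_nonneg fun x _ => a0 x
  have p7 : 0 ≤ ((L * l : ℕ) : ℝ) ^ 2 * ∑ x ∈ nbs (L * l) U, n2 (cf θ) x :=
    mul_nonneg (sq_nonneg _) p4
  have q1 : c0 / L ≤ 1 / 100 := by
    rw [hc, div_le_div_iff₀ (by linarith) (by norm_num)]; linarith
  have q2 := hO.trans (mul_le_mul_of_nonneg_right q1 (add_nonneg p3 p7))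
  have q3 : 4 * ((l : ℝ) ^ 2 * ∑ x ∈ nbs (L * l) U, n2 (cf θ) x) ≤
      ((L * l : ℕ) : ℝ) ^ 2 * ∑ x ∈ nbs (L * l) U, n2 (cf θ) x := by
    rw [← mul_assoc]
    refine mul_le_mul_of_nonneg_right ?_ p4
    push_cast
    rw [mul_pow]
    exact mul_le_mul_of_nonneg_right (by nlinarith) (sq_nonneg _)
  have v1 := mul_le_mul_of_nonneg_left t3 (sq_nonneg (l : ℝ))
  have v2 := mul_le_mul_of_nonneg_left u1 (sq_nonneg (l : ℝ))
  have v3 := mul_le_mul_of_nonneg_left u2 (sq_nonneg (l : ℝ))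
  rw [mul_add, mul_left_comm, mul_left_comm ((l : ℝ) ^ 2) 2] at v1
  unfold Reg
  rw [hc]
  linarith

end Pool.Agent.Lib.MP_9cc147_pr.Cx
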