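import Pool.Agent.Lib.MP_9cc147_pr.Cx.Rg.D

/-! Statements of the steps of the bounds on one renormalisation step. -/

open scoped Classical Topology
open Finset MeasureTheory ProbabilityTheory Filter

noncomputable section
namespace Pool.Agent.Lib.MP_9cc147_pr.Cx

def S_rg_env : Prop := ∀ᶠ q in FP, ∃ Cu C0 ε0, q.Env Cu C0 ε0

def S_rg_ray : Prop := ∀ (l : ℕ) (v : Fld) (B : P), 1 ≤ l →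
  (∀ (d : Fin 4) (W : ℕ), 1 ≤ W → ea l v B ≤ 2 / W * ∑ t ∈ range W, ea l v (B + (t : ℤ) • dir d) +
    16 * W * ∑ t ∈ range W, ∑ B' ∈ nbh 2 (B + (t : ℤ) • dir d), eb l v B') ∧
  ‖En v (cell l B) - En v (cell l (B + (1, 0)))‖ ≤
    (√(ea l v B) + √(ea l v (B + (1, 0)))) * √(8 * ∑ B' ∈ nbh 2 B, eb l v B')

def S_rg_thin : Prop := ∀ (L l : ℕ) (v : Fld) (B' : P), 1000 ≤ L → 100 ≤ l →
  (∀ B ∈ cell L B', Nl l v B ≤ c0 / L * Nf (L * l) v (nb (L * l) B')) ∧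
  ∑ B ∈ cell L B', Nl l v B ≤ 225 * Nf (L * l) v (nb (L * l) B') ∧
  ∑ B ∈ cell L B', Nb l v B ≤ 225 / (L : ℝ) ^ 2 * Nf (L * l) v (nb (L * l) B') ∧
  ∀ m : ℕ, cell L B' ⊆ box m →
    ∑ B ∈ (cell L B').filter (fun B => ¬ deep 5 m B), Nl l v B ≤
      c0 / L * Nf (L * l) v (nb (L * l) B') ∧
    ‖∑ B ∈ (cell L B').filter (deep 5 m), (if Even (B.1 + B.2) then 1 else -1) * En v (cell l B)‖ ≤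
      c0 / L * Nf (L * l) v (nb (L * l) B')

def S_rg_out : Prop := ∀ (L l : ℕ) (v : Fld) (U O : Finset P), 1000 ≤ L → 100 ≤ l →
  (∀ B ∈ O, B ∉ under L U ∧ ∃ B0 ∈ under L U, nr 6 B0 B) →
  ∑ B ∈ O, ea l v B ≤ c0 / L * (∑ x ∈ nbs (L * l) U \ under (L * l) U, n1 v x +
    ((L * l : ℕ) : ℝ) ^ 2 * ∑ p ∈ nbs (L * l) U, n2 v p)

def S_rg_cut : Prop := ∀ (l : ℕ) (θ ζ : P → ℝ) (Y : Finset P), 100 ≤ l →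
  ∑ x ∈ under l Y, n1 (cf (θ + ζ)) x ≤ ∑ x ∈ under l Y, n1 (cf θ) x +
    1 / 16 * ∑ x ∈ nbs l Y \ under l Y, n1 (cf θ) x + (l : ℝ) ^ 2 * ∑ p ∈ nbs l Y, n2 (cf θ) p +
    10 ^ 6 * ∑ B ∈ Y, N0 l (cf ζ) (nb l B)

def S_rg_reg : Prop := ∀ (L l : ℕ) (θ ζ : P → ℝ) (U F : Finset P) (Xs : Finset (Finset P)),
  c0 ^ 2 ≤ L → 100 ≤ l → (∀ X ∈ Xs, ∀ Y ∈ Xs, X ≠ Y → ∀ a ∈ X, ∀ b ∈ Y, ¬ nr 1 a b) →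
  (∀ B ∈ F ∪ Xs.biUnion id, ∃ B0 ∈ under L U, nr 4 B0 B) →
  (∀ B ∈ F, B ∈ under L U → B ∉ Xs.biUnion id) →
  ∑ X ∈ Xs, Reg l X (θ + ζ) + 1 / 4 * ∑ B ∈ F, ea l (cf θ) B ≤
    Reg (L * l) U θ + c0 * ∑ B ∈ Xs.biUnion id, N0 l (cf ζ) (nb l B)

def S_rg_osc : Prop := ∀ (l : ℕ) (v : Fld) (B : P), 100 ≤ l →
  ∀ p ∈ fat l (4 * l) B, ∀ p' ∈ fat l (4 * l) B,
    ‖v p - v p'‖ ^ 2 ≤ c0 * ∑ B' ∈ nbh 5 B, (ea l v B' + eb l v B')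
def S_rg_aff : Prop := ∀ (l : ℕ) (v : Fld) (B : P), 100 ≤ l → ∃ y : ℂ × ℂ,
  (l : ℝ) ^ 2 * (‖y.1‖ ^ 2 + ‖y.2‖ ^ 2) ≤ c0 * Nl l v B ∧
    ∑ B' ∈ nbh 5 B, ea l (v - lin y) B' ≤ c0 * Nb l v B

def S_rg_sch : Prop :=
  (∀ (f : ℂ → ℂ) (ρ M : ℝ) (s : ℂ), DifferentiableOn ℂ f (Metric.ball 0 ρ) →
    (∀ t ∈ Metric.ball (0 : ℂ) ρ, ‖f t‖ ≤ M) → ‖s‖ < ρ → ‖f s - f 0‖ ≤ 2 * M * (‖s‖ / ρ) ∧
    ((∀ t ∈ Metric.ball (0 : ℂ) ρ, f (-t) = f t) → ‖f s - f 0‖ ≤ 2 * M * (‖s‖ / ρ) ^ 2)) ∧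
  (∀ (F : ℂ → ℂ → ℂ) (ρ1 ρ2 M : ℝ) (s t : ℂ),
    (∀ t ∈ Metric.ball (0 : ℂ) ρ2, DifferentiableOn ℂ (fun s => F s t) (Metric.ball 0 ρ1)) →
    (∀ s ∈ Metric.ball (0 : ℂ) ρ1, DifferentiableOn ℂ (F s) (Metric.ball 0 ρ2)) →
    (∀ s ∈ Metric.ball (0 : ℂ) ρ1, ∀ t ∈ Metric.ball (0 : ℂ) ρ2, ‖F s t‖ ≤ M) → ‖s‖ < ρ1 →
    ‖t‖ < ρ2 → ‖F s t - F s 0 - F 0 t + F 0 0‖ ≤ 4 * M * (‖s‖ / ρ1) * (‖t‖ / ρ2)) ∧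
  ∀ (F : ℂ × ℂ → ℂ) (ρ M w : ℝ) (y : ℂ × ℂ),
    (∀ t ∈ Metric.ball (0 : ℂ) ρ, DifferentiableOn ℂ (fun s => F (s, t)) (Metric.ball 0 ρ) ∧
      DifferentiableOn ℂ (fun s => F (t, s)) (Metric.ball 0 ρ)) →
    (∀ y : ℂ × ℂ, ‖y.1‖ < ρ → ‖y.2‖ < ρ → ‖F y‖ ≤ M ∧ F (-y.1, y.2) = F y ∧
      F (y.1, -y.2) = F y ∧ F (y.2, y.1) = F y) →
    0 < w → w < ρ → ‖y.1‖ < ρ → ‖y.2‖ < ρ →
    ‖F y - F 0 - (F (w, 0) - F 0) / (w : ℂ) ^ 2 * (y.1 ^ 2 + y.2 ^ 2)‖ ≤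
      40 * M * ((‖y.1‖ ^ 2 + ‖y.2‖ ^ 2) / ρ ^ 2) * ((‖y.1‖ ^ 2 + ‖y.2‖ ^ 2) / ρ ^ 2 + w ^ 2 / ρ ^ 2)

def S_rg_str : Prop := ∀ (n L l : ℕ) (h h' : ℝ) (v : Fld), 1000 ≤ L → 100 ≤ l →
  (∀ U X, Strip n (L * l) h h' U v → (∀ B ∈ X, ∃ B0 ∈ under L U, nr 4 B0 B) →
    Strip n l h h' X v ∧ ∀ B ∈ X, ea l v B ≤ h ^ 2 ∧ ∀ p ∈ fat l 0 B, p ∈ ring n → v p = 0) ∧
  ∀ X, (∀ B ∈ X, Nf l v (nb l B) ≤ h ^ 2) → (∀ p ∈ nbs l X, p ∈ ring n → v p = 0) →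
    (∀ p ∈ nbs l X, ∀ p' ∈ nbs l X, ‖v p - v p'‖ ≤ h') → Strip n l h h' X v

def S_rg_qz : Prop := ∀ (q : Par) Cu C0 ε0 b j (z : ℂ), q.Env Cu C0 ε0 → Par.ok b j →
  ∀ B ∈ box (q.m b j),
  (‖z‖ ≤ 1 → ∀ V : Fld, (∀ p ∈ fat (q.l j) 0 B, p ∈ ring (q.n b) → V p = 0) →
    ‖q.Qz b j z B (bg (q.n b) z + V)‖ ≤ 2 * ea (q.l j) V B + 2 * Cu ∧ (¬ ab (q.m b j) B →
      ‖En (bg (q.n b) z) (cell (q.l j) B)‖ ≤ Cu ∧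
      ‖En (bg (q.n b) z + V) (cell (q.l j) B) - En V (cell (q.l j) B)‖ ≤
        2 * √(Cu * ea (q.l j) V B) + Cu)) ∧
  ‖q.Ez b j (fun Θ => En Θ (cell (q.l j) B)) 0‖ ≤ 1 / q.κ ∧ ∀ Θ,
    Integrable (fun ω => q.Qz b j z B (Θ + cf (zeta q.L (q.n b) j ω))) PP ∧
    q.Ez b j (q.Qz b j z B) Θ = q.Qz b j z B Θ + q.Ez b j (fun Θ => En Θ (cell (q.l j) B)) 0

def S_rg_g : Prop := ∀ (q : Par) Cu C0 ε0 t0 b j X F (a : ℝ), q.Env Cu C0 ε0 → Par.ok b j →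
  Pm (q.m b j) X → X.card ≤ 4 → 0 ≤ a → q.Act1 t0 b j X F a →
  q.Act2 t0 b j X (fun z => q.Ez b j (F z)) (16 * a) ∧ ∀ z, ‖z‖ ≤ t0 → ∀ θ, Dir (q.n b) θ →
    ∀ v, Strip (q.n b) (q.l j) q.h (q.L * q.h) X v →
      Integrable (fun ω => F z (bg (q.n b) z + cf θ + v + cf (zeta q.L (q.n b) j ω))) PP

/-- second order off the corners a b, first order there -/
def S_rg_side : Prop := ∀ (q : Par) Cu C0 ε0 t0 b j X G (a : ℝ) B z θ v, q.Env Cu C0 ε0 →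
  Par.ok b j → t0 ≤ 1 → X ∈ smalls (box (q.m b j)) B → 0 ≤ a → q.Act2 t0 b j X G a → ‖z‖ ≤ t0 →
  Dir (q.n b) θ → Strip (q.n b) (q.l j) q.h (q.L * q.h) X v →
  ‖G z (bg (q.n b) z + cf θ + v) - G z (q.ctr b j z X)‖ ≤ 100 * a * q.EE j θ B *
    if spec (q.m b j) X then √(q.tt Cu j (cf θ + v) B) else q.tt Cu j (cf θ + v) B

def S_rg_deep : Prop := ∀ (q : Par) Cu C0 ε0 t0 b j X G (a : ℝ) B z (V : Fld) (y : ℂ × ℂ),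
  q.Env Cu C0 ε0 → Par.ok b j → t0 ≤ 1 → X ∈ smalls (box (q.m b j)) B → deep 5 (q.m b j) B →
  0 ≤ a → q.Act2 t0 b j X G a → ‖z‖ ≤ t0 →
  (q.l j : ℝ) ^ 2 * (‖y.1‖ ^ 2 + ‖y.2‖ ^ 2) ≤ c0 * Nl (q.l j) V B →
  ∑ B' ∈ nbh 5 B, ea (q.l j) (V - lin y) B' ≤ c0 * Nb (q.l j) V B →
  q.tt Cu j V B ≤ 1 / (36 * c0) →
  ‖G z (bg (q.n b) z + V) - G 0 (lin y)‖ ≤
    1000 * c0 * a * (√(q.tt Cu j V B * q.tb Cu j V B) + q.tb Cu j V B)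

def S_rg_sm : Prop := ∀ (R : Finset P) (B : P) (A : ℝ), 2 ^ 60 ≤ A →
  (∀ X ∈ smalls R B, X ⊆ nbh 3 B ∧ X ⊆ near 3 R {B}) ∧ (smalls R B).card ≤ 2 ^ 49 ∧
    ∑ X ∈ smalls R B, A⁻¹ ^ X.card ≤ 2 / A

def S_rg_fb : Prop := ∀ (q : Par) Cu C0 ε0 t0 b j K B (δ : ℝ), q.Env Cu C0 ε0 → Par.ok b j →
  0 ≤ t0 → 0 ≤ δ → deep 5 (q.m b j) B → q.Fam t0 b j K B δ →
  ‖q.qB b j (K 0) B‖ ≤ 600 * δ / q.A * (q.l j : ℝ) ^ 2 / q.h ^ 2 ∧ (q.Sym b j (K 0) B →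
    ∀ (y : ℂ × ℂ) (r : ℝ), (q.l j : ℝ) ^ 2 * (‖y.1‖ ^ 2 + ‖y.2‖ ^ 2) ≤ r * q.h ^ 2 → r ≤ 1 / 36 →
      ‖q.fB b j (K 0) B y - q.fB b j (K 0) B 0 - q.qB b j (K 0) B * (y.1 ^ 2 + y.2 ^ 2)‖ ≤
        10 ^ 6 * δ / q.A * r * (r + 1 / (q.L : ℝ) ^ 2))

def S_rg_blk : Prop := ∀ (q : Par) Cu C0 ε0 t0 b j K (δ : ℝ) z θ v, q.Env Cu C0 ε0 → Par.ok b j →
  t0 ≤ 1 → 0 ≤ δ → ‖z‖ ≤ t0 → Dir (q.n b) θ → ∀ B ∈ box (q.m b j), q.Fam t0 b j K B δ →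
  (∀ X ∈ smalls (box (q.m b j)) B, Strip (q.n b) (q.l j) q.h (q.L * q.h) X v) →
  ‖q.RB b j z (K z) B (bg (q.n b) z + cf θ + v)‖ ≤ 10 ^ 4 * δ / q.A * q.EE j θ B *
    (q.tt Cu j (cf θ + v) B + if ∃ B', ab (q.m b j) B' ∧ nr 3 B B' then
      √(q.tt Cu j (cf θ + v) B) else 0) ∧
  (deep 5 (q.m b j) B → q.Sym b j (K 0) B →
    ‖q.RB b j z (K z) B (bg (q.n b) z + cf θ + v) - q.qB b j (K 0) B / (q.l j : ℂ) ^ 2 *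
        En (bg (q.n b) z + cf θ + v) (cell (q.l j) B)‖ ≤ c0 ^ 3 * δ / q.A * q.EE j θ B *
      (q.tt Cu j (cf θ + v) B ^ 2 + √(q.tt Cu j (cf θ + v) B * q.tb Cu j (cf θ + v) B) +
        q.tb Cu j (cf θ + v) B + q.tt Cu j (cf θ + v) B / (q.L : ℝ) ^ 2))

/-- contraction of the linear part -/
def S_rg_lin : Prop := ∀ (q : Par) Cu C0 ε0 t0 b j K (δ qe qo : ℝ) z B' θ v, q.Env Cu C0 ε0 →
  t0 ≤ 1 → 0 ≤ δ → ‖z‖ ≤ t0 → q.Pt b j z {B'} θ v → (∀ B ∈ cell q.L B', q.Fam t0 b j K B δ) →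
  |qe| ≤ 600 * δ / q.A * (q.l j : ℝ) ^ 2 / q.h ^ 2 →
  |qo| ≤ 600 * δ / q.A * (q.l j : ℝ) ^ 2 / q.h ^ 2 →
  (∀ B ∈ cell q.L B', deep 5 (q.m b j) B → q.Sym b j (K 0) B ∧
    q.qB b j (K 0) B = (if Even (B.1 + B.2) then qe else qo : ℝ)) →
  ‖∑ B ∈ cell q.L B', (((-(qe + qo) / (q.l j : ℝ) ^ 2 : ℝ) / 2 : ℂ) *
      q.Qz b j z B (bg (q.n b) z + cf θ + v) + q.RB b j z (K z) B (bg (q.n b) z + cf θ + v))‖ ≤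
    δ / (100 * q.A) * Real.exp (q.κ * Reg (q.l (j + 1)) {B'} θ)

def S_rg_iso : Prop := ∀ (q : Par) t0 j x b s B, 1000 ≤ q.L → q.Str t0 j x → Par.ok b j →
  deep 5 (q.m b j) B → q.Sym b j ((x.a b 0).K s) B ∧ q.qB b j ((x.a b 0).K s) B = q.qr j x s B

/-- differences of two states -/
def S_rg_dif : Prop := ∀ (q : Par) Cu C0 ε0 t0 j x y α ν ρ ν' ρ' s (δ : ℝ) b, q.Env Cu C0 ε0 →
  q.Good t0 j x α ν ρ → q.Good t0 j y α ν' ρ' → 0 ≤ δ → Par.ok b j → ∀ B ∈ box (q.m b j),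
  q.Dif t0 j x y s b (near 4 (box (q.m b j)) {B}) δ → q.Fam t0 b j (Par.dK x y b s) B δ ∧
  (∀ z, ‖z‖ ≤ t0 → q.eK b j z (Par.dK x y b s z) B =
    q.eK b j z ((x.a b z).K s) B - q.eK b j z ((y.a b z).K s) B ∧
    ‖q.eK b j z (Par.dK x y b s z) B‖ ≤ δ) ∧
  (deep 5 (q.m b j) B → ∀ w : ℂ × ℂ, ‖w.1‖ < q.h / (3 * q.l j) → ‖w.2‖ < q.h / (3 * q.l j) →
    q.fB b j (Par.dK x y b s 0) B w = q.fB b j ((x.a b 0).K s) B w - q.fB b j ((y.a b 0).K s) B w)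

/-- sizes of the data of a state and of the difference of two states -/
def S_rg_sz : Prop := ∀ (q : Par) Cu C0 ε0 t0 j x y α ν ρ ν' ρ' s (δ : ℝ), q.Env Cu C0 ε0 →
  q.Good t0 j x α ν ρ → q.Good t0 j y α ν' ρ' → 0 ≤ δ → q.Dif t0 j x y s (1, j + 1) q.ref δ →
  (∀ B, |q.qr j x s B - q.qr j y s B| ≤ 600 * δ / q.A * (q.l j : ℝ) ^ 2 / q.h ^ 2) ∧
  |q.dl j ((x.a (1, j + 1) 0).K s) - q.dl j ((y.a (1, j + 1) 0).K s)| ≤ δ ∧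
  ∀ b z U, Par.ok b (j + 1) → ‖z‖ ≤ t0 → q.Sz Cu b j z U (q.dat j x b z s) (2 * α) α ∧
    (q.Dif t0 j x y s b (near 8 (box (q.m b j)) (under q.L U)) δ →
      q.Sz Cu b j z U ((q.dat j x b z s).sub (q.dat j y b z s)) (|x.lam s - y.lam s| + δ) δ)

/-- one configuration, any labels -/
def S_rg_lw : Prop := ∀ (L l : ℕ) (D U : Finset P) (κ A a p b g : ℝ) (θ ζ : P → ℝ) (η : P → ℂ)
  (r r' : P → ℝ) (ρ It M : Lab → P → ℂ) (K : Lab → Finset P → ℂ)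
  (N : Finset P → (P → Option Lab) → ℂ) (c : P → Sf), c0 ^ 2 ≤ L → 100 ≤ l → U ⊆ D → U.Nonempty →
  0 ≤ κ → 0 < A → 0 ≤ a → 0 ≤ p → 0 ≤ b → 0 ≤ g → c ∈ loc L 4 D U → live 4 (reg L D U) c →
  (∀ B ∈ under L U, 1 ≤ r' B ∧ ‖Complex.exp (η B)‖ * r' B ≤ r B ∧
    ∀ s, ‖Complex.exp (η B) * ρ s B‖ ≤ r B) →
  (∀ s, ∀ B ∈ near 4 (reg L D U) (under L U), It s B ≠ 0 ∧
    ‖It s B‖ ≤ Real.exp (κ / 8 * ea l (cf θ) B + g) ∧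
    ‖(It s B)⁻¹‖ ≤ Real.exp (κ / 8 * ea l (cf θ) B + g)) →
  (∀ s, ∀ B ∈ under L U, ‖M s B‖ ≤ a * Real.exp (κ / 8 * ea l (cf θ) B + κ * ea l (cf ζ) B)) →
  (∀ s X, Conn X → X ⊆ near 4 (reg L D U) (under L U) →
    ‖K s X‖ ≤ p * A⁻¹ ^ X.card * Real.exp (κ * Reg l X (θ + ζ))) →
  (∀ X σ, Conn X → X ⊆ under L U →
    ‖N X σ‖ ≤ b * A⁻¹ ^ X.card * (∏ B ∈ X, r' B) * Real.exp (κ * Reg l X (θ + ζ))) →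
  ‖Complex.exp (∑ B ∈ under L U, η B) *
      lw L 4 D U (fun s B => ρ s B * It s B) M (fun s X => K s X / ∏ B ∈ X, It s B) N c‖ ≤
    (∏ B ∈ under L U, r B) * Real.exp (9 * L ^ 2 * U.card * g) * aw (reg L D U) a p b A c *
      Real.exp (κ * Reg (L * l) U θ) *
      Real.exp (L * κ * ∑ B ∈ Sc (reg L D U) c, N0 l (cf ζ) (nb l B))

def S_rg_y : Prop := ∀ (q : Par) Cu C0 ε0 b j, q.Env Cu C0 ε0 → Par.ok b (j + 1) →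
  (∀ S ⊆ box (q.m b j), Integrable (q.Yc b j S) PP ∧ ∫ ω, q.Yc b j S ω ∂PP ≤ 2 ^ S.card) ∧
  ∀ U c (a p β : ℝ), 0 ≤ a → 0 ≤ p → 0 ≤ β →
    Sc (reg q.L (box (q.m b (j + 1))) U) c ⊆ box (q.m b j) ∧
    aw (reg q.L (box (q.m b (j + 1))) U) a p β q.A c *
        2 ^ (Sc (reg q.L (box (q.m b (j + 1))) U) c).card ≤
      aw (reg q.L (box (q.m b (j + 1))) U) (2 * a) p β (q.A / 16) c

/-- bounds on the factors of a block -/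
def S_rg_blo : Prop := ∀ (q : Par) Cu C0 ε0 b j z U θ v d (D p : ℝ), q.Env Cu C0 ε0 →
  q.Pt b j z U θ v → q.Sz Cu b j z U d D p → D ≤ 1 / q.g Cu ^ 2 →
  (∀ B ∈ near 4 (box (q.m b j)) (under q.L U),
    ‖-d.e B - d.lam' / 2 * q.Qz b j z B (bg (q.n b) z + cf θ + v)‖ ≤
      D * (2 * ea (q.l j) (cf θ) B + 4 * q.H Cu) ∧ ∀ ω,
    ‖q.dm b j z (bg (q.n b) z + cf θ + v) d ω B‖ ≤ D * (5 * ea (q.l j) (cf θ) B +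
      5 * ea (q.l j) (cf (zeta q.L (q.n b) j ω)) B + 10 * q.H Cu) ∧
    ‖Complex.exp (q.dm b j z (bg (q.n b) z + cf θ + v) d ω B) - 1‖ ≤ q.g Cu * D *
      Real.exp (q.κ / 8 * ea (q.l j) (cf θ) B + q.κ * ea (q.l j) (cf (zeta q.L (q.n b) j ω)) B)) ∧
  (∀ B Θ, Measurable fun ω => q.dm b j z Θ d ω B) ∧
  ∀ X, Pm (q.m b j) X → X ⊆ near 4 (box (q.m b j)) (under q.L U) →
    (∀ Θ, Measurable fun ω => d.K X (Θ + cf (zeta q.L (q.n b) j ω))) ∧ ∀ ω,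
    ‖d.K X (bg (q.n b) z + cf θ + v + cf (zeta q.L (q.n b) j ω))‖ ≤ p * q.A⁻¹ ^ X.card *
      Real.exp (q.κ * Reg (q.l j) X (θ + zeta q.L (q.n b) j ω))

def S_rg_dat : Prop := ∀ (q : Par) Cu C0 ε0 b j z U θ v d (D p : ℝ) s, q.Env Cu C0 ε0 →
  q.Pt b j z U θ v → q.Sz Cu b j z U d D p → D ≤ 1 / q.g Cu ^ 2 →
  ∀ c ∈ loc0 q.L 4 (box (q.m b (j + 1))) U s,
    Measurable (fun ω => q.dw b j z (bg (q.n b) z + cf θ + v) U d ω c) ∧ ∀ ω,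
    (¬ live 4 (reg q.L (box (q.m b (j + 1))) U) c →
      q.dw b j z (bg (q.n b) z + cf θ + v) U d ω c = 0) ∧
    ‖q.dw b j z (bg (q.n b) z + cf θ + v) U d ω c‖ ≤ 2 ^ U.card *
      aw (reg q.L (box (q.m b (j + 1))) U) (q.g Cu * D) p 0 q.A c *
      Real.exp (q.κ * Reg (q.l (j + 1)) U θ) *
      q.Yc b j (Sc (reg q.L (box (q.m b (j + 1))) U) c) ω

/-- the configurations with one small atom -/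
def one (q : Par) (b : ℕ × ℕ) (j : ℕ) (U : Finset P) (c : P → Sf) : Prop :=
  nat (reg q.L (box (q.m b (j + 1))) U) c = 1 ∧ ¬ big 4 (reg q.L (box (q.m b (j + 1))) U) c

def S_rg_k0e : Prop := ∀ (q : Par) j x b z s U Θ, q.K0 j x b z s U Θ =
  ∫ ω, ∑ c ∈ loc0 q.L 4 (box (q.m b (j + 1))) U s, q.dw b j z Θ U (q.dat j x b z s) ω c ∂PP

def S_rg_mul : Prop := ∀ (q : Par) Cu C0 ε0 b j z U θ v d0 d1 (D Δ δ : ℝ) s, q.Env Cu C0 ε0 →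
  q.Pt b j z U θ v → q.Sz Cu b j z U d0 D D → q.Sz Cu b j z U d1 D D →
  q.Sz Cu b j z U (d1.sub d0) Δ δ → D ≤ 2 * q.ε →
  ‖∑ c ∈ (loc0 q.L 4 (box (q.m b (j + 1))) U s).filter (fun c => ¬ one q b j U c),
      ∫ ω, (q.dw b j z (bg (q.n b) z + cf θ + v) U d1 ω c -
        q.dw b j z (bg (q.n b) z + cf θ + v) U d0 ω c) ∂PP‖ ≤
    (δ / 500 + √q.C * D * (Δ + δ)) * q.A⁻¹ ^ U.card * Real.exp (q.κ * Reg (q.l (j + 1)) U θ)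

def S_rg_one : Prop := ∀ (q : Par) Cu C0 ε0 b j z B' θ v d0 d1 (D Δ δ : ℝ) s, q.Env Cu C0 ε0 →
  q.Pt b j z {B'} θ v → q.Sz Cu b j z {B'} d0 D D → q.Sz Cu b j z {B'} d1 D D →
  q.Sz Cu b j z {B'} (d1.sub d0) Δ δ → D ≤ 2 * q.ε →
  ‖∑ c ∈ (loc0 q.L 4 (box (q.m b (j + 1))) {B'} s).filter (one q b j {B'}),
      ∫ ω, (q.dw b j z (bg (q.n b) z + cf θ + v) {B'} d1 ω c -
        q.dw b j z (bg (q.n b) z + cf θ + v) {B'} d0 ω c) ∂PP -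
      ∫ ω, q.dL b j z (bg (q.n b) z + cf θ + v) B' (d1.sub d0) ω ∂PP‖ ≤
    √q.C * D * (Δ + δ) * q.A⁻¹ * Real.exp (q.κ * Reg (q.l (j + 1)) {B'} θ)

end Pool.Agent.Lib.MP_9cc147_pr.Cx
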