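import Pool.Agent.Lib.MP_9cc147_pr.Cx.Rg.S
import Pool.Agent.Lib.MP_9cc147_pr.Cx.T.Geo2
import Pool.Agent.Lib.MP_9cc147_pr.Cx.F.Kit

/-! Subtraction of the constant term of a small activity: second order off the two corners. -/

open scoped Classical Topology
open Finset MeasureTheory ProbabilityTheory Filter

noncomputable section
namespace Pool.Agent.Lib.MP_9cc147_pr.Cx

theorem rgs_ring {n : ℕ} {θ : P → ℝ} (h : Dir n θ) {p : P} (hp : p ∈ ring n) : θ p = 0 := by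
  obtain ⟨x, y⟩ := p
  rw [ring, Finset.mem_sdiff] at hp
  simp only [sqr, inn, Finset.mem_product, Finset.mem_Icc, Finset.mem_Ioo] at hp
  have a1 := (h (x, y)).1
  have a2 := (h (x, y)).2.1
  have a3 := (h (-x, y)).2.2.1
  have a4 := (h (x, -y)).2.2.2
  simp only at a1 a2 a3 a4
  rcases (by omega : x = 0 ∨ x = n ∨ y = 0 ∨ y = n) with e | e | e | e
  · rw [e, neg_zero] at a1; rw [e]; linarith
  · rw [show -x + 2 * (n : ℤ) = x by omega] at a3; linarith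
  · rw [e, neg_zero] at a2; rw [e]; linarith
  · rw [show -y + 2 * (n : ℤ) = y by omega] at a4; linarith

theorem rgs_Nf_smul (l : ℕ) (s : ℂ) (W : Fld) (S : Finset P) :
    Nf l (fun p => s * W p) S = ‖s‖ ^ 2 * Nf l W S := by
  unfold Nf
  rw [mul_sum]
  refine sum_congr rfl fun p _ => ?_
  have h1 : n1 (fun p => s * W p) p = ‖s‖ ^ 2 * n1 W p := by
    simp only [n1, dg, ← mul_sub, norm_mul, mul_pow, ← mul_sum]
    ring
  have e1 : ∀ x y z : ℂ, s * x - 2 * (s * y) + s * z = s * (x - 2 * y + z) := fun _ _ _ => by ring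
  have e2 : ∀ x y z w : ℂ, s * x - s * y - s * z + s * w = s * (x - y - z + w) :=
    fun _ _ _ _ => by ring
  have h2 : n2 (fun p => s * W p) p = ‖s‖ ^ 2 * n2 W p := by
    simp only [n2, e1, e2, norm_mul, mul_pow]
    ring
  rw [h1, h2]
  ring

theorem rgs_sq (x y : ℂ) : ‖x + y‖ ^ 2 ≤ 2 * ‖x‖ ^ 2 + 2 * ‖y‖ ^ 2 := by
  have h := pow_le_pow_left₀ (norm_nonneg _) (norm_add_le x y) 2
  nlinarith [sq_nonneg (‖x‖ - ‖y‖)]

theorem rgs_Nf_add (l : ℕ) (U W : Fld) (S : Finset P) :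
    Nf l (U + W) S ≤ 2 * Nf l U S + 2 * Nf l W S := by
  unfold Nf
  rw [mul_sum, mul_sum, ← sum_add_distrib]
  refine sum_le_sum fun p _ => ?_
  have h1 : n1 (U + W) p ≤ 2 * n1 U p + 2 * n1 W p := by
    have : ∑ d, ‖dg (U + W) p d‖ ^ 2 ≤ ∑ d, (2 * ‖dg U p d‖ ^ 2 + 2 * ‖dg W p d‖ ^ 2) :=
      sum_le_sum fun d _ => by
        rw [show dg (U + W) p d = dg U p d + dg W p d by simp only [dg, Pi.add_apply]; ring]
        exact rgs_sq _ _
    rw [sum_add_distrib, ← mul_sum, ← mul_sum] at this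
    unfold n1
    linarith
  have e1 : ∀ x y z x' y' z' : ℂ, x + x' - 2 * (y + y') + (z + z') =
      (x - 2 * y + z) + (x' - 2 * y' + z') := fun _ _ _ _ _ _ => by ring
  have e2 : ∀ x y z w x' y' z' w' : ℂ, x + x' - (y + y') - (z + z') + (w + w') =
      (x - y - z + w) + (x' - y' - z' + w') := fun _ _ _ _ _ _ _ _ => by ring
  have h2 : n2 (U + W) p ≤ 2 * n2 U p + 2 * n2 W p := by
    simp only [n2, Pi.add_apply]
    rw [e1, e1, e2]
    have b1 := rgs_sq (U (p + (1, 0)) - 2 * U p + U (p - (1, 0)))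
      (W (p + (1, 0)) - 2 * W p + W (p - (1, 0)))
    have b2 := rgs_sq (U (p + (0, 1)) - 2 * U p + U (p - (0, 1)))
      (W (p + (0, 1)) - 2 * W p + W (p - (0, 1)))
    have b3 := rgs_sq (U (p + (1, 1)) - U (p + (1, 0)) - U (p + (0, 1)) + U p)
      (W (p + (1, 1)) - W (p + (1, 0)) - W (p + (0, 1)) + W p)
    linarith
  have h3 := mul_le_mul_of_nonneg_left h2 (sq_nonneg (l : ℝ))
  linarith

theorem rgs_Nf_zero (l : ℕ) (S : Finset P) : Nf l (cf 0) S = 0 := by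
  simp [Nf, n1, n2, dg, cf]

theorem rgs_Nl_eq {l : ℕ} (hl : 1 ≤ l) (V : Fld) (Y : Finset P) :
    ∑ B' ∈ Y, (ea l V B' + eb l V B') = Nf l V (under l Y) := by
  rw [Nf, f_sum_under hl]
  exact sum_congr rfl fun B' _ => by rw [ea, eb, mul_sum, ← sum_add_distrib]

theorem rgs_mem_nbh {k : ℕ} {B B' : P} : B' ∈ nbh k B ↔ nr k B B' := by
  simp only [nbh, mem_product, mem_Icc, nr, abs_le]
  omega

theorem rgs_Nl_nonneg (l : ℕ) (V : Fld) (B : P) : 0 ≤ Nl l V B :=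
  sum_nonneg fun _ _ => add_nonneg (sum_nonneg fun x _ => T.n1_nn V x)
    (mul_nonneg (sq_nonneg _) (sum_nonneg fun x _ => T.n2_nn V x))

theorem rgs_nb_le {l : ℕ} (hl : 1 ≤ l) (V : Fld) {B B' : P} (h : nr 3 B B') :
    Nf l V (nb l B') ≤ Nl l V B := by
  rw [Nl, rgs_Nl_eq hl]
  refine T.Nf_mono le_rfl V fun p hp => ?_
  rw [f_mem_under hl, rgs_mem_nbh]
  have h0 : (0 : ℤ) < l := by exact_mod_cast hl
  obtain ⟨h1, h2, h3, h4⟩ := T.mem_fat.1 hp
  have h5 : ((l / 4 : ℕ) : ℤ) < l := by omega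
  have h6 := abs_le.1 h.1
  have h7 := abs_le.1 h.2
  have a1 : B'.1 - 1 ≤ p.1 / l := (Int.le_ediv_iff_mul_le h0).2 (by linarith)
  have a2 : p.1 / l < B'.1 + 2 := (Int.ediv_lt_iff_lt_mul h0).2 (by linarith)
  have a3 : B'.2 - 1 ≤ p.2 / l := (Int.le_ediv_iff_mul_le h0).2 (by linarith)
  have a4 : p.2 / l < B'.2 + 2 := (Int.ediv_lt_iff_lt_mul h0).2 (by linarith)
  simp only [nr, par, abs_le]
  omega

theorem rgs_nb_fat {l : ℕ} {B B' p : P} (h : nr 3 B B') (hp : p ∈ nb l B') :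
    p ∈ fat l (4 * l) B := by
  have h0 : (0 : ℤ) ≤ l := by omega
  obtain ⟨h1, h2, h3, h4⟩ := T.mem_fat.1 hp
  have h5 : ((l / 4 : ℕ) : ℤ) ≤ l := by omega
  have h6 := abs_le.1 h.1
  have h7 := abs_le.1 h.2
  have a1 : (B.1 - 3) * l ≤ B'.1 * l := mul_le_mul_of_nonneg_right (by omega) h0
  have a2 : B'.1 * l ≤ (B.1 + 3) * l := mul_le_mul_of_nonneg_right (by omega) h0
  have a3 : (B.2 - 3) * l ≤ B'.2 * l := mul_le_mul_of_nonneg_right (by omega) h0
  have a4 : B'.2 * l ≤ (B.2 + 3) * l := mul_le_mul_of_nonneg_right (by omega) h0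
  rw [T.mem_fat]
  push_cast
  refine ⟨?_, ?_, ?_, ?_⟩ <;> linarith

theorem rgs_osc (h_osc : S_rg_osc) {l : ℕ} (hl : 100 ≤ l) (V : Fld) {B : P} {X : Finset P}
    (hX : ∀ B' ∈ X, nr 3 B B') {r : ℝ} (hr : 0 ≤ r) (hN : Nl l V B ≤ r ^ 2) :
    ∀ p ∈ nbs l X, ∀ p' ∈ nbs l X, ‖V p - V p'‖ ≤ 10 ^ 4 * r := by
  intro p hp p' hp'
  obtain ⟨B1, h1, h2⟩ := mem_biUnion.1 hp
  obtain ⟨B2, h3, h4⟩ := mem_biUnion.1 hp'
  have h5 := h_osc l V B hl p (rgs_nb_fat (hX _ h1) h2) p' (rgs_nb_fat (hX _ h3) h4)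
  have h6 : ∑ B' ∈ nbh 5 B, (ea l V B' + eb l V B') ≤ Nl l V B :=
    sum_le_sum_of_subset_of_nonneg
      (fun B' h => rgs_mem_nbh.2 (T.nr_trans (rgs_mem_nbh.1 h) (T.nr_refl 0 _) (by norm_num)))
      fun _ _ _ => add_nonneg (sum_nonneg fun x _ => T.n1_nn V x)
        (mul_nonneg (sq_nonneg _) (sum_nonneg fun x _ => T.n2_nn V x))
  refine le_of_sq_le_sq (h5.trans ?_) (by positivity)
  rw [c0, mul_pow]
  linarith

/-- the complex line through a field -/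
theorem rgs_slice (h_str : S_rg_str) {q : Par} {t0 a r : ℝ} {b : ℕ × ℕ} {j : ℕ} {X : Finset P}
    {G : ℂ → Fld → ℂ} (hG : q.Act2 t0 b j X G a) (hL : 1000 ≤ q.L) (hl : 100 ≤ q.l j)
    (hr : 0 < r) {z : ℂ} (hz : ‖z‖ ≤ t0) (W : Fld)
    (h1 : ∀ B ∈ X, Nf (q.l j) W (nb (q.l j) B) ≤ r ^ 2)
    (h2 : ∀ p ∈ nbs (q.l j) X, p ∈ ring (q.n b) → W p = 0)
    (h3 : ∀ p ∈ nbs (q.l j) X, ∀ p' ∈ nbs (q.l j) X, ‖W p - W p'‖ ≤ q.L * r) :
    DifferentiableOn ℂ (fun s => G z (bg (q.n b) z + fun p => s * W p)) (Metric.ball 0 (q.h / r)) ∧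
      ∀ s ∈ Metric.ball (0 : ℂ) (q.h / r), ‖G z (bg (q.n b) z + fun p => s * W p)‖ ≤ a := by
  have hS : ∀ s ∈ Metric.ball (0 : ℂ) (q.h / r),
      Strip (q.n b) (q.l j) q.h (q.L * q.h) X fun p => s * W p := by
    intro s hs
    have hs' : ‖s‖ * r ≤ q.h := (lt_div_iff₀ hr).1 (mem_ball_zero_iff.1 hs) |>.le
    refine (h_str (q.n b) q.L (q.l j) q.h (q.L * q.h) _ hL hl).2 X (fun B hB => ?_)
      (fun p hp hp' => by rw [h2 p hp hp', mul_zero]) fun p hp p' hp' => ?_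
    · rw [rgs_Nf_smul]
      calc _ ≤ ‖s‖ ^ 2 * r ^ 2 := mul_le_mul_of_nonneg_left (h1 B hB) (sq_nonneg _)
        _ = (‖s‖ * r) ^ 2 := by ring
        _ ≤ _ := pow_le_pow_left₀ (by positivity) hs' 2
    · rw [← mul_sub, norm_mul]
      calc _ ≤ ‖s‖ * (q.L * r) := mul_le_mul_of_nonneg_left (h3 p hp p' hp') (norm_nonneg _)
        _ = q.L * (‖s‖ * r) := by ring
        _ ≤ _ := mul_le_mul_of_nonneg_left hs' (Nat.cast_nonneg _)
  refine ⟨hG.hol z hz _ (fun s p => s * W p) Metric.isOpen_ball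
    (fun p => (differentiable_id.mul_const _).differentiableOn) hS, fun s hs => ?_⟩
  have h := hG.bd z hz 0 (fun _ => by simp) _ (hS s hs)
  have e : cf 0 = 0 := by ext p; simp [cf]
  simp only [rgs_Nf_zero, sum_const_zero, mul_zero, Real.exp_zero, mul_one] at h
  rwa [e, add_zero] at h

theorem t_rg_side (h_osc : S_rg_osc) (h_sch : S_rg_sch) (h_str : S_rg_str) : S_rg_side := by
  intro q Cu C0 ε0 t0 b j X G a B z θ v hE hb ht hX ha hG hz hθ hv
  obtain ⟨hX0, hX1, hX2, hX3⟩ := mem_filter.1 hX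
  have hX4 := mem_powerset.1 hX0
  have hnr : ∀ B' ∈ X, nr 3 B B' := fun B' h => T.conn_nr hX1 hX3 hX2 h
  have hLr : (10 : ℝ) ^ 5 ≤ q.L := le_trans (by norm_num [c0]) hE.hL
  have hL : 1000 ≤ q.L := by exact_mod_cast le_trans (by norm_num : ((1000 : ℕ) : ℝ) ≤ 10 ^ 5) hLr
  have hl : 100 ≤ q.l j := le_trans (by omega) (Nat.le_self_pow (Nat.succ_ne_zero j) q.L)
  have hm : 2 ≤ q.m b j := le_trans (by omega) (q.L_le_m (by omega) hb)
  have hCu := hE.hCu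
  have hh : 0 < q.h := lt_of_lt_of_le (by positivity) hE.hh.1
  have hz0 : ‖(0 : ℂ)‖ ≤ t0 := by rw [norm_zero]; exact (norm_nonneg z).trans hz
  have hz1 : ‖z‖ ≤ 1 := hz.trans ht
  set V : Fld := cf θ + v with hV
  have hN := rgs_Nl_nonneg (q.l j) V B
  have hEE : 1 ≤ q.EE j θ B := Real.one_le_exp
    (mul_nonneg (mul_nonneg (by norm_num) hE.hκ.1.le) (rgs_Nl_nonneg _ _ _))
  have hV0 : ∀ p ∈ nbs (q.l j) X, p ∈ ring (q.n b) → V p = 0 := fun p hp hp' => by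
    simp [hV, cf, rgs_ring hθ hp', hv.2.1 p hp hp']
  set r := √(Nl (q.l j) V B + Cu) with hr
  have hr2 : r ^ 2 = Nl (q.l j) V B + Cu := Real.sq_sqrt (by linarith)
  have hr1 : 1 ≤ r := Real.one_le_sqrt.2 (by linarith)
  have htt : q.tt Cu j V B = (r / q.h) ^ 2 := by rw [Par.tt, div_pow, hr2]
  have hst : √(q.tt Cu j V B) = r / q.h := by rw [htt, Real.sqrt_sq (by positivity)]
  have hV1 : ∀ B' ∈ X, Nf (q.l j) V (nb (q.l j) B') ≤ Nl (q.l j) V B := fun B' h =>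
    rgs_nb_le (by omega) V (hnr B' h)
  have hV2 := rgs_osc h_osc hl V hnr (by linarith : 0 ≤ r) (by linarith)
  have hbg : bg (q.n b) 0 = 0 := by ext p; simp [bg]
  have hctr : ‖G z (q.ctr b j z X)‖ ≤ a := by
    have key : ∀ z', ‖z'‖ ≤ t0 → ‖G z' (bg (q.n b) z')‖ ≤ a := fun z' hz' => by
      have h := (rgs_slice h_str hG hL hl one_pos hz' 0 (fun _ _ => by simp [Nf, n1, n2, dg])
        (fun _ _ _ => rfl) (fun _ _ _ _ => by simp)).2 0 (Metric.mem_ball_self (by positivity))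
      have e : (fun p => (0 : ℂ) * (0 : Fld) p) = 0 := by ext p; simp
      rwa [e, add_zero] at h
    unfold Par.ctr
    split_ifs with hs
    · exact key z hz
    · rw [hG.far hs z, ← hbg]
      exact key 0 hz0
  have haE : a ≤ a * q.EE j θ B := le_mul_of_one_le_right ha hEE
  rw [hst, htt]
  by_cases hbig : 1 / 7 ≤ r / q.h
  · have h1 : ‖G z (bg (q.n b) z + cf θ + v)‖ ≤ a * q.EE j θ B := by
      refine (hG.bd z hz θ hθ v hv).trans (mul_le_mul_of_nonneg_left (Real.exp_le_exp.2 ?_) ha)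
      have h2 : ∑ B' ∈ X, Nf (q.l j) (cf θ) (nb (q.l j) B') ≤ X.card • Nl (q.l j) (cf θ) B :=
        sum_le_card_nsmul _ _ _ fun B' h => rgs_nb_le (by omega) _ (hnr B' h)
      have h3 : (X.card : ℝ) ≤ 4 := by exact_mod_cast hX3
      rw [nsmul_eq_mul] at h2
      have h4 := mul_le_mul_of_nonneg_right h3 (rgs_Nl_nonneg (q.l j) (cf θ) B)
      nlinarith [hE.hκ.1]
    have h5 : (1 : ℝ) / 50 ≤ if spec (q.m b j) X then r / q.h else (r / q.h) ^ 2 := by
      split_ifs <;> nlinarith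
    have h6 := norm_sub_le (G z (bg (q.n b) z + cf θ + v)) (G z (q.ctr b j z X))
    have h7 := mul_le_mul_of_nonneg_left h5 (by linarith : 0 ≤ 100 * (a * q.EE j θ B))
    rw [mul_assoc 100 a]
    linarith
  have hsm : r / q.h < 1 / 7 := not_le.1 hbig
  have hsm' : 7 * r < q.h := by rw [div_lt_iff₀ hh] at hsm; linarith
  have hpos : 0 ≤ r / q.h := by positivity
  unfold Par.ctr
  split_ifs with hs
  · obtain ⟨d1, d2⟩ := rgs_slice h_str hG hL hl (by linarith : 0 < r) hz V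
      (fun B' h => (hV1 B' h).trans (by linarith)) hV0
      fun p hp p' hp' => (hV2 p hp p' hp').trans (by nlinarith)
    have h := (h_sch.1 _ _ _ 1 d1 d2 (by
      rw [norm_one, lt_div_iff₀ (by linarith)]; linarith)).1
    have e1 : (bg (q.n b) z + fun p => 1 * V p) = bg (q.n b) z + cf θ + v := by
      ext p; simp [hV, add_assoc]
    have e2 : (bg (q.n b) z + fun p => 0 * V p) = bg (q.n b) z := by ext p; simp
    simp only [e1, e2, norm_one, one_div_div] at h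
    have h8 := mul_le_mul_of_nonneg_right haE hpos
    have h9 := mul_nonneg ha hpos
    nlinarith
  · obtain ⟨c, hc, hcX⟩ : ∃ c : ℝ, (c = 0 ∨ c = 1) ∧ ∀ B' ∈ X,
        if c = 0 then B'.1 ≠ 0 ∧ B'.2 ≠ (q.m b j : ℤ) - 1
        else B'.2 ≠ 0 ∧ B'.1 ≠ (q.m b j : ℤ) - 1 := by
      rw [spec, not_and_or, not_or, not_or] at hs
      rcases hs with hs | hs
      · exact ⟨0, Or.inl rfl, fun B' h => by
          rw [if_pos rfl]
          exact ⟨fun e => hs.1 (T.mem_sds.2 ⟨B', h, e⟩), fun e => hs.2 (T.mem_sds.2 ⟨B', h, e⟩)⟩⟩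
      · exact ⟨1, Or.inr rfl, fun B' h => by
          rw [if_neg one_ne_zero]
          exact ⟨fun e => hs.1 (T.mem_sds.2 ⟨B', h, e⟩), fun e => hs.2 (T.mem_sds.2 ⟨B', h, e⟩)⟩⟩
    obtain ⟨w, w1, w2, w3⟩ := (hE.u _ _ _ (T.n_eq q hb) hl hm).1 c hc
    set W : Fld := (fun p => z * cf w p) + V with hW
    have hW1 : ∀ B' ∈ X, Nf (q.l j) W (nb (q.l j) B') ≤ (2 * r) ^ 2 := fun B' h => by
      have h1 := rgs_Nf_add (q.l j) (fun p => z * cf w p) V (nb (q.l j) B')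
      rw [rgs_Nf_smul] at h1
      have h2 := (w3 B' (hX4 h) (hcX B' h)).1
      have h3 : ‖z‖ ^ 2 ≤ 1 := pow_le_one₀ (norm_nonneg _) hz1
      have h4 : ‖z‖ ^ 2 * Nf (q.l j) (cf w) (nb (q.l j) B') ≤ Cu :=
        (mul_le_mul_of_nonneg_left h2 (sq_nonneg _)).trans (mul_le_of_le_one_left (by linarith) h3)
      have h5 := hV1 B' h
      rw [mul_pow, hr2]
      linarith
    have hW2 : ∀ p ∈ nbs (q.l j) X, p ∈ ring (q.n b) → W p = 0 := fun p hp hp' => by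
      obtain ⟨B', h1, h2⟩ := mem_biUnion.1 hp
      simp [hW, cf, hV0 p hp hp', (w3 B' (hX4 h1) (hcX B' h1)).2 p h2 hp']
    have hw : ∀ p, ‖z * cf w p‖ ≤ 1 := fun p => by
      rw [norm_mul, cf, Complex.norm_real, Real.norm_eq_abs]
      exact mul_le_one₀ hz1 (abs_nonneg _) (w1 p)
    have hW3 : ∀ p ∈ nbs (q.l j) X, ∀ p' ∈ nbs (q.l j) X, ‖W p - W p'‖ ≤ q.L * (2 * r) :=
      fun p hp p' hp' => by
        have e : W p - W p' = (z * cf w p - z * cf w p') + (V p - V p') := by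
          simp only [hW, Pi.add_apply]; ring
        have h1 := norm_add_le (z * cf w p - z * cf w p') (V p - V p')
        have h2 := norm_sub_le (z * cf w p) (z * cf w p')
        have h3 := hV2 p hp p' hp'
        have h4 := hw p
        have h5 := hw p'
        rw [e]
        nlinarith
    obtain ⟨d1, d2⟩ := rgs_slice h_str hG hL hl (by linarith : 0 < 2 * r) hz0 W hW1 hW2 hW3
    have h := (h_sch.1 _ _ _ 1 d1 d2 (by
      rw [norm_one, lt_div_iff₀ (by linarith)]; linarith)).2 fun t _ => by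
        have h := hG.neg 0 (bg (q.n b) 0 + fun p => t * W p)
        rw [neg_zero] at h
        rw [← h]
        congr 1
        ext p
        simp [hbg]
    have e1 : G 0 (bg (q.n b) 0 + fun p => 1 * W p) = G 0 (bg (q.n b) z + cf θ + v) := by
      rw [← hG.sh 0 _ (z * c)]
      refine hG.loc 0 _ _ fun p hp => ?_
      simp only [hbg, hW, hV, bg, cf, Pi.add_apply, Pi.zero_apply, w2 p (mem_inter.1 hp).2]
      push_cast
      ring
    have e2 : (bg (q.n b) 0 + fun p => 0 * W p) = 0 := by ext p; simp [hbg]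
    simp only [e1, e2, norm_one, one_div_div] at h
    rw [hG.far hs z]
    have e3 : (2 * r / q.h) ^ 2 = 4 * (r / q.h) ^ 2 := by ring
    rw [e3] at h
    have h8 := mul_le_mul_of_nonneg_right haE (sq_nonneg (r / q.h))
    have h9 := mul_nonneg ha (sq_nonneg (r / q.h))
    nlinarith

end Pool.Agent.Lib.MP_9cc147_pr.Cx
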