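import Pool.Agent.Lib.MP_9cc147_pr.Cx.Rg.FinB
import Pool.Agent.Lib.MP_9cc147_pr.Cx.Rg.FinH

/-! The last integration. -/

open scoped Classical Topology
open Finset MeasureTheory ProbabilityTheory Filter

noncomputable section
namespace Pool.Agent.Lib.MP_9cc147_pr.Cx

theorem t_finS (h_w12 : S_w12) (h_zel : S_zel) (h_zmom : S_zmom) (h_env : S_rg_env)
    (h_qz : S_rg_qz) : S_fin := by
  filter_upwards [h_env, h_zmom, T.fp_base, fp_C fun L _ _ _ => 100 * 7 ^ (4 * L ^ 2)] with q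
    ⟨Cu, C0, ε0, E⟩ hm hq h7 t0 b x α ν ρ hb G
  obtain ⟨hd, -⟩ := h_zel.2 q.L (q.n b) (lev q.L b.2) hq.1 (T.n_pos q hq.1 hb)
  have C0 : 0 ≤ q.C := le_trans (by positivity) h7
  have m := (hm b b.2 hb).2.1
  have α0 := G.a.1
  have ν0 := G.n.1
  have h := finh_main (c1 := q.C / 2 * α) (c2 := q.C / 2 * ν * ρ ^ 4) h_w12 h_zel hq.1
    hq.2.2.2.1.le G.t.1.le G.str hb m.1 m.2 (by positivity) (by positivity)
    (fun s z ω hz => Par.finb_1 h_qz E G hb hz (hd ω).2.2 s)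
    (fun z ω hz => Par.finb_2 h_qz E h7 G hb hz (hd ω).2.2)
  refine ⟨fun s => ⟨(h.1 s).1, (h.1 s).2.1, fun z hz => ((h.1 s).2.2 z hz).trans_eq (by ring)⟩,
    h.2.1, h.2.2.1, fun z hz => ⟨(h.2.2.2 z hz).1.trans_eq (by ring), (h.2.2.2 z hz).2⟩,
    fun s θ hθ hF => Par.finb_3 h_qz E G hb s θ hθ hF⟩

end Pool.Agent.Lib.MP_9cc147_pr.Cx
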