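import Pool.Agent.Lib.MP_9cc147_pr.Cx.Rg.Thin0

/-! Energies of thin families of blocks: the statement `S_rg_thin`. -/

open scoped Classical
open Finset

noncomputable section
namespace Pool.Agent.Lib.MP_9cc147_pr.Cx

theorem rgthin_alt {G : Finset P} (a : P → ℂ) (s : P → ℂ) (e : P) (hs : ∀ B, s (B + e) = -s B)
    (h1 : ∀ B, ‖s B‖ = 1) : 2 * ‖∑ B ∈ G, s B * a B‖ ≤ ∑ B ∈ G, ‖a B - a (B + e)‖ +
      ∑ B ∈ G.image (· + e) \ G ∪ G \ G.image (· + e), ‖a B‖ := by
  have e1 : ∑ B ∈ G, s B * (a B - a (B + e)) =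
      ∑ B ∈ G, s B * a B + ∑ B ∈ G.image (· + e), s B * a B := by
    rw [sum_image fun _ _ _ _ h => add_right_cancel h, ← sum_add_distrib]
    exact sum_congr rfl fun B _ => by rw [hs]; ring
  have e2 := sum_sdiff_sub_sum_sdiff (s₁ := G) (s₂ := G.image (· + e)) (f := fun B => s B * a B)
  have e3 : 2 * ∑ B ∈ G, s B * a B = ∑ B ∈ G, s B * (a B - a (B + e)) -
      (∑ B ∈ G.image (· + e) \ G, s B * a B - ∑ B ∈ G \ G.image (· + e), s B * a B) := by
    rw [e1, e2]; ring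
  have n (F : Finset P) (f : P → ℂ) : ‖∑ B ∈ F, s B * f B‖ ≤ ∑ B ∈ F, ‖f B‖ :=
    (norm_sum_le _ _).trans (le_of_eq (sum_congr rfl fun B _ => by rw [norm_mul, h1, one_mul]))
  have e4 := congrArg norm e3
  rw [norm_mul, Complex.norm_two] at e4
  rw [e4, sum_union disjoint_sdiff_sdiff]
  exact (norm_sub_le _ _).trans (add_le_add (n _ _)
    ((norm_sub_le _ _).trans (add_le_add (n _ _) (n _ _))))

theorem t_rg_thin (h_ray : S_rg_ray) : S_rg_thin := by
  intro L l v B' hL hl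
  have L1 : (1 : ℝ) ≤ L := by exact_mod_cast (by omega : 1 ≤ L)
  have hN : 0 ≤ Nf (L * l) v (nb (L * l) B') := sum_nonneg fun _ _ =>
    add_nonneg (k_n1_nonneg _ _) (mul_nonneg (by positivity) (k_n2_nonneg _ _))
  have hg (B : P) : 0 ≤ ea l v B + eb l v B := add_nonneg (rgthin_ea _ _ _) (rgthin_eb _ _ _)
  have hn (k : ℕ) (hk : k ≤ 7) : ∀ B ∈ cell L B', nbh k B ⊆ rgthinF L B' := fun B hB C hC => by
    rw [rgthin_mem_nbh] at hC; rw [k_mem_cell] at hB; rw [rgthin_memF]; omega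
  have hb {F : Finset P} (hF : F ⊆ rgthinF L B') :
      ∑ B ∈ F, eb l v B ≤ 1 / L * Nf (L * l) v (nb (L * l) B') :=
    (rgthin_all hL hl v B' hF).2.trans (by gcongr; nlinarith)
  have hc (x : ℝ) (hx : x ≤ 10 ^ 8) : x / L * Nf (L * l) v (nb (L * l) B') ≤
      c0 / L * Nf (L * l) v (nb (L * l) B') := by unfold c0; gcongr
  refine ⟨fun B hB => ?_, ?_, ?_, fun m _ => ⟨?_, ?_⟩⟩
  · have h1 := rgthin_strip hL hl v B' (nbh 7 B) (fun C hC => rgthin_sub (hn 7 le_rfl B hB hC))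
      (B.1 - 7) (Or.inl fun C hC => by rw [rgthin_mem_nbh] at hC; omega)
    have h2 := hb (hn 7 le_rfl B hB)
    refine le_trans ?_ (hc 451 (by norm_num))
    rw [Nl, sum_add_distrib]
    exact (add_le_add h1 h2).trans (le_of_eq (by ring))
  · refine (rgthin_nbh 7 _ hg _ _ (hn 7 le_rfl)).trans ?_
    have := (rgthin_all hL hl v B' Subset.rfl).1
    norm_num at this ⊢
    exact this
  · refine (rgthin_nbh 7 _ (rgthin_eb l v) _ _ (hn 7 le_rfl)).trans ?_
    have := (rgthin_all hL hl v B' Subset.rfl).2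
    refine (mul_le_mul_of_nonneg_left this (by positivity)).trans (le_of_eq ?_)
    push_cast; ring
  · have hF := filter_subset (fun C : P => (-7 ≤ C.1 ∧ C.1 < 13) ∨ (m - 13 ≤ C.1 ∧ C.1 < m + 7) ∨
      (-7 ≤ C.2 ∧ C.2 < 13) ∨ (m - 13 ≤ C.2 ∧ C.2 < m + 7)) (rgthinF L B')
    have h1 := rgthin_four hL hl v B' hF _ _ _ _ (fun B hB => (mem_filter.1 hB).2) (by
      rintro u (rfl | rfl | rfl | rfl)
      exacts [⟨-7, Or.inl fun B h => by omega⟩, ⟨m - 13, Or.inl fun B h => by omega⟩,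
        ⟨-7, Or.inr fun B h => by omega⟩, ⟨m - 13, Or.inr fun B h => by omega⟩])
    have h2 := add_le_add h1 (hb hF)
    rw [← sum_add_distrib] at h2
    refine (rgthin_nbh 7 _ hg _ _ fun B hB C hC => ?_).trans
      ((mul_le_mul_of_nonneg_left h2 (by positivity)).trans
        (le_trans (le_of_eq ?_) (hc (225 * 1801) (by norm_num))))
    · obtain ⟨b1, b2⟩ := mem_filter.1 hB
      refine mem_filter.2 ⟨hn 7 le_rfl B b1 hC, ?_⟩
      have b3 := ‹cell L B' ⊆ box m› b1
      simp only [box, mem_product, mem_Ico] at b3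
      rw [rgthin_mem_nbh] at hC
      unfold deep at b2
      omega
    · push_cast; ring
  · set G := (cell L B').filter (deep 5 m) with hG
    have h0 := rgthin_alt (G := G) (fun B => En v (cell l B))
      (fun B => if Even (B.1 + B.2) then 1 else -1) (1, 0) (fun B => by
        have : Even ((B + (1, 0)).1 + (B + (1, 0)).2) ↔ ¬ Even (B.1 + B.2) := by
          simp [Int.even_iff]; omega
        by_cases h : Even (B.1 + B.2) <;> simp only [this, h] <;> simp)
      (fun B => by split_ifs <;> simp)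
    have mG (B : P) : B ∈ G ↔ ((B'.1 * L ≤ B.1 ∧ B.1 < (B'.1 + 1) * L) ∧ B'.2 * L ≤ B.2 ∧
        B.2 < (B'.2 + 1) * L) ∧ 5 ≤ B.1 ∧ B.1 + 5 < m ∧ 5 ≤ B.2 ∧ B.2 + 5 < m := by
      rw [hG, mem_filter, k_mem_cell]; rfl
    have mI (B : P) : B ∈ G.image (· + ((1, 0) : P)) ↔ B - (1, 0) ∈ G :=
      ⟨fun h => by obtain ⟨C, h1, rfl⟩ := mem_image.1 h; simpa using h1,
        fun h => mem_image.2 ⟨_, h, sub_add_cancel _ _⟩⟩
    have h1 := rgthin_four hL hl v B'
      (F := G.image (· + ((1, 0) : P)) \ G ∪ G \ G.image (· + ((1, 0) : P))) (fun B hB => by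
        simp only [mem_union, mem_sdiff, mI, mG, Prod.fst_sub, Prod.snd_sub] at hB
        rw [rgthin_memF]; omega)
      (fun B => B.1 = B'.1 * L) (fun B => B.1 = (B'.1 + 1) * L) (fun B => B.1 = 5)
      (fun B => B.1 = m - 5) (fun B hB => by
        simp only [mem_union, mem_sdiff, mI, mG, Prod.fst_sub, Prod.snd_sub] at hB
        omega) (by
      rintro u (rfl | rfl | rfl | rfl)
      exacts [⟨B'.1 * L, Or.inl fun B h => by omega⟩, ⟨(B'.1 + 1) * L, Or.inl fun B h => by omega⟩,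
        ⟨5, Or.inl fun B h => by omega⟩, ⟨m - 5, Or.inl fun B h => by omega⟩])
    have h2 : ∑ B ∈ G, ‖En v (cell l B) - En v (cell l (B + (1, 0)))‖ ≤
        ∑ B ∈ G, (1 / L * ∑ C ∈ nbh 1 B, (ea l v C + eb l v C) +
          8 * L * ∑ C ∈ nbh 2 B, eb l v C) := by
      refine sum_le_sum fun B _ => ((h_ray l v B (by omega)).2).trans ?_
      have am (x y : ℝ) (hx : 0 ≤ x) (hy : 0 ≤ y) : √x * √y ≤ 1 / L * x / 2 + L * y / 2 := by
        have h := sq_nonneg (√x - L * √y)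
        have : 1 / L * x / 2 + L * y / 2 = (x + L ^ 2 * y) / (2 * L) := by field_simp
        rw [this, le_div_iff₀ (by positivity)]
        nlinarith [Real.sq_sqrt hx, Real.sq_sqrt hy]
      have y0 : 0 ≤ 8 * ∑ C ∈ nbh 2 B, eb l v C :=
        mul_nonneg (by norm_num) (sum_nonneg fun _ _ => rgthin_eb _ _ _)
      have u (C : P) (hC : C ∈ nbh 1 B) : 1 / (L : ℝ) * ea l v C ≤
          1 / L * ∑ C ∈ nbh 1 B, (ea l v C + eb l v C) :=
        mul_le_mul_of_nonneg_left ((le_add_of_nonneg_right (rgthin_eb l v C)).trans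
          (single_le_sum (fun C _ => hg C) hC)) (by positivity)
      have a1 := am _ _ (rgthin_ea l v B) y0
      have a2 := am _ _ (rgthin_ea l v (B + (1, 0))) y0
      have u1 := u B (by rw [rgthin_mem_nbh]; omega)
      have u2 := u (B + (1, 0)) (by rw [rgthin_mem_nbh]; simp; omega)
      rw [add_mul]
      linarith
    have h3 := (rgthin_nbh 1 _ hg G _ fun B hB => hn 1 (by omega) B (mem_filter.1 hB).1).trans
      (mul_le_mul_of_nonneg_left (rgthin_all hL hl v B' Subset.rfl).1 (by positivity))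
    have h4 := (rgthin_nbh 2 _ (rgthin_eb l v) G _ fun B hB =>
      hn 2 (by omega) B (mem_filter.1 hB).1).trans
      (mul_le_mul_of_nonneg_left (rgthin_all hL hl v B' Subset.rfl).2 (by positivity))
    rw [sum_add_distrib, ← mul_sum, ← mul_sum] at h2
    have h5 := mul_le_mul_of_nonneg_left h3 (show (0 : ℝ) ≤ 1 / L by positivity)
    have h6 := mul_le_mul_of_nonneg_left h4 (show (0 : ℝ) ≤ 8 * L by positivity)
    have h7 := (sum_le_sum fun B _ => rgthin_en l v B).trans h1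
    have h8 : 1 / (L : ℝ) * ((2 * (1 : ℕ) + 1) ^ 2 * Nf (L * l) v (nb (L * l) B')) + 8 * L *
        ((2 * (2 : ℕ) + 1) ^ 2 * (1 / (L : ℝ) ^ 2 * Nf (L * l) v (nb (L * l) B'))) +
        1800 / L * Nf (L * l) v (nb (L * l) B') = 2 * (2009 / 2 / L * Nf (L * l) v (nb (L * l) B')) := by
      push_cast; field_simp; norm_num
    have h9 := hc (2009 / 2) (by norm_num)
    linarith

end Pool.Agent.Lib.MP_9cc147_pr.Cx
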