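import Pool.Agent.Lib.MP_9cc147_pr.Cx.Rg.S
import Pool.Agent.Lib.MP_9cc147_pr.Cx.K.Sob

/-! Energies of thin families of blocks. -/

open scoped Classical
open Finset

noncomputable section
namespace Pool.Agent.Lib.MP_9cc147_pr.Cx

theorem rgthin_ray (v : Fld) (e : Fin 4) (S Z W : Finset P) (D k : ℕ) (hD : 0 < D)
    (hZ : ∀ x ∈ S, ∀ t < D, x + t • dir e ∈ Z)
    (hk : ∀ y, ((range D).filter fun t => y - t • dir e ∈ S).card ≤ k)
    (hW : ∀ y ∈ Z, ∀ o ∈ nine, y + o ∈ W) :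
    ∑ x ∈ S, n1 v x ≤ 2 * k / D * ∑ y ∈ Z, n1 v y + 36 * k * D * ∑ y ∈ W, n2 v y := by
  have h1 := fun d => k_ray (fun x => dg v x d) (dir e) S Z D k hD hZ hk
  have h2 : ∀ d, ∑ y ∈ Z, ‖dg v (y + dir e) d - dg v y d‖ ^ 2 ≤ 9 * ∑ y ∈ W, n2 v y := by
    intro d
    refine le_trans (sum_le_sum fun y _ => ?_) (k_nine_sum _ (k_n2_nonneg v) _ W hW)
    obtain ⟨o, ho, h⟩ := k_dd v y d e
    exact h.trans (single_le_sum (f := fun o => n2 v (y + o)) (fun _ _ => k_n2_nonneg _ _) ho)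
  have h4 : (0 : ℝ) ≤ 2 * k * D := by positivity
  have h5 := fun d => (h1 d).trans (add_le_add_right (mul_le_mul_of_nonneg_left (h2 d) h4) _)
  have h6 : ∀ Z : Finset P, ∑ x ∈ Z, n1 v x = 1 / 2 * ∑ d, ∑ x ∈ Z, ‖dg v x d‖ ^ 2 := fun Z => by
    rw [sum_comm, mul_sum]; rfl
  rw [h6, h6]
  have h7 := sum_le_sum fun d (_ : d ∈ univ) => h5 d
  rw [sum_add_distrib, sum_const, card_univ, Fintype.card_fin, nsmul_eq_mul, ← mul_sum] at h7
  push_cast at h7
  linarith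

theorem rgthin_cells {l : ℕ} (hl : 0 < l) (g : P → ℝ) (hg : ∀ x, 0 ≤ g x) (F W : Finset P)
    (h : ∀ B ∈ F, cell l B ⊆ W) : ∑ B ∈ F, ∑ x ∈ cell l B, g x ≤ ∑ x ∈ W, g x := by
  rw [← sum_biUnion fun a _ b _ hab => disjoint_left.2 fun x h1 h2 =>
    hab (((k_cell_par hl).1 h1).symm.trans ((k_cell_par hl).1 h2))]
  exact sum_le_sum_of_subset_of_nonneg (biUnion_subset.2 h) fun _ _ _ => hg _

theorem rgthin_mem_nbh {k : ℕ} {B C : P} : C ∈ nbh k B ↔
    (B.1 - k ≤ C.1 ∧ C.1 ≤ B.1 + k) ∧ B.2 - k ≤ C.2 ∧ C.2 ≤ B.2 + k := by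
  simp only [nbh, mem_product, mem_Icc]

theorem rgthin_nbh (k : ℕ) (g : P → ℝ) (hg : ∀ x, 0 ≤ g x) (S F : Finset P)
    (h : ∀ B ∈ S, nbh k B ⊆ F) :
    ∑ B ∈ S, ∑ C ∈ nbh k B, g C ≤ (2 * k + 1) ^ 2 * ∑ C ∈ F, g C := by
  have h1 (B : P) : ∑ C ∈ nbh k B, g C = ∑ o ∈ nbh k 0, g (B + o) := by
    refine sum_bij' (fun C _ => C - B) (fun o _ => B + o) (fun C hC => ?_) (fun o ho => ?_)
      (fun _ _ => by abel) (fun _ _ => by abel) fun _ _ => by rw [add_sub_cancel]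
    · rw [rgthin_mem_nbh] at hC ⊢; simp; omega
    · rw [rgthin_mem_nbh] at ho ⊢; simp at ho ⊢; omega
  have h2 : (nbh k 0).card = (2 * k + 1) ^ 2 := by
    have : (0 + (k : ℤ) + 1 - (0 - k)).toNat = 2 * k + 1 := by omega
    simp only [nbh, card_product, Int.card_Icc, Prod.fst_zero, Prod.snd_zero, this, sq]
  simp only [h1]
  rw [sum_comm]
  refine (sum_le_sum fun o ho => k_shift g hg o S F fun B hB => h B hB ?_).trans ?_
  · rw [rgthin_mem_nbh] at ho ⊢; simp at ho ⊢; omega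
  · rw [sum_const, h2, nsmul_eq_mul]; push_cast; exact le_rfl

theorem rgthin_ar {L l : ℕ} (hL : 1000 ≤ L) (hl : 100 ≤ l) :
    0 < l * (L / 8) ∧ 8 * l + l * (L / 8) + 1 ≤ L * l / 4 ∧ L * l / 4 < L * l ∧
      ((l * (L / 8) : ℕ) : ℝ) ≤ L * l / 8 ∧ (L : ℝ) * l / 9 ≤ (l * (L / 8) : ℕ) := by
  have a : 8 * (L / 8) ≤ L := by omega
  have b : L ≤ 9 * (L / 8) := by omega
  have a' := Nat.mul_le_mul_left l a
  have b' := Nat.mul_le_mul_left l b
  have c := Nat.mul_le_mul_right l hL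
  have e1 : l * (8 * (L / 8)) = 8 * (l * (L / 8)) := by ring
  have e2 : l * (9 * (L / 8)) = 9 * (l * (L / 8)) := by ring
  rw [e1, mul_comm l L] at a'
  rw [e2, mul_comm l L] at b'
  have a'' : (8 : ℝ) * (l * (L / 8) : ℕ) ≤ L * l := by exact_mod_cast a'
  have b'' : (L : ℝ) * l ≤ 9 * (l * (L / 8) : ℕ) := by exact_mod_cast b'
  refine ⟨by omega, by omega, by omega, by linarith, by linarith⟩

/-- the numerical step common to all thin families -/
theorem rgthin_num {L l D a b E1 E2 : ℝ} (hL : 0 < L) (hl : 0 < l) (h1 : D ≤ L * l / 8)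
    (h2 : L * l / 9 ≤ D) (ha : 0 ≤ a) (hb : 0 ≤ b) (e1 : 0 ≤ E1) (e2 : 0 ≤ E2) :
    a * l / D * E1 + b * l * D * E2 ≤ (9 * a + b / 8) / L * (E1 + (L * l) ^ 2 * E2) := by
  have hD : 0 < D := lt_of_lt_of_le (by positivity) h2
  have p1 : a * l / D ≤ 9 * a / L := by
    rw [div_le_div_iff₀ hD hL]; nlinarith
  have p2 : b * l * D ≤ b / 8 / L * (L * l) ^ 2 := by
    have : b / 8 / L * (L * l) ^ 2 = b * l * (L * l / 8) := by field_simp
    rw [this]; exact mul_le_mul_of_nonneg_left h1 (by positivity)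
  have q1 := mul_le_mul_of_nonneg_right p1 e1
  have q2 := mul_le_mul_of_nonneg_right p2 e2
  have r1 : 0 ≤ b / 8 / L * E1 := by positivity
  have r2 : 0 ≤ 9 * a / L * ((L * l) ^ 2 * E2) := by positivity
  rw [add_div]
  nlinarith

theorem t_rg_out (h_ray : S_rg_ray) : S_rg_out := by
  have _ := h_ray
  intro L l v U O hL hl hO
  obtain ⟨d0, d1, d2, d3, d4⟩ := rgthin_ar hL hl
  generalize l * (L / 8) = D at d0 d1 d3 d4
  have hl0 : 0 < l := by omega
  have hL0 : 0 < L := by omega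
  have h1 : ∑ B ∈ O, ea l v B ≤ ∑ x ∈ oz (L * l) (6 * l) U, n1 v x := by
    refine rgthin_cells hl0 _ (k_n1_nonneg v) _ _ fun B hB x hx => ?_
    obtain ⟨b1, B0, b2, b3⟩ := hO B hB
    refine mem_sdiff.2 ⟨?_, fun h => b1 ?_⟩
    · obtain ⟨U0, u1, u2⟩ := mem_biUnion.1 b2
      refine mem_biUnion.2 ⟨U0, u1, k_mem_fat.2 ?_⟩
      rw [k_mem_cell] at hx u2
      simp only [nr, abs_le] at b3
      have hl' : (0 : ℤ) ≤ l := by positivity
      push_cast at b3 ⊢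
      refine ⟨⟨?_, ?_⟩, ?_, ?_⟩ <;> nlinarith [hx.1.1, hx.1.2, hx.2.1, hx.2.2, u2.1.1, u2.1.2,
        u2.2.1, u2.2.2, b3.1.1, b3.1.2, b3.2.1, b3.2.2]
    · rw [k_under_par (Nat.mul_pos hL0 hl0)] at h
      rw [k_under_par hL0, ← (k_cell_par hl0).1 hx]
      have : par L (par l x) = par (L * l) x := by
        simp only [par, Nat.cast_mul, mul_comm (L : ℤ), Int.ediv_ediv_of_nonneg (Nat.cast_nonneg l)]
      rwa [this]
  have h2 := k_outer_n1 v (l := L * l) (w := 6 * l) (D := D) (r := 6 * l + D)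
    U (nbs (L * l) U) d0 le_rfl (by omega) fun y hy o ho => by
      obtain ⟨U0, u1, u2⟩ := mem_biUnion.1 (mem_sdiff.1 hy).1
      refine mem_biUnion.2 ⟨U0, u1, k_mem_fat.2 ?_⟩
      rw [k_mem_fat] at u2
      simp only [nine, mem_product, mem_Icc] at ho
      simp only [Prod.fst_add, Prod.snd_add]
      omega
  have h3 : ∑ y ∈ oz (L * l) (6 * l + D) U, n1 v y ≤
      ∑ x ∈ nbs (L * l) U \ under (L * l) U, n1 v x := by
    refine sum_le_sum_of_subset_of_nonneg (sdiff_subset_sdiff (fun y hy => ?_) Subset.rfl)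
      fun _ _ _ => k_n1_nonneg _ _
    obtain ⟨U0, u1, u2⟩ := mem_biUnion.1 hy
    refine mem_biUnion.2 ⟨U0, u1, k_mem_fat.2 ?_⟩
    rw [k_mem_fat] at u2
    omega
  have e1 : 0 ≤ ∑ x ∈ nbs (L * l) U \ under (L * l) U, n1 v x :=
    sum_nonneg fun _ _ => k_n1_nonneg _ _
  have e2 : 0 ≤ ∑ x ∈ nbs (L * l) U, n2 v x := sum_nonneg fun _ _ => k_n2_nonneg _ _
  have l0 : (0 : ℝ) < l := by exact_mod_cast hl0
  have L0 : (0 : ℝ) < L := by exact_mod_cast hL0
  have h4 := rgthin_num (a := 56) (b := 1008) L0 l0 d3 d4 (by norm_num) (by norm_num) e1 e2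
  have D0 : (0 : ℝ) < D := by exact_mod_cast d0
  have w : ((6 * l : ℕ) : ℝ) + 1 ≤ 7 * l := by
    have : (1 : ℝ) ≤ l := by exact_mod_cast hl0
    push_cast; linarith
  refine h1.trans (h2.trans (le_trans ?_ (h4.trans ?_)))
  · refine add_le_add (mul_le_mul (div_le_div_of_nonneg_right (by linarith) D0.le) h3
      (sum_nonneg fun _ _ => k_n1_nonneg _ _) (by positivity))
      (mul_le_mul_of_nonneg_right (mul_le_mul_of_nonneg_right (by linarith) D0.le) e2)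
  · push_cast
    gcongr
    unfold c0; norm_num

theorem rgthin_card (D k : ℕ) (a b : ℤ) (p : ℕ → Prop) [DecidablePred p]
    (h : ∀ t, p t → a ≤ b - t ∧ b - t < a + k) : ((range D).filter p).card ≤ k := by
  have : (Ico a (a + k)).card = k := by simp
  rw [← this]
  refine card_le_card_of_injOn (fun t : ℕ => b - t)
    (fun t ht => mem_coe.2 (mem_Ico.2 (h t (mem_filter.1 ht).2))) fun t _ u _ e => ?_
  simp only at e
  omega

/-- blocks near the cell `B'` in a column or a row of width 20 -/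
theorem rgthin_strip {L l : ℕ} (hL : 1000 ≤ L) (hl : 100 ≤ l) (v : Fld) (B' : P) (F : Finset P)
    (hF : ∀ B ∈ F, cell l B ⊆ fat (L * l) (8 * l) B') (a : ℤ)
    (h : (∀ B ∈ F, a ≤ B.1 ∧ B.1 < a + 20) ∨ ∀ B ∈ F, a ≤ B.2 ∧ B.2 < a + 20) :
    ∑ B ∈ F, ea l v B ≤ 450 / L * Nf (L * l) v (nb (L * l) B') := by
  obtain ⟨d0, d1, d2, d3, d4⟩ := rgthin_ar hL hl
  generalize l * (L / 8) = D at d0 d1 d3 d4
  have hl0 : 0 < l := by omega
  have l0 : (0 : ℝ) < l := by exact_mod_cast hl0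
  have L0 : (0 : ℝ) < L := by exact_mod_cast (by omega : 0 < L)
  have key (e : Fin 4) (he : e = 0 ∨ e = 1)
      (hk : ∀ y, ((range D).filter fun t => y - t • dir e ∈ under l F).card ≤ 20 * l) :
      ∑ B ∈ F, ea l v B ≤ 450 / L * Nf (L * l) v (nb (L * l) B') := by
    have h1 : ∑ B ∈ F, ea l v B ≤ ∑ x ∈ under l F, n1 v x :=
      rgthin_cells hl0 _ (k_n1_nonneg v) _ _ fun B hB => subset_biUnion_of_mem _ hB
    have h2 := rgthin_ray v e (under l F) (fat (L * l) (8 * l + D) B') (nb (L * l) B')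
      _ _ d0 (fun x hx t ht => by
        obtain ⟨B, b1, b2⟩ := mem_biUnion.1 hx
        have := k_mem_fat.1 (hF B b1 b2)
        rw [k_mem_fat]
        rcases he with rfl | rfl <;> simp [dir] at this ⊢ <;> omega) hk fun y hy o ho => by
        rw [nb, k_mem_fat]
        rw [k_mem_fat] at hy
        simp only [nine, mem_product, mem_Icc] at ho
        simp only [Prod.fst_add, Prod.snd_add]
        omega
    have h3 : ∑ y ∈ fat (L * l) (8 * l + D) B', n1 v y ≤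
        ∑ x ∈ nb (L * l) B', n1 v x := by
      refine sum_le_sum_of_subset_of_nonneg (fun y hy => ?_) fun _ _ _ => k_n1_nonneg _ _
      rw [nb, k_mem_fat]
      rw [k_mem_fat] at hy
      omega
    have e1 : 0 ≤ ∑ x ∈ nb (L * l) B', n1 v x := sum_nonneg fun _ _ => k_n1_nonneg _ _
    have e2 : 0 ≤ ∑ x ∈ nb (L * l) B', n2 v x := sum_nonneg fun _ _ => k_n2_nonneg _ _
    have h4 := rgthin_num (a := 40) (b := 720) L0 l0 d3 d4 (by norm_num) (by norm_num) e1 e2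
    refine h1.trans (h2.trans (le_trans ?_ (h4.trans (le_of_eq ?_))))
    · refine add_le_add (mul_le_mul (le_of_eq ?_) h3 (sum_nonneg fun _ _ => k_n1_nonneg _ _)
        (by positivity)) (le_of_eq ?_) <;> push_cast <;> ring
    · rw [Nf, sum_add_distrib, ← mul_sum]; push_cast; norm_num
  have hl' : (0 : ℤ) ≤ l := by positivity
  rcases h with h | h
  · refine key 0 (Or.inl rfl) fun y => rgthin_card _ _ (a * l) y.1 _ fun t ht => ?_
    obtain ⟨B, b1, b2⟩ := mem_biUnion.1 ht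
    have := (k_mem_cell.1 b2).1
    simp [dir] at this
    have := h B b1
    push_cast
    constructor <;> nlinarith
  · refine key 1 (Or.inr rfl) fun y => rgthin_card _ _ (a * l) y.2 _ fun t ht => ?_
    obtain ⟨B, b1, b2⟩ := mem_biUnion.1 ht
    have := (k_mem_cell.1 b2).2
    simp [dir] at this
    have := h B b1
    push_cast
    constructor <;> nlinarith

theorem rgthin_ea (l : ℕ) (v : Fld) (B : P) : 0 ≤ ea l v B := sum_nonneg fun _ _ => k_n1_nonneg _ _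
theorem rgthin_eb (l : ℕ) (v : Fld) (B : P) : 0 ≤ eb l v B :=
  mul_nonneg (by positivity) (sum_nonneg fun _ _ => k_n2_nonneg _ _)

theorem rgthin_en (l : ℕ) (v : Fld) (B : P) : ‖En v (cell l B)‖ ≤ ea l v B := by
  refine (norm_sum_le _ _).trans (sum_le_sum fun x _ => ?_)
  rw [norm_mul, n1]
  refine mul_le_mul (by simp) ((norm_sum_le _ _).trans (le_of_eq ?_)) (norm_nonneg _) (by norm_num)
  simp only [norm_pow]

/-- the blocks within 7 of the cell `B'` -/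
def rgthinF (L : ℕ) (B' : P) : Finset P :=
  Icc (B'.1 * L - 7) ((B'.1 + 1) * L + 7) ×ˢ Icc (B'.2 * L - 7) ((B'.2 + 1) * L + 7)

theorem rgthin_memF {L : ℕ} {B' B : P} : B ∈ rgthinF L B' ↔
    (B'.1 * L - 7 ≤ B.1 ∧ B.1 ≤ (B'.1 + 1) * L + 7) ∧
      B'.2 * L - 7 ≤ B.2 ∧ B.2 ≤ (B'.2 + 1) * L + 7 := by
  simp only [rgthinF, mem_product, mem_Icc]

theorem rgthin_sub {L l : ℕ} {B' B : P} (h : B ∈ rgthinF L B') :
    cell l B ⊆ fat (L * l) (8 * l) B' := by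
  intro x hx
  rw [rgthin_memF] at h
  rw [k_mem_cell] at hx
  rw [k_mem_fat]
  have hl' : (0 : ℤ) ≤ l := by positivity
  push_cast
  refine ⟨⟨?_, ?_⟩, ?_, ?_⟩ <;>
    nlinarith [hx.1.1, hx.1.2, hx.2.1, hx.2.2, h.1.1, h.1.2, h.2.1, h.2.2]

theorem rgthin_all {L l : ℕ} (hL : 1000 ≤ L) (hl : 100 ≤ l) (v : Fld) (B' : P) {F : Finset P}
    (hF : F ⊆ rgthinF L B') :
    ∑ B ∈ F, (ea l v B + eb l v B) ≤ Nf (L * l) v (nb (L * l) B') ∧
      ∑ B ∈ F, eb l v B ≤ 1 / (L : ℝ) ^ 2 * Nf (L * l) v (nb (L * l) B') := by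
  obtain ⟨d0, d1, -⟩ := rgthin_ar hL hl
  have hs : ∀ B ∈ F, cell l B ⊆ nb (L * l) B' := fun B hB x hx => by
    have := k_mem_fat.1 (rgthin_sub (hF hB) hx)
    rw [nb, k_mem_fat]
    omega
  have h1 := rgthin_cells (by omega) _ (k_n1_nonneg v) _ _ hs
  have h2 := rgthin_cells (by omega) _ (k_n2_nonneg v) _ _ hs
  have e1 : 0 ≤ ∑ x ∈ nb (L * l) B', n1 v x := sum_nonneg fun _ _ => k_n1_nonneg _ _
  have e2 : 0 ≤ ∑ x ∈ nb (L * l) B', n2 v x := sum_nonneg fun _ _ => k_n2_nonneg _ _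
  have L1 : (1 : ℝ) ≤ L := by exact_mod_cast (by omega : 1 ≤ L)
  have h3 := mul_le_mul_of_nonneg_left h2 (sq_nonneg (l : ℝ))
  have h4 : (l : ℝ) ^ 2 * ∑ x ∈ nb (L * l) B', n2 v x ≤
      (L * l) ^ 2 * ∑ x ∈ nb (L * l) B', n2 v x := by
    gcongr
    exact le_mul_of_one_le_left (by positivity) L1
  rw [Nf, sum_add_distrib, sum_add_distrib, ← mul_sum]
  simp only [ea, eb, ← mul_sum]
  push_cast
  refine ⟨by linarith, ?_⟩
  have : 1 / (L : ℝ) ^ 2 * ((L * l) ^ 2 * ∑ x ∈ nb (L * l) B', n2 v x) =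
      l ^ 2 * ∑ x ∈ nb (L * l) B', n2 v x := by field_simp
  have h5 : 0 ≤ 1 / (L : ℝ) ^ 2 * ∑ x ∈ nb (L * l) B', n1 v x := by positivity
  rw [mul_add, this]
  linarith

/-- a family inside four columns or rows -/
theorem rgthin_four {L l : ℕ} (hL : 1000 ≤ L) (hl : 100 ≤ l) (v : Fld) (B' : P) {F : Finset P}
    (hF : F ⊆ rgthinF L B') (p q r s : P → Prop) (h : ∀ B ∈ F, p B ∨ q B ∨ r B ∨ s B)
    (H : ∀ u : P → Prop, u = p ∨ u = q ∨ u = r ∨ u = s → ∃ a : ℤ,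
      (∀ B, u B → a ≤ B.1 ∧ B.1 < a + 20) ∨ ∀ B, u B → a ≤ B.2 ∧ B.2 < a + 20) :
    ∑ B ∈ F, ea l v B ≤ 1800 / L * Nf (L * l) v (nb (L * l) B') := by
  have key (u : P → Prop) (hu : u = p ∨ u = q ∨ u = r ∨ u = s) :
      ∑ B ∈ F, (if u B then ea l v B else 0) ≤ 450 / L * Nf (L * l) v (nb (L * l) B') := by
    obtain ⟨a, ha⟩ := H u hu
    rw [← sum_filter]
    exact rgthin_strip hL hl v B' _ (fun B hB => rgthin_sub (hF (mem_filter.1 hB).1)) a
      (ha.imp (fun h B hB => h B (mem_filter.1 hB).2) fun h B hB => h B (mem_filter.1 hB).2)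
  have := add_le_add (add_le_add (key p (by simp)) (key q (by simp)))
    (add_le_add (key r (by simp)) (key s (by simp)))
  rw [← sum_add_distrib, ← sum_add_distrib, ← sum_add_distrib] at this
  refine le_trans (sum_le_sum fun B hB => ?_) (this.trans (le_of_eq (by ring)))
  have e := rgthin_ea l v B
  rcases h B hB with h | h | h | h <;> rw [if_pos h] <;> split_ifs <;> linarith

end Pool.Agent.Lib.MP_9cc147_pr.Cx
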