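import Pool.Agent.Lib.MP_9cc147_pr.Cx.Rg.Env
import Pool.Agent.Lib.MP_9cc147_pr.Cx.Rg.Ray
import Pool.Agent.Lib.MP_9cc147_pr.Cx.Rg.Thin
import Pool.Agent.Lib.MP_9cc147_pr.Cx.Rg.Cut
import Pool.Agent.Lib.MP_9cc147_pr.Cx.Rg.Reg
import Pool.Agent.Lib.MP_9cc147_pr.Cx.Rg.Osc
import Pool.Agent.Lib.MP_9cc147_pr.Cx.Rg.Sch
import Pool.Agent.Lib.MP_9cc147_pr.Cx.Rg.Str
import Pool.Agent.Lib.MP_9cc147_pr.Cx.Rg.Qz
import Pool.Agent.Lib.MP_9cc147_pr.Cx.Rg.G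
import Pool.Agent.Lib.MP_9cc147_pr.Cx.Rg.Side
import Pool.Agent.Lib.MP_9cc147_pr.Cx.Rg.Deep
import Pool.Agent.Lib.MP_9cc147_pr.Cx.Rg.Fb
import Pool.Agent.Lib.MP_9cc147_pr.Cx.Rg.Blk
import Pool.Agent.Lib.MP_9cc147_pr.Cx.Rg.Lin
import Pool.Agent.Lib.MP_9cc147_pr.Cx.Rg.Iso
import Pool.Agent.Lib.MP_9cc147_pr.Cx.Rg.Lw
import Pool.Agent.Lib.MP_9cc147_pr.Cx.Rg.Dat
import Pool.Agent.Lib.MP_9cc147_pr.Cx.Rg.Mul
import Pool.Agent.Lib.MP_9cc147_pr.Cx.Rg.One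
import Pool.Agent.Lib.MP_9cc147_pr.Cx.Rg.Asm
import Pool.Agent.Lib.MP_9cc147_pr.Cx.T.Hol

/-! The contraction estimate of one renormalisation step. -/

namespace Pool.Agent.Lib.MP_9cc147_pr.Cx

theorem t_k0 (h_u : S_u) (h_one : S_one) (h_cnt : S_cnt) (h_zel : S_zel) (h_ziso : S_ziso)
    (h_zmom : S_zmom) : S_k0 := by
  have reg := t_rg_reg (t_rg_out t_rg_ray) t_rg_cut
  have qz := t_rg_qz h_zel
  have g := t_rg_g h_zel t_T_hol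
  have dif := t_rg_dif g t_rg_sm t_rg_str
  have fb := t_rg_fb t_rg_sch t_rg_sm
  have blk := t_rg_blk (t_rg_side t_rg_osc t_rg_sch t_rg_str)
    (t_rg_deep t_rg_osc t_rg_sch t_rg_str t_rg_sm) fb t_rg_aff t_rg_sm qz
  have blo := t_rg_blo qz t_rg_str h_zel
  have dat := t_rg_dat (t_rg_lw h_one reg) blo h_one
  exact rgk_k0 h_one (t_rg_env h_u h_zmom h_cnt) qz g dif t_rg_sm t_rg_str
    (t_rg_lin blk (t_rg_thin t_rg_ray) t_rg_str qz t_rg_sm) (t_rg_iso h_zel h_ziso)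
    (t_rg_sz dif fb qz) t_rg_y dat t_rg_k0e (t_rg_mul h_one dat t_rg_y t_rg_sch)
    (t_rg_one h_one blo reg t_rg_sm t_rg_y dat)

end Pool.Agent.Lib.MP_9cc147_pr.Cx
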